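import Mathlib
import Pool.Agent.Lib.MP_8f66f0_al_HierZ.FinalD

/-! The definitions which are used in the final theorem: elementary amenable groups and the class
of groups. (The definitions of `IsEuc`, `K1Units`, `NN`, `Red`, `RedH`, `SmallStab` are in
`HierZ/FinalD`.) -/

set_option autoImplicit false

namespace Pool.Agent.WhVan

/-- Elementary amenable groups: the least class of groups which contains all finite and all abelian
groups and is closed under subgroups, quotients, extensions and directed unions. -/
inductive EA : (G : Type) → [Group G] → Prop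
  | fin {G : Type} [Group G] : Finite G → EA G
  | ab {G : Type} [Group G] : (∀ x y : G, x * y = y * x) → EA G
  | sub {G H : Type} [Group G] [Group H] (f : H →* G) : Function.Injective f → EA G → EA H
  | quot {G H : Type} [Group G] [Group H] (f : G →* H) : Function.Surjective f → EA G → EA H
  | ext {G : Type} [Group G] (N : Subgroup G) [N.Normal] : EA N → EA (G ⧸ N) → EA G
  | directed {G : Type} [Group G] (S : Set (Subgroup G)) : S.Nonempty →
      DirectedOn (· ≤ ·) S → (∀ g : G, ∃ K ∈ S, g ∈ K) → (∀ K ∈ S, EA K) → EA G

/-- The least class of groups which contains all groups `Γ` such that `K_1(LΓ)` is generated by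
the units of `L` and the elements of `Γ` for all Euclidean domains `L` (for example the trivial
group), and is closed under

* directed colimits with arbitrary structure maps;
* those amalgams `G₀ *_E G₁` and HNN extensions `G *_A` of groups of the class for which the edge
  group `E` (or `A`) is in the class and, for some `k`, the stabilizers of all reduced paths with
  `k + 1` edges in the Bass-Serre tree are contained in subgroups which belong to `NN`;
* elementary amenable quotients: if `θ` is a homomorphism from `Γ` to an elementary amenable group,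
  and all subgroups `U` of `Γ` with finite image `θ(U)` are in the class and in `NN`, then `Γ` is
  in the class. (If `Γ` is a torsion-free elementary amenable group, take `θ = id`: only `U = 1`
  has finite image.) -/
inductive CE : (Γ : Type) → [Group Γ] → Prop
  | base {Γ : Type} [Group Γ] : (∀ (L : Type) [CommRing L] [IsDomain L], IsEuc L →
      K1Units L Γ) → CE Γ
  | colim {Γ : Type} [Group Γ] {ι : Type} [Preorder ι] [IsDirectedOrder ι] [Nonempty ι]
      (H : ι → Type) [∀ i, Group (H i)] (t : ∀ i j, i ≤ j → H i →* H j) (f : ∀ i, H i →* Γ) :
      (∀ i j (h : i ≤ j) x, f j (t i j h x) = f i x) →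
      (∀ i j k (h : i ≤ j) (h' : j ≤ k) x, t j k h' (t i j h x) = t i k (h.trans h') x) →
      (∀ g : Γ, ∃ i, ∃ x, f i x = g) → (∀ i x, f i x = 1 → ∃ j, ∃ h : i ≤ j, t i j h x = 1) →
      (∀ i, CE (H i)) → CE Γ
  | amalgam (G : Bool → Type) [∀ i, Group (G i)] (E : Type) [Group E] (φ : ∀ i, E →* G i)
      (k : ℕ) : (∀ i, Function.Injective (φ i)) → (∀ i, CE (G i)) → CE E →
      (∀ i w, Red φ k i w → SmallStab (Monoid.PushoutI.base φ).range w) → CE (Monoid.PushoutI φ)
  | hnn (G : Type) [Group G] (A B : Subgroup G) (φ : A ≃* B) (k : ℕ) : CE G → CE A →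
      (∀ i w, RedH φ k i w → SmallStab ((HNNExtension.of (φ := φ)).comp B.subtype).range w) →
      CE (HNNExtension G A B φ)
  | amen {Γ Q : Type} [Group Γ] [Group Q] (θ : Γ →* Q) : EA Q →
      (∀ U : Subgroup Γ, Finite (U.map θ) → CE U) →
      (∀ U : Subgroup Γ, Finite (U.map θ) → NN U) → CE Γ

end Pool.Agent.WhVan
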