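import Pool.Agent.Lib.MP_8f66f0_al_FH.ASpec

/-! The assembly for two nets. -/

set_option autoImplicit false

namespace Pool.Agent.FH

open Pool.Agent.Wald Pool.Agent.WaldL Pool.Agent.Ind Filter

@[reducible] private def Asm_triv (G X : Type) [Group G] : MulAction G X where
  smul _ x := x
  one_smul _ := rfl
  mul_smul _ _ _ := rfl

section

variable {L G K : Type} [CommRing L] [Group G] [CommGroup K] (κ : K1Fun (MonoidAlgebra L G) K)
  {n : Type} [Fintype n] [DecidableEq n] (a : Matrix n n (MonoidAlgebra L G))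

private theorem Asm_iso (h2 : S_twSum) (ha : IsUnit a) (X X₁ : Type) [MulAction G X] [Fintype X]
    [DecidableEq X] [MulAction G X₁] [Fintype X₁] [DecidableEq X₁] (e : X₁ ≃ X)
    (he : ∀ (g : G) (x : X₁), e (g • x) = g • e x) : κ.f (tw X a) = κ.f (tw X₁ a) := by
  let _ := Asm_triv G Empty
  have h3 := h2 L G Empty Empty Empty K (Equiv.equivOfIsEmpty _ _) (fun _ x => x.elim)
    (fun _ x => x.elim) κ n a ha
  have h4 : κ.f (tw Empty a) = 1 := by
    rw [left_eq_mul] at h3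
    exact h3
  have h5 := h2 L G X X₁ Empty K ((Equiv.sumEmpty X₁ Empty).trans e) (fun g x => he g x)
    (fun _ x => x.elim) κ n a ha
  rw [h5, h4, mul_one]

/-- The product with a disjoint union. -/
private theorem Asm_sum (h2 : S_twSum) (ha : IsUnit a) (S H Y : Type) [MulAction G S] [Fintype S]
    [DecidableEq S] [MulAction G H] [Fintype H] [DecidableEq H] [MulAction G Y] [Fintype Y]
    [DecidableEq Y] : κ.f (tw ((S ⊕ H) × Y) a) = κ.f (tw (S × Y) a) * κ.f (tw (H × Y) a) :=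
  h2 L G ((S ⊕ H) × Y) (S × Y) (H × Y) K (Equiv.sumProdDistrib S H Y).symm
    (fun _ _ => rfl) (fun _ _ => rfl) κ n a ha

private def Asm_e (C Y : Type) : Y ⊕ (C × Y) ≃ Option C × Y where
  toFun x := Sum.elim (fun y => (none, y)) (fun z => (some z.1, z.2)) x
  invFun x := x.1.elim (Sum.inl x.2) (fun c => Sum.inr (c, x.2))
  left_inv x := by rcases x with y | ⟨c, y⟩ <;> rfl
  right_inv x := by rcases x with ⟨_ | c, y⟩ <;> rfl

private theorem Asm_opt (h2 : S_twSum) (ha : IsUnit a) (C Y : Type) [MulAction G C] [Fintype C]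
    [DecidableEq C] [MulAction G Y] [Fintype Y] [DecidableEq Y] :
    κ.f (tw (Option C × Y) a) = κ.f (tw Y a) * κ.f (tw (C × Y) a) :=
  h2 L G (Option C × Y) Y (C × Y) K (Asm_e C Y) (fun _ _ => rfl) (fun _ _ => rfl) κ n a ha

/-- The product with a point. -/
private theorem Asm_pt (h2 : S_twSum) (ha : IsUnit a) (X : Type) [MulAction G X] [Fintype X]
    [DecidableEq X] (h : ∀ (Y : Type) [MulAction G Y] [Fintype Y] [DecidableEq Y],
      κ.f (tw (X × Y) a) = 1) : κ.f (tw X a) = 1 := by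
  let _ := Asm_triv G Unit
  rw [Asm_iso κ a h2 ha X (X × Unit) (Equiv.prodPUnit X) (fun _ _ => rfl)]
  exact h Unit

private theorem Asm_sum1 (h2 : S_twSum) (ha : IsUnit a) (S H : Type) [MulAction G S] [Fintype S]
    [DecidableEq S] [MulAction G H] [Fintype H] [DecidableEq H] :
    κ.f (tw (S ⊕ H) a) = κ.f (tw S a) * κ.f (tw H a) :=
  h2 L G (S ⊕ H) S H K (Equiv.refl _) (fun _ _ => rfl) (fun _ _ => rfl) κ n a ha

private theorem Asm_opt1 (h1 : S_twPt) (h2 : S_twSum) (ha : IsUnit a) (C : Type) [MulAction G C]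
    [Fintype C] [DecidableEq C] : κ.f (tw (Option C) a) = κ.f a * κ.f (tw C a) := by
  let _ := Asm_triv G Unit
  have h3 := h2 L G (Option C) Unit C K
    ((Equiv.sumComm Unit C).trans (Equiv.optionEquivSumPUnit C).symm) (fun _ _ => rfl)
    (fun _ _ => rfl) κ n a ha
  rw [h3, h1 L G Unit K κ n a ha ⟨(), fun _ => rfl⟩]

end

theorem asm (h1 : S_twPt) (h2 : S_twSum) (h3 : S_radon) (h4 : S_twTwo) : S_asm := by
  intro L G K _ _ _ κ n _ _ a ha P p w S H C _ _ _ _ _ _ _ _ _ N hp hP hco hπ hi hS hH hC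
  obtain ⟨f, f', a1, a2, a3⟩ := h3 (P 0) (p 0) (w 0) (hp 0) (hP 0) (S 0) (H 0) (C 0) (N 0)
  obtain ⟨g, g', b1, b2, b3⟩ := h3 (P 1) (p 1) (w 1) (hp 1) (hP 1) (S 1) (H 1) (C 1) (N 1)
  obtain ⟨a4, a5⟩ := a3 G (hπ 0) (hi 0)
  obtain ⟨b4, b5⟩ := b3 G (hπ 1) (hi 1)
  have hc : IsCoprime ((P 0 : ℕ) : ℤ) ((P 1 : ℕ) : ℤ) := Nat.isCoprime_iff_coprime.2 hco
  have key := h4 L G K (S 0 ⊕ H 0) (Option (C 0)) (S 1 ⊕ H 1) (Option (C 1)) (P 0) (P 1)
    f f' g g' hc a1 a2 b1 b2 a4 a5 b4 b5 κ n a ha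
  rw [Asm_sum κ a h2 ha, Asm_sum κ a h2 ha, Asm_opt κ a h2 ha, Asm_opt κ a h2 ha,
    Asm_opt1 κ a h1 h2 ha, Asm_sum1 κ a h2 ha, hS 0, hS 0, hH 0, hH 0, hC 0, hC 0,
    Asm_pt κ a h2 ha (C 1) (hC 1), Asm_pt κ a h2 ha (S 1) (hS 1),
    Asm_pt κ a h2 ha (H 1) (hH 1)] at key
  simpa using key

end Pool.Agent.FH
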