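import Pool.Agent.Lib.MP_8f66f0_al_FH.ASpec

/-! The translations modulo `p` form a subspace, invariant under the permutations. -/

set_option autoImplicit false

namespace Pool.Agent.FH

private lemma ERep_one {G : Type} [Group G] {ι : Type} (A : Aff G ι) (i : ι) : A.v 1 i = 0 := by
  have h := A.mul 1 1 i
  simp at h
  exact h

private lemma ERep_pow {G : Type} [Group G] {ι : Type} (A : Aff G ι) (g : G) (hg : A.sg g = 1)
    (k : ℕ) (i : ι) : A.v (g ^ k) i = k * A.v g i := by
  induction k with
  | zero => simp [ERep_one]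
  | succ k ih =>
    have h := A.mul (g ^ k) g i
    rw [← pow_succ] at h
    rw [h, ih]
    simp [hg]
    ring

private lemma ERep_conj {G : Type} [Group G] {ι : Type} (A : Aff G ι) (g h : G)
    (hh : A.sg h = 1) (i : ι) : A.v (g * h * g⁻¹) i = A.v h ((A.sg g)⁻¹ i) := by
  have h1 := A.mul (g * h) g⁻¹ i
  have h2 := A.mul g h i
  have h3 := A.mul g g⁻¹ i
  rw [mul_inv_cancel, ERep_one] at h3
  rw [map_mul, hh, mul_one] at h1
  rw [h1, h2]
  linarith

private lemma ERep_le {G : Type} [Group G] {ι : Type} (A : Aff G ι) (p : ℕ) (g : G) :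
    (A.E p).map (pm (ZMod p) (A.sg g)) ≤ A.E p := by
  unfold Aff.E
  rw [Submodule.map_span_le]
  rintro x ⟨h, hh, rfl⟩
  refine Submodule.subset_span ⟨g * h * g⁻¹, by simp [hh], ?_⟩
  funext i
  rw [ERep_conj A g h hh i]
  simp [pm, LinearMap.funLeft_apply]

theorem eRep : S_E := by
  intro G _ ι _ A p _
  refine ⟨?_, ?_⟩
  · intro x hx
    unfold Aff.E at hx
    induction hx using Submodule.span_induction with
    | mem x h => exact h
    | zero => exact ⟨1, by simp, by funext i; simp [ERep_one]⟩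
    | add x y _ _ hx hy =>
      obtain ⟨g, hg, rfl⟩ := hx
      obtain ⟨h, hh, rfl⟩ := hy
      refine ⟨g * h, by simp [hg, hh], ?_⟩
      funext i
      rw [A.mul g h i]
      simp [hg]
    | smul c x _ hx =>
      obtain ⟨g, hg, rfl⟩ := hx
      refine ⟨g ^ c.val, by simp [hg], ?_⟩
      funext i
      rw [ERep_pow A g hg]
      simp
  · intro g
    refine le_antisymm (ERep_le A p g) ?_
    have h1 := Submodule.map_mono (f := pm (ZMod p) (A.sg g)) (ERep_le A p g⁻¹)
    refine le_trans ?_ h1
    intro x hx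
    refine ⟨pm (ZMod p) (A.sg g⁻¹) x, ⟨x, hx, rfl⟩, ?_⟩
    funext i
    simp [pm, LinearMap.funLeft_apply]

end Pool.Agent.FH
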