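import Mathlib
import Pool.Agent.Lib.MP_8f66f0_al_Tree.SpecE
import Pool.Agent.Lib.MP_8f66f0_al_Tree.Basic

/-! Groups with a homomorphism to the infinite dihedral group: actions on the line. -/

set_option autoImplicit false

namespace Pool.Agent.FH

open Pool.Agent.TreeC Pointwise

/-- The half lines. -/
private def HL : Set (Set ℤ) := {h | ∃ k : ℤ, h = Set.Ici k ∨ h = Set.Iio k}

section Act

variable {G : Type} [Group G] (m : G → ℤ) (χ : G →* ℤˣ)
  (hm : ∀ g h, m (g * h) = m g + (χ g : ℤ) * m h)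

/-- The action on the line, subdivided once. -/
private abbrev dact : MulAction G ℤ where
  smul g n := 2 * m g + (χ g : ℤ) * n
  one_smul n := by
    have h := hm 1 1
    rw [mul_one, map_one, Units.val_one, one_mul] at h
    have h0 : m 1 = 0 := by omega
    change 2 * m 1 + ((χ 1 : ℤˣ) : ℤ) * n = n
    rw [h0, map_one, Units.val_one, one_mul, mul_zero, zero_add]
  mul_smul a b n := by
    change 2 * m (a * b) + ((χ (a * b) : ℤˣ) : ℤ) * n =
      2 * m a + (χ a : ℤ) * (2 * m b + (χ b : ℤ) * n)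
    rw [hm, map_mul, Units.val_mul]
    ring

private theorem chi_cases (g : G) : ((χ g : ℤˣ) : ℤ) = 1 ∨ ((χ g : ℤˣ) : ℤ) = -1 := by
  rcases Int.units_eq_one_or (χ g) with h | h
  · left
    rw [h, Units.val_one]
  · right
    rw [h, Units.val_neg, Units.val_one]

private theorem mem_smul (g : G) (h : Set ℤ) (n : ℤ) :
    letI := dact m χ hm
    2 * m g + (χ g : ℤ) * n ∈ g • h ↔ n ∈ h := by
  letI := dact m χ hm
  exact Set.smul_mem_smul_set_iff (a := g) (x := n)

private theorem smul_Ici (g : G) (k : ℤ) :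
    letI := dact m χ hm
    (((χ g : ℤˣ) : ℤ) = 1 ∧ g • Set.Ici k = Set.Ici (2 * m g + k)) ∨
      (((χ g : ℤˣ) : ℤ) = -1 ∧ g • Set.Ici k = Set.Iio (2 * m g - k + 1)) := by
  letI := dact m χ hm
  rcases chi_cases χ g with h | h
  · left
    refine ⟨h, ?_⟩
    ext n
    have h1 := mem_smul m χ hm g (Set.Ici k) (n - 2 * m g)
    rw [h] at h1
    have h2 : 2 * m g + 1 * (n - 2 * m g) = n := by ring
    rw [h2] at h1
    rw [h1, Set.mem_Ici, Set.mem_Ici]
    constructor <;> intro h <;> omega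
  · right
    refine ⟨h, ?_⟩
    ext n
    have h1 := mem_smul m χ hm g (Set.Ici k) (2 * m g - n)
    rw [h] at h1
    have h2 : 2 * m g + -1 * (2 * m g - n) = n := by ring
    rw [h2] at h1
    rw [h1, Set.mem_Ici, Set.mem_Iio]
    constructor <;> intro h <;> omega

private theorem smul_Iio (g : G) (k : ℤ) :
    letI := dact m χ hm
    (((χ g : ℤˣ) : ℤ) = 1 ∧ g • Set.Iio k = Set.Iio (2 * m g + k)) ∨
      (((χ g : ℤˣ) : ℤ) = -1 ∧ g • Set.Iio k = Set.Ici (2 * m g - k + 1)) := by
  letI := dact m χ hm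
  have h0 : (Set.Iio k : Set ℤ) = (Set.Ici k)ᶜ := Set.compl_Ici.symm
  rcases smul_Ici m χ hm g k with ⟨h, h1⟩ | ⟨h, h1⟩
  · refine Or.inl ⟨h, ?_⟩
    rw [h0, Set.smul_set_compl, h1, Set.compl_Ici]
  · refine Or.inr ⟨h, ?_⟩
    rw [h0, Set.smul_set_compl, h1, Set.compl_Iio]

private theorem Ici_ne_Iio (a b : ℤ) : Set.Ici a ≠ Set.Iio b := by
  intro h
  have h1 : max a b ∈ Set.Ici a := Set.mem_Ici.2 (le_max_left a b)
  rw [h, Set.mem_Iio] at h1
  exact absurd (le_max_right a b) (not_le.2 h1)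

private theorem cut_line : @CutSys G ℤ _ (dact m χ hm) HL := by
  letI := dact m χ hm
  refine ⟨?_, ?_, ?_, ?_, ?_, ?_⟩
  · rintro h ⟨k, rfl | rfl⟩
    · exact ⟨k, Or.inr (Set.compl_Ici)⟩
    · exact ⟨k, Or.inl (Set.compl_Iio)⟩
  · rintro g h ⟨k, rfl | rfl⟩
    · rcases smul_Ici m χ hm g k with ⟨_, h1⟩ | ⟨_, h1⟩
      · exact ⟨_, Or.inl h1⟩
      · exact ⟨_, Or.inr h1⟩
    · rcases smul_Iio m χ hm g k with ⟨_, h1⟩ | ⟨_, h1⟩
      · exact ⟨_, Or.inr h1⟩
      · exact ⟨_, Or.inl h1⟩
  · rintro h ⟨k, rfl | rfl⟩ l ⟨m, rfl | rfl⟩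
    · rcases le_total k m with h | h
      · right; right; right
        rw [Set.compl_Ici, Set.compl_Ici]
        exact Set.Iio_subset_Iio h
      · left
        exact Set.Ici_subset_Ici.2 h
    · rcases le_total k m with h | h
      · right; right; left
        rw [Set.compl_Ici]
        exact Set.Iio_subset_Iio h
      · right; left
        rw [Set.compl_Iio]
        exact Set.Ici_subset_Ici.2 h
    · rcases le_total k m with h | h
      · right; left
        rw [Set.compl_Ici]
        exact Set.Iio_subset_Iio h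
      · right; right; left
        rw [Set.compl_Iio]
        exact Set.Ici_subset_Ici.2 h
    · rcases le_total k m with h | h
      · left
        exact Set.Iio_subset_Iio h
      · right; right; right
        rw [Set.compl_Iio, Set.compl_Iio]
        exact Set.Ici_subset_Ici.2 h
  · intro x y
    refine (((Set.finite_Icc (min x y) (max x y)).image Set.Ici).union
      ((Set.finite_Icc (min x y) (max x y)).image Set.Iio)).subset ?_
    rintro h ⟨⟨k, rfl | rfl⟩, hx, hy⟩
    · left
      rw [Set.mem_Ici] at hx hy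
      refine ⟨k, Set.mem_Icc.2 ⟨?_, ?_⟩, rfl⟩ <;> omega
    · right
      rw [Set.mem_Iio] at hx hy
      refine ⟨k, Set.mem_Icc.2 ⟨?_, ?_⟩, rfl⟩ <;> omega
  · rintro g h ⟨k, rfl | rfl⟩
    · rcases smul_Ici m χ hm g k with ⟨_, h1⟩ | ⟨_, h1⟩
      · rw [h1, Set.compl_Ici]
        exact Ici_ne_Iio _ _
      · rw [h1, Set.compl_Ici]
        intro h2
        have h3 := Set.Iio_injective h2
        omega
    · rcases smul_Iio m χ hm g k with ⟨_, h1⟩ | ⟨_, h1⟩
      · rw [h1, Set.compl_Iio]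
        exact (Ici_ne_Iio _ _).symm
      · rw [h1, Set.compl_Iio]
        intro h2
        have h3 := Set.Ici_injective h2
        omega
  · rintro h ⟨k, rfl | rfl⟩
    · refine ⟨k, k - 1, Set.mem_Ici.2 le_rfl, fun h => ?_, ?_⟩
      · rw [Set.mem_Ici] at h
        omega
      · rintro l ⟨m, rfl | rfl⟩ h1 h2
        · rw [Set.mem_Ici] at h1 h2
          have : m = k := by omega
          rw [this]
        · rw [Set.mem_Iio] at h1 h2
          omega
    · refine ⟨k - 1, k, Set.mem_Iio.2 (by omega), fun h => ?_, ?_⟩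
      · rw [Set.mem_Iio] at h
        omega
      · rintro l ⟨m, rfl | rfl⟩ h1 h2
        · rw [Set.mem_Ici] at h1 h2
          omega
        · rw [Set.mem_Iio] at h1 h2
          have : m = k := by omega
          rw [this]

private theorem stV_line (x : ℤ) (g : G) :
    g ∈ @stV G ℤ _ (dact m χ hm) HL (cut_line m χ hm) x → 2 * m g + (χ g : ℤ) * x = x := by
  letI := dact m χ hm
  rw [mem_stV]
  intro h
  have h1 := (h (Set.Ici x) ⟨x, Or.inl rfl⟩).2 (Set.mem_Ici.2 le_rfl)
  have h2 := (h (Set.Iio (x + 1)) ⟨x + 1, Or.inr rfl⟩).2 (Set.mem_Iio.2 (by omega))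
  change x ≤ 2 * m g + (χ g : ℤ) * x at h1
  change 2 * m g + (χ g : ℤ) * x < x + 1 at h2
  omega

private theorem stE_line {h : Set ℤ} (hh : h ∈ HL) (g : G) :
    g ∈ @stE G ℤ _ (dact m χ hm) h → m g = 0 := by
  letI := dact m χ hm
  rw [MulAction.mem_stabilizer_iff]
  obtain ⟨k, rfl | rfl⟩ := hh
  · intro h
    rcases smul_Ici m χ hm g k with ⟨_, h1⟩ | ⟨_, h1⟩
    · rw [h1] at h
      have h2 := Set.Ici_injective h
      omega
    · rw [h1] at h
      exact absurd h.symm (Ici_ne_Iio _ _)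
  · intro h
    rcases smul_Iio m χ hm g k with ⟨_, h1⟩ | ⟨_, h1⟩
    · rw [h1] at h
      have h2 := Set.Iio_injective h
      omega
    · rw [h1] at h
      exact absurd h (Ici_ne_Iio _ _)

end Act

/-- A homomorphism `g ↦ (m g, χ g)` to the group `ℤ ⋊ {±1}`: if the subgroups on which `m` is
bounded belong to a class which is closed under actions on trees, then the group belongs to the
class. -/
theorem case_a {P : (G : Type) → [Group G] → Prop} (hP : TCl P) {G : Type} [Group G]
    (m : G → ℤ) (χ : G →* ℤˣ) (hm : ∀ g h, m (g * h) = m g + (χ g : ℤ) * m h)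
    (h : ∀ U : Subgroup G, (∃ c : ℤ, ∀ g ∈ U, |m g| ≤ c) → P U) : P G := by
  letI := dact m χ hm
  refine hP.tree G ℤ HL (cut_line m χ hm) (fun x => ?_) (fun k hk => ?_)
  · refine h _ ⟨|x|, fun g hg => ?_⟩
    have h1 := stV_line m χ hm x g hg
    rcases chi_cases χ g with h2 | h2
    · rw [h2] at h1
      have h3 : m g = 0 := by omega
      rw [h3, abs_zero]
      exact abs_nonneg x
    · rw [h2] at h1
      have h3 : m g = x := by omega
      rw [h3]
  · refine h _ ⟨0, fun g hg => ?_⟩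
    rw [stE_line m χ hm hk g hg, abs_zero]

end Pool.Agent.FH
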