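import Mathlib
import Pool.Agent.Lib.MP_8f66f0_al_FH.CaseA
import Pool.Agent.Lib.MP_8f66f0_al_Tree.Closed
import Pool.Agent.Lib.MP_8f66f0_al_Tree.Restr
import Pool.Agent.Lib.MP_8f66f0_al_Tree.Fin
import Pool.Agent.Lib.MP_8f66f0_al_Tree.Am
import Pool.Agent.Lib.MP_8f66f0_al_Tree.Hnn
import Pool.Agent.Lib.MP_8f66f0_al_Tree.Tree

/-! The class of the groups with `KK` and `SS` is closed under actions on trees. -/

set_option autoImplicit false

namespace Pool.Agent.FH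

open Pool.Agent.TreeC Pool.Agent.Hier Pool.Agent.WaldL Pool.Agent.WaldP Pool.Agent.Ind

theorem ks_triv (G : Type) [Group G] [Subsingleton G] : KS G :=
  ⟨fun _ _ _ hL => whTL_one hL G, ss_triv G⟩

theorem ks_iso {G G' : Type} [Group G] [Group G'] (e : G ≃* G') (h : KS G) : KS G' :=
  closed.isoP G G' e h

theorem ks_directed {G : Type} [Group G] (S : Set (Subgroup G)) (hne : S.Nonempty)
    (hd : DirectedOn (· ≤ ·) S) (hS : ∀ g : G, ∃ K ∈ S, g ∈ K) (h : ∀ K ∈ S, KS K) : KS G :=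
  closed.directed G S hne hd hS h

theorem ks_tree {G V : Type} [Group G] [MulAction G V] [Nonempty V] (𝓗 : Set (Set V))
    (hH : CutSys G V 𝓗) (h1 : ∀ x : V, KS (stV G hH x)) (h2 : ∀ h ∈ 𝓗, KS (stE G h)) : KS G :=
  tree restr (TreeC.fin am hnn restr) KS KS closed G V 𝓗 hH h1 h2

theorem tcl_ks : TCl KS where
  triv := fun G _ _ => ks_triv G
  iso := fun _ _ _ _ e h => ks_iso e h
  directed := fun _ _ S hne hd hS h => ks_directed S hne hd hS h
  tree := fun _ _ _ _ _ 𝓗 hH h1 h2 => ks_tree 𝓗 hH h1 h2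

/-- Case A: a homomorphism `g ↦ (m g, χ g)` to the group `ℤ ⋊ {±1}`. -/
theorem ks_case_a {G : Type} [Group G] (m : G → ℤ) (χ : G →* ℤˣ)
    (hm : ∀ g h, m (g * h) = m g + (χ g : ℤ) * m h)
    (h : ∀ U : Subgroup G, (∃ c : ℤ, ∀ g ∈ U, |m g| ≤ c) → KS U) : KS G :=
  case_a tcl_ks m χ hm h

end Pool.Agent.FH
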