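import Pool.Agent.Lib.MP_8f66f0_al_FH.ASpec
import Pool.Agent.Lib.MP_8f66f0_al_FH.KSTree

/-! Theorem FH: the induction on the rank of the group of translations and the order of the group
of permutations. -/

set_option autoImplicit false

namespace Pool.Agent.FH

open Pool.Agent.Wald Pool.Agent.WaldL Pool.Agent.Ind Pool.Agent.TreeC Pool.Agent.Hier Filter

private theorem FH_one : S_One := fun _ _ _ hL G _ _ => whTL_one hL G

section

variable {G : Type} [Group G] {ι : Type}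

private theorem FH_kk_sub (U : Subgroup G) (V : Subgroup U) (h : KK (V.map U.subtype)) : KK V :=
  kk_iso FH_one (V.equivMapOfInjective U.subtype U.subtype_injective).symm h

private theorem FH_ss_sub (U : Subgroup G) (V : Subgroup U) (h : SS (V.map U.subtype)) : SS V :=
  ss_iso (V.equivMapOfInjective U.subtype U.subtype_injective).symm h

private theorem FH_small (A : Aff G ι) (U : Subgroup G) (V : Subgroup U)
    (h : (A.res U).Small V) : A.Small (V.map U.subtype) := by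
  obtain ⟨b, hb⟩ := h
  refine ⟨b, ?_⟩
  rintro _ ⟨g, hg, rfl⟩ i
  exact hb g hg i

/-- Case A. -/
private theorem FH_caseA [Fintype ι] [DecidableEq ι] (h8 : S_rank) (A : Aff G ι)
    (hss : ∀ V : Subgroup G, SS V)
    (ih : ∀ U : Subgroup G, ((A.res U).rk < A.rk ∨ ((A.res U).rk ≤ A.rk ∧
      (A.res U).nF < A.nF)) → KK U) (hA : A.CaseA) : KK G := by
  obtain ⟨μ, χ, hμ, g0, hg0, hne⟩ := hA
  have h1 : ∀ g, A.sg g = 1 → (χ g : ℤ) = 1 := by
    intro g hg
    have h2 := hμ g (A.v g0)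
    rw [hg, inv_one] at h2
    have h3 : (χ g : ℤ) * ∑ i, μ i * A.v g0 i = 1 * ∑ i, μ i * A.v g0 i := by
      rw [← h2, one_mul]
      rfl
    exact mul_right_cancel₀ hne h3
  have hm : ∀ g h, ∑ i, μ i * A.v (g * h) i =
      ∑ i, μ i * A.v g i + (χ g : ℤ) * ∑ i, μ i * A.v h i := by
    intro g h
    rw [← hμ g (A.v h), ← Finset.sum_add_distrib]
    refine Finset.sum_congr rfl fun i _ => ?_
    rw [A.mul, mul_add]
  refine (ks_case_a (fun g => ∑ i, μ i * A.v g i) χ hm fun U hU => ⟨?_, hss U⟩).1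
  obtain ⟨c, hc⟩ := hU
  refine ih U (Or.inl ((h8 G ι A U).2.1 μ ⟨g0, hg0, hne⟩ fun g hg hg1 => ?_))
  have hpow : ∀ k : ℕ, ∑ i, μ i * A.v (g ^ k) i = k * ∑ i, μ i * A.v g i := by
    intro k
    induction k with
    | zero =>
      have h3 := hm 1 1
      rw [mul_one, h1 1 (map_one _), one_mul] at h3
      rw [pow_zero, Nat.cast_zero, zero_mul]
      linarith
    | succ k ih2 =>
      rw [pow_succ, hm, ih2, h1 (g ^ k) (by rw [map_pow, hg1, one_pow])]
      push_cast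
      ring
  by_contra h0
  have h4 := hc (g ^ (c.toNat + 1)) (U.pow_mem hg _)
  rw [hpow, abs_mul] at h4
  have h5 : 1 ≤ |∑ i, μ i * A.v g i| := Int.one_le_abs h0
  have h6 : (c.toNat + 1 : ℤ) ≤ |((c.toNat + 1 : ℕ) : ℤ)| := by
    push_cast
    exact le_abs_self _
  have h7 : c ≤ c.toNat := Int.self_le_toNat c
  have h8 : |((c.toNat + 1 : ℕ) : ℤ)| * 1 ≤
      |((c.toNat + 1 : ℕ) : ℤ)| * |∑ i, μ i * A.v g i| :=
    mul_le_mul_of_nonneg_left h5 (abs_nonneg _)
  rw [mul_one] at h8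
  linarith

/-- Two primes. -/
private theorem FH_primes (q N : ℕ) (hq : q ≠ 0) : ∃ p : Fin 2 → ℕ, (∀ i, (p i).Prime) ∧
    (∀ i, N < p i) ∧ (∀ i, q ∣ p i + 1) ∧ p 0 ≠ p 1 := by
  have h1 : ∀ M : ℕ, ∃ p, M < p ∧ p.Prime ∧ q ∣ p + 1 := by
    intro M
    have : NeZero q := ⟨hq⟩
    obtain ⟨p, h2, h3, h4⟩ := Nat.forall_exists_prime_gt_and_eq_mod
      (q := q) (a := (-1 : ZMod q)) isUnit_one.neg M
    refine ⟨p, h2, h3, ?_⟩
    rw [← ZMod.natCast_eq_zero_iff]
    push_cast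
    rw [h4]
    ring
  obtain ⟨p, h2, h3, h4⟩ := h1 N
  obtain ⟨p', h2', h3', h4'⟩ := h1 p
  refine ⟨![p, p'], ?_, ?_, ?_, ?_⟩
  · intro i
    fin_cases i
    · exact h3
    · exact h3'
  · intro i
    fin_cases i
    · exact h2
    · exact h2.trans h2'
  · intro i
    fin_cases i
    · exact h4
    · exact h4'
  · exact h2'.ne

/-- A group which fixes a hyperplane of the translations modulo `p`. -/
private theorem FH_stab [Fintype ι] [DecidableEq ι] (h5 : S_hyp) (h8 : S_rank) (A : Aff G ι)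
    (ih : ∀ U : Subgroup G, ((A.res U).rk < A.rk ∨ ((A.res U).rk ≤ A.rk ∧
      (A.res U).nF < A.nF)) → KK U) (hA : ¬ A.CaseA) (p : ℕ) [Fact p.Prime]
    (hp : A.nF ∣ p + 1) (K : Submodule (ZMod p) (ι → ZMod p)) (hK : K ⋖ A.E p) (U : Subgroup G)
    (hU : ∀ g ∈ U, K.map (pm (ZMod p) (A.sg g)) = K) : KK U := by
  refine ih U (Or.inr ⟨(h8 G ι A U).1, (h8 G ι A U).2.2.2.2 ?_⟩)
  by_contra hno
  push Not at hno
  refine hA (h5 G ι A p hp K hK fun g => ?_)
  obtain ⟨h, hh, he⟩ := hno g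
  rw [← he]
  exact hU h hh

private theorem FH_step [Fintype ι] [DecidableEq ι] (h1 : S_twIso) (h2 : S_asm) (h4 : S_fix)
    (h5 : S_hyp) (h6 : S_net) (h7 : S_good) (h8 : S_rank) (A : Aff G ι)
    (hs : ∀ V : Subgroup G, A.Small V → KK V) (hss : ∀ V : Subgroup G, SS V)
    (ih : ∀ U : Subgroup G, ((A.res U).rk < A.rk ∨ ((A.res U).rk ≤ A.rk ∧
      (A.res U).nF < A.nF)) → KK U) : KK G := by
  by_cases hA : A.CaseA
  · exact FH_caseA h8 A hss ih hA
  intro L _ _ hL K _ κ hκ n _ _ a ha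
  obtain ⟨p₀, hgood⟩ := h7 L G K ι hL A hs κ hκ n a ha
  have hnF : A.nF ≠ 0 := Nat.card_pos.ne'
  obtain ⟨p, hp, hpN, hpd, hne⟩ := FH_primes A.nF (max p₀ A.nF) hnF
  have hpf : ∀ i, Fact (p i).Prime := fun i => ⟨hp i⟩
  have hndvd : ∀ i, ¬ p i ∣ A.nF := by
    intro i hi
    have h9 := Nat.le_of_dvd (Nat.pos_of_ne_zero hnF) hi
    have h10 := (le_max_right p₀ A.nF).trans_lt (hpN i)
    omega
  choose u hu using fun i => h4 G ι A (p i) (hndvd i)
  choose r w S H C i1 i2 i3 i4 i5 i6 i7 i8 i9 N s₀ hπ hi htr hst hhyp using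
    fun i => h6 G ι A (p i) (u i) (hu i)
  refine h2 L G K κ n a ha (fun i => p i ^ r i) p w S H C N hp
    (fun i => pow_pos (hp i).pos _) ?_ hπ hi ?_ ?_ ?_
  · exact Nat.Coprime.pow _ _ ((Nat.coprime_primes (hp 0) (hp 1)).2 hne)
  · intro i Y _ _ _
    exact hgood (p i) ((le_max_left _ _).trans (hpN i).le) (u i) (S i × Y) (S i) (s₀ i) Prod.fst
      (fun _ _ => rfl) (htr i) (hst i)
  · intro i Y _ _ _
    refine h1 L G (H i × Y) K hL (fun x => ?_) κ hκ n a ha
    obtain ⟨K', hK', hK2⟩ := hhyp i x.1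
    refine FH_stab h5 h8 A ih hA (p i) (hpd i) K' hK' _ fun g hg => hK2 g ?_
    exact congrArg Prod.fst (MulAction.mem_stabilizer_iff.1 hg)
  · intro i Y _ _ _
    refine h1 L G (C i × Y) K hL (fun x => ?_) κ hκ n a ha
    obtain ⟨K', hK', hK2⟩ := hhyp i ((N i).π x.1)
    refine FH_stab h5 h8 A ih hA (p i) (hpd i) K' hK' _ fun g hg => hK2 g ?_
    rw [← hπ i]
    exact congrArg (N i).π (congrArg Prod.fst (MulAction.mem_stabilizer_iff.1 hg))

end

theorem fh (h1 : S_twIso) (h2 : S_asm) (_h3 : S_E) (h4 : S_fix) (h5 : S_hyp) (h6 : S_net)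
    (h7 : S_good) (h8 : S_rank) : S_fh := by
  have main : ∀ (ι : Type) [Fintype ι] [DecidableEq ι] (N M : ℕ) (G : Type) [Group G]
      (A : Aff G ι), A.rk = N → A.nF = M → (∀ V : Subgroup G, A.Small V → KK V) →
      (∀ V : Subgroup G, SS V) → KK G := by
    intro ι _ _ N
    induction N using Nat.strong_induction_on with
    | _ N ihN =>
      intro M
      induction M using Nat.strong_induction_on with
      | _ M ihM =>
        intro G _ A hN hM hs hss
        refine FH_step h1 h2 h4 h5 h6 h7 h8 A hs hss fun U hU => ?_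
        have hs' : ∀ V : Subgroup U, (A.res U).Small V → KK V :=
          fun V hV => FH_kk_sub U V (hs _ (FH_small A U V hV))
        have hss' : ∀ V : Subgroup U, SS V := fun V => FH_ss_sub U V (hss _)
        rcases hU with hU | ⟨hU1, hU2⟩
        · exact ihN _ (hN ▸ hU) _ U (A.res U) rfl rfl hs' hss'
        · rcases (hN ▸ hU1 : (A.res U).rk ≤ N).lt_or_eq with h9 | h9
          · exact ihN _ h9 _ U (A.res U) rfl rfl hs' hss'
          · exact ihM _ (hM ▸ hU2) U (A.res U) h9 rfl hs' hss'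
  intro G _ ι _ _ A hs hss
  exact main ι _ _ G A rfl rfl hs hss

end Pool.Agent.FH
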