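import Pool.Agent.Lib.MP_8f66f0_al_FH.ASpec
import Pool.Agent.Lib.MP_8f66f0_al_Ind.One

/-! Theorem FH, part 1: stabilizers of points modulo a large prime. -/

set_option autoImplicit false

namespace Pool.Agent.FH

open Pool.Agent.Wald Pool.Agent.WaldL Pool.Agent.Ind Filter

section

variable {G : Type} [Group G] {ι : Type}

private theorem Good_act_mul (A : Aff G ι) (g h : G) (x : ι → ℤ) :
    A.act (g * h) x = A.act g (A.act h x) := by
  funext i
  simp only [Aff.act]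
  rw [A.mul g h i, map_mul, mul_inv_rev, Equiv.Perm.mul_apply]
  ring

private theorem Good_act_one (A : Aff G ι) (x : ι → ℤ) : A.act 1 x = x := by
  funext i
  have h := A.mul 1 1 i
  simp only [Aff.act]
  rw [mul_one, map_one, inv_one, Equiv.Perm.one_apply] at h
  rw [map_one, inv_one, Equiv.Perm.one_apply]
  linarith

/-- The action of the stabilizer, in the coordinates centered at `u`. -/
private def Good_A (A : Aff G ι) (Γ : Subgroup G) (u : ι → ℤ) : Aff Γ ι where
  sg := A.sg.comp Γ.subtype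
  v g i := A.act g u i - u i
  mul g h i := by
    rw [Subgroup.coe_mul, Good_act_mul]
    simp only [Aff.act, MonoidHom.comp_apply, Subgroup.coe_subtype]
    ring

private theorem Good_A_act (A : Aff G ι) (Γ : Subgroup G) (u : ι → ℤ) (g : Γ) (x : ι → ℤ) :
    (Good_A A Γ u).act g (fun i => x i - u i) = fun i => A.act g x i - u i := by
  funext i
  simp only [Aff.act, Good_A, MonoidHom.comp_apply, Subgroup.coe_subtype]
  ring

/-- A counterexample for the index `j`. -/
private structure Good_Bad {L K : Type} [CommRing L] [CommGroup K] (A : Aff G ι)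
    (κ : K1Fun (MonoidAlgebra L G) K) {n : Type} [Fintype n] [DecidableEq n]
    (a : Matrix n n (MonoidAlgebra L G)) (j : ℕ) where
  p : ℕ
  hp : j ≤ p
  u : ι → ℤ
  X : Type
  S : Type
  i1 : MulAction G X
  i2 : Fintype X
  i3 : DecidableEq X
  i4 : MulAction G S
  s₀ : S
  π : X → S
  hπ : ∀ (g : G) x, π (g • x) = g • π x
  htr : ∀ s, ∃ g : G, g • s₀ = s
  hdiv : ∀ g : G, g • s₀ = s₀ → ∀ i, (p : ℤ) ∣ A.act g u i - u i
  bad : κ.f (tw X a) ≠ 1

end

/-- A counterexample, in the form needed. -/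
private structure Good_Dat (L K ι : Type) [CommRing L] [IsDomain L] [CommGroup K] (D p : ℕ) where
  Γ : Type
  [grp : Group Γ]
  A : Aff Γ ι
  hdiv : ∀ g i, (p : ℤ) ∣ A.v g i
  hsm : ∀ V : Subgroup Γ, A.Small V → KK V
  m : Type
  [ft : Fintype m]
  [de : DecidableEq m]
  pos : m → ι → ℤ
  a : Matrix m m (MonoidAlgebra L Γ)
  b : Matrix m m (MonoidAlgebra L Γ)
  hab : a * b = 1
  hba : b * a = 1
  ha : ∀ i i' g, (a i i').coeff g ≠ 0 → ∀ k, |pos i k - A.act g (pos i') k| ≤ D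
  hb : ∀ i i' g, (b i i').coeff g ≠ 0 → ∀ k, |pos i k - A.act g (pos i') k| ≤ D
  κ : K1Fun (MonoidAlgebra L Γ) K
  hκ : ∀ (g : Γ) (u : Lˣ),
    κ.f (Matrix.of fun _ _ : Fin 1 => (MonoidAlgebra.single g (u : L))) = 1
  bad : κ.f a ≠ 1

attribute [instance] Good_Dat.grp Good_Dat.ft Good_Dat.de

private theorem Good_bound {G ι L : Type} [Group G] [Fintype ι] [CommRing L] (A : Aff G ι)
    {n : Type} [Fintype n] (a b : Matrix n n (MonoidAlgebra L G)) :
    ∃ D : ℕ, (∀ i j g, (a i j).coeff g ≠ 0 → ∀ k, |A.v g k| ≤ D) ∧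
      ∀ i j g, (b i j).coeff g ≠ 0 → ∀ k, |A.v g k| ≤ D := by
  classical
  let s : Finset (G × ι) := (Finset.univ.biUnion fun i : n => Finset.univ.biUnion fun j : n =>
    (a i j).coeff.support ∪ (b i j).coeff.support) ×ˢ Finset.univ
  refine ⟨s.sup fun x => (A.v x.1 x.2).natAbs, ?_, ?_⟩
  · intro i j g hg k
    have h1 : (g, k) ∈ s := by
      refine Finset.mem_product.mpr ⟨?_, Finset.mem_univ _⟩
      refine Finset.mem_biUnion.mpr ⟨i, Finset.mem_univ _, ?_⟩
      refine Finset.mem_biUnion.mpr ⟨j, Finset.mem_univ _, ?_⟩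
      exact Finset.mem_union_left _ (Finsupp.mem_support_iff.mpr hg)
    have h2 := Finset.le_sup (f := fun x : G × ι => (A.v x.1 x.2).natAbs) h1
    rw [Int.abs_eq_natAbs]
    exact_mod_cast h2
  · intro i j g hg k
    have h1 : (g, k) ∈ s := by
      refine Finset.mem_product.mpr ⟨?_, Finset.mem_univ _⟩
      refine Finset.mem_biUnion.mpr ⟨i, Finset.mem_univ _, ?_⟩
      refine Finset.mem_biUnion.mpr ⟨j, Finset.mem_univ _, ?_⟩
      exact Finset.mem_union_right _ (Finsupp.mem_support_iff.mpr hg)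
    have h2 := Finset.le_sup (f := fun x : G × ι => (A.v x.1 x.2).natAbs) h1
    rw [Int.abs_eq_natAbs]
    exact_mod_cast h2

private theorem Good_small {G ι : Type} [Group G] [Fintype ι] (A : Aff G ι)
    (hA : ∀ V : Subgroup G, A.Small V → KK V) (Γ : Subgroup G) (u : ι → ℤ) (V : Subgroup Γ)
    (hV : (Good_A A Γ u).Small V) : KK V := by
  obtain ⟨b, hb⟩ := hV
  have h1 : KK (V.map Γ.subtype) := by
    refine hA _ ⟨b + 2 * Finset.univ.sup fun i => (u i).natAbs, ?_⟩
    rintro _ ⟨g, hg, rfl⟩ i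
    have h2 := hb g hg i
    have h3 : ∀ k, |u k| ≤ ((Finset.univ.sup fun i => (u i).natAbs : ℕ) : ℤ) := by
      intro k
      rw [Int.abs_eq_natAbs]
      exact_mod_cast Finset.le_sup (f := fun i => (u i).natAbs) (Finset.mem_univ k)
    have h4 := h3 i
    have h5 := h3 ((A.sg (g : G))⁻¹ i)
    have h6 : (Good_A A Γ u).v g i = u ((A.sg (g : G))⁻¹ i) + A.v g i - u i := rfl
    rw [h6] at h2
    push_cast
    change |A.v (g : G) i| ≤ _
    rw [abs_le] at h2 h4 h5 ⊢
    constructor <;> linarith [h2.1, h2.2, h4.1, h4.2, h5.1, h5.2]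
  exact kk_iso (fun L _ _ hL G _ _ => whTL_one hL G)
    (V.equivMapOfInjective Γ.subtype Subtype.val_injective).symm h1

private theorem Good_core (hR : S_twRes) {L G K ι : Type} [CommRing L] [IsDomain L] [Group G]
    [CommGroup K] [Fintype ι] (A : Aff G ι) (hA : ∀ V : Subgroup G, A.Small V → KK V)
    (κ : K1Fun (MonoidAlgebra L G) K) (hκ : KU κ) {n : Type} [Fintype n] [DecidableEq n]
    (a b : Matrix n n (MonoidAlgebra L G)) (hab : a * b = 1) (hba : b * a = 1) (D : ℕ)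
    (hDa : ∀ i j g, (a i j).coeff g ≠ 0 → ∀ k, |A.v g k| ≤ D)
    (hDb : ∀ i j g, (b i j).coeff g ≠ 0 → ∀ k, |A.v g k| ≤ D) (j : ℕ)
    (B : Good_Bad A κ a j) : Nonempty (Good_Dat L K ι D B.p) := by
  letI := B.i1
  letI := B.i2
  letI := B.i3
  letI := B.i4
  have hex : ∀ x : B.X, ∃ g : G, g • B.s₀ = B.π x := fun x => B.htr (B.π x)
  choose t ht using hex
  have hΓ : ∀ (g : G) (x y : B.X), g • y = x →
      (t x)⁻¹ * g * t y ∈ MulAction.stabilizer G B.s₀ := by
    intro g x y h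
    rw [MulAction.mem_stabilizer_iff, mul_smul, ht, mul_smul, ← B.hπ, h, inv_smul_eq_iff, ht]
  obtain ⟨a', b', h1, h2, h3, h4, h5⟩ := hR L G B.X (MulAction.stabilizer G B.s₀) t hΓ n a b
    hab hba
  have hpos : ∀ (i i' : n × B.X) (g : MulAction.stabilizer G B.s₀),
      (∀ k, |A.v (t i.2 * g * (t i'.2)⁻¹) k| ≤ D) →
      ∀ k, |(A.act (t i.2)⁻¹ 0 k - B.u k) -
        (Good_A A (MulAction.stabilizer G B.s₀) B.u).act g
          (fun k => A.act (t i'.2)⁻¹ 0 k - B.u k) k| ≤ D := by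
    intro i i' g hg k
    rw [Good_A_act, ← Good_act_mul]
    have e1 : (g : G) * (t i'.2)⁻¹ = (t i.2)⁻¹ * (t i.2 * g * (t i'.2)⁻¹) := by group
    rw [e1, Good_act_mul]
    have e2 : (A.act (t i.2)⁻¹ 0 k - B.u k) -
        (A.act (t i.2)⁻¹ (A.act (t i.2 * g * (t i'.2)⁻¹) 0) k - B.u k) =
        - A.v (t i.2 * g * (t i'.2)⁻¹) ((A.sg (t i.2)⁻¹)⁻¹ k) := by
      simp only [Aff.act, Pi.zero_apply]
      ring
    rw [e2, abs_neg]
    exact hg _
  refine ⟨⟨MulAction.stabilizer G B.s₀, Good_A A _ B.u, ?_, Good_small A hA _ B.u, n × B.X,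
    fun i k => A.act (t i.2)⁻¹ 0 k - B.u k, a', b', h1, h2, ?_, ?_,
    pullK (inc (MulAction.stabilizer G B.s₀).subtype) κ, ?_, ?_⟩⟩
  · intro g i
    exact B.hdiv g g.2 i
  · intro i i' g hg
    exact hpos i i' g fun k => hDa _ _ _ (h3 i i' g hg) k
  · intro i i' g hg
    exact hpos i i' g fun k => hDb _ _ _ (h4 i i' g hg) k
  · intro g w
    change κ.f (Matrix.map _ _) = 1
    rw [← hκ (g : G) w]
    congr 1
    refine Matrix.ext fun i j => ?_
    rw [Matrix.map_apply, Matrix.of_apply, Matrix.of_apply, inc_single]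
    rfl
  · intro h
    refine B.bad ?_
    rw [h5 K κ]
    exact h

theorem good : S_ctl → S_twRes → S_good := by
  intro hC hR L G K ι _ _ _ _ _ _ hL A hA κ hκ n _ _ a ha
  by_contra hcon
  push Not at hcon
  obtain ⟨w, rfl⟩ := ha
  have hB : ∀ j : ℕ, Nonempty (Good_Bad A κ (w : Matrix n n (MonoidAlgebra L G)) j) := by
    intro j
    obtain ⟨p, hp, u, X, S, i1, i2, i3, i4, s₀, π, h1, h2, h3, h4⟩ := hcon j
    exact ⟨⟨p, hp, u, X, S, i1, i2, i3, i4, s₀, π, h1, h2, h3, h4⟩⟩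
  obtain ⟨D, hDa, hDb⟩ := Good_bound A (w : Matrix n n (MonoidAlgebra L G))
    ((w⁻¹ : (Matrix n n (MonoidAlgebra L G))ˣ) : Matrix n n (MonoidAlgebra L G))
  let B := fun j => (hB j).some
  have hT : ∀ j, Nonempty (Good_Dat L K ι D (B j).p) := fun j =>
    Good_core hR A hA κ hκ _ _ w.mul_inv w.inv_mul D hDa hDb j (B j)
  let T := fun j => (hT j).some
  have h1 := hC L hL ι (fun j => (T j).Γ) (fun j => (T j).A) (fun j => (B j).p)
    (tendsto_atTop_mono (fun j => (B j).hp) tendsto_id) (fun j => (T j).hdiv)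
    (fun j => (T j).hsm) D (fun j => (T j).m) (fun j => (T j).pos) (fun j => (T j).a)
    (fun j => (T j).b) (fun j => (T j).hab) (fun j => (T j).hba) (fun j => (T j).ha)
    (fun j => (T j).hb) (fun _ => K) (fun j => (T j).κ) (fun j => (T j).hκ)
  obtain ⟨j, hj⟩ := h1.exists
  exact (T j).bad hj

end Pool.Agent.FH
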