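import Pool.Agent.Lib.MP_8f66f0_al_FH.ASpec

/-! An invariant hyperplane of the translations modulo `p` gives case A. -/

set_option autoImplicit false

namespace Pool.Agent.FH

open Pool.Agent.Wald Pool.Agent.WaldL Pool.Agent.Ind Filter

section

variable {ι : Type} {p : ℕ}

private theorem Hyp_pm_mul (s t : Equiv.Perm ι) (x : ι → ZMod p) :
    pm (ZMod p) (s * t) x = pm (ZMod p) s (pm (ZMod p) t x) := by
  funext i
  change x ((s * t)⁻¹ i) = x (t⁻¹ (s⁻¹ i))
  rw [mul_inv_rev]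
  rfl

private theorem Hyp_pm_one (x : ι → ZMod p) : pm (ZMod p) (1 : Equiv.Perm ι) x = x := by
  funext i
  change x ((1 : Equiv.Perm ι)⁻¹ i) = x i
  rw [inv_one]
  rfl

variable [Fact p.Prime]

/-- The functional. -/
private theorem Hyp_lam (E K : Submodule (ZMod p) (ι → ZMod p)) (hK : K ⋖ E) :
    ∃ (lam : (ι → ZMod p) →ₗ[ZMod p] ZMod p) (e : ι → ZMod p), e ∈ E ∧ lam e = 1 ∧
      (∀ x ∈ K, lam x = 0) ∧ ∀ x ∈ E, lam x = 0 → x ∈ K := by
  obtain ⟨e, he, heK⟩ := SetLike.exists_of_lt hK.lt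
  obtain ⟨φ, hφ, hφK⟩ := Submodule.exists_le_ker_of_notMem heK
  refine ⟨(φ e)⁻¹ • φ, e, he, ?_, ?_, ?_⟩
  · rw [LinearMap.smul_apply, smul_eq_mul, inv_mul_cancel₀ hφ]
  · intro x hx
    rw [LinearMap.smul_apply, LinearMap.mem_ker.1 (hφK hx), smul_zero]
  · intro x hx h0
    have h1 : φ x = 0 := by
      rw [LinearMap.smul_apply, smul_eq_mul, mul_eq_zero] at h0
      exact h0.resolve_left (inv_ne_zero hφ)
    rcases hK.eq_or_eq (le_inf hφK hK.le) inf_le_right with h2 | h2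
    · rw [← h2]
      exact ⟨LinearMap.mem_ker.2 h1, hx⟩
    · rw [← h2] at he
      exact absurd (LinearMap.mem_ker.1 he.1) hφ

/-- The character. -/
private theorem Hyp_chi [Finite ι] (F : Subgroup (Equiv.Perm ι)) (E K : Submodule (ZMod p) (ι → ZMod p))
    (hE : ∀ f ∈ F, ∀ x ∈ E, pm (ZMod p) f x ∈ E) (hKF : ∀ f ∈ F, ∀ x ∈ K, pm (ZMod p) f x ∈ K)
    (hF : Nat.card F ∣ p + 1) (lam : (ι → ZMod p) →ₗ[ZMod p] ZMod p) (e : ι → ZMod p)
    (he : e ∈ E) (hle : lam e = 1) (h0 : ∀ x ∈ K, lam x = 0) (h1 : ∀ x ∈ E, lam x = 0 → x ∈ K) :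
    ∃ χ : F →* ℤˣ, ∀ f : F, lam (pm (ZMod p) (f : Equiv.Perm ι) e) = ((χ f : ℤ) : ZMod p) := by
  classical
  have hmul : ∀ f ∈ F, ∀ x ∈ E,
      lam (pm (ZMod p) f x) = lam (pm (ZMod p) f e) * lam x := by
    intro f hf x hx
    have h2 : x - lam x • e ∈ K := by
      refine h1 _ (E.sub_mem hx (E.smul_mem _ he)) ?_
      rw [map_sub, map_smul, hle, smul_eq_mul, mul_one, sub_self]
    have h3 := h0 _ (hKF f hf _ h2)
    rw [map_sub, map_smul, map_sub, map_smul, smul_eq_mul, sub_eq_zero] at h3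
    rw [h3, mul_comm]
  let c : F →* ZMod p :=
    { toFun := fun f => lam (pm (ZMod p) (f : Equiv.Perm ι) e)
      map_one' := by
        change lam (pm (ZMod p) (1 : Equiv.Perm ι) e) = 1
        rw [Hyp_pm_one, hle]
      map_mul' := by
        intro f g
        change lam (pm (ZMod p) ((f : Equiv.Perm ι) * (g : Equiv.Perm ι)) e) = _
        rw [Hyp_pm_mul, hmul f f.2 _ (hE g g.2 e he)] }
  have hc : ∀ f, c f = 1 ∨ c f = -1 := by
    intro f
    have h2 : c f ^ (p + 1) = 1 := by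
      obtain ⟨k, hk⟩ := hF
      rw [hk, pow_mul, ← map_pow, pow_card_eq_one', map_one, one_pow]
    have h3 : c f ≠ 0 := by
      intro h4
      rw [h4, zero_pow (by omega)] at h2
      exact zero_ne_one h2
    have h4 := ZMod.pow_card_sub_one_eq_one h3
    have hp : 2 ≤ p := (Fact.out : p.Prime).two_le
    have h5 : p + 1 = (p - 1) + 2 := by omega
    rw [h5, pow_add, h4, one_mul, pow_two] at h2
    exact mul_self_eq_one_iff.1 h2
  let χ : F →* ℤˣ :=
    { toFun := fun f => if c f = 1 then 1 else -1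
      map_one' := by
        rw [map_one, if_pos rfl]
      map_mul' := by
        intro f g
        rw [map_mul]
        rcases hc f with hf | hf
        · rw [hf, one_mul, if_pos rfl, one_mul]
        · rcases hc g with hg | hg
          · rw [hg, mul_one, if_pos rfl, mul_one]
          · rw [hf, hg, neg_mul_neg, one_mul, if_pos rfl]
            by_cases h : (-1 : ZMod p) = 1
            · rw [if_pos h, one_mul]
            · rw [if_neg h, neg_mul_neg, one_mul] }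
  refine ⟨χ, fun f => ?_⟩
  change c f = (((if c f = 1 then (1 : ℤˣ) else -1 : ℤˣ) : ℤ) : ZMod p)
  by_cases h : c f = 1
  · rw [if_pos h, h]
    simp
  · rw [if_neg h, (hc f).resolve_left h]
    simp

variable [Fintype ι] [DecidableEq ι]

/-- The sum over the group of permutations. -/
private theorem Hyp_core (F : Subgroup (Equiv.Perm ι)) (E K : Submodule (ZMod p) (ι → ZMod p))
    (hK : K ⋖ E) (hE : ∀ f ∈ F, ∀ x ∈ E, pm (ZMod p) f x ∈ E)
    (hKF : ∀ f ∈ F, ∀ x ∈ K, pm (ZMod p) f x ∈ K) (hF : Nat.card F ∣ p + 1) :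
    ∃ (μ : ι → ℤ) (χ : F →* ℤˣ), (∀ (f : F) (x : ι → ℤ),
      ∑ i, μ i * x ((f : Equiv.Perm ι)⁻¹ i) = (χ f : ℤ) * ∑ i, μ i * x i) ∧
      ∃ e ∈ E, ∀ z : ι → ℤ, (fun i => (z i : ZMod p)) = e → ∑ i, μ i * z i ≠ 0 := by
  classical
  obtain ⟨lam, e, he, hle, h0, h1⟩ := Hyp_lam E K hK
  obtain ⟨χ, hχ⟩ := Hyp_chi F E K hE hKF hF lam e he hle h0 h1
  have hfin : Fintype F := Fintype.ofFinite F
  let l : ι → ℤ := fun i => ((lam fun j => if i = j then 1 else 0) : ZMod p).val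
  have hl : ∀ i, ((l i : ℤ) : ZMod p) = lam fun j => if i = j then 1 else 0 := by
    intro i
    change ((((lam fun j => if i = j then 1 else 0) : ZMod p).val : ℤ) : ZMod p) = _
    rw [Int.cast_natCast, ZMod.natCast_zmod_val]
  let T : Equiv.Perm ι → (ι → ℤ) → ℤ := fun f x => ∑ i, l i * x (f⁻¹ i)
  let μ : ι → ℤ := fun j => ∑ f : F, (χ f : ℤ) * l ((f : Equiv.Perm ι) j)
  have hμ : ∀ x : ι → ℤ, ∑ j, μ j * x j = ∑ f : F, (χ f : ℤ) * T f x := by
    intro x
    have h2 : ∀ j, μ j * x j = ∑ f : F, (χ f : ℤ) * (l ((f : Equiv.Perm ι) j) * x j) := by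
      intro j
      rw [Finset.sum_mul]
      exact Finset.sum_congr rfl fun f _ => mul_assoc _ _ _
    rw [Finset.sum_congr rfl fun j _ => h2 j, Finset.sum_comm]
    refine Finset.sum_congr rfl fun f _ => ?_
    rw [← Finset.mul_sum]
    congr 1
    refine Eq.trans ?_ (Equiv.sum_comp (f : Equiv.Perm ι)
      fun i => l i * x ((f : Equiv.Perm ι)⁻¹ i))
    refine Finset.sum_congr rfl fun j _ => ?_
    have h3 : (f : Equiv.Perm ι)⁻¹ ((f : Equiv.Perm ι) j) = j :=
      (f : Equiv.Perm ι).symm_apply_apply j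
    rw [h3]
  refine ⟨μ, χ, ?_, e, he, ?_⟩
  · intro g x
    rw [hμ x, hμ fun i => x ((g : Equiv.Perm ι)⁻¹ i), Finset.mul_sum,
      ← Equiv.sum_comp (Equiv.mulRight g) fun f : F => (χ g : ℤ) * ((χ f : ℤ) * T f x)]
    refine Finset.sum_congr rfl fun f _ => ?_
    rw [Equiv.coe_mulRight, map_mul]
    have h2 : T f (fun i => x ((g : Equiv.Perm ι)⁻¹ i)) = T ((f * g : F) : Equiv.Perm ι) x := by
      refine Finset.sum_congr rfl fun i _ => ?_
      change l i * x ((g : Equiv.Perm ι)⁻¹ ((f : Equiv.Perm ι)⁻¹ i)) =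
        l i * x (((f : Equiv.Perm ι) * (g : Equiv.Perm ι))⁻¹ i)
      rw [mul_inv_rev]
      rfl
    rw [h2, Units.val_mul]
    have h3 : (χ g : ℤ) * (χ g : ℤ) = 1 := by
      rw [← Units.val_mul, Int.units_mul_self, Units.val_one]
    linear_combination (-(χ f : ℤ) * T ((f * g : F) : Equiv.Perm ι) x) * h3
  · intro z hz h2
    have h3 : ((∑ i, μ i * z i : ℤ) : ZMod p) = (Nat.card F : ZMod p) := by
      rw [hμ z, Int.cast_sum]
      have h4 : ∀ f : F, (((χ f : ℤ) * T f z : ℤ) : ZMod p) = 1 := by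
        intro f
        have h5 : ((T f z : ℤ) : ZMod p) = lam (pm (ZMod p) (f : Equiv.Perm ι) e) := by
          rw [LinearMap.pi_apply_eq_sum_univ lam, Int.cast_sum]
          refine Finset.sum_congr rfl fun i _ => ?_
          rw [Int.cast_mul, hl, smul_eq_mul, mul_comm]
          congr 1
          change _ = e ((f : Equiv.Perm ι)⁻¹ i)
          rw [← hz]
        rw [Int.cast_mul, h5, hχ, ← Int.cast_mul, ← Units.val_mul, Int.units_mul_self,
          Units.val_one, Int.cast_one]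
      rw [Finset.sum_congr rfl fun f _ => h4 f, Finset.sum_const, Finset.card_univ,
        Nat.card_eq_fintype_card, nsmul_eq_mul, mul_one]
    rw [h2, Int.cast_zero] at h3
    have h4 : p ∣ Nat.card F := (ZMod.natCast_eq_zero_iff _ _).1 h3.symm
    have h5 : p ∣ p + 1 := h4.trans hF
    have h6 : p ∣ 1 := (Nat.dvd_add_right (dvd_refl p)).1 h5
    exact (Fact.out : p.Prime).one_lt.ne' (Nat.dvd_one.1 h6)

end

theorem hyp (h : S_E) : S_hyp := by
  intro G _ ι _ _ A p _ hn K hK hKg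
  obtain ⟨e1, e2⟩ := h G ι A p
  obtain ⟨μ, χ, h1, e, he, h2⟩ := Hyp_core A.sg.range (A.E p) K hK
    (by
      rintro _ ⟨g, rfl⟩ x hx
      rw [← e2 g]
      exact Submodule.mem_map_of_mem hx)
    (by
      rintro _ ⟨g, rfl⟩ x hx
      rw [← hKg g]
      exact Submodule.mem_map_of_mem hx) hn
  refine ⟨μ, χ.comp A.sg.rangeRestrict, fun g x => h1 (A.sg.rangeRestrict g) x, ?_⟩
  obtain ⟨g, hg, hge⟩ := e1 e he
  exact ⟨g, hg, h2 (A.v g) hge.symm⟩

end Pool.Agent.FH
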