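import Pool.Agent.Lib.MP_8f66f0_al_FH.ASpec

/-! Theorem FH, part 1: the concrete net. -/

set_option autoImplicit false

namespace Pool.Agent.FH

open Pool.Agent.Wald Pool.Agent.WaldL Pool.Agent.Ind Pointwise

section Abs

variable {p : ℕ} [Fact p.Prime] {E : Type} [AddCommGroup E] [Module (ZMod p) E]

variable (p E) in
/-- The hyperplanes. -/
private abbrev NetC_H : Type :=
  {K : Submodule (ZMod p) E // ∃ l : Module.Dual (ZMod p) E, l ≠ 0 ∧ LinearMap.ker l = K}

variable (p E) in
/-- The affine hyperplanes. -/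
private abbrev NetC_C : Type :=
  {c : NetC_H p E × Set E // ∃ s, c.2 = {s' | s' - s ∈ c.1.1}}

private theorem NetC_mem (c : NetC_C p E) (s : E) (hs : s ∈ c.1.2) :
    c.1.2 = {s' | s' - s ∈ c.1.1.1} := by
  obtain ⟨s₁, h1⟩ := c.2
  rw [h1] at hs ⊢
  ext t
  have h2 : s - s₁ ∈ c.1.1.1 := hs
  constructor
  · intro ht
    have h3 : t - s₁ ∈ c.1.1.1 := ht
    have h4 := Submodule.sub_mem _ h3 h2
    rwa [sub_sub_sub_cancel_right] at h4
  · intro ht
    have h3 : t - s ∈ c.1.1.1 := ht
    have h4 := Submodule.add_mem _ h3 h2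
    rwa [sub_add_sub_cancel] at h4

private theorem NetC_one (K : NetC_H p E) (s : E) :
    ∃! c : NetC_C p E, c.1.1 = K ∧ s ∈ c.1.2 := by
  refine ⟨⟨(K, {s' | s' - s ∈ K.1}), s, rfl⟩, ⟨rfl, ?_⟩, ?_⟩
  · change s - s ∈ K.1
    rw [sub_self]
    exact Submodule.zero_mem _
  · rintro c ⟨h1, h2⟩
    refine Subtype.ext (Prod.ext h1 ?_)
    rw [NetC_mem c s h2]
    change {s' | s' - s ∈ c.1.1.1} = {s' | s' - s ∈ K.1}
    rw [h1]

private theorem NetC_surj (l : Module.Dual (ZMod p) E) (hl : l ≠ 0) :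
    Function.Surjective l := LinearMap.surjective hl

private theorem NetC_ex (K : NetC_H p E) (s s' : E) :
    (∃ c : NetC_C p E, c.1.1 = K ∧ s ∈ c.1.2 ∧ s' ∈ c.1.2) ↔ s - s' ∈ K.1 := by
  constructor
  · rintro ⟨c, rfl, h2, h3⟩
    rw [NetC_mem c s' h3] at h2
    exact h2
  · intro h
    refine ⟨⟨(K, {t | t - s' ∈ K.1}), s', rfl⟩, rfl, h, ?_⟩
    change s' - s' ∈ K.1
    rw [sub_self]
    exact Submodule.zero_mem _

variable [Finite E]

private theorem NetC_finH : Finite (NetC_H p E) :=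
  Finite.of_injective (fun K : NetC_H p E => (K.1 : Set E)) fun K K' h =>
    Subtype.ext (SetLike.coe_injective h)

private theorem NetC_finD : Finite (Module.Dual (ZMod p) E) := by
  haveI : NeZero p := ⟨(Fact.out : p.Prime).ne_zero⟩
  exact Finite.of_injective (fun l : Module.Dual (ZMod p) E => (l : E → ZMod p))
    DFunLike.coe_injective

private theorem NetC_finC : Finite (NetC_C p E) := by
  haveI := NetC_finH (p := p) (E := E)
  infer_instance

private theorem NetC_cls [Fintype (NetC_C p E)] (K : NetC_H p E)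
    [DecidablePred fun c : NetC_C p E => c.1.1 = K] :
    (Finset.univ.filter fun c : NetC_C p E => c.1.1 = K).card = p := by
  classical
  haveI : NeZero p := ⟨(Fact.out : p.Prime).ne_zero⟩
  obtain ⟨l, hl, hK⟩ := K.2
  have hs := NetC_surj l hl
  have hc : ∀ a : ZMod p, ∃ s, ({t | l t = a} : Set E) = {t | t - s ∈ K.1} := by
    intro a
    obtain ⟨s, hs⟩ := hs a
    refine ⟨s, ?_⟩
    ext t
    rw [← hK]
    change l t = a ↔ t - s ∈ LinearMap.ker l
    rw [LinearMap.mem_ker, map_sub, sub_eq_zero, hs]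
  let F : ZMod p → NetC_C p E := fun a => ⟨(K, {t | l t = a}), hc a⟩
  have hF : Function.Injective F := by
    intro a a' h
    obtain ⟨s, hs⟩ := hs a
    have h1 : ({t | l t = a} : Set E) = {t | l t = a'} := congrArg (fun c => c.1.2) h
    have h2 : s ∈ ({t | l t = a'} : Set E) := by
      rw [← h1]
      exact hs
    exact hs.symm.trans h2
  have h1 : (Finset.univ.filter fun c : NetC_C p E => c.1.1 = K) = Finset.univ.image F := by
    ext c
    rw [Finset.mem_filter, Finset.mem_image]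
    constructor
    · rintro ⟨-, h⟩
      obtain ⟨s, h2⟩ := c.2
      refine ⟨l s, Finset.mem_univ _, ?_⟩
      refine Subtype.ext (Prod.ext h.symm ?_)
      rw [h2, h, ← hK]
      ext t
      change l t = l s ↔ t - s ∈ LinearMap.ker l
      rw [LinearMap.mem_ker, map_sub, sub_eq_zero]
    · rintro ⟨a, -, rfl⟩
      exact ⟨Finset.mem_univ _, rfl⟩
  rw [h1, Finset.card_image_of_injective _ hF, Finset.card_univ, ZMod.card]

private theorem NetC_fib [Fintype (NetC_H p E)] [Fintype {l : Module.Dual (ZMod p) E // l ≠ 0}]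
    (φ : NetC_H p E → ℤ) :
    ∑ l : {l : Module.Dual (ZMod p) E // l ≠ 0}, φ ⟨LinearMap.ker l.1, l.1, l.2, rfl⟩ =
      ((p : ℤ) - 1) * ∑ K, φ K := by
  haveI : NeZero p := ⟨(Fact.out : p.Prime).ne_zero⟩
  have hex : ∀ K : NetC_H p E, ∃ l : Module.Dual (ZMod p) E, l ≠ 0 ∧ LinearMap.ker l = K.1 :=
    fun K => K.2
  choose lK h0 h1 using hex
  let F : NetC_H p E × (ZMod p)ˣ → {l : Module.Dual (ZMod p) E // l ≠ 0} := fun x =>
    ⟨(x.2 : ZMod p) • lK x.1, smul_ne_zero x.2.ne_zero (h0 x.1)⟩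
  have hker : ∀ x, LinearMap.ker (F x).1 = x.1.1 := fun x => by
    rw [LinearMap.ker_smul _ _ x.2.ne_zero, h1]
  have hF : Function.Bijective F := by
    constructor
    · rintro ⟨K, u⟩ ⟨K', u'⟩ h
      have h2 : K = K' := Subtype.ext (by
        have h3 := hker (K, u)
        rw [h, hker] at h3
        exact h3.symm)
      subst h2
      have h4 : (u : ZMod p) • lK K = (u' : ZMod p) • lK K := congrArg Subtype.val h
      obtain ⟨v, hv⟩ := NetC_surj (lK K) (h0 K) 1
      have h5 : (u : ZMod p) * lK K v = (u' : ZMod p) * lK K v := LinearMap.congr_fun h4 v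
      rw [hv, mul_one, mul_one] at h5
      rw [Units.ext h5]
    · rintro ⟨l, hl⟩
      let K : NetC_H p E := ⟨LinearMap.ker l, l, hl, rfl⟩
      obtain ⟨v, hv⟩ := NetC_surj (lK K) (h0 K) 1
      have hv0 : l v ≠ 0 := by
        intro h
        have h2 : v ∈ LinearMap.ker (lK K) := by
          rw [h1 K]
          exact h
        rw [LinearMap.mem_ker, hv] at h2
        exact one_ne_zero h2
      refine ⟨(K, Units.mk0 (l v) hv0), Subtype.ext (LinearMap.ext fun x => ?_)⟩
      change l v * lK K x = l x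
      have h2 : x - (lK K x) • v ∈ LinearMap.ker (lK K) := by
        rw [LinearMap.mem_ker, map_sub, map_smul, hv, smul_eq_mul, mul_one, sub_self]
      rw [h1 K] at h2
      have h3 : l (x - (lK K x) • v) = 0 := h2
      rw [map_sub, map_smul, smul_eq_mul, sub_eq_zero] at h3
      rw [h3, mul_comm]
  rw [← hF.sum_comp fun l : {l : Module.Dual (ZMod p) E // l ≠ 0} =>
    φ ⟨LinearMap.ker l.1, l.1, l.2, rfl⟩]
  have h2 : ∀ x : NetC_H p E × (ZMod p)ˣ,
      φ ⟨LinearMap.ker (F x).1, (F x).1, (F x).2, rfl⟩ = φ x.1 := fun x => by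
    congr 1
    exact Subtype.ext (hker x)
  rw [Finset.sum_congr rfl fun x _ => h2 x, Fintype.sum_prod_type, Finset.mul_sum]
  refine Finset.sum_congr rfl fun K _ => ?_
  change ∑ y : (ZMod p)ˣ, φ K = _
  rw [Finset.sum_const, Finset.card_univ, ZMod.card_units, nsmul_eq_mul,
    Nat.cast_sub (Fact.out : p.Prime).one_le, Nat.cast_one]

private theorem NetC_sumD [Fintype (Module.Dual (ZMod p) E)] [Fintype E] [DecidableEq E] (x : E) :
    ∑ l : Module.Dual (ZMod p) E, (if l x = 0 then (p : ℤ) - 1 else -1) =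
      if x = 0 then ((p : ℤ) - 1) * Fintype.card E else 0 := by
  classical
  haveI : NeZero p := ⟨(Fact.out : p.Prime).ne_zero⟩
  by_cases hx : x = 0
  · rw [if_pos hx]
    subst hx
    simp only [map_zero, if_true]
    rw [Finset.sum_const, Finset.card_univ, nsmul_eq_mul, mul_comm]
    congr 2
    rw [Module.card_eq_pow_finrank (K := ZMod p) (V := E),
      Module.card_eq_pow_finrank (K := ZMod p) (V := Module.Dual (ZMod p) E),
      Subspace.dual_finrank_eq]
  · rw [if_neg hx]
    have h1 : ∃ l₀ : Module.Dual (ZMod p) E, l₀ x = 1 := by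
      have h2 : ¬ ∀ l : Module.Dual (ZMod p) E, l x = 0 := fun h =>
        hx ((Module.forall_dual_apply_eq_zero_iff (ZMod p) x).mp h)
      push Not at h2
      obtain ⟨l, hl⟩ := h2
      refine ⟨(l x)⁻¹ • l, ?_⟩
      rw [LinearMap.smul_apply, smul_eq_mul, inv_mul_cancel₀ hl]
    obtain ⟨l₀, hl₀⟩ := h1
    let T : Module.Dual (ZMod p) E → ℤ := fun l => if l x = 0 then (p : ℤ) - 1 else -1
    have h2 : ∀ a : ZMod p, ∑ l, T (l + a • l₀) = ∑ l, T l := fun a =>
      Fintype.sum_equiv (Equiv.addRight (a • l₀)) _ _ fun l => rfl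
    have h3 : ∀ l, ∑ a : ZMod p, T (l + a • l₀) = 0 := by
      intro l
      have h4 : ∀ a : ZMod p, T (l + a • l₀) = (if a = - l x then (p : ℤ) else 0) - 1 := by
        intro a
        have h5 : (l + a • l₀) x = l x + a := by
          rw [LinearMap.add_apply, LinearMap.smul_apply, hl₀, smul_eq_mul, mul_one]
        have h8 : T (l + a • l₀) = if l x + a = 0 then (p : ℤ) - 1 else -1 :=
          if_congr (by rw [h5]) rfl rfl
        rw [h8]
        by_cases h6 : a = - l x
        · rw [if_pos h6, if_pos (by rw [h6, add_neg_cancel])]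
        · rw [if_neg h6, if_neg fun h7 => h6 (eq_neg_of_add_eq_zero_right h7), zero_sub]
      rw [Finset.sum_congr rfl fun a _ => h4 a, Finset.sum_sub_distrib, Finset.sum_ite_eq',
        if_pos (Finset.mem_univ _), Finset.sum_const, Finset.card_univ, ZMod.card, nsmul_eq_mul,
        mul_one, sub_self]
    have h4 : (p : ℤ) * ∑ l, T l = 0 := by
      have h5 : ∑ a : ZMod p, ∑ l, T (l + a • l₀) = (p : ℤ) * ∑ l, T l := by
        rw [Finset.sum_congr rfl fun a _ => h2 a, Finset.sum_const, Finset.card_univ, ZMod.card,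
          nsmul_eq_mul]
      rw [← h5, Finset.sum_comm, Finset.sum_congr rfl fun l _ => h3 l, Finset.sum_const_zero]
    rcases mul_eq_zero.mp h4 with h5 | h5
    · exact absurd (by exact_mod_cast h5) (Fact.out : p.Prime).ne_zero
    · exact h5

private theorem NetC_sumK [Fintype (NetC_H p E)] [Fintype E] [DecidableEq E] (x : E)
    [∀ K : NetC_H p E, Decidable (x ∈ K.1)] :
    1 + ∑ K : NetC_H p E, (if x ∈ K.1 then (p : ℤ) - 1 else -1) =
      if x = 0 then (Fintype.card E : ℤ) else 0 := by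
  classical
  haveI := NetC_finD (p := p) (E := E)
  letI : Fintype (Module.Dual (ZMod p) E) := Fintype.ofFinite _
  let φ : NetC_H p E → ℤ := fun K => if x ∈ K.1 then (p : ℤ) - 1 else -1
  have h1 := NetC_fib (p := p) (E := E) φ
  have h2 := NetC_sumD (p := p) (E := E) x
  rw [Fintype.sum_eq_add_sum_subtype_ne _ 0] at h2
  have h3 : ∑ l : {l : Module.Dual (ZMod p) E // l ≠ 0},
      (if l.1 x = 0 then (p : ℤ) - 1 else -1) =
      ∑ l : {l : Module.Dual (ZMod p) E // l ≠ 0}, φ ⟨LinearMap.ker l.1, l.1, l.2, rfl⟩ :=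
    Finset.sum_congr rfl fun l _ => if_congr LinearMap.mem_ker.symm rfl rfl
  rw [h3, h1, LinearMap.zero_apply, if_pos rfl] at h2
  have hp : ((p : ℤ) - 1) ≠ 0 := by
    have h4 := (Fact.out : p.Prime).one_lt
    have h5 : (1 : ℤ) < p := by exact_mod_cast h4
    linarith
  have h6 : ((p : ℤ) - 1) * (1 + ∑ K : NetC_H p E, φ K) =
      ((p : ℤ) - 1) * (if x = 0 then (Fintype.card E : ℤ) else 0) := by
    rw [mul_add, mul_one, h2]
    split_ifs
    · rfl
    · rw [mul_zero]
  exact mul_left_cancel₀ hp h6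

variable (p E) in
/-- The net of a vector space. -/
private noncomputable def NetC_net [Fintype E] [Fintype (NetC_H p E)] [Fintype (NetC_C p E)] :
    Net (p ^ Module.finrank (ZMod p) E) p (p ^ (Module.finrank (ZMod p) E - 1)) E (NetC_H p E)
      (NetC_C p E) where
  π c := c.1.1
  inc c s := s ∈ c.1.2
  one K s := NetC_one K s
  cls K := by
    classical
    refine Eq.trans ?_ (NetC_cls K)
    congr
  cnt s s' := by
    classical
    have h1 := NetC_sumK (p := p) (s - s')
    have h2 : (Fintype.card E : ℤ) = ((p ^ Module.finrank (ZMod p) E : ℕ) : ℤ) := by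
      rw [Module.card_eq_pow_finrank (K := ZMod p) (V := E), ZMod.card]
    rw [h2] at h1
    have h3 : (if s - s' = 0 then ((p ^ Module.finrank (ZMod p) E : ℕ) : ℤ) else 0) =
        if s = s' then ((p ^ Module.finrank (ZMod p) E : ℕ) : ℤ) else 0 :=
      if_congr sub_eq_zero rfl rfl
    rw [h3] at h1
    rw [← h1]
    congr 1
    refine Finset.sum_congr rfl fun K _ => ?_
    by_cases h : s - s' ∈ K.1
    · rw [if_pos h, if_pos ((NetC_ex K s s').mpr h)]
    · rw [if_neg h, if_neg fun h' => h ((NetC_ex K s s').mp h')]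
  card := by rw [Module.card_eq_pow_finrank (K := ZMod p) (V := E), ZMod.card]
  wp := by
    rintro ⟨⟨K, l, hl, -⟩⟩
    have h1 : Module.finrank (ZMod p) E ≠ 0 := by
      intro h
      refine hl (LinearMap.ext fun x => ?_)
      haveI := Module.finrank_zero_iff.mp h
      rw [Subsingleton.elim x 0, map_zero, map_zero]
    rw [← pow_succ', Nat.sub_add_cancel (Nat.one_le_iff_ne_zero.mpr h1)]

end Abs

section Act

variable {p : ℕ} [Fact p.Prime] {E : Type} [AddCommGroup E] [Module (ZMod p) E] {G : Type}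
  [Group G]

/-- An affine action. -/
private structure NetC_D (p : ℕ) [Fact p.Prime] (E : Type) [AddCommGroup E] [Module (ZMod p) E]
    (G : Type) [Group G] where
  ρ : G → E →ₗ[ZMod p] E
  τ : G → E
  ρ1 : ρ 1 = LinearMap.id
  ρm : ∀ g h, ρ (g * h) = (ρ g).comp (ρ h)
  τm : ∀ g h, τ (g * h) = ρ g (τ h) + τ g

private theorem NetC_t1 (D : NetC_D p E G) : D.τ 1 = 0 := by
  have h := D.τm 1 1
  rw [mul_one, D.ρ1, LinearMap.id_apply] at h
  exact left_eq_add.mp h

private theorem NetC_ri (D : NetC_D p E G) (g : G) (x : E) : D.ρ g⁻¹ (D.ρ g x) = x := by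
  have h := D.ρm g⁻¹ g
  rw [inv_mul_cancel, D.ρ1] at h
  exact (LinearMap.congr_fun h x).symm

private theorem NetC_ir (D : NetC_D p E G) (g : G) (x : E) : D.ρ g (D.ρ g⁻¹ x) = x := by
  have h := D.ρm g g⁻¹
  rw [mul_inv_cancel, D.ρ1] at h
  exact (LinearMap.congr_fun h x).symm

/-- The action on the points. -/
private def NetC_aS (D : NetC_D p E G) : MulAction G E where
  smul g s := D.ρ g s + D.τ g
  one_smul s := by
    change D.ρ 1 s + D.τ 1 = s
    rw [D.ρ1, NetC_t1, add_zero, LinearMap.id_apply]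
  mul_smul g h s := by
    change D.ρ (g * h) s + D.τ (g * h) = D.ρ g (D.ρ h s + D.τ h) + D.τ g
    rw [D.ρm, D.τm, map_add, add_assoc, LinearMap.comp_apply]

private theorem NetC_kerm (D : NetC_D p E G) (g : G) (K : NetC_H p E) :
    ∃ l : Module.Dual (ZMod p) E, l ≠ 0 ∧ LinearMap.ker l = K.1.map (D.ρ g) := by
  obtain ⟨l, hl, hK⟩ := K.2
  refine ⟨l.comp (D.ρ g⁻¹), ?_, ?_⟩
  · intro h
    refine hl (LinearMap.ext fun x => ?_)
    have h1 := LinearMap.congr_fun h (D.ρ g x)
    rw [LinearMap.comp_apply, NetC_ri] at h1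
    exact h1
  · ext x
    rw [LinearMap.mem_ker, LinearMap.comp_apply, Submodule.mem_map]
    constructor
    · intro h
      refine ⟨D.ρ g⁻¹ x, ?_, NetC_ir D g x⟩
      rw [← hK]
      exact h
    · rintro ⟨y, hy, rfl⟩
      rw [NetC_ri]
      rw [← hK] at hy
      exact hy

/-- The action on the hyperplanes. -/
private def NetC_aH (D : NetC_D p E G) : MulAction G (NetC_H p E) where
  smul g K := ⟨K.1.map (D.ρ g), NetC_kerm D g K⟩
  one_smul K := Subtype.ext (by
    change K.1.map (D.ρ 1) = K.1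
    rw [D.ρ1, Submodule.map_id])
  mul_smul g h K := Subtype.ext (by
    change K.1.map (D.ρ (g * h)) = (K.1.map (D.ρ h)).map (D.ρ g)
    rw [D.ρm, Submodule.map_comp])

private theorem NetC_cos (D : NetC_D p E G) (g : G) (c : NetC_C p E) :
    ∃ s, (fun s => D.ρ g s + D.τ g) '' c.1.2 = {s' | s' - s ∈ c.1.1.1.map (D.ρ g)} := by
  obtain ⟨s, hs⟩ := c.2
  refine ⟨D.ρ g s + D.τ g, ?_⟩
  rw [hs]
  ext t
  constructor
  · rintro ⟨s', h, rfl⟩
    refine ⟨s' - s, h, ?_⟩
    rw [map_sub]
    change D.ρ g s' - D.ρ g s = (D.ρ g s' + D.τ g) - (D.ρ g s + D.τ g)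
    rw [add_sub_add_right_eq_sub]
  · rintro ⟨k, hk, h⟩
    refine ⟨s + k, ?_, ?_⟩
    · change s + k - s ∈ c.1.1.1
      rwa [add_sub_cancel_left]
    · change D.ρ g (s + k) + D.τ g = t
      rw [map_add, h]
      abel

/-- The action on the affine hyperplanes. -/
private def NetC_aC (D : NetC_D p E G) : MulAction G (NetC_C p E) where
  smul g c := ⟨((NetC_aH D).smul g c.1.1, (fun s => D.ρ g s + D.τ g) '' c.1.2), NetC_cos D g c⟩
  one_smul c := Subtype.ext (Prod.ext ((NetC_aH D).one_smul c.1.1) (by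
    change (fun s => D.ρ 1 s + D.τ 1) '' c.1.2 = c.1.2
    have h : (fun s => D.ρ 1 s + D.τ 1) = id := funext fun s => (NetC_aS D).one_smul s
    rw [h, Set.image_id]))
  mul_smul g h c := Subtype.ext (Prod.ext ((NetC_aH D).mul_smul g h c.1.1) (by
    change (fun s => D.ρ (g * h) s + D.τ (g * h)) '' c.1.2 =
      (fun s => D.ρ g s + D.τ g) '' ((fun s => D.ρ h s + D.τ h) '' c.1.2)
    rw [Set.image_image]
    refine congrArg (fun f => f '' c.1.2) (funext fun s => ?_)
    exact (NetC_aS D).mul_smul g h s))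

private theorem NetC_inj (D : NetC_D p E G) (g : G) :
    Function.Injective fun s => D.ρ g s + D.τ g := by
  intro s s' h
  have h1 : D.ρ g s = D.ρ g s' := add_right_cancel h
  rw [← NetC_ri D g s, h1, NetC_ri]

end Act

private theorem NetC_covBy {p : ℕ} [Fact p.Prime] {M : Type} [AddCommGroup M]
    [Module (ZMod p) M] (V : Submodule (ZMod p) M) (K : NetC_H p V) :
    K.1.map V.subtype ⋖ V := by
  obtain ⟨l, hl, hK⟩ := K.2
  have h1 : IsCoatom K.1 := by
    rw [← hK]
    exact LinearMap.isCoatom_ker_of_surjective (NetC_surj l hl)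
  refine ⟨?_, ?_⟩
  · refine lt_of_le_of_ne (Submodule.map_subtype_le V K.1) ?_
    intro h
    refine h1.1 (eq_top_iff.mpr fun x _ => ?_)
    have h2 : (x : M) ∈ K.1.map V.subtype := by
      rw [h]
      exact x.2
    obtain ⟨y, hy, hxy⟩ := h2
    have h3 : y = x := Subtype.ext hxy
    rw [← h3]
    exact hy
  · intro Y hKY hYV
    have h2 : K.1 < Y.comap V.subtype := by
      refine lt_of_le_of_ne (fun x hx => hKY.le ⟨x, hx, rfl⟩) ?_
      intro h
      refine hKY.ne ?_
      rw [h, Submodule.map_comap_subtype, inf_eq_right.mpr hYV.le]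
    have h3 := h1.2 _ h2
    refine hYV.not_ge fun x hx => ?_
    have h4 : (⟨x, hx⟩ : V) ∈ Y.comap V.subtype := by
      rw [h3]
      exact Submodule.mem_top
    exact h4

theorem net : S_E → S_net := by
  intro hE G _ ι _ A p _ u hu
  haveI : NeZero p := ⟨(Fact.out : p.Prime).ne_zero⟩
  obtain ⟨hE1, hE2⟩ := hE G ι A p
  have hpm : ∀ g h : G, ∀ x : ι → ZMod p, pm (ZMod p) (A.sg (g * h)) x =
      pm (ZMod p) (A.sg g) (pm (ZMod p) (A.sg h) x) := by
    intro g h x
    funext i
    simp only [pm, LinearMap.funLeft_apply]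
    rw [map_mul, mul_inv_rev, Equiv.Perm.mul_apply]
  let D : NetC_D p (A.E p) G :=
    { ρ := fun g => (pm (ZMod p) (A.sg g)).restrict (fun x hx => by
        rw [← hE2 g]
        exact Submodule.mem_map_of_mem hx)
      τ := fun g => ⟨fun i => ((A.act g u i - u i : ℤ) : ZMod p), hu g⟩
      ρ1 := by
        refine LinearMap.ext fun x => Subtype.ext (funext fun i => ?_)
        change x.1 ((A.sg 1)⁻¹ i) = x.1 i
        rw [map_one, inv_one, Equiv.Perm.one_apply]
      ρm := fun g h => LinearMap.ext fun x => Subtype.ext (hpm g h x.1)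
      τm := fun g h => by
        refine Subtype.ext (funext fun i => ?_)
        change ((A.act (g * h) u i - u i : ℤ) : ZMod p) =
          ((A.act h u ((A.sg g)⁻¹ i) - u ((A.sg g)⁻¹ i) : ℤ) : ZMod p) +
            ((A.act g u i - u i : ℤ) : ZMod p)
        rw [← Int.cast_add]
        congr 1
        simp only [Aff.act]
        rw [A.mul g h i, map_mul, mul_inv_rev, Equiv.Perm.mul_apply]
        ring }
  letI i1 : Fintype (A.E p) := Fintype.ofFinite _
  letI i2 : Fintype (NetC_H p (A.E p)) := @Fintype.ofFinite _ NetC_finH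
  letI i3 : Fintype (NetC_C p (A.E p)) := @Fintype.ofFinite _ NetC_finC
  refine ⟨Module.finrank (ZMod p) (A.E p), p ^ (Module.finrank (ZMod p) (A.E p) - 1), A.E p,
    NetC_H p (A.E p), NetC_C p (A.E p), i1, Classical.decEq _, i2, Classical.decEq _, i3,
    Classical.decEq _, NetC_aS D, NetC_aH D, NetC_aC D, NetC_net p (A.E p), 0, ?_, ?_, ?_, ?_, ?_⟩
  · intro g c
    rfl
  · intro g c s
    exact (NetC_inj D g).mem_set_image
  · intro s
    obtain ⟨g, hg, hs⟩ := hE1 s.1 s.2
    refine ⟨g, Subtype.ext (funext fun i => ?_)⟩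
    change (D.ρ g 0 + D.τ g).1 i = s.1 i
    rw [map_zero, zero_add, hs]
    change ((A.act g u i - u i : ℤ) : ZMod p) = (A.v g i : ZMod p)
    congr 1
    simp only [Aff.act]
    rw [hg, inv_one, Equiv.Perm.one_apply]
    ring
  · intro g hg i
    have h1 : D.ρ g 0 + D.τ g = 0 := hg
    rw [map_zero, zero_add] at h1
    have h2 : ((A.act g u i - u i : ℤ) : ZMod p) = 0 := congrFun (congrArg Subtype.val h1) i
    exact (ZMod.intCast_zmod_eq_zero_iff_dvd _ p).mp h2
  · intro K
    refine ⟨K.1.map (A.E p).subtype, NetC_covBy _ K, fun g hg => ?_⟩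
    have h1 : K.1.map (D.ρ g) = K.1 := congrArg Subtype.val hg
    have h2 : (pm (ZMod p) (A.sg g)).comp (A.E p).subtype =
        (A.E p).subtype.comp (D.ρ g) := LinearMap.ext fun x => rfl
    rw [← Submodule.map_comp, h2, Submodule.map_comp, h1]

end Pool.Agent.FH
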