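import Pool.Agent.Lib.MP_8f66f0_al_FH.ASpec

/-! The two matrices of a net. -/

set_option autoImplicit false

namespace Pool.Agent.FH

open Pool.Agent.Wald Pool.Agent.WaldL Pool.Agent.Ind Filter

section

variable {P p w : ℕ} {S H C : Type} [Fintype S] [Fintype H] [Fintype C]

open Classical in
private noncomputable def Radon_i (N : Net P p w S H C) (c : C) (s : S) : ℤ :=
  if N.inc c s then 1 else 0

open Classical in
private noncomputable def Radon_k (N : Net P p w S H C) (c : C) (K : H) : ℤ :=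
  if N.π c = K then 1 else 0

private noncomputable def Radon_f (N : Net P p w S H C) : Matrix (Option C) (S ⊕ H) ℤ :=
  fun x y => x.elim (Sum.elim (fun _ => 1) (fun _ => 0) y)
    (fun c => Sum.elim (Radon_i N c) (Radon_k N c) y)

private noncomputable def Radon_g (N : Net P p w S H C) : Matrix (S ⊕ H) (Option C) ℤ :=
  fun y x => Sum.elim (fun s => x.elim 1 (fun c => (p : ℤ) * Radon_i N c s - 1))
    (fun K => x.elim (-(w : ℤ)) (fun c => (w : ℤ) * Radon_k N c K)) y

open Classical in
private theorem Radon_sum (N : Net P p w S H C) (g : C → ℤ) :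
    ∑ c, g c = ∑ K : H, ∑ c ∈ Finset.univ.filter (fun c => N.π c = K), g c :=
  (Finset.sum_fiberwise Finset.univ N.π g).symm

open Classical in
private theorem Radon_one (N : Net P p w S H C) (g : C → ℤ) (K : H) (s : S) (c0 : C)
    (h0 : N.π c0 = K ∧ N.inc c0 s) :
    ∑ c ∈ Finset.univ.filter (fun c => N.π c = K), g c * Radon_i N c s = g c0 := by
  obtain ⟨c1, -, h3⟩ := N.one K s
  have hc : c0 = c1 := h3 c0 h0
  rw [Finset.sum_eq_single c0]
  · unfold Radon_i
    rw [if_pos h0.2, mul_one]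
  · intro c hc1 hc2
    rw [Finset.mem_filter] at hc1
    unfold Radon_i
    rw [if_neg, mul_zero]
    intro h4
    exact hc2 ((h3 c ⟨hc1.2, h4⟩).trans hc.symm)
  · intro h4
    exact (h4 (Finset.mem_filter.2 ⟨Finset.mem_univ _, h0.1⟩)).elim

open Classical in
private theorem Radon_fil (N : Net P p w S H C) (g : C → ℤ) (K : H) :
    ∑ c, g c * Radon_k N c K = ∑ c ∈ Finset.univ.filter (fun c => N.π c = K), g c := by
  unfold Radon_k
  rw [Finset.sum_filter]
  refine Finset.sum_congr rfl fun c _ => ?_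
  by_cases h : N.π c = K
  · rw [if_pos h, if_pos h, mul_one]
  · rw [if_neg h, if_neg h, mul_zero]

open Classical in
private theorem Radon_ss (N : Net P p w S H C) (s s' : S) :
    1 + ∑ c, ((p : ℤ) * Radon_i N c s - 1) * Radon_i N c s' = if s = s' then (P : ℤ) else 0 := by
  rw [Radon_sum N]
  have h := N.cnt s s'
  have h2 : ∀ K : H, ∑ c ∈ Finset.univ.filter (fun c => N.π c = K),
      ((p : ℤ) * Radon_i N c s - 1) * Radon_i N c s' =
      if ∃ c, N.π c = K ∧ N.inc c s ∧ N.inc c s' then (p : ℤ) - 1 else -1 := by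
    intro K
    obtain ⟨c0, h0, h3⟩ := N.one K s'
    rw [Radon_one N (fun c => (p : ℤ) * Radon_i N c s - 1) K s' c0 h0]
    unfold Radon_i
    by_cases h4 : N.inc c0 s
    · rw [if_pos h4, if_pos ⟨c0, h0.1, h4, h0.2⟩, mul_one]
    · rw [if_neg h4, if_neg, mul_zero, zero_sub]
      rintro ⟨c, h5, h6, h7⟩
      rw [h3 c ⟨h5, h7⟩] at h6
      exact h4 h6
  rw [Finset.sum_congr rfl fun K _ => h2 K]
  by_cases hs : s = s'
  · rw [if_pos hs] at h ⊢
    exact h
  · rw [if_neg hs] at h ⊢
    exact h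

open Classical in
private theorem Radon_gf (N : Net P p w S H C) (x y : S ⊕ H) :
    (Radon_g N * Radon_f N) x y = (P : ℤ) • (if x = y then (1 : ℤ) else 0) := by
  rw [Matrix.mul_apply, Fintype.sum_option]
  have hcls : ∀ K : H, ∑ _c ∈ Finset.univ.filter (fun c => N.π c = K), (1 : ℤ) = p := by
    intro K
    rw [Finset.sum_const, nsmul_eq_mul, mul_one]
    have := N.cls K
    exact_mod_cast this
  rcases x with s | K <;> rcases y with s' | K'
  · change (1 : ℤ) * 1 + ∑ c, ((p : ℤ) * Radon_i N c s - 1) * Radon_i N c s' = _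
    rw [one_mul, Radon_ss]
    by_cases hs : s = s'
    · subst hs
      simp
    · rw [if_neg hs, if_neg (fun h => hs (Sum.inl.inj h)), smul_zero]
  · change (1 : ℤ) * 0 + ∑ c, ((p : ℤ) * Radon_i N c s - 1) * Radon_k N c K' = _
    rw [Radon_fil, if_neg (by simp), smul_zero, Finset.sum_sub_distrib, hcls]
    obtain ⟨c0, h0, h3⟩ := N.one K' s
    rw [Radon_one N (fun _ => (p : ℤ)) K' s c0 h0]
    ring
  · change (-(w : ℤ)) * 1 + ∑ c, ((w : ℤ) * Radon_k N c K) * Radon_i N c s' = _
    rw [if_neg (by simp), smul_zero]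
    have h1 : ∑ c, ((w : ℤ) * Radon_k N c K) * Radon_i N c s' =
        ∑ c, ((w : ℤ) * Radon_i N c s') * Radon_k N c K :=
      Finset.sum_congr rfl fun c _ => by ring
    obtain ⟨c0, h0, h3⟩ := N.one K s'
    rw [h1, Radon_fil, Radon_one N (fun _ => (w : ℤ)) K s' c0 h0]
    ring
  · change (-(w : ℤ)) * 0 + ∑ c, ((w : ℤ) * Radon_k N c K) * Radon_k N c K' = _
    rw [Radon_fil]
    have h1 : ∀ c ∈ Finset.univ.filter (fun c => N.π c = K'),
        (w : ℤ) * Radon_k N c K = (if K' = K then (w : ℤ) else 0) * 1 := by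
      intro c hc
      rw [Finset.mem_filter] at hc
      unfold Radon_k
      rw [hc.2]
      by_cases h : K' = K
      · rw [if_pos h, if_pos h]
      · rw [if_neg h, if_neg h, mul_zero, zero_mul]
    rw [Finset.sum_congr rfl h1, ← Finset.mul_sum, hcls]
    by_cases h : K' = K
    · have h2 := N.wp ⟨K⟩
      subst h
      rw [if_pos rfl, if_pos rfl, ← h2]
      push_cast
      simp [mul_comm]
    · rw [if_neg h, if_neg (fun h' => h (Sum.inr.inj h').symm)]
      simp

open Classical in
private theorem Radon_card (N : Net P p w S H C) (hP : 0 < P) :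
    Fintype.card (Option C) = Fintype.card (S ⊕ H) := by
  rw [Fintype.card_option, Fintype.card_sum, N.card]
  have hC : Fintype.card C = Fintype.card H * p := by
    have h1 := Finset.card_eq_sum_card_fiberwise (f := N.π) (s := (Finset.univ : Finset C))
      (t := (Finset.univ : Finset H)) (fun c _ => Finset.mem_coe.2 (Finset.mem_univ _))
    rw [Finset.card_univ] at h1
    rw [h1]
    have h2 : ∀ K ∈ (Finset.univ : Finset H), (Finset.univ.filter fun c => N.π c = K).card = p :=
      fun K _ => N.cls K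
    rw [Finset.sum_congr rfl h2, Finset.sum_const, Finset.card_univ, smul_eq_mul]
  have hne : 0 < Fintype.card S := by
    rw [N.card]
    exact hP
  obtain ⟨s⟩ := Fintype.card_pos_iff.1 hne
  have h := N.cnt s s
  have h2 : ∀ K ∈ (Finset.univ : Finset H),
      (if ∃ c, N.π c = K ∧ N.inc c s ∧ N.inc c s then (p : ℤ) - 1 else -1) = (p : ℤ) - 1 := by
    intro K _
    obtain ⟨c0, h0, -⟩ := N.one K s
    rw [if_pos ⟨c0, h0.1, h0.2, h0.2⟩]
  rw [if_pos rfl] at h
  have h3 : (1 : ℤ) + Fintype.card H * ((p : ℤ) - 1) = P := by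
    rw [← h]
    congr 1
    refine Eq.trans ?_ (Finset.sum_congr rfl fun K hK => (h2 K hK).symm)
    rw [Finset.sum_const, Finset.card_univ, nsmul_eq_mul]
  rw [hC]
  have h4 : ((Fintype.card H * p + 1 : ℕ) : ℤ) = ((P + Fintype.card H : ℕ) : ℤ) := by
    push_cast
    rw [← h3]
    ring
  exact_mod_cast h4

private theorem Radon_comm {X Y : Type} [Fintype X] [DecidableEq X] [Fintype Y] [DecidableEq Y]
    (f : Matrix X Y ℤ) (g : Matrix Y X ℤ) (P : ℕ) (hP : 0 < P)
    (hc : Fintype.card X = Fintype.card Y) (h : g * f = (P : ℤ) • 1) : f * g = (P : ℤ) • 1 := by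
  have hP0 : (P : ℚ) ≠ 0 := by exact_mod_cast hP.ne'
  have h1 : g.map (Int.castRingHom ℚ) * f.map (Int.castRingHom ℚ) = (P : ℚ) • 1 := by
    rw [← Matrix.map_mul, h]
    ext i j
    rw [Matrix.map_apply, Matrix.smul_apply, Matrix.smul_apply, Matrix.one_apply,
      Matrix.one_apply]
    by_cases hij : i = j
    · rw [if_pos hij, if_pos hij, smul_eq_mul, smul_eq_mul, mul_one, mul_one]
      simp
    · rw [if_neg hij, if_neg hij, smul_zero, smul_zero, map_zero]
  have h2 : ((P : ℚ)⁻¹ • g.map (Int.castRingHom ℚ)) * f.map (Int.castRingHom ℚ) = 1 := by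
    rw [Matrix.smul_mul, h1, smul_smul, inv_mul_cancel₀ hP0, one_smul]
  have h3 := (Matrix.mul_eq_one_comm_of_card_eq (R := ℚ) (n := X) (m := Y) (eq := hc.symm)).1 h2
  rw [Matrix.mul_smul] at h3
  have h4 : f.map (Int.castRingHom ℚ) * g.map (Int.castRingHom ℚ) = (P : ℚ) • 1 := by
    rw [← h3, smul_smul, mul_inv_cancel₀ hP0, one_smul]
  rw [← Matrix.map_mul] at h4
  ext i j
  have h5 := congrFun (congrFun h4 i) j
  rw [Matrix.map_apply, Matrix.smul_apply, Matrix.one_apply] at h5
  rw [Matrix.smul_apply, Matrix.one_apply]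
  by_cases hij : i = j
  · rw [if_pos hij] at h5 ⊢
    simp only [smul_eq_mul, mul_one, eq_intCast] at h5 ⊢
    exact_mod_cast h5
  · rw [if_neg hij] at h5 ⊢
    simp only [smul_eq_mul, mul_zero, eq_intCast] at h5 ⊢
    exact_mod_cast h5

end

theorem radon : S_radon := by
  intro P p w _ hP S H C _ _ _ _ _ _ N
  have hgf : Radon_g N * Radon_f N = (P : ℤ) • 1 := by
    ext x y
    rw [Radon_gf, Matrix.smul_apply, Matrix.one_apply]
    by_cases h : x = y
    · rw [if_pos h, if_pos h]
    · rw [if_neg h, if_neg h]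
  refine ⟨Radon_f N, Radon_g N, Radon_comm _ _ P hP (Radon_card N hP) hgf, hgf, ?_⟩
  intro G _ _ _ _ hπ hi
  have e1 : ∀ (g : G) c s, Radon_i N (g • c) (g • s) = Radon_i N c s := by
    intro g c s
    unfold Radon_i
    by_cases h : N.inc c s
    · rw [if_pos h, if_pos ((hi g c s).2 h)]
    · rw [if_neg h, if_neg (fun h' => h ((hi g c s).1 h'))]
  have e2 : ∀ (g : G) c K, Radon_k N (g • c) (g • K) = Radon_k N c K := by
    intro g c K
    unfold Radon_k
    rw [hπ]
    by_cases h : N.π c = K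
    · rw [if_pos h, if_pos (congrArg _ h)]
    · rw [if_neg h, if_neg (fun h' => h (smul_left_cancel g h'))]
  constructor
  · intro g x y
    rcases x with _ | c <;> rcases y with s | K
    · rfl
    · rfl
    · exact e1 g c s
    · exact e2 g c K
  · intro g y x
    rcases x with _ | c <;> rcases y with s | K
    · rfl
    · rfl
    · change (p : ℤ) * Radon_i N (g • c) (g • s) - 1 = (p : ℤ) * Radon_i N c s - 1
      rw [e1]
    · change (w : ℤ) * Radon_k N (g • c) (g • K) = (w : ℤ) * Radon_k N c K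
      rw [e2]

end Pool.Agent.FH
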