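import Pool.Agent.Lib.MP_8f66f0_al_FH.ASpec

/-! Theorem FH, part 1: the measure. -/

set_option autoImplicit false

namespace Pool.Agent.FH

open Pool.Agent.Wald Pool.Agent.WaldL Pool.Agent.Ind

section

variable {G : Type} [Group G] {ι : Type} [Fintype ι] [DecidableEq ι]

/-- The rational span of the translations. -/
private noncomputable def Rank_sp (A : Aff G ι) : Submodule ℚ (ι → ℚ) :=
  Submodule.span ℚ {x : ι → ℚ | ∃ g, A.sg g = 1 ∧ x = fun i => (A.v g i : ℚ)}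

private theorem Rank_le (A : Aff G ι) (U : Subgroup G) : Rank_sp (A.res U) ≤ Rank_sp A := by
  refine Submodule.span_mono ?_
  rintro x ⟨g, hg, rfl⟩
  exact ⟨g, hg, rfl⟩

/-- The linear functional of `μ`. -/
private def Rank_fn (μ : ι → ℤ) : (ι → ℚ) →ₗ[ℚ] ℚ :=
  ∑ i, (μ i : ℚ) • LinearMap.proj i

private theorem Rank_fn_apply (μ : ι → ℤ) (w : ι → ℤ) :
    Rank_fn μ (fun i => (w i : ℚ)) = ((∑ i, μ i * w i : ℤ) : ℚ) := by
  rw [Rank_fn, LinearMap.sum_apply]
  push_cast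
  refine Finset.sum_congr rfl fun i _ => ?_
  rw [LinearMap.smul_apply, LinearMap.proj_apply, smul_eq_mul]

private theorem Rank_lt (A : Aff G ι) (U : Subgroup G) (μ : ι → ℤ)
    (h1 : ∃ g, A.sg g = 1 ∧ ∑ i, μ i * A.v g i ≠ 0)
    (h2 : ∀ g ∈ U, A.sg g = 1 → ∑ i, μ i * A.v g i = 0) : Rank_sp (A.res U) < Rank_sp A := by
  refine lt_of_le_of_ne (Rank_le A U) ?_
  intro h
  obtain ⟨g, hg, hne⟩ := h1
  have h3 : Rank_sp (A.res U) ≤ LinearMap.ker (Rank_fn μ) := by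
    refine Submodule.span_le.mpr ?_
    rintro x ⟨k, hk, rfl⟩
    change Rank_fn μ (fun i => ((A.v (k : G) i : ℤ) : ℚ)) = 0
    rw [Rank_fn_apply, h2 k k.2 hk, Int.cast_zero]
  have h4 : (fun i => (A.v g i : ℚ)) ∈ Rank_sp A := Submodule.subset_span ⟨g, hg, rfl⟩
  rw [← h] at h4
  have h5 : Rank_fn μ (fun i => (A.v g i : ℚ)) = 0 := h3 h4
  rw [Rank_fn_apply] at h5
  exact hne (by exact_mod_cast h5)

private theorem Rank_zero (A : Aff G ι) (h : Rank_sp A = ⊥) (g : G) (hg : A.sg g = 1) (i : ι) :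
    A.v g i = 0 := by
  have h4 : (fun i => (A.v g i : ℚ)) ∈ Rank_sp A := Submodule.subset_span ⟨g, hg, rfl⟩
  rw [h, Submodule.mem_bot] at h4
  have h5 : (A.v g i : ℚ) = 0 := congrFun h4 i
  exact_mod_cast h5

private theorem Rank_dep (A : Aff G ι) (h : Rank_sp A = ⊥) (g k : G) (hg : A.sg g = A.sg k)
    (i : ι) : A.v g i = A.v k i := by
  have h1 : A.sg (k⁻¹ * g) = 1 := by rw [map_mul, map_inv, hg, inv_mul_cancel]
  have h2 := A.mul k (k⁻¹ * g) i
  rw [mul_inv_cancel_left, Rank_zero A h _ h1, add_zero] at h2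
  exact h2

private theorem Rank_small (A : Aff G ι) (h : Rank_sp A = ⊥) : A.Small ⊤ := by
  classical
  let F : Equiv.Perm ι → ι → ℤ := fun s => if hs : ∃ g, A.sg g = s then A.v hs.choose else 0
  have hF : ∀ g i, A.v g i = F (A.sg g) i := by
    intro g i
    have hs : ∃ k, A.sg k = A.sg g := ⟨g, rfl⟩
    have h1 : F (A.sg g) = A.v hs.choose := dif_pos hs
    rw [h1]
    exact Rank_dep A h _ _ hs.choose_spec.symm i
  refine ⟨Finset.univ.sup fun x : Equiv.Perm ι × ι => (F x.1 x.2).natAbs, fun g _ i => ?_⟩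
  rw [hF, Int.abs_eq_natAbs]
  exact_mod_cast Finset.le_sup (f := fun x : Equiv.Perm ι × ι => (F x.1 x.2).natAbs)
    (Finset.mem_univ (A.sg g, i))

private theorem Rank_range (A : Aff G ι) (U : Subgroup G) :
    ((A.res U).sg.range : Set (Equiv.Perm ι)) ⊆ A.sg.range := by
  rintro _ ⟨g, rfl⟩
  exact ⟨g, rfl⟩

end

theorem rank : S_rank := by
  intro G _ ι _ _ A U
  refine ⟨Submodule.finrank_mono (Rank_le A U), fun μ h1 h2 => ?_, fun h => ?_, ?_, ?_⟩
  · exact Submodule.finrank_lt_finrank_of_lt (Rank_lt A U μ h1 h2)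
  · refine Rank_small A ?_
    exact Submodule.finrank_eq_zero.mp h
  · exact Nat.card_mono (Set.toFinite _) (Rank_range A U)
  · rintro ⟨g, hg⟩
    have h1 : ((A.res U).sg.range : Set (Equiv.Perm ι)) ⊂ A.sg.range := by
      refine ⟨Rank_range A U, fun h => ?_⟩
      obtain ⟨k, hk⟩ := h ⟨g, rfl⟩
      exact hg k k.2 hk
    exact Set.ncard_lt_ncard h1 (Set.toFinite _)

end Pool.Agent.FH
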