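import Pool.Agent.Lib.MP_8f66f0_al_FH.ASpec

/-! Twisting with isomorphic permutation modules. -/

set_option autoImplicit false

namespace Pool.Agent.FH

open Pool.Agent.Wald Pool.Agent.WaldL Pool.Agent.Ind Filter

private theorem TwInt_coeff {L : Type} [CommRing L] {G : Type} [Group G] (X : Type)
    [MulAction G X] {n m : Type} (A : Matrix n m (MonoidAlgebra L G)) (q : n × X) (r : m × X)
    (g : G) [Decidable (g • r.2 = q.2)] :
    (tw X A q r).coeff g = if g • r.2 = q.2 then (A q.1 r.1).coeff g else 0 := by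
  unfold tw
  rw [MonoidAlgebra.coeff_ofCoeff, Finsupp.filter_apply]
  split_ifs <;> rfl

private theorem TwInt_unit (hM : S_twM) {L G X : Type} [CommRing L] [Group G] [MulAction G X]
    [Fintype X] [DecidableEq X] {n : Type} [Fintype n] [DecidableEq n]
    {a b : Matrix n n (MonoidAlgebra L G)} (h : a * b = 1) : tw X a * tw X b = 1 := by
  rw [← (hM L G X n a b).1, h, (hM L G X n a b).2]

/-- The matrix `1 ⊗ P`. -/
private def TwInt_ext {X Y : Type} (n : Type) [DecidableEq n] (R : Type) [Ring R]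
    (P : Matrix X Y ℤ) : Matrix (n × X) (n × Y) R :=
  fun q r => if q.1 = r.1 then ((P q.2 r.2 : ℤ) : R) else 0

private theorem TwInt_ext_mul {X Y Z : Type} [Fintype Y] (n : Type) [Fintype n] [DecidableEq n]
    (R : Type) [Ring R] (P : Matrix X Y ℤ) (Q : Matrix Y Z ℤ) :
    TwInt_ext n R P * TwInt_ext n R Q = TwInt_ext n R (P * Q) := by
  ext q r
  rw [Matrix.mul_apply, Fintype.sum_prod_type]
  unfold TwInt_ext
  by_cases h : q.1 = r.1
  · rw [if_pos h, Finset.sum_eq_single r.1]
    · simp only [h, if_true, Matrix.mul_apply]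
      push_cast
      rfl
    · intro j _ hj
      apply Finset.sum_eq_zero
      intro y _
      rw [if_neg hj, mul_zero]
    · intro h'
      exact absurd (Finset.mem_univ _) h'
  · rw [if_neg h]
    apply Finset.sum_eq_zero
    intro j _
    apply Finset.sum_eq_zero
    intro y _
    by_cases hj : q.1 = j
    · rw [if_neg (fun h' => h (hj.trans h')), mul_zero]
    · rw [if_neg hj, zero_mul]

private theorem TwInt_ext_one {X : Type} [DecidableEq X] (n : Type) [DecidableEq n]
    (R : Type) [Ring R] : TwInt_ext n R (1 : Matrix X X ℤ) = 1 := by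
  ext q r
  unfold TwInt_ext
  rw [Matrix.one_apply, Matrix.one_apply]
  by_cases h : q = r
  · subst h
    simp
  · rw [if_neg h]
    by_cases h1 : q.1 = r.1
    · rw [if_pos h1, if_neg (fun h2 => h (Prod.ext h1 h2))]
      simp
    · rw [if_neg h1]

/-- The intertwining relation. -/
private theorem TwInt_comm {L G X Y : Type} [CommRing L] [Group G] [MulAction G X] [Fintype X]
    [MulAction G Y] [Fintype Y] (P : Matrix X Y ℤ)
    (hP : ∀ (g : G) x y, P (g • x) (g • y) = P x y) (n : Type) [Fintype n] [DecidableEq n]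
    (a : Matrix n n (MonoidAlgebra L G)) :
    tw X a * TwInt_ext n (MonoidAlgebra L G) P = TwInt_ext n (MonoidAlgebra L G) P * tw Y a := by
  classical
  have hc : ∀ (f : MonoidAlgebra L G) (k : ℤ) (g : G),
      (f * (k : MonoidAlgebra L G)).coeff g = k * f.coeff g := by
    intro f k g
    rw [← Int.cast_comm, ← zsmul_eq_mul]
    have : (k • f).coeff g = k • f.coeff g := rfl
    rw [this, zsmul_eq_mul]
  have hc' : ∀ (f : MonoidAlgebra L G) (k : ℤ) (g : G),
      ((k : MonoidAlgebra L G) * f).coeff g = k * f.coeff g := by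
    intro f k g
    rw [Int.cast_comm, hc]
  ext q r : 2
  ext g
  obtain ⟨i, x⟩ := q
  obtain ⟨j, y⟩ := r
  rw [Matrix.mul_apply, Matrix.mul_apply, MonoidAlgebra.coeff_sum, MonoidAlgebra.coeff_sum,
    Finsupp.finsetSum_apply, Finsupp.finsetSum_apply]
  rw [Finset.sum_eq_single (j, g⁻¹ • x), Finset.sum_eq_single (i, g • y)]
  · unfold TwInt_ext
    simp only [if_true]
    rw [hc, hc', TwInt_coeff, TwInt_coeff]
    simp only [smul_inv_smul, if_true]
    rw [← hP g (g⁻¹ • x) y, smul_inv_smul]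
  · rintro ⟨k, z⟩ _ hne
    unfold TwInt_ext
    by_cases hk : i = k
    · subst hk
      simp only [if_true]
      rw [hc', TwInt_coeff]
      have : ¬ g • y = z := fun h => hne (by rw [h])
      rw [if_neg this, mul_zero]
    · simp only [if_neg hk, zero_mul]
      rfl
  · intro h
    exact absurd (Finset.mem_univ _) h
  · rintro ⟨k, z⟩ _ hne
    unfold TwInt_ext
    by_cases hk : k = j
    · subst hk
      simp only [if_true]
      rw [hc, TwInt_coeff]
      have : ¬ g • z = x := fun h => hne (by rw [← h, inv_smul_smul])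
      rw [if_neg this, mul_zero]
    · simp only [if_neg hk, mul_zero]
      rfl
  · intro h
    exact absurd (Finset.mem_univ _) h

private theorem TwInt_one {Λ K : Type} [Ring Λ] [CommGroup K] (κ : K1Fun Λ K) (n : Type)
    [Fintype n] [DecidableEq n] : κ.f (1 : Matrix n n Λ) = 1 := by
  have h := κ.mul (1 : Matrix n n Λ) 1 isUnit_one isUnit_one
  rw [mul_one] at h
  exact mul_eq_left.1 h.symm

/-- Isomorphic permutation modules give the same value. -/
theorem twInt : S_twM → S_twInt := by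
  intro hM L G X Y K _ _ _ _ _ _ _ _ _ P Q hPQ hQP hP κ n _ _ a ha
  obtain ⟨b, hab, hba⟩ := isUnit_iff_exists.1 ha
  have uX : IsUnit (tw X a) := isUnit_iff_exists.2 ⟨tw X b, TwInt_unit hM hab, TwInt_unit hM hba⟩
  have uY : IsUnit (tw Y a) := isUnit_iff_exists.2 ⟨tw Y b, TwInt_unit hM hab, TwInt_unit hM hba⟩
  have h1 : TwInt_ext n (MonoidAlgebra L G) P * TwInt_ext n (MonoidAlgebra L G) Q = 1 := by
    rw [TwInt_ext_mul, hPQ, TwInt_ext_one]
  have h2 : TwInt_ext n (MonoidAlgebra L G) Q * TwInt_ext n (MonoidAlgebra L G) P = 1 := by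
    rw [TwInt_ext_mul, hQP, TwInt_ext_one]
  let W : Matrix ((n × X) ⊕ (n × Y)) ((n × X) ⊕ (n × Y))
      (MonoidAlgebra L G) :=
    Matrix.fromBlocks 0 (TwInt_ext n (MonoidAlgebra L G) P) (TwInt_ext n (MonoidAlgebra L G) Q) 0
  have hW : W * W = 1 := by
    change Matrix.fromBlocks _ _ _ _ * Matrix.fromBlocks _ _ _ _ = 1
    rw [Matrix.fromBlocks_multiply, h1, h2]
    simp
  have uW : IsUnit W := isUnit_iff_exists.2 ⟨W, hW, hW⟩
  let A : Matrix ((n × X) ⊕ (n × Y)) ((n × X) ⊕ (n × Y))
      (MonoidAlgebra L G) :=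
    Matrix.fromBlocks (tw X a) 0 0 1
  let B : Matrix ((n × X) ⊕ (n × Y)) ((n × X) ⊕ (n × Y))
      (MonoidAlgebra L G) :=
    Matrix.fromBlocks 1 0 0 (tw Y a)
  have uA : IsUnit A := by
    refine isUnit_iff_exists.2 ⟨Matrix.fromBlocks (tw X b) 0 0 1, ?_, ?_⟩
    · change Matrix.fromBlocks _ _ _ _ * _ = 1
      rw [Matrix.fromBlocks_multiply, TwInt_unit hM hab]
      simp
    · change _ * Matrix.fromBlocks _ _ _ _ = 1
      rw [Matrix.fromBlocks_multiply, TwInt_unit hM hba]
      simp
  have uB : IsUnit B := by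
    refine isUnit_iff_exists.2 ⟨Matrix.fromBlocks 1 0 0 (tw Y b), ?_, ?_⟩
    · change Matrix.fromBlocks _ _ _ _ * _ = 1
      rw [Matrix.fromBlocks_multiply, TwInt_unit hM hab]
      simp
    · change _ * Matrix.fromBlocks _ _ _ _ = 1
      rw [Matrix.fromBlocks_multiply, TwInt_unit hM hba]
      simp
  have hAB : A * W = W * B := by
    change Matrix.fromBlocks _ _ _ _ * Matrix.fromBlocks _ _ _ _ =
      Matrix.fromBlocks _ _ _ _ * Matrix.fromBlocks _ _ _ _
    rw [Matrix.fromBlocks_multiply, Matrix.fromBlocks_multiply, TwInt_comm P hP n a]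
    simp
  have h3 : κ.f A * κ.f W = κ.f W * κ.f B := by
    rw [← κ.mul A W uA uW, hAB, κ.mul W B uW uB]
  have h4 : κ.f A = κ.f B := by
    rw [mul_comm (κ.f W) (κ.f B)] at h3
    exact mul_right_cancel h3
  have hA : κ.f A = κ.f (tw X a) := by
    have := κ.tri (tw X a) (0 : Matrix (n × X) (n × Y) (MonoidAlgebra L G)) (1 : Matrix (n × Y) (n × Y) (MonoidAlgebra L G)) uX
      isUnit_one
    rw [TwInt_one, mul_one] at this
    exact this
  have hB : κ.f B = κ.f (tw Y a) := by
    have := κ.tri (1 : Matrix (n × X) (n × X) (MonoidAlgebra L G)) (0 : Matrix (n × X) (n × Y) (MonoidAlgebra L G)) (tw Y a)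
      isUnit_one uY
    rw [TwInt_one, one_mul] at this
    exact this
  rw [← hA, h4, hB]

end Pool.Agent.FH
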