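import Pool.Agent.Lib.MP_8f66f0_al_FH.ASpec
import Pool.Agent.Lib.MP_8f66f0_al_Wald.K1Lem

/-! Theorem FH, part 1: finite `G`-sets with isotropy groups in `KK`. -/

set_option autoImplicit false

namespace Pool.Agent.FH

open Pool.Agent.Wald Pool.Agent.WaldL Pool.Agent.Ind

/-- The action on an invariant subset. -/
private def TwIso_act {G X : Type} [Group G] [MulAction G X] (P : X → Prop)
    (hP : ∀ (g : G) x, P x → P (g • x)) : MulAction G {x // P x} where
  smul g x := ⟨g • x.1, hP g x.1 x.2⟩
  one_smul x := Subtype.ext (one_smul G x.1)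
  mul_smul g h x := Subtype.ext (mul_smul g h x.1)

private theorem TwIso_eq {G : Type} [Group G] (S T : Subgroup G) (h : S = T) (hT : KK T) :
    KK S := by
  subst h
  exact hT

private theorem TwIso_trans (hR : S_twRes) {L G K : Type} [CommRing L] [IsDomain L] [Group G]
    [CommGroup K] (hL : IsEuc L) (κ : K1Fun (MonoidAlgebra L G) K) (hκ : KU κ) {n : Type}
    [Fintype n] [DecidableEq n] (a : Matrix n n (MonoidAlgebra L G)) (ha : IsUnit a) (X : Type)
    [MulAction G X] [Fintype X] [DecidableEq X] (x₀ : X) (htr : ∀ x, ∃ g : G, g • x₀ = x)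
    (hK : KK (MulAction.stabilizer G x₀)) : κ.f (tw X a) = 1 := by
  obtain ⟨u, rfl⟩ := ha
  choose t ht using htr
  have hΓ : ∀ (g : G) (x y : X), g • y = x → (t x)⁻¹ * g * t y ∈ MulAction.stabilizer G x₀ := by
    intro g x y h
    rw [MulAction.mem_stabilizer_iff, mul_smul, ht, mul_smul, h, inv_smul_eq_iff, ht]
  obtain ⟨a', b', h1, h2, -, -, h3⟩ := hR L G X (MulAction.stabilizer G x₀) t hΓ n (u : _)
    ((u⁻¹ : (Matrix n n (MonoidAlgebra L G))ˣ) : _) u.mul_inv u.inv_mul
  rw [h3 K κ]
  exact hK L hL K (pullK (inc (MulAction.stabilizer G x₀).subtype) κ) (fun g w => by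
    change κ.f (Matrix.map _ _) = 1
    rw [← hκ (g : G) w]
    congr 1
    refine Matrix.ext fun i j => ?_
    rw [Matrix.map_apply, Matrix.of_apply, Matrix.of_apply, inc_single]
    rfl) (n × X) a' ⟨⟨a', b', h1, h2⟩, rfl⟩

private theorem TwIso_ind (hS : S_twSum) (hR : S_twRes) {L G K : Type} [CommRing L] [IsDomain L]
    [Group G] [CommGroup K] (hL : IsEuc L) (κ : K1Fun (MonoidAlgebra L G) K) (hκ : KU κ)
    {n : Type} [Fintype n] [DecidableEq n] (a : Matrix n n (MonoidAlgebra L G))
    (ha : IsUnit a) : ∀ (N : ℕ) (X : Type) [MulAction G X] [Fintype X] [DecidableEq X],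
      Fintype.card X = N → (∀ x : X, KK (MulAction.stabilizer G x)) → κ.f (tw X a) = 1 := by
  intro N
  induction N using Nat.strong_induction_on with
  | _ N ih =>
    intro X _ _ _ hN hX
    rcases isEmpty_or_nonempty X with hE | ⟨⟨x₀⟩⟩
    · have h1 : tw X a = 1 := Matrix.ext fun i => isEmptyElim i.2
      rw [h1, κ.f_one]
    · classical
      have hP : ∀ (g : G) (x : X), x ∈ MulAction.orbit G x₀ → g • x ∈ MulAction.orbit G x₀ :=
        fun g x h => MulAction.mem_orbit_of_mem_orbit g h
      have hQ : ∀ (g : G) (x : X), ¬ x ∈ MulAction.orbit G x₀ →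
          ¬ g • x ∈ MulAction.orbit G x₀ := by
        intro g x h h'
        have h2 := hP g⁻¹ _ h'
        rw [inv_smul_smul] at h2
        exact h h2
      letI i1 : MulAction G {x : X // x ∈ MulAction.orbit G x₀} := TwIso_act _ hP
      letI i2 : MulAction G {x : X // ¬ x ∈ MulAction.orbit G x₀} := TwIso_act _ hQ
      have h1 := hS L G X {x : X // x ∈ MulAction.orbit G x₀}
        {x : X // ¬ x ∈ MulAction.orbit G x₀} K (Equiv.sumCompl _) (fun g x => rfl)
        (fun g x => rfl) κ n a ha
      have h2 : κ.f (tw {x : X // x ∈ MulAction.orbit G x₀} a) = 1 := by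
        refine TwIso_trans hR hL κ hκ a ha _ ⟨x₀, MulAction.mem_orbit_self x₀⟩ ?_ ?_
        · rintro ⟨x, g, rfl⟩
          exact ⟨g, rfl⟩
        · refine TwIso_eq _ (MulAction.stabilizer G x₀) ?_ (hX x₀)
          ext g
          rw [MulAction.mem_stabilizer_iff, MulAction.mem_stabilizer_iff]
          exact ⟨fun h => congrArg Subtype.val h, fun h => Subtype.ext h⟩
      have h3 : κ.f (tw {x : X // ¬ x ∈ MulAction.orbit G x₀} a) = 1 := by
        refine ih _ ?_ _ rfl ?_
        · rw [← hN]
          refine Fintype.card_subtype_lt (x := x₀) ?_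
          exact fun h => h (MulAction.mem_orbit_self x₀)
        · rintro ⟨x, hx⟩
          refine TwIso_eq _ (MulAction.stabilizer G x) ?_ (hX x)
          ext g
          rw [MulAction.mem_stabilizer_iff, MulAction.mem_stabilizer_iff]
          exact ⟨fun h => congrArg Subtype.val h, fun h => Subtype.ext h⟩
      rw [h1, h2, h3, one_mul]

theorem twIso : S_twSum → S_twRes → S_twIso := by
  intro hS hR L G X K _ _ _ _ _ _ _ hL hX κ hκ n _ _ a ha
  exact TwIso_ind hS hR hL κ hκ a ha _ X rfl hX

end Pool.Agent.FH
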