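import Pool.Agent.Lib.MP_8f66f0_al_FH.ASpec

/-! Matrices with coefficients in a finite `G`-set: `tw` is multiplicative and unital. -/

set_option autoImplicit false

namespace Pool.Agent.FH

open Pool.Agent.Wald Pool.Agent.WaldL Pool.Agent.Ind Filter

section

variable {L G X : Type} [CommRing L] [Group G] [MulAction G X]

open Classical in
/-- The part supported on the `g` with `g • y = x`. -/
private noncomputable def TwM_part (x y : X) : MonoidAlgebra L G →+ MonoidAlgebra L G where
  toFun f := MonoidAlgebra.ofCoeff (f.coeff.filter fun g => g • y = x)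
  map_zero' := by
    rw [MonoidAlgebra.coeff_zero, Finsupp.filter_zero]
    rfl
  map_add' f h := by
    rw [MonoidAlgebra.coeff_add, Finsupp.filter_add]
    rfl

open Classical in
private theorem TwM_single (x y : X) (g : G) (r : L) :
    TwM_part x y (MonoidAlgebra.single g r) =
      if g • y = x then MonoidAlgebra.single g r else 0 := by
  change MonoidAlgebra.ofCoeff ((Finsupp.single g r).filter fun g => g • y = x) = _
  split_ifs with h
  · rw [Finsupp.filter_single_of_pos (fun g : G => g • y = x) h]
    rfl
  · rw [Finsupp.filter_single_of_neg (fun g : G => g • y = x) h]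
    rfl

private theorem TwM_mul [Fintype X] (x z : X) (f h : MonoidAlgebra L G) :
    TwM_part x z (f * h) = ∑ y, TwM_part x y f * TwM_part y z h := by
  classical
  induction f using MonoidAlgebra.induction_linear with
  | zero => simp
  | add f f' hf hf' =>
    rw [add_mul, map_add, hf, hf', ← Finset.sum_add_distrib]
    refine Finset.sum_congr rfl fun y _ => ?_
    rw [map_add, add_mul]
  | single g r =>
    induction h using MonoidAlgebra.induction_linear with
    | zero => simp
    | add h h' hh hh' =>
      rw [mul_add, map_add, hh, hh', ← Finset.sum_add_distrib]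
      refine Finset.sum_congr rfl fun y _ => ?_
      rw [map_add, mul_add]
    | single k s =>
      rw [MonoidAlgebra.single_mul_single, TwM_single, Finset.sum_eq_single (k • z)]
      · rw [TwM_single, TwM_single, if_pos rfl, mul_smul]
        split_ifs with h
        · rw [MonoidAlgebra.single_mul_single]
        · rw [zero_mul]
      · intro y _ hy
        rw [TwM_single y z, if_neg (Ne.symm hy), mul_zero]
      · intro hy
        exact absurd (Finset.mem_univ _) hy

end

theorem twM : S_twM := by
  intro L G X _ _ _ _ _ n _ _ a b
  classical
  have e : ∀ (c : Matrix n n (MonoidAlgebra L G)) (i j : n × X),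
      tw X c i j = TwM_part i.2 j.2 (c i.1 j.1) := fun c i j => rfl
  constructor
  · ext1 i j
    rw [e, Matrix.mul_apply, Matrix.mul_apply, map_sum, Fintype.sum_prod_type]
    refine Finset.sum_congr rfl fun k _ => ?_
    rw [TwM_mul]
    rfl
  · ext1 i j
    rw [e, Matrix.one_apply, Matrix.one_apply]
    by_cases h : i.1 = j.1
    · rw [if_pos h, MonoidAlgebra.one_def, TwM_single, one_smul]
      by_cases h2 : j.2 = i.2
      · rw [if_pos h2, if_pos (Prod.ext h h2.symm)]
      · rw [if_neg h2, if_neg (fun h3 => h2 (by rw [h3]))]
    · rw [if_neg h, map_zero, if_neg (fun h3 => h (by rw [h3]))]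

end Pool.Agent.FH
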