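import Pool.Agent.Lib.MP_8f66f0_al_FH.ASpec
import Pool.Agent.Lib.MP_8f66f0_al_Wald.K1Lem

/-! Theorem FH, part 1: restriction to a subgroup. -/

set_option autoImplicit false

namespace Pool.Agent.FH

open Pool.Agent.Wald Pool.Agent.WaldL Pool.Agent.Ind

section

variable {L : Type} [CommRing L] {G : Type} [Group G]

private theorem TwRes_cl (g h : G) (f : MonoidAlgebra L G) :
    (MonoidAlgebra.single g (1 : L) * f).coeff h = f.coeff (g⁻¹ * h) := by
  rw [MonoidAlgebra.coeff_single_mul_eq_mul_coeff (g⁻¹ * h), one_mul]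
  intro m _
  exact eq_inv_mul_iff_mul_eq.symm

private theorem TwRes_cr (g h : G) (f : MonoidAlgebra L G) :
    (f * MonoidAlgebra.single g (1 : L)).coeff h = f.coeff (h * g⁻¹) := by
  rw [MonoidAlgebra.coeff_mul_single_eq_coeff_mul (h * g⁻¹), mul_one]
  intro m _
  exact eq_mul_inv_iff_mul_eq.symm

/-- Restriction of the coefficients. -/
private noncomputable def TwRes_r (Γ : Subgroup G) (f : MonoidAlgebra L G) : MonoidAlgebra L Γ :=
  MonoidAlgebra.ofCoeff (f.coeff.comapDomain Subtype.val Subtype.val_injective.injOn)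

private theorem TwRes_r_coeff (Γ : Subgroup G) (f : MonoidAlgebra L G) (γ : Γ) :
    (TwRes_r Γ f).coeff γ = f.coeff γ := rfl

private theorem TwRes_inc (Γ : Subgroup G) (f : MonoidAlgebra L G)
    (hf : ∀ g, f.coeff g ≠ 0 → g ∈ Γ) : inc Γ.subtype (TwRes_r Γ f) = f := by
  apply MonoidAlgebra.coeff_injective
  change Finsupp.mapDomain Subtype.val
    (f.coeff.comapDomain Subtype.val Subtype.val_injective.injOn) = f.coeff
  refine Finsupp.mapDomain_comapDomain _ Subtype.val_injective f.coeff ?_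
  intro g hg
  exact ⟨⟨g, hf g (Finsupp.mem_support_iff.mp hg)⟩, rfl⟩

private theorem TwRes_incinj (Γ : Subgroup G) :
    Function.Injective (inc (LL := L) Γ.subtype) :=
  MonoidAlgebra.mapDomain_injective Subtype.val_injective

variable {X : Type} [MulAction G X] [Fintype X] [DecidableEq X]

/-- The restricted matrix. -/
private noncomputable def TwRes_e (Γ : Subgroup G) (t : X → G) {n : Type}
    (a : Matrix n n (MonoidAlgebra L G)) : Matrix (n × X) (n × X) (MonoidAlgebra L Γ) :=
  fun i j => TwRes_r Γ (MonoidAlgebra.single (t i.2)⁻¹ 1 * tw X a i j *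
    MonoidAlgebra.single (t j.2) 1)

private theorem TwRes_coeff (t : X → G) {n : Type} (a : Matrix n n (MonoidAlgebra L G))
    (i j : n × X) (g : G) :
    (MonoidAlgebra.single (t i.2)⁻¹ 1 * tw X a i j * MonoidAlgebra.single (t j.2) 1).coeff g =
      (tw X a i j).coeff (t i.2 * g * (t j.2)⁻¹) := by
  rw [TwRes_cr, TwRes_cl, inv_inv, mul_assoc]

private theorem TwRes_tw {n : Type} (a : Matrix n n (MonoidAlgebra L G))
    (i j : n × X) (g : G) (h : (tw X a i j).coeff g ≠ 0) :
    g • j.2 = i.2 ∧ (a i.1 j.1).coeff g ≠ 0 := by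
  unfold tw at h
  rw [MonoidAlgebra.coeff_ofCoeff, Finsupp.filter_apply] at h
  split_ifs at h with hg
  · exact ⟨hg, h⟩
  · exact absurd rfl h

private theorem TwRes_key (Γ : Subgroup G) (t : X → G)
    (ht : ∀ (g : G) (x y : X), g • y = x → (t x)⁻¹ * g * t y ∈ Γ) {n : Type} [Fintype n]
    [DecidableEq n] (a : Matrix n n (MonoidAlgebra L G)) :
    (TwRes_e Γ t a).map (inc Γ.subtype) =
      (Matrix.diagonal fun i : n × X => (MonoidAlgebra.single (t i.2)⁻¹ (1 : L))) * tw X a *
        (Matrix.diagonal fun i : n × X => (MonoidAlgebra.single (t i.2) (1 : L))) := by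
  refine Matrix.ext fun i j => ?_
  rw [Matrix.map_apply, Matrix.mul_diagonal, Matrix.diagonal_mul]
  refine TwRes_inc Γ _ fun g hg => ?_
  rw [TwRes_coeff] at hg
  have h1 := ht _ _ _ (TwRes_tw a i j _ hg).1
  have h2 : (t i.2)⁻¹ * (t i.2 * g * (t j.2)⁻¹) * t j.2 = g := by group
  rwa [h2] at h1

private theorem TwRes_dd (t : X → G) {n : Type} [Fintype n] [DecidableEq n] :
    (Matrix.diagonal fun i : n × X => (MonoidAlgebra.single (t i.2) (1 : L))) *
      (Matrix.diagonal fun i : n × X => (MonoidAlgebra.single (t i.2)⁻¹ (1 : L))) = 1 := by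
  rw [Matrix.diagonal_mul_diagonal, ← Matrix.diagonal_one]
  congr 1
  funext i
  rw [MonoidAlgebra.single_mul_single, mul_inv_cancel, one_mul, ← MonoidAlgebra.one_def]

private theorem TwRes_dd' (t : X → G) {n : Type} [Fintype n] [DecidableEq n] :
    (Matrix.diagonal fun i : n × X => (MonoidAlgebra.single (t i.2)⁻¹ (1 : L))) *
      (Matrix.diagonal fun i : n × X => (MonoidAlgebra.single (t i.2) (1 : L))) = 1 := by
  rw [Matrix.diagonal_mul_diagonal, ← Matrix.diagonal_one]
  congr 1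
  funext i
  rw [MonoidAlgebra.single_mul_single, inv_mul_cancel, one_mul, ← MonoidAlgebra.one_def]

private theorem TwRes_mul (hM : S_twM) (Γ : Subgroup G) (t : X → G)
    (ht : ∀ (g : G) (x y : X), g • y = x → (t x)⁻¹ * g * t y ∈ Γ) {n : Type} [Fintype n]
    [DecidableEq n] (a b : Matrix n n (MonoidAlgebra L G)) (hab : a * b = 1) :
    TwRes_e Γ t a * TwRes_e Γ t b = 1 := by
  have hinj : Function.Injective
      (fun M : Matrix (n × X) (n × X) (MonoidAlgebra L Γ) => M.map (inc Γ.subtype)) :=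
    fun M N h => by
      refine Matrix.ext fun i j => TwRes_incinj Γ ?_
      exact congrFun (congrFun h i) j
  refine hinj ?_
  change Matrix.map _ _ = Matrix.map _ _
  rw [Matrix.map_mul, TwRes_key Γ t ht a, TwRes_key Γ t ht b,
    Matrix.map_one _ (map_zero _) (map_one _)]
  have h1 := (hM L G X n a b).1
  have h2 := (hM L G X n a b).2
  rw [hab, h2] at h1
  calc _ = (Matrix.diagonal fun i : n × X => (MonoidAlgebra.single (t i.2)⁻¹ (1 : L))) * tw X a *
        ((Matrix.diagonal fun i : n × X => (MonoidAlgebra.single (t i.2) (1 : L))) *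
        (Matrix.diagonal fun i : n × X => (MonoidAlgebra.single (t i.2)⁻¹ (1 : L)))) *
        tw X b * (Matrix.diagonal fun i : n × X => (MonoidAlgebra.single (t i.2) (1 : L))) := by
        simp only [Matrix.mul_assoc]
    _ = _ := by
        rw [TwRes_dd, Matrix.mul_one, Matrix.mul_assoc _ (tw X a), ← h1, Matrix.mul_one,
          TwRes_dd']

end

theorem twRes : S_twM → S_twRes := by
  intro hM L G X _ _ _ _ _ Γ t ht n _ _ a b hab hba
  refine ⟨TwRes_e Γ t a, TwRes_e Γ t b, TwRes_mul hM Γ t ht a b hab,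
    TwRes_mul hM Γ t ht b a hba, ?_, ?_, ?_⟩
  · intro i j γ h
    rw [TwRes_e, TwRes_r_coeff, TwRes_coeff] at h
    exact (TwRes_tw a i j _ h).2
  · intro i j γ h
    rw [TwRes_e, TwRes_r_coeff, TwRes_coeff] at h
    exact (TwRes_tw b i j _ h).2
  · intro K _ κ
    rw [TwRes_key Γ t ht a]
    have hD : IsUnit (Matrix.diagonal fun i : n × X => (MonoidAlgebra.single (t i.2) (1 : L) :
        MonoidAlgebra L G)) := ⟨⟨_, _, TwRes_dd t, TwRes_dd' t⟩, rfl⟩
    have hD' : IsUnit (Matrix.diagonal fun i : n × X => (MonoidAlgebra.single (t i.2)⁻¹ (1 : L) :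
        MonoidAlgebra L G)) := ⟨⟨_, _, TwRes_dd' t, TwRes_dd t⟩, rfl⟩
    have h1 := (hM L G X n a b).1
    have h1' := (hM L G X n b a).1
    have h2 := (hM L G X n a b).2
    rw [hab, h2] at h1
    rw [hba, h2] at h1'
    have hA : IsUnit (tw X a) := ⟨⟨_, _, h1.symm, h1'.symm⟩, rfl⟩
    rw [κ.mul _ _ (hD'.mul hA) hD, κ.mul _ _ hD' hA, mul_comm (κ.f _) (κ.f (tw X a)), mul_assoc,
      ← κ.mul _ _ hD' hD, TwRes_dd', κ.f_one, mul_one]

end Pool.Agent.FH
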