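import Pool.Agent.Lib.MP_8f66f0_al_FH.ASpec

/-! Twisting with a disjoint union. -/

set_option autoImplicit false

namespace Pool.Agent.FH

open Pool.Agent.Wald Pool.Agent.WaldL Pool.Agent.Ind Filter

private theorem TwSum_coeff {L : Type} [CommRing L] {G : Type} [Group G] (X : Type)
    [MulAction G X] {n m : Type} (A : Matrix n m (MonoidAlgebra L G)) (q : n × X) (r : m × X)
    (g : G) [Decidable (g • r.2 = q.2)] :
    (tw X A q r).coeff g = if g • r.2 = q.2 then (A q.1 r.1).coeff g else 0 := by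
  unfold tw
  rw [MonoidAlgebra.coeff_ofCoeff, Finsupp.filter_apply]
  split_ifs <;> rfl

private theorem TwSum_unit (hM : S_twM) {L G X : Type} [CommRing L] [Group G] [MulAction G X]
    [Fintype X] [DecidableEq X] {n : Type} [Fintype n] [DecidableEq n]
    {a b : Matrix n n (MonoidAlgebra L G)} (h : a * b = 1) : tw X a * tw X b = 1 := by
  rw [← (hM L G X n a b).1, h, (hM L G X n a b).2]

/-- Twisting with a disjoint union. -/
theorem twSum : S_twM → S_twSum := by
  classical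
  intro hM L G X X₁ X₂ K _ _ _ _ _ _ _ _ _ _ _ _ e he1 he2 κ n _ _ a ha
  obtain ⟨b, hab, hba⟩ := isUnit_iff_exists.1 ha
  have u1 : IsUnit (tw X₁ a) := isUnit_iff_exists.2 ⟨tw X₁ b, TwSum_unit hM hab, TwSum_unit hM hba⟩
  have u2 : IsUnit (tw X₂ a) := isUnit_iff_exists.2 ⟨tw X₂ b, TwSum_unit hM hab, TwSum_unit hM hba⟩
  let A : Matrix ((n × X₁) ⊕ (n × X₂)) ((n × X₁) ⊕ (n × X₂)) (MonoidAlgebra L G) :=
    Matrix.fromBlocks (tw X₁ a) 0 0 (tw X₂ a)
  have uA : IsUnit A := by
    refine isUnit_iff_exists.2 ⟨Matrix.fromBlocks (tw X₁ b) 0 0 (tw X₂ b), ?_, ?_⟩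
    · rw [Matrix.fromBlocks_multiply, TwSum_unit hM hab, TwSum_unit hM hab]
      simp
    · rw [Matrix.fromBlocks_multiply, TwSum_unit hM hba, TwSum_unit hM hba]
      simp
  let e' : (n × X₁) ⊕ (n × X₂) ≃ n × X :=
    (Equiv.prodSumDistrib n X₁ X₂).symm.trans (Equiv.prodCongr (Equiv.refl n) e)
  have f1 : ∀ (i : n) (x : X₁), e' (Sum.inl (i, x)) = (i, e (Sum.inl x)) := fun i x => rfl
  have f2 : ∀ (i : n) (x : X₂), e' (Sum.inr (i, x)) = (i, e (Sum.inr x)) := fun i x => rfl
  have hA : (tw X a).submatrix e' e' = A := by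
    ext q r : 2
    rw [Matrix.submatrix_apply]
    ext g
    rcases q with ⟨i, x⟩ | ⟨i, x⟩ <;> rcases r with ⟨j, y⟩ | ⟨j, y⟩
    · change _ = (tw X₁ a (i, x) (j, y)).coeff g
      rw [f1, f1, TwSum_coeff, TwSum_coeff]
      have : g • e (Sum.inl y) = e (Sum.inl x) ↔ g • y = x := by
        rw [← he1, e.apply_eq_iff_eq, Sum.inl.injEq]
      simp only [this]
    · change _ = (0 : MonoidAlgebra L G).coeff g
      rw [f1, f2, TwSum_coeff]
      have : ¬ g • e (Sum.inr y) = e (Sum.inl x) := by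
        rw [← he2, e.apply_eq_iff_eq]
        exact Sum.inr_ne_inl
      rw [if_neg this]
      rfl
    · change _ = (0 : MonoidAlgebra L G).coeff g
      rw [f1, f2, TwSum_coeff]
      have : ¬ g • e (Sum.inl y) = e (Sum.inr x) := by
        rw [← he1, e.apply_eq_iff_eq]
        exact Sum.inl_ne_inr
      rw [if_neg this]
      rfl
    · change _ = (tw X₂ a (i, x) (j, y)).coeff g
      rw [f2, f2, TwSum_coeff, TwSum_coeff]
      have : g • e (Sum.inr y) = e (Sum.inr x) ↔ g • y = x := by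
        rw [← he2, e.apply_eq_iff_eq, Sum.inr.injEq]
      simp only [this]
  have h2 : tw X a = A.submatrix e'.symm e'.symm := by
    rw [← hA, Matrix.submatrix_submatrix]
    simp
  rw [h2, κ.reindex e' A uA]
  exact κ.tri _ _ _ u1 u2

end Pool.Agent.FH
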