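import Pool.Agent.Lib.MP_8f66f0_al_FH.ASpec

/-! Theorem FH, part 1: two coprime numbers. -/

set_option autoImplicit false

namespace Pool.Agent.FH

open Pool.Agent.Wald Pool.Agent.WaldL Pool.Agent.Ind Matrix Kronecker

private theorem Two_one {G N : Type} [Group G] [MulAction G N] [DecidableEq N] (g : G) (x y : N) :
    (1 : Matrix N N ℤ) (g • x) (g • y) = (1 : Matrix N N ℤ) x y := by
  rw [Matrix.one_apply, Matrix.one_apply]
  by_cases h : x = y
  · rw [if_pos h, if_pos (by rw [h])]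
  · rw [if_neg h, if_neg fun h' => h (smul_left_cancel g h')]

private theorem Two_sc {A : Type} [Fintype A] [DecidableEq A] (u v P Q : ℤ)
    (huv : u * P + v * Q = 1) :
    u • (P • (1 : Matrix A A ℤ)) + v • (Q • (1 : Matrix A A ℤ)) = 1 := by
  rw [smul_smul, smul_smul, ← add_smul, huv, one_smul]

theorem twTwo : S_twSum → S_twInt → S_twTwo := by
  intro hS hI L G K _ _ _ M M' N N' _ _ _ _ _ _ _ _ _ _ _ _ P Q f f' h h' hPQ h1 h2 h3 h4 e1 e2
    e3 e4 κ n _ _ a ha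
  obtain ⟨u, v, huv⟩ := hPQ
  have hX := hS L G ((M × N) ⊕ (M' × N')) (M × N) (M' × N') K (Equiv.refl _)
    (fun g x => rfl) (fun g x => rfl) κ n a ha
  have hY := hS L G ((M' × N) ⊕ (M × N')) (M' × N) (M × N') K (Equiv.refl _)
    (fun g x => rfl) (fun g x => rfl) κ n a ha
  rw [← hX, ← hY]
  refine hI L G _ _ K
    (Matrix.fromBlocks (u • (f' ⊗ₖ (1 : Matrix N N ℤ))) (v • ((1 : Matrix M M ℤ) ⊗ₖ h'))
      ((1 : Matrix M' M' ℤ) ⊗ₖ h) (-(f ⊗ₖ (1 : Matrix N' N' ℤ))))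
    (Matrix.fromBlocks (f ⊗ₖ (1 : Matrix N N ℤ)) (v • ((1 : Matrix M' M' ℤ) ⊗ₖ h'))
      ((1 : Matrix M M ℤ) ⊗ₖ h) (-(u • (f' ⊗ₖ (1 : Matrix N' N' ℤ))))) ?_ ?_ ?_ κ n a ha
  · rw [Matrix.fromBlocks_multiply, ← Matrix.fromBlocks_one]
    congr 1
    · rw [Matrix.smul_mul, Matrix.smul_mul, ← Matrix.mul_kronecker_mul, ← Matrix.mul_kronecker_mul,
        h2, h4, Matrix.mul_one, Matrix.mul_one, Matrix.smul_kronecker, Matrix.kronecker_smul,
        Matrix.one_kronecker_one, Two_sc u v P Q huv]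
    · rw [Matrix.smul_mul, Matrix.smul_mul, Matrix.mul_smul, Matrix.mul_neg, Matrix.mul_smul,
        ← Matrix.mul_kronecker_mul, ← Matrix.mul_kronecker_mul, Matrix.mul_one, Matrix.mul_one,
        Matrix.one_mul, Matrix.one_mul, smul_neg, smul_smul, smul_smul, mul_comm v u,
        add_neg_cancel]
    · rw [Matrix.neg_mul, ← Matrix.mul_kronecker_mul, ← Matrix.mul_kronecker_mul, Matrix.mul_one,
        Matrix.mul_one, Matrix.one_mul, Matrix.one_mul, add_neg_cancel]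
    · rw [Matrix.mul_smul, Matrix.neg_mul, Matrix.mul_neg, neg_neg, Matrix.mul_smul,
        ← Matrix.mul_kronecker_mul, ← Matrix.mul_kronecker_mul, h1, h3, Matrix.mul_one,
        Matrix.mul_one, Matrix.smul_kronecker, Matrix.kronecker_smul, Matrix.one_kronecker_one,
        add_comm, Two_sc u v P Q huv]
  · rw [Matrix.fromBlocks_multiply, ← Matrix.fromBlocks_one]
    congr 1
    · rw [Matrix.mul_smul, Matrix.smul_mul, ← Matrix.mul_kronecker_mul, ← Matrix.mul_kronecker_mul,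
        h1, h4, Matrix.mul_one, Matrix.mul_one, Matrix.smul_kronecker, Matrix.kronecker_smul,
        Matrix.one_kronecker_one, Two_sc u v P Q huv]
    · rw [Matrix.mul_smul, Matrix.smul_mul, Matrix.mul_neg, ← Matrix.mul_kronecker_mul,
        ← Matrix.mul_kronecker_mul, Matrix.mul_one, Matrix.mul_one,
        Matrix.one_mul, Matrix.one_mul, smul_neg, add_neg_cancel]
    · rw [Matrix.mul_smul, Matrix.neg_mul, Matrix.smul_mul, ← Matrix.mul_kronecker_mul,
        ← Matrix.mul_kronecker_mul, Matrix.mul_one, Matrix.mul_one, Matrix.one_mul,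
        Matrix.one_mul, add_neg_cancel]
    · rw [Matrix.mul_smul, Matrix.neg_mul, Matrix.mul_neg, neg_neg, Matrix.smul_mul,
        ← Matrix.mul_kronecker_mul, ← Matrix.mul_kronecker_mul, h2, h3, Matrix.mul_one,
        Matrix.mul_one, Matrix.smul_kronecker, Matrix.kronecker_smul, Matrix.one_kronecker_one,
        add_comm, Two_sc u v P Q huv]
  · rintro g (⟨x1, x2⟩ | ⟨x1, x2⟩) (⟨y1, y2⟩ | ⟨y1, y2⟩)
    · change u • (f' (g • x1) (g • y1) * (1 : Matrix N N ℤ) (g • x2) (g • y2)) =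
        u • (f' x1 y1 * (1 : Matrix N N ℤ) x2 y2)
      rw [e2, Two_one]
    · change v • ((1 : Matrix M M ℤ) (g • x1) (g • y1) * h' (g • x2) (g • y2)) =
        v • ((1 : Matrix M M ℤ) x1 y1 * h' x2 y2)
      rw [e4, Two_one]
    · change (1 : Matrix M' M' ℤ) (g • x1) (g • y1) * h (g • x2) (g • y2) =
        (1 : Matrix M' M' ℤ) x1 y1 * h x2 y2
      rw [e3, Two_one]
    · change -(f (g • x1) (g • y1) * (1 : Matrix N' N' ℤ) (g • x2) (g • y2)) =
        -(f x1 y1 * (1 : Matrix N' N' ℤ) x2 y2)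
      rw [e1, Two_one]

end Pool.Agent.FH
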