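import Pool.Agent.Lib.MP_8f66f0_al_WaldL.KK
import Pool.Agent.Lib.MP_8f66f0_al_Hier.Defs

/-! Affine actions on `ℤ^ι` by permutations and translations; the statement on controlled
matrices; twisting of invariants of matrices over a group ring with finite `G`-sets. -/

set_option autoImplicit false

namespace Pool.Agent.FH

open Pool.Agent.Wald Pool.Agent.WaldL Pool.Agent.Ind Filter

/-- A homomorphism from `G` to `ℤ^ι ⋊ Perm ι`. -/
structure Aff (G : Type) [Group G] (ι : Type) where
  sg : G →* Equiv.Perm ι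
  v : G → ι → ℤ
  mul : ∀ (g h : G) (i : ι), v (g * h) i = v g i + v h ((sg g)⁻¹ i)

section Aff

variable {G : Type} [Group G] {ι : Type}

/-- The action on `ℤ^ι`. -/
def Aff.act (A : Aff G ι) (g : G) (x : ι → ℤ) : ι → ℤ := fun i => x ((A.sg g)⁻¹ i) + A.v g i

/-- The image of `V` is finite. -/
def Aff.Small (A : Aff G ι) (V : Subgroup G) : Prop := ∃ b : ℕ, ∀ g ∈ V, ∀ i, |A.v g i| ≤ b

/-- Restriction to a subgroup. -/
def Aff.res (A : Aff G ι) (H : Subgroup G) : Aff H ι where
  sg := A.sg.comp H.subtype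
  v g := A.v g
  mul g h i := A.mul g h i

end Aff

/-- The control theorem. -/
def S_ctl : Prop :=
  ∀ (L : Type) [CommRing L] [IsDomain L], IsEuc L → ∀ (ι : Type) [Fintype ι] [DecidableEq ι]
    (Γ : ℕ → Type) [∀ j, Group (Γ j)] (A : ∀ j, Aff (Γ j) ι) (p : ℕ → ℕ), Tendsto p atTop atTop →
    (∀ j g i, (p j : ℤ) ∣ (A j).v g i) → (∀ j (V : Subgroup (Γ j)), (A j).Small V → KK V) →
    ∀ (D : ℕ) (n : ℕ → Type) [∀ j, Fintype (n j)] [∀ j, DecidableEq (n j)]
      (pos : ∀ j, n j → ι → ℤ) (a b : ∀ j, Matrix (n j) (n j) (MonoidAlgebra L (Γ j))),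
      (∀ j, a j * b j = 1) → (∀ j, b j * a j = 1) →
      (∀ j i i' g, (a j i i').coeff g ≠ 0 → ∀ k, |pos j i k - (A j).act g (pos j i') k| ≤ D) →
      (∀ j i i' g, (b j i i').coeff g ≠ 0 → ∀ k, |pos j i k - (A j).act g (pos j i') k| ≤ D) →
      ∀ (K : ℕ → Type) [∀ j, CommGroup (K j)] (κ : ∀ j, K1Fun (MonoidAlgebra L (Γ j)) (K j)),
        (∀ j (g : Γ j) (u : Lˣ),
          (κ j).f (Matrix.of fun _ _ : Fin 1 => (MonoidAlgebra.single g (u : L))) = 1) →
        ∀ᶠ j in atTop, (κ j).f (a j) = 1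

section Tw

variable {L : Type} [CommRing L] {G : Type} [Group G]

open Classical in
/-- The part of `A` supported on the `g` with `g • y = x`, for all `x`, `y` in `X`: the matrix of
`A` with the `G`-set `X` as coefficients. -/
noncomputable def tw (X : Type) [MulAction G X] {n m : Type}
    (A : Matrix n m (MonoidAlgebra L G)) : Matrix (n × X) (m × X) (MonoidAlgebra L G) :=
  fun a b => MonoidAlgebra.ofCoeff ((A a.1 b.1).coeff.filter fun g => g • b.2 = a.2)

/-- The invariant `κ` with coefficients in the finite `G`-set `X` is trivial. -/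
def Kills {K : Type} [CommGroup K] (κ : K1Fun (MonoidAlgebra L G) K) (X : Type) [MulAction G X]
    [Fintype X] [DecidableEq X] {n : Type} [Fintype n] [DecidableEq n]
    (A : Matrix n n (MonoidAlgebra L G)) : Prop := κ.f (tw X A) = 1

end Tw

end Pool.Agent.FH
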