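import Pool.Agent.Lib.MP_8f66f0_al_FH.Kuhn
import Pool.Agent.Lib.MP_8f66f0_al_FH.ADefs
import Pool.Agent.Lib.MP_8f66f0_al_HierZ.FinalS

/-! The classes `NN` and `SS` are closed under affine actions on `ℤ^ι` by permutations and
translations. -/

set_option autoImplicit false

namespace Pool.Agent.FH

section

variable {G : Type} [Group G] {ι : Type} (A : Aff G ι)

theorem Aff.v_one (i : ι) : A.v 1 i = 0 := by
  have h := A.mul 1 1 i
  rw [mul_one, map_one, inv_one, Equiv.Perm.one_apply] at h
  omega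

theorem Aff.act_one (x : ι → ℤ) : A.act 1 x = x := by
  funext i
  simp only [Aff.act, map_one, inv_one, Equiv.Perm.one_apply, A.v_one, add_zero]

theorem Aff.act_mul (g h : G) (x : ι → ℤ) : A.act (g * h) x = A.act g (A.act h x) := by
  funext i
  simp only [Aff.act, map_mul, mul_inv_rev, Equiv.Perm.mul_apply, A.mul]
  ring

/-- The action as a homomorphism. -/
def Aff.hom : G →* Equiv.Perm (ι → ℤ) where
  toFun g := ⟨A.act g, A.act g⁻¹, fun x => by rw [← A.act_mul, inv_mul_cancel, A.act_one],
    fun x => by rw [← A.act_mul, mul_inv_cancel, A.act_one]⟩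
  map_one' := Equiv.ext fun x => A.act_one x
  map_mul' g h := Equiv.ext fun x => A.act_mul g h x

/-- The data of the Kuhn triangulation. -/
noncomputable def Aff.dat [Fintype ι] : Kuhn.Dat G (Fintype.card ι) where
  a := (MulEquiv.toMonoidHom (Equiv.permCongrHom (Equiv.arrowCongr (Fintype.equivFin ι)
    (Equiv.refl ℤ)))).comp A.hom
  mono g x y h := by
    intro i
    exact add_le_add_left (h _) _
  add_one g x := by
    funext i
    change x _ + 1 + A.v g _ = x _ + A.v g _ + 1
    ring

theorem Aff.small_of_fix [Fintype ι] {C : Subgroup G} {x : Fin (Fintype.card ι) → ℤ}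
    (h : ∀ g ∈ C, A.dat.a g x = x) : A.Small C := by
  classical
  have h1 : ∃ b : ℕ, ∀ i, |x i| ≤ b := by
    refine ⟨∑ i, (x i).natAbs, fun i => ?_⟩
    have h2 : (x i).natAbs ≤ ∑ i, (x i).natAbs :=
      Finset.single_le_sum (f := fun i => (x i).natAbs) (fun _ _ => Nat.zero_le _)
        (Finset.mem_univ i)
    rw [Int.abs_eq_natAbs]
    exact_mod_cast h2
  obtain ⟨b, hb⟩ := h1
  refine ⟨2 * b, fun g hg i => ?_⟩
  have h3 : x (Fintype.equivFin ι ((A.sg g)⁻¹ ((Fintype.equivFin ι).symm (Fintype.equivFin ι i)))) +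
      A.v g ((Fintype.equivFin ι).symm (Fintype.equivFin ι i)) = x (Fintype.equivFin ι i) :=
    congrFun (h g hg) (Fintype.equivFin ι i)
  rw [Equiv.symm_apply_apply] at h3
  have h4 := abs_le.1 (hb (Fintype.equivFin ι ((A.sg g)⁻¹ i)))
  have h5 := abs_le.1 (hb (Fintype.equivFin ι i))
  rw [abs_le]
  push_cast
  constructor <;> omega

/-- A group with an affine action on `ℤ^ι` is in `NN` if all its small subgroups are. -/
theorem nn_aff [Fintype ι] (h : ∀ V : Subgroup G, A.Small V → WhVan.NN V) : WhVan.NN G :=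
  Kuhn.nn_of_dat A.dat fun C ⟨_, hx⟩ => h C (A.small_of_fix hx)

/-- A group with an affine action on `ℤ^ι` is in `NN` if all its small subgroups are. -/
theorem nn_aff' [Fintype ι] (h : ∀ V : Subgroup G, A.Small V → Hier.NN V) : Hier.NN G := by
  obtain ⟨n, hn⟩ := WhVan.exP_triv (Kuhn.res_triv A.dat (fun C => A.Small C)
    fun C ⟨_, hx⟩ => A.small_of_fix hx)
  exact Hier.NN.res (fun C => A.Small C) n h hn

/-- A group with an affine action on `ℤ^ι` is in `SS` if all its small subgroups are. -/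
theorem ss_aff [Fintype ι] (h : ∀ V : Subgroup G, A.Small V → Hier.SS V) : Hier.SS G := by
  obtain ⟨n, hn⟩ := WhVan.exP_triv (Kuhn.res_triv A.dat (fun C => A.Small C)
    fun C ⟨_, hx⟩ => A.small_of_fix hx)
  exact Hier.ss_exp (fun C => A.Small C) h n hn

end

end Pool.Agent.FH
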