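import Pool.Agent.Lib.MP_8f66f0_al_FH.VDefs

/-! Closure properties of `VAb`. -/

set_option autoImplicit false

namespace Pool.Agent.FH

theorem fg_of_inj_comm {A B : Type} [CommGroup A] [Group B] [Group.FG A] (f : B →* A)
    (hf : Function.Injective f) : Group.FG B := by
  let _ : CommGroup B := { (inferInstance : Group B) with
    mul_comm := fun a b => hf (by rw [map_mul, map_mul, mul_comm]) }
  have h1 : Module.Finite ℤ (Additive A) := by
    have : AddGroup.FG (Additive A) := inferInstance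
    exact Module.Finite.iff_addGroup_fg.2 this
  have h2 : IsNoetherian ℤ (Additive A) := inferInstance
  have h3 : Module.Finite ℤ (Additive B) :=
    Module.Finite.of_injective (MonoidHom.toAdditive f).toIntLinearMap hf
  have h4 : AddGroup.FG (Additive B) := Module.Finite.iff_addGroup_fg.1 h3
  exact GroupFG.iff_add_fg.2 h4

theorem vab_inj {Q Q' : Type} [Group Q] [Group Q'] (f : Q' →* Q) (hf : Function.Injective f)
    (h : VAb Q) : VAb Q' := by
  obtain ⟨A, h1, h2, h3⟩ := h
  refine ⟨A.comap f, ⟨?_⟩, ?_, fun x hx y hy => hf ?_⟩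
  · rw [Subgroup.index_comap]
    exact fun h0 => h1.index_ne_zero (Subgroup.index_eq_zero_of_relIndex_eq_zero h0)
  · let _ : CommGroup A := { (inferInstance : Group A) with
      mul_comm := fun a b => Subtype.ext (h3 a a.2 b b.2) }
    have h4 : Group.FG A := (Group.fg_iff_subgroup_fg A).2 h2
    have h5 : Group.FG (A.comap f) := fg_of_inj_comm
      ((f.comp (A.comap f).subtype).codRestrict A fun x => x.2) (by
        intro x y hxy
        exact Subtype.ext (hf (congrArg Subtype.val hxy)))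
    exact (Group.fg_iff_subgroup_fg _).1 h5
  · rw [map_mul, map_mul]
    exact h3 _ hx _ hy

theorem vab_surj {Q Q' : Type} [Group Q] [Group Q'] (f : Q →* Q') (hf : Function.Surjective f)
    (h : VAb Q) : VAb Q' := by
  obtain ⟨A, h1, h2, h3⟩ := h
  refine ⟨A.map f, ⟨?_⟩, ?_, ?_⟩
  · exact fun h0 => h1.index_ne_zero
      (Nat.eq_zero_of_zero_dvd (h0 ▸ Subgroup.index_map_dvd A hf))
  · obtain ⟨S, hS⟩ := h2
    classical
    exact ⟨S.image f, by rw [Finset.coe_image, ← MonoidHom.map_closure, hS]⟩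
  · rintro _ ⟨x, hx, rfl⟩ _ ⟨y, hy, rfl⟩
    rw [← map_mul, ← map_mul, h3 x hx y hy]

theorem vab_fi {Q : Type} [Group Q] (H : Subgroup Q) (hH : H.FiniteIndex) (h : VAb H) :
    VAb Q := by
  obtain ⟨A, h1, h2, h3⟩ := h
  refine ⟨A.map H.subtype, ⟨?_⟩, ?_, ?_⟩
  · rw [Subgroup.index_map_subtype]
    exact mul_ne_zero h1.index_ne_zero hH.index_ne_zero
  · obtain ⟨S, hS⟩ := h2
    classical
    exact ⟨S.image H.subtype, by rw [Finset.coe_image, ← MonoidHom.map_closure, hS]⟩
  · rintro _ ⟨x, hx, rfl⟩ _ ⟨y, hy, rfl⟩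
    rw [← map_mul, ← map_mul, h3 x hx y hy]

theorem vab_pi {ι : Type} [Finite ι] (Q : ι → Type) [∀ i, Group (Q i)] (h : ∀ i, VAb (Q i)) :
    VAb (∀ i, Q i) := by
  choose A h1 h2 h3 using h
  refine ⟨Subgroup.pi Set.univ A, ?_, Subgroup.FG.pi h2, ?_⟩
  · have h4 : ∀ i, ((A i).comap (Pi.evalMonoidHom Q i)).FiniteIndex := fun i => ⟨by
      rw [Subgroup.index_comap]
      exact fun h0 => (h1 i).index_ne_zero (Subgroup.index_eq_zero_of_relIndex_eq_zero h0)⟩
    have h5 : (⨅ i, (A i).comap (Pi.evalMonoidHom Q i)).FiniteIndex :=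
      Subgroup.finiteIndex_iInf h4
    have h6 : (⨅ i, (A i).comap (Pi.evalMonoidHom Q i)) ≤ Subgroup.pi Set.univ A := by
      intro x hx
      rw [Subgroup.mem_iInf] at hx
      exact fun i _ => hx i
    exact Subgroup.finiteIndex_of_le h6
  · intro x hx y hy
    funext i
    exact h3 i _ (hx i trivial) _ (hy i trivial)

theorem vab_finite {Q : Type} [Group Q] (h : Finite Q) : VAb Q :=
  ⟨⊥, inferInstance, Subgroup.FG.bot, by
    intro x hx y hy
    rw [Subgroup.mem_bot.1 hx, Subgroup.mem_bot.1 hy]⟩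

theorem vab_comm {Q : Type} [Group Q] (h : ∀ x y : Q, x * y = y * x) (hf : Group.FG Q) : VAb Q :=
  ⟨⊤, inferInstance, Group.fg_def.1 hf, fun x _ y _ => h x y⟩

end Pool.Agent.FH
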