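import Pool.Agent.Lib.MP_8f66f0_al_FH.ADefs
import Pool.Agent.Lib.MP_8f66f0_al_FH.VA

/-! Groups in `VAb` act on `ℤ^ι` by permutations and translations such that only finite subgroups
have a finite image (induced representations). -/

set_option autoImplicit false

namespace Pool.Agent.FH

theorem exists_beta (A : Type) [CommGroup A] [Group.FG A] :
    ∃ (n : ℕ) (β : A → Fin n → ℤ), (∀ a b, β (a * b) = β a + β b) ∧
      {a | β a = 0}.Finite := by
  obtain ⟨n, ι, hι, p, hp, e, ⟨E⟩⟩ :=
    AddCommGroup.equiv_free_prod_directSum_zmod (Additive A)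
  have h0 : ∀ i, NeZero (p i ^ e i) := fun i => ⟨pow_ne_zero _ (hp i).ne_zero⟩
  classical
  have h1 : Finite (DirectSum ι fun i => ZMod (p i ^ e i)) :=
    Finite.of_injective (fun x : DirectSum ι fun i => ZMod (p i ^ e i) => fun i => x i)
      fun x y hxy => DFinsupp.ext fun i => congrFun hxy i
  refine ⟨n, fun a i => (E (Additive.ofMul a)).1 i, fun a b => ?_, ?_⟩
  · funext i
    change (E (Additive.ofMul (a * b))).1 i = _
    rw [ofMul_mul, map_add]
    rfl
  · have h2 : Function.Injective fun a : {a : A | (fun i => (E (Additive.ofMul a)).1 i) =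
        (0 : Fin n → ℤ)} => (E (Additive.ofMul a.1)).2 := by
      intro a b hab
      have ha : (E (Additive.ofMul a.1)).1 = 0 := Finsupp.ext fun i => congrFun a.2 i
      have hb : (E (Additive.ofMul b.1)).1 = 0 := Finsupp.ext fun i => congrFun b.2 i
      exact Subtype.ext (Additive.ofMul.injective (E.injective (Prod.ext (ha.trans hb.symm) hab)))
    exact Finite.of_injective _ h2

section Induced

variable {Q : Type} [Group Q] (A : Subgroup Q)

/-- The cocycle of `Q` with values in `A` with respect to the chosen transversal. -/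
noncomputable def coc (q : Q) (y : Q ⧸ A) : A :=
  ⟨y.out⁻¹ * q * (q⁻¹ • y).out, by
    have h1 : (((q * (q⁻¹ • y).out : Q)) : Q ⧸ A) = y := by
      rw [← smul_eq_mul, ← MulAction.Quotient.smul_coe, QuotientGroup.out_eq', smul_inv_smul]
    have h2 : ((y.out : Q) : Q ⧸ A) = y := QuotientGroup.out_eq' y
    have h3 := QuotientGroup.eq.1 (h2.trans h1.symm)
    simpa [mul_assoc] using h3⟩

theorem coc_mul (g h : Q) (y : Q ⧸ A) : coc A (g * h) y = coc A g y * coc A h (g⁻¹ • y) := by
  refine Subtype.ext ?_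
  simp only [coc, Subgroup.coe_mul, mul_inv_rev, mul_smul]
  group

variable {n : ℕ} (β : A → Fin n → ℤ) (hβ : ∀ a b, β (a * b) = β a + β b)

/-- The induced action. -/
noncomputable def indAff : Aff Q ((Q ⧸ A) × Fin n) where
  sg := (MonoidHom.mk' (fun g => (MulAction.toPerm g : Equiv.Perm (Q ⧸ A)).prodCongr
    (Equiv.refl (Fin n))) fun g h => by
      ext x
      · simp [mul_smul]
      · rfl)
  v g i := β (coc A g i.1) i.2
  mul g h i := by
    rw [coc_mul, hβ]
    rfl

theorem indAff_finite [A.FiniteIndex] (hf : {a | β a = 0}.Finite) (V : Subgroup Q)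
    (hV : (indAff A β hβ).Small V) : Finite V := by
  obtain ⟨b, hb⟩ := hV
  let y₀ : Q ⧸ A := ((1 : Q) : Q ⧸ A)
  have ht : (y₀.out : Q) ∈ A := by
    have h1 : ((y₀.out : Q) : Q ⧸ A) = ((1 : Q) : Q ⧸ A) := Quotient.out_eq' y₀
    simpa using QuotientGroup.eq.1 h1.symm
  have hfix : ∀ q ∈ A, q⁻¹ • y₀ = y₀ := by
    intro q hq
    change ((q⁻¹ * 1 : Q) : Q ⧸ A) = ((1 : Q) : Q ⧸ A)
    rw [mul_one]
    exact QuotientGroup.eq.2 (by simpa using hq)
  have h1 : β 1 = 0 := by
    have := hβ 1 1
    rw [mul_one] at this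
    exact (left_eq_add.1 this)
  have hinv : ∀ a, β a⁻¹ = -β a := by
    intro a
    have := hβ a⁻¹ a
    rw [inv_mul_cancel, h1] at this
    exact eq_neg_of_add_eq_zero_left this.symm
  have hcoc : ∀ (q : Q) (hq : q ∈ A), β (coc A q y₀) = β ⟨q, hq⟩ := by
    intro q hq
    have h2 : coc A q y₀ = (⟨y₀.out, ht⟩ : A)⁻¹ * ⟨q, hq⟩ * ⟨y₀.out, ht⟩ := by
      refine Subtype.ext ?_
      simp only [coc, hfix q hq]
      rfl
    rw [h2, hβ, hβ, hinv]
    abel
  -- the intersection with `A` is finite
  have h3 : Finite (A.subgroupOf V) := by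
    have hB : {f : Multiplicative (Fin n → ℤ) | ∀ i, |f.toAdd i| ≤ b}.Finite := by
      have h4 : {f : Fin n → ℤ | ∀ i, |f i| ≤ b}.Finite := by
        refine (Set.Finite.pi' (t := fun _ : Fin n => Set.Icc (-(b : ℤ)) b)
          fun _ => Set.finite_Icc _ _).subset ?_
        exact fun f hf i => abs_le.1 (hf i)
      exact h4
    let F : A.subgroupOf V →* Multiplicative (Fin n → ℤ) := MonoidHom.mk'
      (fun x => Multiplicative.ofAdd (β ⟨x.1.1, x.2⟩)) fun x y => by
        rw [← ofAdd_add, ← hβ]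
        rfl
    have h5 : Finite F.range := by
      refine hB.subset ?_
      rintro _ ⟨x, rfl⟩ i
      have h6 : |β (coc A x.1.1 y₀) i| ≤ b := hb x.1.1 x.1.2 (y₀, i)
      have h7 := hcoc x.1.1 x.2
      rw [h7] at h6
      exact h6
    have h6 : Finite F.ker := by
      have h7 : Function.Injective fun x : F.ker => (⟨⟨x.1.1.1, x.1.2⟩, by
          exact Multiplicative.ofAdd.injective (MonoidHom.mem_ker.1 x.2)⟩ : {a | β a = 0}) := by
        intro x y hxy
        have h8 : x.1.1.1 = y.1.1.1 := congrArg (fun z : {a | β a = 0} => (z.1 : Q)) hxy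
        exact Subtype.ext (Subtype.ext (Subtype.ext h8))
      have h8 : Finite {a | β a = 0} := hf
      exact Finite.of_injective _ h7
    rw [Subgroup.finite_iff_finite_and_finiteIndex (H := F.ker)]
    exact ⟨h6, inferInstance⟩
  have h4 : (A.subgroupOf V).FiniteIndex := inferInstance
  rw [Subgroup.finite_iff_finite_and_finiteIndex (H := A.subgroupOf V)]
  exact ⟨h3, h4⟩

end Induced

/-- A group in `VAb` acts on some `ℤ^ι` such that only finite subgroups have a finite image. -/
theorem exists_theta {Q : Type} [Group Q] (h : VAb Q) :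
    ∃ (ι : Type) (_ : Fintype ι) (_ : DecidableEq ι) (A : Aff Q ι),
      ∀ V : Subgroup Q, A.Small V → Finite V := by
  obtain ⟨A, h1, h2, h3⟩ := h
  let _ : CommGroup A := { (inferInstance : Group A) with
    mul_comm := fun a b => Subtype.ext (h3 a a.2 b b.2) }
  have h4 : Group.FG A := (Group.fg_iff_subgroup_fg A).2 h2
  obtain ⟨n, β, hβ, hf⟩ := exists_beta A
  classical
  have : Finite (Q ⧸ A) := inferInstance
  exact ⟨(Q ⧸ A) × Fin n, Fintype.ofFinite _, inferInstance, indAff A β hβ,
    fun V hV => indAff_finite A β hβ hf V hV⟩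

/-- Pull back along a homomorphism. -/
def Aff.comap {G Q ι : Type} [Group G] [Group Q] (A : Aff Q ι) (θ : G →* Q) : Aff G ι where
  sg := A.sg.comp θ
  v g := A.v (θ g)
  mul g h i := by
    rw [map_mul]
    exact A.mul _ _ i

/-- The closure property `vab` follows from the closure property for affine actions. -/
theorem vab_of_aff {C : (G : Type) → [Group G] → Prop}
    (hA : ∀ (G : Type) [Group G] (ι : Type) [Fintype ι] [DecidableEq ι] (A : Aff G ι),
      (∀ U : Subgroup G, A.Small U → C U) → C G)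
    (G Q : Type) [Group G] [Group Q] (θ : G →* Q) (hQ : VAb Q)
    (h : ∀ U : Subgroup G, Finite (U.map θ) → C U) : C G := by
  obtain ⟨ι, h1, h2, A, hV⟩ := exists_theta hQ
  refine hA G ι (A.comap θ) fun U hU => h U (hV _ ?_)
  obtain ⟨b, hb⟩ := hU
  refine ⟨b, ?_⟩
  rintro _ ⟨g, hg, rfl⟩ i
  exact hb g hg i

end Pool.Agent.FH
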