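import Pool.Agent.Lib.MP_8f66f0_al_FH.VC
import Pool.Agent.Lib.MP_8f66f0_al_FH.VT
import Pool.Agent.Lib.MP_8f66f0_al_FH.KuhnA
import Pool.Agent.Lib.MP_8f66f0_al_FH.KSTree

/-! Extensions with elementary amenable quotients: the class `NN`, and the reduction of the class
`KS` to affine actions. -/

set_option autoImplicit false

namespace Pool.Agent.FH

open Pool.Agent.Hier Pool.Agent.WaldL Pool.Agent.WaldP Pool.Agent.TreeC

theorem closedV_of_aff {C : (G : Type) → [Group G] → Prop}
    (h1 : ∀ (G : Type) [Group G], Subsingleton G → C G)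
    (h2 : ∀ (G H : Type) [Group G] [Group H], (G ≃* H) → C G → C H)
    (h3 : ∀ (G : Type) [Group G] (S : Set (Subgroup G)), S.Nonempty →
      DirectedOn (· ≤ ·) S → (∀ g : G, ∃ K ∈ S, g ∈ K) → (∀ K ∈ S, C K) → C G)
    (h4 : ∀ (G : Type) [Group G] (ι : Type) [Fintype ι] [DecidableEq ι] (A : Aff G ι),
      (∀ U : Subgroup G, A.Small U → C U) → C G) : ClosedV C :=
  ⟨h1, h2, h3, vab_of_aff h4⟩

theorem closedV_nn : ClosedV Hier.NN :=
  closedV_of_aff (fun _ _ _ => NN.cd 0 WaldL.cdLE_trivial) (fun _ _ _ _ e h => NN.iso e h)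
    (fun _ _ S hne hd hS h => NN.directed S hne hd hS h) fun _ _ _ _ _ A h => nn_aff' A h

theorem closedV_whnn : ClosedV WhVan.NN :=
  closedV_of_aff (fun _ _ _ => WhVan.NN.cd 0 WaldL.cdLE_trivial)
    (fun _ _ _ _ e h => WhVan.NN.iso e h)
    (fun _ _ S hne hd hS h => WhVan.NN.directed S hne hd hS h) fun _ _ _ _ _ A h => nn_aff A h

theorem closedV_ss : ClosedV Hier.SS :=
  closedV_of_aff (fun G _ _ => ss_triv G) (fun _ _ _ _ e h => ss_iso e h)
    (fun _ _ S hne hd hS h => ss_directed S hne hd hS h) fun _ _ _ _ _ A h => ss_aff A h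

/-- The statement on affine actions (part 0 and 1 of the proof). -/
def KSAff : Prop :=
  ∀ (G : Type) [Group G] (ι : Type) [Fintype ι] [DecidableEq ι] (A : Aff G ι),
    (∀ U : Subgroup G, A.Small U → KS U) → KS G

theorem closedV_ks (h : KSAff) : ClosedV KS :=
  closedV_of_aff (fun G _ _ => ks_triv G) (fun _ _ _ _ e h => ks_iso e h)
    (fun _ _ S hne hd hS h => ks_directed S hne hd hS h) h

/-- `NN` is closed under extensions with elementary amenable quotients in the relative form. -/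
theorem nn_rel {Q : Type} [Group Q] (hQ : EAm Q) {G : Type} [Group G] (θ : G →* Q)
    (h : ∀ U : Subgroup G, Finite (U.map θ) → Hier.NN U) : Hier.NN G :=
  c_of_rel closedV_nn hQ θ h

theorem whnn_rel {Q : Type} [Group Q] (hQ : EAm Q) {G : Type} [Group G] (θ : G →* Q)
    (h : ∀ U : Subgroup G, Finite (U.map θ) → WhVan.NN U) : WhVan.NN G :=
  c_of_rel closedV_whnn hQ θ h

theorem ks_rel (hA : KSAff) {Q : Type} [Group Q] (hQ : EAm Q) {G : Type} [Group G] (θ : G →* Q)
    (h : ∀ U : Subgroup G, Finite (U.map θ) → KS U) : KS G :=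
  c_of_rel (closedV_ks hA) hQ θ h

/-- All torsion-free elementary amenable groups are in `KS`. -/
theorem ks_eam (hA : KSAff) {G : Type} [Group G] (hG : EAm G) (ht : TF G) : KS G :=
  c_of_eam (closedV_ks hA) hG ht

end Pool.Agent.FH
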