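import Pool.Agent.Lib.MP_8f66f0_al_FH.TwPt
import Pool.Agent.Lib.MP_8f66f0_al_FH.TwM
import Pool.Agent.Lib.MP_8f66f0_al_FH.TwSum
import Pool.Agent.Lib.MP_8f66f0_al_FH.TwInt
import Pool.Agent.Lib.MP_8f66f0_al_FH.TwRes
import Pool.Agent.Lib.MP_8f66f0_al_FH.TwIso
import Pool.Agent.Lib.MP_8f66f0_al_FH.Radon
import Pool.Agent.Lib.MP_8f66f0_al_FH.Two
import Pool.Agent.Lib.MP_8f66f0_al_FH.Asm
import Pool.Agent.Lib.MP_8f66f0_al_FH.ERep
import Pool.Agent.Lib.MP_8f66f0_al_FH.Fix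
import Pool.Agent.Lib.MP_8f66f0_al_FH.Hyp
import Pool.Agent.Lib.MP_8f66f0_al_FH.NetC
import Pool.Agent.Lib.MP_8f66f0_al_FH.Good
import Pool.Agent.Lib.MP_8f66f0_al_FH.Rank
import Pool.Agent.Lib.MP_8f66f0_al_FH.FH
import Pool.Agent.Lib.MP_8f66f0_al_FH.VN

/-! Parts 0 and 1 of Theorem FH: everything follows from the control theorem. -/

set_option autoImplicit false

namespace Pool.Agent.FH

open Pool.Agent.Wald Pool.Agent.WaldL Pool.Agent.Ind Pool.Agent.TreeC Pool.Agent.Hier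

theorem fh_of_ctl (h : S_ctl) : S_fh :=
  fh (twIso (twSum twM) (twRes twM)) (asm twPt (twSum twM) radon (twTwo (twSum twM) (twInt twM)))
    eRep (fix eRep) (hyp eRep) (net eRep) (good h (twRes twM)) rank

theorem ksAff_of_ctl (h : S_ctl) : KSAff := by
  intro G _ ι _ _ A hV
  refine ⟨fh_of_ctl h G ι A (fun V hv => (hV V hv).1) fun U => ?_,
    ss_aff A fun V hv => (hV V hv).2⟩
  refine ss_aff (A.res U) fun V hv => ?_
  have h1 : A.Small (V.map U.subtype) := by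
    obtain ⟨b, hb⟩ := hv
    refine ⟨b, ?_⟩
    rintro _ ⟨g, hg, rfl⟩ i
    exact hb g hg i
  exact ss_iso (V.equivMapOfInjective U.subtype U.subtype_injective).symm (hV _ h1).2

end Pool.Agent.FH
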