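import Pool.Agent.Lib.MP_8f66f0_al_FH.ADefs

/-! Parts 0 and 1 of Theorem FH: statements and proofs.

`tw X a` is the matrix `a` with coefficients in the finite `G`-set `X`: entries
`((i, x), (j, y))` = the part of `a i j` supported on `{g | g • y = x}`. -/

set_option autoImplicit false

namespace Pool.Agent.FH

open Pool.Agent.Wald Pool.Agent.WaldL Pool.Agent.Ind Filter

/-- The invariant kills the units `u g`. -/
def KU {L G K : Type} [CommRing L] [Group G] [CommGroup K] (κ : K1Fun (MonoidAlgebra L G) K) :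
    Prop :=
  ∀ (g : G) (u : Lˣ), κ.f (Matrix.of fun _ _ : Fin 1 => (MonoidAlgebra.single g (u : L))) = 1

/-- **TwM**. `tw X` is multiplicative and unital. (Coefficients at `g`:
`∑_{j, y} ∑_{h} [h • y = x] a_h [h⁻¹ g • z = y] b_{h⁻¹ g}`; given `h`, only `y = h⁻¹ x` counts.) -/
def S_twM : Prop :=
  ∀ (L G X : Type) [CommRing L] [Group G] [MulAction G X] [Fintype X] [DecidableEq X]
    (n : Type) [Fintype n] [DecidableEq n] (a b : Matrix n n (MonoidAlgebra L G)),
    tw X (a * b) = tw X a * tw X b ∧ tw X (1 : Matrix n n (MonoidAlgebra L G)) = 1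

/-- **TwPt**. A `G`-set with one element. (`tw X a` is `a`, reindexed by `n × X ≃ n`.) -/
def S_twPt : Prop :=
  ∀ (L G X K : Type) [CommRing L] [Group G] [MulAction G X] [Fintype X] [DecidableEq X]
    [CommGroup K] (κ : K1Fun (MonoidAlgebra L G) K) (n : Type) [Fintype n] [DecidableEq n]
    (a : Matrix n n (MonoidAlgebra L G)), IsUnit a → (∃ x : X, ∀ y, y = x) →
    κ.f (tw X a) = κ.f a

/-- **TwSum** (uses `S_twM`). `X` is the disjoint union of two invariant subsets, given by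
equivariant maps. (`tw X a` is block diagonal after the reindexing
`n × X ≃ (n × X₁) ⊕ (n × X₂)`.) -/
def S_twSum : Prop :=
  ∀ (L G X X₁ X₂ K : Type) [CommRing L] [Group G] [MulAction G X] [Fintype X] [DecidableEq X]
    [MulAction G X₁] [Fintype X₁] [DecidableEq X₁] [MulAction G X₂] [Fintype X₂]
    [DecidableEq X₂] [CommGroup K] (e : X₁ ⊕ X₂ ≃ X),
    (∀ (g : G) (x : X₁), e (Sum.inl (g • x)) = g • e (Sum.inl x)) →
    (∀ (g : G) (x : X₂), e (Sum.inr (g • x)) = g • e (Sum.inr x)) →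
    ∀ (κ : K1Fun (MonoidAlgebra L G) K) (n : Type) [Fintype n] [DecidableEq n]
      (a : Matrix n n (MonoidAlgebra L G)), IsUnit a →
      κ.f (tw X a) = κ.f (tw X₁ a) * κ.f (tw X₂ a)

/-- **TwInt** (uses `S_twM`). Isomorphic permutation modules: `P`, `Q` equivariant integral
matrices inverse to each other. (`tw X a * P' = P' * tw Y a` with `P' = 1 ⊗ P`; then
`κ(tw X a) = κ(P' tw Y a Q') = κ(tw Y a)`. For a non-square index set use
`[[P', 0], [0, Q']]`-type matrices: `[[0, P'], [Q', 0]]` is invertible over `X ⊕ Y` and conjugates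
`diag(tw X a, 1)` to `diag(1, tw Y a)`.) -/
def S_twInt : Prop :=
  ∀ (L G X Y K : Type) [CommRing L] [Group G] [MulAction G X] [Fintype X] [DecidableEq X]
    [MulAction G Y] [Fintype Y] [DecidableEq Y] [CommGroup K] (P : Matrix X Y ℤ)
    (Q : Matrix Y X ℤ), P * Q = 1 → Q * P = 1 → (∀ (g : G) x y, P (g • x) (g • y) = P x y) →
    ∀ (κ : K1Fun (MonoidAlgebra L G) K) (n : Type) [Fintype n] [DecidableEq n]
      (a : Matrix n n (MonoidAlgebra L G)), IsUnit a → κ.f (tw X a) = κ.f (tw Y a)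

/-- **TwRes** (uses `S_twM`). Restriction to a subgroup: with `D = diag(t x)` the matrix
`D⁻¹ (tw X a) D` has entries in `L[Γ]`; the inverse has the same form. -/
def S_twRes : Prop :=
  ∀ (L G X : Type) [CommRing L] [Group G] [MulAction G X] [Fintype X] [DecidableEq X]
    (Γ : Subgroup G) (t : X → G), (∀ (g : G) (x y : X), g • y = x → (t x)⁻¹ * g * t y ∈ Γ) →
    ∀ (n : Type) [Fintype n] [DecidableEq n] (a b : Matrix n n (MonoidAlgebra L G)),
      a * b = 1 → b * a = 1 →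
      ∃ a' b' : Matrix (n × X) (n × X) (MonoidAlgebra L Γ), a' * b' = 1 ∧ b' * a' = 1 ∧
        (∀ i j (γ : Γ), (a' i j).coeff γ ≠ 0 → (a i.1 j.1).coeff (t i.2 * γ * (t j.2)⁻¹) ≠ 0) ∧
        (∀ i j (γ : Γ), (b' i j).coeff γ ≠ 0 → (b i.1 j.1).coeff (t i.2 * γ * (t j.2)⁻¹) ≠ 0) ∧
        ∀ (K : Type) [CommGroup K] (κ : K1Fun (MonoidAlgebra L G) K),
          κ.f (tw X a) = κ.f (a'.map (inc Γ.subtype))

/-- **TwIso** (uses `S_twSum`, `S_twRes`). All isotropy groups of `X` are in `KK`. (Induction on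
the number of elements of `X`: the orbit of a point and its complement. Transitive case: `S_twRes`
with `Γ` = the stabilizer of `x₀` and `t x • x₀ = x`; the pull back of `κ` along `inc` is an
invariant for `L[Γ]` which kills the units, see `pullK` in `WaldL/Bridge`.) -/
def S_twIso : Prop :=
  ∀ (L G X K : Type) [CommRing L] [IsDomain L] [Group G] [MulAction G X] [Fintype X]
    [DecidableEq X] [CommGroup K], IsEuc L → (∀ x : X, KK (MulAction.stabilizer G x)) →
    ∀ (κ : K1Fun (MonoidAlgebra L G) K), KU κ → ∀ (n : Type) [Fintype n] [DecidableEq n]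
      (a : Matrix n n (MonoidAlgebra L G)), IsUnit a → κ.f (tw X a) = 1

open Classical in
/-- A net: points `S`, directions `H`, classes `C`; for every direction every point is in exactly
one class, there are `p` classes, and the numbers of directions in which two points are in the
same class are the right ones. (`S` = an affine space over the field with `p` elements with `P`
elements, `H` = the hyperplanes of the vector space, `C` = the affine hyperplanes, `w = P / p`.) -/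
structure Net (P p w : ℕ) (S H C : Type) [Fintype S] [Fintype H] [Fintype C] where
  π : C → H
  inc : C → S → Prop
  one : ∀ (K : H) (s : S), ∃! c, π c = K ∧ inc c s
  cls : ∀ K : H, (Finset.univ.filter fun c => π c = K).card = p
  cnt : ∀ s s' : S, 1 + ∑ K : H, (if ∃ c, π c = K ∧ inc c s ∧ inc c s' then (p : ℤ) - 1 else -1) =
    if s = s' then (P : ℤ) else 0
  card : Fintype.card S = P
  wp : Nonempty H → p * w = P

/-- **Radon**. The two matrices `f : ℤ[S ⊕ H] → ℤ[pt ⊕ C]`, `f' : ℤ[pt ⊕ C] → ℤ[S ⊕ H]`: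
`f (pt, s) = 1`, `f (pt, K) = 0`, `f (c, s) = [s ∈ c]`, `f (c, K) = [π c = K]`;
`f' (s, pt) = 1`, `f' (K, pt) = -w`, `f' (s, c) = p [s ∈ c] - 1`, `f' (K, c) = w [π c = K]`.
`f' f = P`: entry `(s, s')`: `1 + ∑_c (p [s ∈ c] - 1) [s' ∈ c] = 1 + ∑_K (p [same class] - 1)`,
`(s, K)`: `∑_{π c = K} (p [s ∈ c] - 1) = p - p`, `(K, s)`: `-w + w`, `(K, K')`: `w p [K = K']`.
`f f' = P`: the index sets have the same number of elements (`cnt` for `s = s'`:
`1 + (p - 1) #H = P`, and `#C = p #H`; if `S` is empty then `P = 0`: not possible as `p` is prime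
and `w p = P`, or `H` is empty, `C` is empty and `P = 1` by `hP`), so over `ℚ` the left inverse is
an inverse (`Matrix.mul_eq_one_comm_of_card_eq` or `_of_equiv`). Invariance is clear. -/
def S_radon : Prop :=
  ∀ (P p w : ℕ), p.Prime → 0 < P → ∀ (S H C : Type) [Fintype S] [DecidableEq S] [Fintype H]
    [DecidableEq H] [Fintype C] [DecidableEq C] (N : Net P p w S H C),
    ∃ (f : Matrix (Option C) (S ⊕ H) ℤ) (f' : Matrix (S ⊕ H) (Option C) ℤ),
      f * f' = (P : ℤ) • 1 ∧ f' * f = (P : ℤ) • 1 ∧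
      ∀ (G : Type) [Group G] [MulAction G S] [MulAction G H] [MulAction G C],
        (∀ (g : G) c, N.π (g • c) = g • N.π c) → (∀ (g : G) c s, N.inc (g • c) (g • s) ↔ N.inc c s) →
        (∀ (g : G) x y, f (g • x) (g • y) = f x y) ∧ ∀ (g : G) x y, f' (g • x) (g • y) = f' x y

/-- **Two** (uses `S_twSum`, `S_twInt`). Two primes: `a P + b Q = 1`. The matrices
`[[1 ⊗ .. f ⊗ 1, b 1 ⊗ g'], [1 ⊗ g, - a f' ⊗ 1]] : ℤ[M × N ⊕ M' × N'] → ℤ[M' × N ⊕ M × N']` and
`[[a f' ⊗ 1, b 1 ⊗ g'], [1 ⊗ g, - f ⊗ 1]]` are inverse to each other (`f`, `f'` commute with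
`g`, `g'`) and equivariant. -/
def S_twTwo : Prop :=
  ∀ (L G K : Type) [CommRing L] [Group G] [CommGroup K] (M M' N N' : Type)
    [MulAction G M] [Fintype M] [DecidableEq M] [MulAction G M'] [Fintype M'] [DecidableEq M']
    [MulAction G N] [Fintype N] [DecidableEq N] [MulAction G N'] [Fintype N'] [DecidableEq N']
    (P Q : ℤ) (f : Matrix M' M ℤ) (f' : Matrix M M' ℤ) (h : Matrix N' N ℤ) (h' : Matrix N N' ℤ),
    IsCoprime P Q → f * f' = P • 1 → f' * f = P • 1 → h * h' = Q • 1 → h' * h = Q • 1 →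
    (∀ (g : G) x y, f (g • x) (g • y) = f x y) → (∀ (g : G) x y, f' (g • x) (g • y) = f' x y) →
    (∀ (g : G) x y, h (g • x) (g • y) = h x y) → (∀ (g : G) x y, h' (g • x) (g • y) = h' x y) →
    ∀ (κ : K1Fun (MonoidAlgebra L G) K) (n : Type) [Fintype n] [DecidableEq n]
      (a : Matrix n n (MonoidAlgebra L G)), IsUnit a →
      κ.f (tw (M × N) a) * κ.f (tw (M' × N') a) = κ.f (tw (M' × N) a) * κ.f (tw (M × N') a)

/-- **Asm** (uses `S_twPt`, `S_twSum`, `S_radon`, `S_twTwo`). The assembly for two nets. (With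
`M = S ⊕ H`, `M' = Option C` (define the action on `S ⊕ H` by hand, or `Sum` actions of Mathlib),
`N`, `N'` for the second net: `κ(M × N) = κ(S × N) κ(H × N) = 1`, `κ(M × N') = 1`,
`κ(M' × N) = κ(N) κ(C × N) = κ(N) = κ(S₂) κ(H₂) = 1`,
`κ(M' × N') = κ(N') κ(C × N') = κ(N') = κ(pt) κ(C₂) = κ(a)`. The sets `S₂`, `H₂`, `C₂` alone are
`S₂ × pt` etc.: use `Y` = a point.) -/
def S_asm : Prop :=
  ∀ (L G K : Type) [CommRing L] [Group G] [CommGroup K] (κ : K1Fun (MonoidAlgebra L G) K)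
    (n : Type) [Fintype n] [DecidableEq n] (a : Matrix n n (MonoidAlgebra L G)), IsUnit a →
    ∀ (P p w : Fin 2 → ℕ) (S H C : Fin 2 → Type) [∀ i, Fintype (S i)] [∀ i, DecidableEq (S i)]
      [∀ i, Fintype (H i)] [∀ i, DecidableEq (H i)] [∀ i, Fintype (C i)] [∀ i, DecidableEq (C i)]
      [∀ i, MulAction G (S i)] [∀ i, MulAction G (H i)] [∀ i, MulAction G (C i)]
      (N : ∀ i, Net (P i) (p i) (w i) (S i) (H i) (C i)), (∀ i, (p i).Prime) → (∀ i, 0 < P i) →
      (P 0).Coprime (P 1) → (∀ i (g : G) c, (N i).π (g • c) = g • (N i).π c) →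
      (∀ i (g : G) c s, (N i).inc (g • c) (g • s) ↔ (N i).inc c s) →
      (∀ i (Y : Type) [MulAction G Y] [Fintype Y] [DecidableEq Y], κ.f (tw (S i × Y) a) = 1) →
      (∀ i (Y : Type) [MulAction G Y] [Fintype Y] [DecidableEq Y], κ.f (tw (H i × Y) a) = 1) →
      (∀ i (Y : Type) [MulAction G Y] [Fintype Y] [DecidableEq Y], κ.f (tw (C i × Y) a) = 1) →
      κ.f a = 1

section Aff

variable {G : Type} [Group G] {ι : Type}

/-- The translations modulo `p`. -/
def Aff.E (A : Aff G ι) (p : ℕ) : Submodule (ZMod p) (ι → ZMod p) :=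
  Submodule.span (ZMod p) {x | ∃ g, A.sg g = 1 ∧ x = fun i => (A.v g i : ZMod p)}

/-- The linear map of a permutation. -/
def pm (R : Type) [CommRing R] (s : Equiv.Perm ι) : (ι → R) →ₗ[R] (ι → R) :=
  LinearMap.funLeft R R (s⁻¹ : Equiv.Perm ι)

/-- The rank of the group of translations. -/
noncomputable def Aff.rk (A : Aff G ι) : ℕ :=
  Module.finrank ℚ (Submodule.span ℚ {x : ι → ℚ | ∃ g, A.sg g = 1 ∧ x = fun i => (A.v g i : ℚ)})

/-- The order of the group of permutations. -/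
noncomputable def Aff.nF (A : Aff G ι) : ℕ := Nat.card A.sg.range

/-- Case A: an integral functional which is semi-invariant under the permutations and not zero on
the translations. -/
def Aff.CaseA [Fintype ι] (A : Aff G ι) : Prop :=
  ∃ (μ : ι → ℤ) (χ : G →* ℤˣ), (∀ g (x : ι → ℤ), ∑ i, μ i * x ((A.sg g)⁻¹ i) =
    (χ g : ℤ) * ∑ i, μ i * x i) ∧ ∃ g, A.sg g = 1 ∧ ∑ i, μ i * A.v g i ≠ 0

end Aff

/-- **ERep**. The elements of `E p` are the translations themselves (the set in the definition is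
closed under addition, and under scalars, which are classes of natural numbers), and `E p` is
invariant under the permutations (`g k g⁻¹` is the translation by `pm (sg g) (v k)`). -/
def S_E : Prop :=
  ∀ (G : Type) [Group G] (ι : Type) [Fintype ι] (A : Aff G ι) (p : ℕ) [Fact p.Prime],
    (∀ x ∈ A.E p, ∃ g, A.sg g = 1 ∧ x = fun i => (A.v g i : ZMod p)) ∧
    ∀ g, (A.E p).map (pm (ZMod p) (A.sg g)) = A.E p

/-- **Fix** (uses `S_E`). There is a point whose class modulo `E p` is fixed: choose `g_f` with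
`sg g_f = f` for all `f` in the range `F` of `sg`; `u = c ∑_f v(g_f)` with `c |F| = 1` modulo `p`;
`v(h) - v(h')` is in `E p` modulo `p` if `sg h = sg h'`; lift to integers. -/
def S_fix : Prop :=
  ∀ (G : Type) [Group G] (ι : Type) [Fintype ι] (A : Aff G ι) (p : ℕ) [Fact p.Prime],
    ¬ p ∣ A.nF → ∃ u : ι → ℤ, ∀ g, (fun i => ((A.act g u i - u i : ℤ) : ZMod p)) ∈ A.E p

/-- **Hyp** (uses `S_E`). An invariant hyperplane `K` of `E p`, `p = -1` modulo `|F|`, gives case
A. Proof. A functional `lam : E → F_p` with kernel `K`, `lam (f e) = c(f) lam e` for `f` in `F`,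
`c(f) ^ |F| = 1`, `c(f) ^ (p - 1) = 1`, so `c(f) ^ 2 = 1`, `c(f) = ± 1`; extend `lam` to
`F_p ^ ι`, lift the coefficients to integers `l i`, `μ = ∑_f c(f) l ∘ f`: `μ ∘ f = c(f) μ`, and
`μ = |F| lam` modulo `p` on `E`; `|F|` is prime to `p`; `lam ≠ 0`, and every element of `E` is a
translation. -/
def S_hyp : Prop :=
  ∀ (G : Type) [Group G] (ι : Type) [Fintype ι] [DecidableEq ι] (A : Aff G ι) (p : ℕ)
    [Fact p.Prime], A.nF ∣ p + 1 → ∀ K : Submodule (ZMod p) (ι → ZMod p), K ⋖ A.E p →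
    (∀ g, K.map (pm (ZMod p) (A.sg g)) = K) → A.CaseA

/-- **NetC** (uses `S_E`). The concrete net. `S = {x // x - u ∈ E}` (classes modulo `p`),
`H = {K // K ⋖ E}`, `C` = the quotient of `H × S` by `(K, s) ~ (K, s')` iff `s - s' ∈ K`; the
action of `g` on `S` is `x ↦ x ∘ (sg g)⁻¹ + v g`, on `H` it is `K.map (pm (sg g))`.
`cnt`: `∑_K (p [x ∈ K] - 1) (p - 1) = ∑_{lam ≠ 0 in the dual of E} (p [lam x = 0] - 1)` (every
`K` is the kernel of exactly `p - 1` functionals), and
`∑_lam (p [lam x = 0] - 1) = p #{lam | lam x = 0} - #E`, which is `0` if `x ≠ 0` (the evaluation at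
`x` is onto) and `(p - 1) #E` if `x = 0`. `cls`: `E / K` has `p` elements. -/
def S_net : Prop :=
  ∀ (G : Type) [Group G] (ι : Type) [Fintype ι] (A : Aff G ι) (p : ℕ) [Fact p.Prime]
    (u : ι → ℤ), (∀ g, (fun i => ((A.act g u i - u i : ℤ) : ZMod p)) ∈ A.E p) →
    ∃ (r w : ℕ) (S H C : Type) (_ : Fintype S) (_ : DecidableEq S) (_ : Fintype H)
      (_ : DecidableEq H) (_ : Fintype C) (_ : DecidableEq C) (_ : MulAction G S)
      (_ : MulAction G H) (_ : MulAction G C) (N : Net (p ^ r) p w S H C) (s₀ : S),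
      (∀ (g : G) c, N.π (g • c) = g • N.π c) ∧ (∀ (g : G) c s, N.inc (g • c) (g • s) ↔ N.inc c s) ∧
      (∀ s, ∃ g : G, g • s₀ = s) ∧ (∀ g : G, g • s₀ = s₀ → ∀ i, (p : ℤ) ∣ A.act g u i - u i) ∧
      ∀ K : H, ∃ K' : Submodule (ZMod p) (ι → ZMod p), K' ⋖ A.E p ∧
        ∀ g : G, g • K = K → K'.map (pm (ZMod p) (A.sg g)) = K'

/-- **Good** (uses `S_ctl`, `S_twRes`). Stabilizers of points modulo `p`, `p` large. By
contradiction: for every `j` there are `p_j ≥ j` (`p_j ≥ 1`), `u_j`, `X_j`, .. with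
`κ(tw X_j a) ≠ 1`. Let `Γ_j` be the stabilizer of `s₀`, `t x • s₀ = π x`, `S_twRes`. `Γ_j` acts by
`v' g = v g + u ∘ (sg g)⁻¹ - u`, divisible by `p_j`; positions
`pos (i, x) = act (t x)⁻¹ 0 - u_j`; `D` = the maximum of `|v g i|` for the `g` in the supports of
`a`, `a⁻¹` (`act` is isometric for the maximum norm). Small subgroups for `v'` are small for `v`
(`|v g| ≤ |v' g| + 2 max |u|`), and `KK` is invariant under isomorphism (`kk_iso`). -/
def S_good : Prop :=
  ∀ (L G K ι : Type) [CommRing L] [IsDomain L] [Group G] [CommGroup K] [Fintype ι]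
    [DecidableEq ι], IsEuc L → ∀ (A : Aff G ι), (∀ V : Subgroup G, A.Small V → KK V) →
    ∀ (κ : K1Fun (MonoidAlgebra L G) K), KU κ → ∀ (n : Type) [Fintype n] [DecidableEq n]
      (a : Matrix n n (MonoidAlgebra L G)), IsUnit a → ∃ p₀ : ℕ, ∀ p ≥ p₀, ∀ (u : ι → ℤ)
      (X S : Type) [MulAction G X] [Fintype X] [DecidableEq X] [MulAction G S] (s₀ : S)
      (π : X → S), (∀ (g : G) x, π (g • x) = g • π x) → (∀ s, ∃ g : G, g • s₀ = s) →
      (∀ g : G, g • s₀ = s₀ → ∀ i, (p : ℤ) ∣ A.act g u i - u i) → κ.f (tw X a) = 1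

/-- **Rank**. The measure. (i), (ii) inclusion of spans; (iii) if the rank is zero then all
translations are zero, so `v g` depends only on `sg g`; (iv) `U.map sg < range sg`. -/
def S_rank : Prop :=
  ∀ (G : Type) [Group G] (ι : Type) [Fintype ι] [DecidableEq ι] (A : Aff G ι) (U : Subgroup G),
    (A.res U).rk ≤ A.rk ∧
    (∀ μ : ι → ℤ, (∃ g, A.sg g = 1 ∧ ∑ i, μ i * A.v g i ≠ 0) →
      (∀ g ∈ U, A.sg g = 1 → ∑ i, μ i * A.v g i = 0) → (A.res U).rk < A.rk) ∧
    (A.rk = 0 → A.Small ⊤) ∧ (A.res U).nF ≤ A.nF ∧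
    ((∃ g, ∀ h ∈ U, A.sg h ≠ A.sg g) → (A.res U).nF < A.nF)

/-- **FH** (uses `case_a` of `CaseA`, the closure of `KS` under trees, `S_twIso`, `S_asm`, `S_E`,
`S_fix`, `S_hyp`, `S_net`, `S_good`, `S_rank`). Induction on `(rk, nF)`. `rk = 0`: `⊤` is small.
Case A: `case_a` with `P = KS`, `m g = ∑ μ_i v g i`; if `m` is bounded on `U`, then it is zero on
the translations in `U` (`m (g ^ k) = k m g`). Otherwise two different large primes
`p = -1` modulo `nF` (Dirichlet, `Nat.forall_exists_prime_gt_and_eq_mod`): `S_fix`, `S_net`,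
`S_good` for `S × Y`, `S_twIso` for `H × Y`, `C × Y`: an isotropy group `U` fixes a `K' ⋖ E`, so
by `S_hyp` its image in the permutations is not everything (otherwise case A), `nF` is smaller. -/
def S_fh : Prop :=
  ∀ (G : Type) [Group G] (ι : Type) [Fintype ι] [DecidableEq ι] (A : Aff G ι),
    (∀ V : Subgroup G, A.Small V → KK V) → (∀ V : Subgroup G, Hier.SS V) → KK G

end Pool.Agent.FH
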