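import Pool.Agent.Lib.MP_8f66f0_al_FH.CSpec

/-! The control theorem in dimension `-1`. -/

set_option autoImplicit false

namespace Pool.Agent.FH

theorem base : S_base := by
  intro f _
  refine ⟨0, 0, ?_⟩
  intro G X _ _ Sm N R t D L _ _ _ _ _ _ hdim _ m _ _ p a a' hp _ _ _ _
  have hR : R = ∅ := hdim
  have hm : IsEmpty m := ⟨fun i => by
    obtain ⟨y, hy, _⟩ := hp i
    rw [hR] at hy
    exact hy⟩
  have ha : a = mon L (Equiv.refl m) (fun _ => (1 : G)) := by
    ext i
    exact hm.elim i
  rw [ha]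
  exact Triv.mono p (Equiv.refl m) _ (fun i => hm.elim i) fun i => hm.elim i

end Pool.Agent.FH
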