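import Pool.Agent.Lib.MP_8f66f0_al_FH.CDefs

/-! Calculus of supports of matrices over group rings. -/

set_option autoImplicit false

namespace Pool.Agent.FH

open Pool.Agent.Wald

variable {G X : Type} [Group G] [MulAction G X] {L : Type} [CommRing L]

theorem mul_coeff_ne {x y : MonoidAlgebra L G} {γ : G} (h : (x * y).coeff γ ≠ 0) :
    ∃ γ₁ γ₂ : G, γ₁ * γ₂ = γ ∧ x.coeff γ₁ ≠ 0 ∧ y.coeff γ₂ ≠ 0 := by
  classical
  rw [MonoidAlgebra.coeff_mul] at h
  obtain ⟨a, ha, h1⟩ := Finset.exists_ne_zero_of_sum_ne_zero h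
  obtain ⟨b, hb, h2⟩ := Finset.exists_ne_zero_of_sum_ne_zero h1
  by_cases hab : a * b = γ
  · exact ⟨a, b, hab, Finsupp.mem_support_iff.1 ha, Finsupp.mem_support_iff.1 hb⟩
  · exact absurd (if_neg hab) h2

omit [Group G] in
theorem sum_coeff_ne {m : Type} {s : Finset m} {f : m → MonoidAlgebra L G} {γ : G}
    (h : (∑ j ∈ s, f j).coeff γ ≠ 0) : ∃ j ∈ s, (f j).coeff γ ≠ 0 := by
  classical
  by_contra hn
  push Not at hn
  apply h
  have h1 : (∑ j ∈ s, f j).coeff = ∑ j ∈ s, (f j).coeff :=
    map_sum (MonoidAlgebra.coeffAddEquiv (R := L) (M := G)) f s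
  rw [h1, Finsupp.finsetSum_apply]
  exact Finset.sum_eq_zero hn

section

variable {n m k : Type} {E E' E'' : X → X → Prop} {p : n → X} {q : m → X} {r : k → X}

theorem SupR.mono (h : ∀ x y, E x y → E' x y) {a : Matrix n m (MonoidAlgebra L G)}
    (ha : SupR E p q a) : SupR E' p q a := fun i j γ hγ => h _ _ (ha i j γ hγ)

theorem SupR.near_mono {N : Met G X} {s t : ℕ} (hst : s ≤ t) {a : Matrix n m (MonoidAlgebra L G)}
    (ha : SupR (N.near s) p q a) : SupR (N.near t) p q a := ha.mono fun _ _ => N.mono hst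

theorem SupR.mul [Fintype m] (h : ∀ x y z, E x y → E' y z → E'' x z)
    (hi : ∀ (g : G) x y, E' x y → E' (g • x) (g • y)) {a : Matrix n m (MonoidAlgebra L G)}
    {b : Matrix m k (MonoidAlgebra L G)} (ha : SupR E p q a) (hb : SupR E' q r b) :
    SupR E'' p r (a * b) := by
  intro i j γ hγ
  rw [Matrix.mul_apply] at hγ
  obtain ⟨l, -, hl⟩ := sum_coeff_ne hγ
  obtain ⟨γ₁, γ₂, rfl, h1, h2⟩ := mul_coeff_ne hl
  rw [mul_smul]
  exact h _ _ _ (ha i l γ₁ h1) (hi γ₁ _ _ (hb l j γ₂ h2))

theorem SupR.near_mul [Fintype m] {N : Met G X} {s t : ℕ} {a : Matrix n m (MonoidAlgebra L G)}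
    {b : Matrix m k (MonoidAlgebra L G)} (ha : SupR (N.near s) p q a)
    (hb : SupR (N.near t) q r b) : SupR (N.near (s + t)) p r (a * b) :=
  SupR.mul (E := N.near s) (E' := N.near t) (E'' := N.near (s + t))
    (fun _ _ _ h h' => N.trans h h') (fun g _ _ h => N.inv g h) ha hb

theorem SupR.rel_mul [Fintype m] {E : Eqr G X} {a : Matrix n m (MonoidAlgebra L G)}
    {b : Matrix m k (MonoidAlgebra L G)} (ha : SupR E.rel p q a) (hb : SupR E.rel q r b) :
    SupR E.rel p r (a * b) :=
  SupR.mul (E := E.rel) (E' := E.rel) (E'' := E.rel) (fun _ _ _ h h' => E.trans h h')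
    (fun g _ _ h => E.inv g h) ha hb

theorem SupR.zero : SupR (L := L) (G := G) E p q 0 := fun _ _ _ h => absurd rfl h

theorem SupR.one [DecidableEq n] (h : ∀ x, E x x) : SupR (L := L) (G := G) E p p 1 := by
  classical
  intro i j γ hγ
  rw [Matrix.one_apply] at hγ
  by_cases hij : i = j
  · subst hij
    rw [if_pos rfl, MonoidAlgebra.one_def, MonoidAlgebra.coeff_single, Finsupp.single_apply] at hγ
    by_cases h1 : (1 : G) = γ
    · rw [← h1, one_smul]
      exact h _
    · rw [if_neg h1] at hγ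
      exact absurd rfl hγ
  · rw [if_neg hij] at hγ
    exact absurd rfl hγ

theorem SupR.add {a b : Matrix n m (MonoidAlgebra L G)} (ha : SupR E p q a)
    (hb : SupR E p q b) : SupR E p q (a + b) := by
  intro i j γ hγ
  by_cases h : (a i j).coeff γ = 0
  · by_cases h' : (b i j).coeff γ = 0
    · apply absurd _ hγ
      change (a i j).coeff γ + (b i j).coeff γ = 0
      rw [h, h', add_zero]
    · exact hb i j γ h'
  · exact ha i j γ h

theorem SupR.neg {a : Matrix n m (MonoidAlgebra L G)} (ha : SupR E p q a) :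
    SupR E p q (-a) := by
  intro i j γ hγ
  refine ha i j γ fun h => hγ ?_
  change -((a i j).coeff γ) = 0
  rw [h, neg_zero]

theorem SupR.sub {a b : Matrix n m (MonoidAlgebra L G)} (ha : SupR E p q a)
    (hb : SupR E p q b) : SupR E p q (a - b) := by
  rw [sub_eq_add_neg]
  exact ha.add hb.neg

theorem SupR.submatrix {n' m' : Type} {a : Matrix n m (MonoidAlgebra L G)} (ha : SupR E p q a)
    (f : n' → n) (g : m' → m) : SupR E (fun i => p (f i)) (fun i => q (g i)) (a.submatrix f g) :=
  fun i j γ hγ => ha (f i) (g j) γ hγ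

theorem SupR.fromBlocks {n' m' : Type} {p' : n' → X} {q' : m' → X}
    {a : Matrix n m (MonoidAlgebra L G)} {b : Matrix n m' (MonoidAlgebra L G)}
    {c : Matrix n' m (MonoidAlgebra L G)} {d : Matrix n' m' (MonoidAlgebra L G)}
    (ha : SupR E p q a) (hb : SupR E p q' b) (hc : SupR E p' q c) (hd : SupR E p' q' d) :
    SupR E (Sum.elim p p') (Sum.elim q q') (Matrix.fromBlocks a b c d) := by
  rintro (i | i) (j | j) γ hγ
  · exact ha i j γ hγ
  · exact hb i j γ hγ
  · exact hc i j γ hγ
  · exact hd i j γ hγ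

theorem supR_mon [DecidableEq m] (σ : n ≃ m) (γ : n → G)
    (h : ∀ i, E (p i) (γ i • q (σ i))) : SupR E p q (mon L σ γ) := by
  classical
  intro i j g hg
  unfold mon at hg
  by_cases hij : σ i = j
  · rw [if_pos hij, MonoidAlgebra.coeff_single, Finsupp.single_apply] at hg
    by_cases h1 : γ i = g
    · rw [← h1, ← hij]
      exact h i
    · rw [if_neg h1] at hg
      exact absurd rfl hg
  · rw [if_neg hij] at hg
    exact absurd rfl hg

theorem supR_moni [DecidableEq m] (hs : ∀ x y, E x y → E y x)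
    (hi : ∀ (g : G) x y, E x y → E (g • x) (g • y)) (σ : n ≃ m) (γ : n → G)
    (h : ∀ i, E (p i) (γ i • q (σ i))) : SupR E q p (moni L σ γ) := by
  classical
  intro j i g hg
  unfold moni at hg
  by_cases hij : σ i = j
  · rw [if_pos hij, MonoidAlgebra.coeff_single, Finsupp.single_apply] at hg
    by_cases h1 : (γ i)⁻¹ = g
    · rw [← h1, ← hij]
      have h2 := hi (γ i)⁻¹ _ _ (h i)
      rw [inv_smul_smul] at h2
      exact hs _ _ h2
    · rw [if_neg h1] at hg
      exact absurd rfl hg
  · rw [if_neg hij] at hg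
    exact absurd rfl hg

end

section Mon

variable {n m : Type} [DecidableEq m]

theorem mon_mul_moni [DecidableEq n] [Fintype m] (σ : n ≃ m) (γ : n → G) : mon L σ γ * moni L σ γ = 1 := by
  ext i j : 2
  rw [Matrix.mul_apply, Finset.sum_eq_single (σ i)]
  · unfold mon moni
    rw [if_pos rfl, Matrix.one_apply]
    by_cases hij : i = j
    · subst hij
      rw [if_pos rfl, if_pos rfl, MonoidAlgebra.single_mul_single, mul_inv_cancel, one_mul]
      rfl
    · rw [if_neg hij, if_neg fun h => hij (σ.injective h).symm, mul_zero]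
  · intro k _ hk
    unfold mon
    rw [if_neg fun h => hk h.symm, zero_mul]
  · intro h
    exact absurd (Finset.mem_univ _) h

theorem moni_mul_mon [Fintype n] (σ : n ≃ m) (γ : n → G) : moni L σ γ * mon L σ γ = 1 := by
  ext i j : 2
  rw [Matrix.mul_apply, Finset.sum_eq_single (σ.symm i)]
  · unfold mon moni
    rw [σ.apply_symm_apply, if_pos rfl, Matrix.one_apply]
    by_cases hij : i = j
    · rw [if_pos hij, if_pos hij, MonoidAlgebra.single_mul_single, inv_mul_cancel, one_mul]
      rfl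
    · rw [if_neg hij, if_neg hij, mul_zero]
  · intro k _ hk
    unfold moni
    rw [if_neg fun h => hk (by rw [← h, σ.symm_apply_apply]), zero_mul]
  · intro h
    exact absurd (Finset.mem_univ _) h

end Mon

end Pool.Agent.FH
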