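import Pool.Agent.Lib.MP_8f66f0_al_WaldL.KK

/-! Controlled matrices over group rings (part 2 of Theorem FH): definitions.

`G` acts on a set `X` with an invariant distance. A finite set `n` with a map `p : n → X` is a
basis of a free `L[G]`-module with positions in `X`; a matrix `a` over `L[G]` with rows `n` and
columns `m` has propagation at most `r` if for all `γ` in the support of `a i k` the distance of
`p i` and `γ • q k` is at most `r`. Composition is the product of matrices (row convention). -/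

set_option autoImplicit false

namespace Pool.Agent.FH

open Pool.Agent.Wald Pool.Agent.WaldL Pool.Agent.Ind

section Space

/-- A distance with values in `ℕ ∪ {∞}`: `near r x y` means that the distance of `x` and `y` is
at most `r`. -/
structure Met (G X : Type) [Group G] [MulAction G X] where
  near : ℕ → X → X → Prop
  refl : ∀ (r : ℕ) (x : X), near r x x
  symm : ∀ {r : ℕ} {x y : X}, near r x y → near r y x
  trans : ∀ {r s : ℕ} {x y z : X}, near r x y → near s y z → near (r + s) x z
  mono : ∀ {r s : ℕ} {x y : X}, r ≤ s → near r x y → near s x y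
  inv : ∀ {r : ℕ} {x y : X} (g : G), near r x y → near r (g • x) (g • y)

/-- Invariant equivalence relations. -/
structure Eqr (G X : Type) [Group G] [MulAction G X] where
  rel : X → X → Prop
  refl : ∀ x : X, rel x x
  symm : ∀ {x y : X}, rel x y → rel y x
  trans : ∀ {x y z : X}, rel x y → rel y z → rel x z
  inv : ∀ {x y : X} (g : G), rel x y → rel (g • x) (g • y)

variable {G X : Type} [Group G] [MulAction G X]

/-- The stabilizer of the class of `x`. -/
def Eqr.st (E : Eqr G X) (x : X) : Subgroup G where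
  carrier := {g | E.rel x (g • x)}
  one_mem' := by
    change E.rel x ((1 : G) • x)
    rw [one_smul]
    exact E.refl x
  mul_mem' := by
    intro a b ha hb
    change E.rel x ((a * b) • x)
    rw [mul_smul]
    exact E.trans ha (E.inv a hb)
  inv_mem' := by
    intro a ha
    change E.rel x (a⁻¹ • x)
    have h := E.inv a⁻¹ ha
    rw [inv_smul_smul] at h
    exact E.symm h

theorem Eqr.mem_st (E : Eqr G X) (x : X) (g : G) : g ∈ E.st x ↔ E.rel x (g • x) := Iff.rfl

/-- The common refinement. -/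
def Eqr.inf (E E' : Eqr G X) : Eqr G X where
  rel x y := E.rel x y ∧ E'.rel x y
  refl x := ⟨E.refl x, E'.refl x⟩
  symm h := ⟨E.symm h.1, E'.symm h.2⟩
  trans h h' := ⟨E.trans h.1 h'.1, E'.trans h.2 h'.2⟩
  inv g h := ⟨E.inv g h.1, E'.inv g h.2⟩

/-- The distance which is infinite between different classes of `E`. -/
def Met.ref (N : Met G X) (E : Eqr G X) : Met G X where
  near r x y := N.near r x y ∧ E.rel x y
  refl r x := ⟨N.refl r x, E.refl x⟩
  symm h := ⟨N.symm h.1, E.symm h.2⟩
  trans h h' := ⟨N.trans h.1 h'.1, E.trans h.2 h'.2⟩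
  mono h h' := ⟨N.mono h h'.1, h'.2⟩
  inv g h := ⟨N.inv g h.1, E.inv g h.2⟩

/-- The neighbourhood of radius `t` of `R`. -/
def Met.nb (N : Met G X) (R : Set X) (t : ℕ) : Set X := {x | ∃ y ∈ R, N.near t x y}

/-- Invariant subsets. -/
def InvS (G : Type) {X : Type} [Group G] [MulAction G X] (R : Set X) : Prop :=
  ∀ g : G, ∀ x ∈ R, g • x ∈ R

/-- `R` has dimension at most `n - 1` at all scales between `t` and `D` (up to the factor `f`):
for `t ≤ t'` and `f t' ≤ d ≤ D`, the set `R` is the union of an invariant set of separated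
pieces (distance greater than `t'`, diameter at most `d`, stabilizers small) and a set `V` of
dimension at most `n - 2` at the scales between `s ≤ f t'` and `D' ≥ d / f`. -/
def Dim (Sm : Subgroup G → Prop) (N : Met G X) (f : ℕ) : ℕ → Set X → ℕ → ℕ → Prop
  | 0, R, _, _ => R = ∅
  | n + 1, R, t, D => ∀ t' d : ℕ, t ≤ t' → f * t' ≤ d → d ≤ D →
      ∃ (E : Eqr G X) (V : Set X) (s D' : ℕ), InvS G V ∧ s ≤ f * t' ∧ d ≤ f * D' ∧
        (∀ x y, x ∈ R → x ∉ V → y ∈ R → y ∉ V → N.near t' x y → E.rel x y) ∧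
        (∀ x y, x ∈ R → x ∉ V → y ∈ R → y ∉ V → E.rel x y → N.near d x y) ∧
        (∀ x, x ∈ R → x ∉ V → Sm (E.st x)) ∧ Dim Sm N f n V s D'

end Space

section Matrices

variable {G X : Type} [Group G] [MulAction G X]

/-- For all `γ` in the support of `a i k`, the positions `p i` and `γ • q k` are related. -/
def SupR {L : Type} [CommRing L] (E : X → X → Prop) {n m : Type} (p : n → X) (q : m → X)
    (a : Matrix n m (MonoidAlgebra L G)) : Prop :=
  ∀ i k (γ : G), (a i k).coeff γ ≠ 0 → E (p i) (γ • q k)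

/-- The monomial matrix with the entries `γ i` at `(i, σ i)`. -/
noncomputable def mon (L : Type) [CommRing L] {n m : Type} [DecidableEq m] (σ : n ≃ m)
    (γ : n → G) : Matrix n m (MonoidAlgebra L G) :=
  fun i k => if σ i = k then MonoidAlgebra.single (γ i) 1 else 0

/-- Its inverse. -/
noncomputable def moni (L : Type) [CommRing L] {n m : Type} [DecidableEq m] (σ : n ≃ m)
    (γ : n → G) : Matrix m n (MonoidAlgebra L G) :=
  fun k i => if σ i = k then MonoidAlgebra.single (γ i)⁻¹ 1 else 0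

/-- Invertible matrices which are, stably, products of elementary, monomial and block diagonal
ones, all of propagation at most `D` and with all positions in `Ω`. The number `k` bounds the
height of the expression. -/
inductive Triv (L : Type) [CommRing L] (Sm : Subgroup G → Prop) (N : Met G X) (Ω : Set X)
    (D : ℕ) : ℕ → (n : Type) → [Fintype n] → [DecidableEq n] → (n → X) →
      Matrix n n (MonoidAlgebra L G) → Prop
  | elem {n m : Type} [Fintype n] [DecidableEq n] [Fintype m] [DecidableEq m] (p : n → X)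
      (q : m → X) (x : Matrix n m (MonoidAlgebra L G)) : (∀ i, p i ∈ Ω) → (∀ i, q i ∈ Ω) →
      SupR (N.near D) p q x →
      Triv L Sm N Ω D 0 (n ⊕ m) (Sum.elim p q) (Matrix.fromBlocks 1 x 0 1)
  | mono {n : Type} [Fintype n] [DecidableEq n] (p : n → X) (σ : n ≃ n) (γ : n → G) :
      (∀ i, p i ∈ Ω) → (∀ i, N.near D (p i) (γ i • p (σ i))) →
      Triv L Sm N Ω D 0 n p (mon L σ γ)
  | block {n : Type} [Fintype n] [DecidableEq n] (p : n → X)
      (a a' : Matrix n n (MonoidAlgebra L G)) (E : Eqr G X) : (∀ i, p i ∈ Ω) → a * a' = 1 →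
      a' * a = 1 → SupR E.rel p p a → SupR E.rel p p a' → (∀ i, Sm (E.st (p i))) →
      (∀ i k (γ : G), E.rel (p i) (γ • p k) → N.near D (p i) (γ • p k)) →
      Triv L Sm N Ω D 0 n p a
  | mul {k : ℕ} {n : Type} [Fintype n] [DecidableEq n] (p : n → X)
      (a b : Matrix n n (MonoidAlgebra L G)) : Triv L Sm N Ω D k n p a →
      Triv L Sm N Ω D k n p b → Triv L Sm N Ω D (k + 1) n p (a * b)
  | iso {k : ℕ} {n m : Type} [Fintype n] [DecidableEq n] [Fintype m] [DecidableEq m] (p : n → X)
      (q : m → X) (σ : n ≃ m) (γ : n → G) (a : Matrix n n (MonoidAlgebra L G)) :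
      (∀ i, q i ∈ Ω) → (∀ i, N.near D (p i) (γ i • q (σ i))) → Triv L Sm N Ω D k n p a →
      Triv L Sm N Ω D (k + 1) m q (moni L σ γ * a * mon L σ γ)
  | sum {k : ℕ} {n m : Type} [Fintype n] [DecidableEq n] [Fintype m] [DecidableEq m] (p : n → X)
      (q : m → X) (a : Matrix n n (MonoidAlgebra L G)) (b : Matrix m m (MonoidAlgebra L G)) :
      Triv L Sm N Ω D k n p a → Triv L Sm N Ω D k m q b →
      Triv L Sm N Ω D (k + 1) (n ⊕ m) (Sum.elim p q) (Matrix.fromBlocks a 0 0 b)
  | stab {k : ℕ} {n m : Type} [Fintype n] [DecidableEq n] [Fintype m] [DecidableEq m] (p : n → X)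
      (q : m → X) (a : Matrix n n (MonoidAlgebra L G)) : (∀ i, p i ∈ Ω) → (∀ i, q i ∈ Ω) →
      Triv L Sm N Ω D k (n ⊕ m) (Sum.elim p q) (Matrix.fromBlocks a 0 0 1) →
      Triv L Sm N Ω D (k + 1) n p a

/-- The image of the idempotent `q` is stably free, with propagation at most `D` and all
positions in `Ω`: `u : im q ⊕ F₁ → F₂` and `v : F₂ → im q ⊕ F₁` are inverse to each other. -/
def StF (L : Type) [CommRing L] (N : Met G X) (Ω : Set X) (D : ℕ) {n : Type} [Fintype n]
    [DecidableEq n] (p : n → X) (q : Matrix n n (MonoidAlgebra L G)) : Prop :=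
  ∃ (n₁ n₂ : Type) (_ : Fintype n₁) (_ : DecidableEq n₁) (_ : Fintype n₂) (_ : DecidableEq n₂)
    (p₁ : n₁ → X) (p₂ : n₂ → X) (u : Matrix (n ⊕ n₁) n₂ (MonoidAlgebra L G))
    (v : Matrix n₂ (n ⊕ n₁) (MonoidAlgebra L G)), (∀ i, p₁ i ∈ Ω) ∧ (∀ i, p₂ i ∈ Ω) ∧
    SupR (N.near D) (Sum.elim p p₁) p₂ u ∧ SupR (N.near D) p₂ (Sum.elim p p₁) v ∧
    u * v = Matrix.fromBlocks q 0 0 1 ∧ v * u = 1

end Matrices

section Statements

/-- The control theorem in dimension `n - 1` for `K_1`. -/
def S_K (n : ℕ) : Prop :=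
  ∀ f : ℕ, 1 ≤ f → ∃ Λ k : ℕ, ∀ (G X : Type) [Group G] [MulAction G X]
    (Sm : Subgroup G → Prop) (N : Met G X) (R : Set X) (t D : ℕ) (L : Type) [CommRing L]
    [IsDomain L], IsEuc L → (∀ V W : Subgroup G, V ≤ W → Sm W → Sm V) →
    (∀ V : Subgroup G, Sm V → KK V) → InvS G R → Dim Sm N f n R t D → Λ * t ≤ D →
    ∀ (m : Type) [Fintype m] [DecidableEq m] (p : m → X) (a a' : Matrix m m (MonoidAlgebra L G)),
      (∀ i, p i ∈ N.nb R t) → a * a' = 1 → a' * a = 1 → SupR (N.near t) p p a →
      SupR (N.near t) p p a' → Triv L Sm N (N.nb R D) D k m p a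

/-- The control theorem in dimension `n - 1` for `K_0`. -/
def S_K0 (n : ℕ) : Prop :=
  ∀ f : ℕ, 1 ≤ f → ∃ Λ : ℕ, ∀ (G X : Type) [Group G] [MulAction G X]
    (Sm : Subgroup G → Prop) (N : Met G X) (R : Set X) (t D : ℕ) (L : Type) [CommRing L]
    [IsDomain L], IsEuc L → (∀ V W : Subgroup G, V ≤ W → Sm W → Sm V) →
    (∀ V : Subgroup G, Sm V → KK V) → InvS G R → Dim Sm N f n R t D → Λ * t ≤ D →
    ∀ (m : Type) [Fintype m] [DecidableEq m] (p : m → X) (q : Matrix m m (MonoidAlgebra L G)),
      (∀ i, p i ∈ N.nb R t) → q * q = q → SupR (N.near t) p p q → StF L N (N.nb R D) D p q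

end Statements

end Pool.Agent.FH
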