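import Mathlib

/-! Walls in `ℤ`: the residues mod `P` which are multiples of `a` and at most `P - a`. -/

set_option autoImplicit false

namespace Pool.Agent.FH

/-- The walls of the level `a` with period `P`. -/
def Wl (P a u : ℤ) : Prop := a ∣ u % P ∧ u % P + a ≤ P

/-- The largest wall `≤ z`. -/
def fw (P a z : ℤ) : ℤ := P * (z / P) + a * min ((z % P) / a) (P / a - 1)

section

variable {P a : ℤ}

theorem fw_spec (hP : 0 < P) (ha : 0 < a) (h : a ≤ P) (z : ℤ) :
    Wl P a (fw P a z) ∧ fw P a z ≤ z ∧ z < fw P a z + 2 * a ∧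
      ∀ u, Wl P a u → u ≤ z → u ≤ fw P a z := by
  set q := z / P with hq
  set r := z % P with hr
  have hz : P * q + r = z := by rw [hq, hr]; exact Int.mul_ediv_add_emod z P
  have hr0 : 0 ≤ r := Int.emod_nonneg z hP.ne'
  have hr1 : r < P := Int.emod_lt_of_pos z hP
  set m := min (r / a) (P / a - 1) with hm
  have hfw : fw P a z = P * q + a * m := rfl
  have hPa : 1 ≤ P / a := by
    rw [Int.le_ediv_iff_mul_le ha]; linarith
  have hra : 0 ≤ r / a := Int.ediv_nonneg hr0 ha.le
  have hm0 : 0 ≤ m := by rw [hm]; exact le_min hra (by linarith)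
  have hm1 : m ≤ r / a := min_le_left _ _
  have hm2 : m ≤ P / a - 1 := min_le_right _ _
  have e1 : a * (r / a) ≤ r := Int.mul_ediv_self_le ha.ne'
  have e2 : r < a * (r / a) + a := by
    have := Int.emod_lt_of_pos r ha
    have := Int.mul_ediv_add_emod r a
    linarith
  have e3 : a * (P / a) ≤ P := Int.mul_ediv_self_le ha.ne'
  have e4 : P < a * (P / a) + a := by
    have := Int.emod_lt_of_pos P ha
    have := Int.mul_ediv_add_emod P a
    linarith
  have am0 : 0 ≤ a * m := mul_nonneg ha.le hm0
  have am1 : a * m ≤ a * (r / a) := mul_le_mul_of_nonneg_left hm1 ha.le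
  have am2 : a * m ≤ a * (P / a - 1) := mul_le_mul_of_nonneg_left hm2 ha.le
  have am3 : a * m + a ≤ P := by
    have : a * (P / a - 1) = a * (P / a) - a := by ring
    linarith
  have hmod : fw P a z % P = a * m := by
    rw [hfw, Int.mul_add_emod_self_left]
    exact Int.emod_eq_of_lt am0 (by linarith)
  refine ⟨⟨?_, ?_⟩, ?_, ?_, ?_⟩
  · rw [hmod]; exact Dvd.intro _ rfl
  · rw [hmod]; exact am3
  · rw [hfw, ← hz]; linarith
  · rw [hfw, ← hz]
    rcases le_total (r / a) (P / a - 1) with h1 | h1
    · have : m = r / a := min_eq_left h1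
      rw [this]; linarith
    · have : m = P / a - 1 := min_eq_right h1
      rw [this]
      have : a * (P / a - 1) = a * (P / a) - a := by ring
      linarith
  · intro u hu huz
    obtain ⟨⟨c, hc⟩, hu2⟩ := hu
    have hu0 : P * (u / P) + u % P = u := Int.mul_ediv_add_emod u P
    have hup : 0 ≤ u % P := Int.emod_nonneg u hP.ne'
    set q' := u / P
    rw [hfw]
    rcases lt_trichotomy q' q with h1 | h1 | h1
    · have : P * (q' + 1) ≤ P * q := mul_le_mul_of_nonneg_left (by linarith) hP.le
      have h2 : P * (q' + 1) = P * q' + P := by ring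
      linarith
    · rw [h1] at hu0
      have h2 : a * c ≤ r := by rw [← hc]; linarith
      have h3 : c ≤ r / a := by
        rw [Int.le_ediv_iff_mul_le ha]; linarith [mul_comm a c]
      have h4 : c ≤ P / a - 1 := by
        have : c + 1 ≤ P / a := by
          rw [Int.le_ediv_iff_mul_le ha]
          have : (c + 1) * a = a * c + a := by ring
          rw [this, ← hc]; exact hu2
        linarith
      have h5 : a * c ≤ a * m := mul_le_mul_of_nonneg_left (le_min h3 h4) ha.le
      rw [← hu0, hc]; linarith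
    · exfalso
      have : P * (q + 1) ≤ P * q' := mul_le_mul_of_nonneg_left (by linarith) hP.le
      have h2 : P * (q + 1) = P * q + P := by ring
      linarith

theorem wl_add (m u : ℤ) : Wl P a (u + P * m) ↔ Wl P a u := by
  unfold Wl
  rw [Int.add_mul_emod_self_left]

theorem wl_gap (hP : 0 < P) (ha : 0 < a) {u u' : ℤ} (h : Wl P a u) (h' : Wl P a u')
    (hlt : u < u') : u + a ≤ u' := by
  obtain ⟨⟨c, hc⟩, h2⟩ := h
  obtain ⟨⟨c', hc'⟩, h2'⟩ := h'
  have e : P * (u / P) + u % P = u := Int.mul_ediv_add_emod u P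
  have e' : P * (u' / P) + u' % P = u' := Int.mul_ediv_add_emod u' P
  have p1 : 0 ≤ u % P := Int.emod_nonneg u hP.ne'
  have p2 : 0 ≤ u' % P := Int.emod_nonneg u' hP.ne'
  set q := u / P
  set q' := u' / P
  rcases lt_trichotomy q q' with h1 | h1 | h1
  · have : P * (q + 1) ≤ P * q' := mul_le_mul_of_nonneg_left (by linarith) hP.le
    have h3 : P * (q + 1) = P * q + P := by ring
    linarith
  · rw [h1] at e
    have h3 : a * c < a * c' := by rw [← hc, ← hc']; linarith
    have h4 : c < c' := lt_of_mul_lt_mul_left h3 ha.le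
    have h5 : a * (c + 1) ≤ a * c' := mul_le_mul_of_nonneg_left (by linarith) ha.le
    have h6 : a * (c + 1) = a * c + a := by ring
    rw [← e, ← e', hc, hc']; linarith
  · exfalso
    have : P * (q' + 1) ≤ P * q := mul_le_mul_of_nonneg_left (by linarith) hP.le
    have h3 : P * (q' + 1) = P * q' + P := by ring
    linarith

theorem wl_nest {a' u : ℤ} (ha : 0 < a) (ha' : 0 < a') (hd : a ∣ a') (h : Wl P a' u) :
    Wl P a u :=
  ⟨hd.trans h.1, by have := Int.le_of_dvd ha' hd; linarith [h.2]⟩

theorem fw_add (m z : ℤ) (hP : 0 < P) : fw P a (z + P * m) = fw P a z + P * m := by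
  unfold fw
  rw [Int.add_mul_emod_self_left, Int.add_mul_ediv_left _ _ hP.ne']
  ring

end

end Pool.Agent.FH
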