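import Pool.Agent.Lib.MP_8f66f0_al_FH.ADefs
import Pool.Agent.Lib.MP_8f66f0_al_FH.GWall

/-! The pieces: points with exactly `k` coordinates close to walls. -/

set_option autoImplicit false

namespace Pool.Agent.FH

/-- `z` is within `w` of a wall of the level `a`. -/
def Nr (P a w z : ℤ) : Prop := ∃ u, Wl P a u ∧ |z - u| ≤ w

open Classical in
/-- The label of a coordinate: the wall of the level `a` which is close, or the box of the
level `a'`. -/
noncomputable def lb (P a w a' z : ℤ) : Bool × ℤ :=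
  if Nr P a w z then (true, fw P a (z + w)) else (false, fw P a' z)

section one

variable {P a a' w s t : ℤ}

theorem nr_add (m z : ℤ) : Nr P a w (z + P * m) ↔ Nr P a w z := by
  constructor
  · rintro ⟨u, hu, h⟩
    refine ⟨u + P * (-m), (wl_add _ _).2 hu, ?_⟩
    rw [show z - (u + P * (-m)) = z + P * m - u by ring]
    exact h
  · rintro ⟨u, hu, h⟩
    refine ⟨u + P * m, (wl_add _ _).2 hu, ?_⟩
    rw [show z + P * m - (u + P * m) = z - u by ring]
    exact h

theorem lb_add (hP : 0 < P) (m z : ℤ) :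
    lb P a w a' (z + P * m) = ((lb P a w a' z).1, (lb P a w a' z).2 + P * m) := by
  unfold lb
  by_cases h : Nr P a w z
  · rw [if_pos h, if_pos ((nr_add m z).2 h)]
    refine Prod.ext rfl ?_
    change fw P a (z + P * m + w) = fw P a (z + w) + P * m
    rw [show z + P * m + w = z + w + P * m by ring, fw_add _ _ hP]
  · rw [if_neg h, if_neg fun h' => h ((nr_add m z).1 h')]
    refine Prod.ext rfl ?_
    exact fw_add _ _ hP

theorem lb_add_iff (hP : 0 < P) (m z z' : ℤ) :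
    lb P a w a' (z + P * m) = lb P a w a' (z' + P * m) ↔ lb P a w a' z = lb P a w a' z' := by
  rw [lb_add hP, lb_add hP]
  constructor
  · intro h
    have h1 := (Prod.ext_iff.1 h).1
    have h2 := (Prod.ext_iff.1 h).2
    exact Prod.ext h1 (by simpa using h2)
  · intro h
    rw [h]

/-- The close wall. -/
theorem nr_close (hP : 0 < P) (ha : 0 < a) (h : a ≤ P) {z : ℤ} (hn : Nr P a w z) :
    |z - fw P a (z + w)| ≤ w := by
  obtain ⟨u, hu, hz⟩ := hn
  obtain ⟨-, h2, -, h4⟩ := fw_spec hP ha h (z + w)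
  rw [abs_le] at hz ⊢
  have := h4 u hu (by linarith [hz.1])
  constructor <;> linarith [hz.2]

theorem lb_dist (hP : 0 < P) (ha : 0 < a) (h : a ≤ P) (ha' : 0 < a') (h' : a' ≤ P) {d z z' : ℤ}
    (h1 : 2 * w ≤ d) (h2 : 2 * a' ≤ d) (he : lb P a w a' z = lb P a w a' z') :
    |z - z'| ≤ d := by
  unfold lb at he
  split_ifs at he with g1 g2 g2
  · have e := (Prod.ext_iff.1 he).2
    have e1 := abs_le.1 (nr_close hP ha h g1)
    have e2 := abs_le.1 (nr_close hP ha h g2)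
    simp only at e
    rw [e] at e1
    rw [abs_le]
    constructor <;> linarith [e1.1, e1.2, e2.1, e2.2]
  · exact absurd (Prod.ext_iff.1 he).1 (by simp)
  · exact absurd (Prod.ext_iff.1 he).1 (by simp)
  · have e := (Prod.ext_iff.1 he).2
    simp only at e
    obtain ⟨-, i2, i3, -⟩ := fw_spec hP ha' h' z
    obtain ⟨-, j2, j3, -⟩ := fw_spec hP ha' h' z'
    rw [← e] at j2 j3
    rw [abs_le]
    constructor <;> linarith

theorem lb_near (hP : 0 < P) (ha : 0 < a) (h : a ≤ P) {z z' : ℤ} (h1 : Nr P a w z)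
    (h2 : Nr P a w z') (ht : 2 * w + t < a) (hz : |z - z'| ≤ t) :
    lb P a w a' z = lb P a w a' z' := by
  unfold lb
  rw [if_pos h1, if_pos h2]
  refine Prod.ext rfl ?_
  change fw P a (z + w) = fw P a (z' + w)
  have e1 := abs_le.1 (nr_close hP ha h h1)
  have e2 := abs_le.1 (nr_close hP ha h h2)
  have e3 := abs_le.1 hz
  rcases lt_trichotomy (fw P a (z + w)) (fw P a (z' + w)) with g | g | g
  · exfalso
    have := wl_gap hP ha (fw_spec hP ha h _).1 (fw_spec hP ha h _).1 g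
    linarith [e1.1, e1.2, e2.1, e2.2, e3.1, e3.2]
  · exact g
  · exfalso
    have := wl_gap hP ha (fw_spec hP ha h _).1 (fw_spec hP ha h _).1 g
    linarith [e1.1, e1.2, e2.1, e2.2, e3.1, e3.2]

theorem fw_far (hP : 0 < P) (ha' : 0 < a') (h' : a' ≤ P) {z z' : ℤ} (h1 : ¬ Nr P a' s z)
    (ht : t ≤ s) (hle : z ≤ z') (hz : z' - z ≤ t) : fw P a' z = fw P a' z' := by
  obtain ⟨i1, i2, -, i4⟩ := fw_spec hP ha' h' z
  obtain ⟨j1, j2, -, j4⟩ := fw_spec hP ha' h' z'
  refine le_antisymm (j4 _ i1 (i2.trans hle)) (i4 _ j1 ?_)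
  by_contra hc
  refine h1 ⟨_, j1, ?_⟩
  rw [abs_le]
  constructor <;> linarith

theorem lb_far (hP : 0 < P) (ha' : 0 < a') (h' : a' ≤ P) {z z' : ℤ}
    (h1 : ¬ Nr P a w z) (h2 : ¬ Nr P a w z') (h3 : ¬ Nr P a' s z) (h4 : ¬ Nr P a' s z')
    (ht : t ≤ s) (hz : |z - z'| ≤ t) : lb P a w a' z = lb P a w a' z' := by
  unfold lb
  rw [if_neg h1, if_neg h2]
  refine Prod.ext rfl ?_
  change fw P a' z = fw P a' z'
  have e3 := abs_le.1 hz
  rcases le_total z z' with g | g
  · exact fw_far hP ha' h' h3 ht g (by linarith [e3.1])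
  · exact (fw_far hP ha' h' h4 ht g (by linarith [e3.2])).symm

theorem nr_mono (ha : 0 < a) (ha' : 0 < a') (hd : a' ∣ a) {z z' : ℤ} (h1 : Nr P a w z)
    (hz : |z - z'| ≤ t) (hs : w + t ≤ s) : Nr P a' s z' := by
  obtain ⟨u, hu, h⟩ := h1
  refine ⟨u, wl_nest ha' ha hd hu, ?_⟩
  rw [abs_le] at hz h ⊢
  constructor <;> linarith [hz.1, hz.2, h.1, h.2]

end one

section many

variable {ι : Type} [Fintype ι]

/-- At least `k` coordinates are within `w` of the walls of the level `a`. -/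
def Rk (P : ℤ) (k : ℕ) (a w : ℤ) : Set (ι → ℤ) := {x | k ≤ {i | Nr P a w (x i)}.ncard}

/-- The same label in every coordinate. -/
def SL (P a w a' : ℤ) (x y : ι → ℤ) : Prop := ∀ i, lb P a w a' (x i) = lb P a w a' (y i)

omit [Fintype ι] in
theorem rk_zero (P a w : ℤ) : (Rk P 0 a w : Set (ι → ℤ)) = Set.univ :=
  Set.eq_univ_of_forall fun _ => Nat.zero_le _

theorem rk_top (P a w : ℤ) : (Rk P (Fintype.card ι + 1) a w : Set (ι → ℤ)) = ∅ := by
  refine Set.eq_empty_of_forall_notMem fun x hx => ?_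
  have h1 : Fintype.card ι + 1 ≤ {i | Nr P a w (x i)}.ncard := hx
  have h2 := Set.ncard_le_ncard (Set.subset_univ {i | Nr P a w (x i)}) Set.finite_univ
  rw [Set.ncard_univ, Nat.card_eq_fintype_card] at h2
  omega

theorem piece {P a a' w s t : ℤ} (hP : 0 < P) (ha : 0 < a) (h : a ≤ P) (ha' : 0 < a')
    (h' : a' ≤ P) (hd : a' ∣ a) (hs : w + t ≤ s) (ht : 2 * w + t < a) (ht0 : 0 ≤ t)
    (hw : 0 ≤ w) {k : ℕ} {x y : ι → ℤ} (hx : x ∈ Rk P k a w) (hy : y ∈ Rk P k a w)
    (hx' : x ∉ Rk P (k + 1) a' s) (hy' : y ∉ Rk P (k + 1) a' s)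
    (hxy : ∀ i, |x i - y i| ≤ t) : SL P a w a' x y := by
  have key : ∀ z : ι → ℤ, z ∈ Rk P k a w → z ∉ Rk P (k + 1) a' s → ∀ i, Nr P a' s (z i) →
      Nr P a w (z i) := by
    intro z hz hz' i hi
    have hsub : {i | Nr P a w (z i)} ⊆ {i | Nr P a' s (z i)} := by
      intro j hj
      exact nr_mono ha ha' hd hj (t := 0) (by simp) (by linarith)
    have hz1 : k ≤ {i | Nr P a w (z i)}.ncard := hz
    have hz2 : ¬ k + 1 ≤ {i | Nr P a' s (z i)}.ncard := hz'
    have heq := Set.eq_of_subset_of_ncard_le hsub (by omega) (Set.toFinite _)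
    have : i ∈ {i | Nr P a w (z i)} := by
      rw [heq]
      exact hi
    exact this
  intro i
  by_cases h1 : Nr P a w (x i)
  · have h2 : Nr P a w (y i) := key y hy hy' i (nr_mono ha ha' hd h1 (hxy i) hs)
    exact lb_near hP ha h h1 h2 ht (hxy i)
  · have h2 : ¬ Nr P a w (y i) := fun h2 => h1 (key x hx hx' i
      (nr_mono ha ha' hd h2 (by rw [abs_sub_comm]; exact hxy i) hs))
    exact lb_far hP ha' h' h1 h2 (fun g => h1 (key x hx hx' i g))
      (fun g => h2 (key y hy hy' i g)) (by linarith) (hxy i)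

variable {G : Type} [Group G]

omit [Fintype ι] in
theorem rk_inv {P : ℤ} {A : Aff G ι} (hA : ∀ g i, P ∣ A.v g i) (k : ℕ) (a w : ℤ) (g : G)
    {x : ι → ℤ} (hx : x ∈ Rk P k a w) : A.act g x ∈ Rk P k a w := by
  have h1 : k ≤ {i | Nr P a w (x i)}.ncard := hx
  have h2 : {i | Nr P a w (A.act g x i)} = (A.sg g) '' {i | Nr P a w (x i)} := by
    ext j
    obtain ⟨m, hm⟩ := hA g j
    have h3 : A.act g x j = x ((A.sg g)⁻¹ j) + P * m := by rw [← hm]; rfl
    constructor
    · intro hj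
      refine ⟨(A.sg g)⁻¹ j, ?_, (A.sg g).apply_symm_apply j⟩
      have h4 : Nr P a w (A.act g x j) := hj
      rw [h3] at h4
      exact (nr_add m _).1 h4
    · rintro ⟨i, hi, rfl⟩
      change Nr P a w (A.act g x (A.sg g i))
      rw [h3]
      refine (nr_add m _).2 ?_
      rw [show (A.sg g)⁻¹ (A.sg g i) = i from (A.sg g).symm_apply_apply i]
      exact hi
  change k ≤ {i | Nr P a w (A.act g x i)}.ncard
  rw [h2, Set.ncard_image_of_injective _ (A.sg g).injective]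
  exact h1

omit [Fintype ι] in
theorem sl_act {P a w a' : ℤ} (hP : 0 < P) {A : Aff G ι} (hA : ∀ g i, P ∣ A.v g i) (g : G)
    {x y : ι → ℤ} (h : SL P a w a' x y) : SL P a w a' (A.act g x) (A.act g y) := by
  intro i
  obtain ⟨m, hm⟩ := hA g i
  change lb P a w a' (x ((A.sg g)⁻¹ i) + A.v g i) = lb P a w a' (y ((A.sg g)⁻¹ i) + A.v g i)
  rw [hm]
  exact (lb_add_iff hP m _ _).2 (h _)

theorem sl_small {P a w a' d : ℤ} (hP : 0 < P) (ha : 0 < a) (h : a ≤ P) (ha' : 0 < a')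
    (h' : a' ≤ P) (h1 : 2 * w ≤ d) (h2 : 2 * a' ≤ d) {A : Aff G ι} (V : Subgroup G) (x : ι → ℤ)
    (hV : ∀ g ∈ V, SL P a w a' (A.act g x) x) : A.Small V := by
  refine ⟨(d + 2 * ∑ i, |x i|).toNat, fun g hg i => ?_⟩
  have e1 : |A.act g x i - x i| ≤ d := lb_dist hP ha h ha' h' h1 h2 (hV g hg i)
  have e2 : ∀ j, |x j| ≤ ∑ i, |x i| := fun j =>
    Finset.single_le_sum (f := fun i => |x i|) (fun i _ => abs_nonneg _) (Finset.mem_univ j)
  have e3 : A.act g x i = x ((A.sg g)⁻¹ i) + A.v g i := rfl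
  have e4 : |A.v g i| ≤ d + 2 * ∑ i, |x i| := by
    have g1 := abs_le.1 (e2 i)
    have g2 := abs_le.1 (e2 ((A.sg g)⁻¹ i))
    rw [e3] at e1
    have g3 := abs_le.1 e1
    rw [abs_le]
    constructor <;> linarith [g1.1, g1.2, g2.1, g2.2, g3.1, g3.2]
  exact e4.trans (Int.self_le_toNat _)

end many

end Pool.Agent.FH
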