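import Pool.Agent.Lib.MP_8f66f0_al_FH.CDefs
import Pool.Agent.Lib.MP_8f66f0_al_FH.GPiece

/-! The geometry of `ℤ^ι` at the scales below `p`, for a group which acts by permutations of the
coordinates and translations divisible by `p`. -/

set_option autoImplicit false

namespace Pool.Agent.FH

variable {G : Type} [Group G] {ι : Type}

/-- `ℤ^ι` with the action `A`. -/
def Pt (_ : Aff G ι) : Type := ι → ℤ

theorem Aff.v_one (A : Aff G ι) (i : ι) : A.v 1 i = 0 := by
  have h := A.mul 1 1 i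
  rw [map_one, inv_one, Equiv.Perm.one_apply, mul_one] at h
  linarith

instance instPt (A : Aff G ι) : MulAction G (Pt A) where
  smul g x := A.act g x
  one_smul x := by
    funext i
    change x ((A.sg 1)⁻¹ i) + A.v 1 i = x i
    rw [map_one, inv_one, Equiv.Perm.one_apply, A.v_one, add_zero]
  mul_smul g h x := by
    funext i
    change x ((A.sg (g * h))⁻¹ i) + A.v (g * h) i =
      (x ((A.sg h)⁻¹ ((A.sg g)⁻¹ i)) + A.v h ((A.sg g)⁻¹ i)) + A.v g i
    rw [A.mul, map_mul, mul_inv_rev, Equiv.Perm.mul_apply]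
    ring

/-- The maximum distance. -/
def ptMet (A : Aff G ι) : Met G (Pt A) where
  near r x y := ∀ i : ι, |x i - y i| ≤ (r : ℤ)
  refl r x i := by
    rw [sub_self, abs_zero]
    exact Int.natCast_nonneg r
  symm h i := by
    rw [abs_sub_comm]
    exact h i
  trans {r s x y z} h h' i := by
    have h1 := abs_sub_le (x i) (y i) (z i)
    have h2 := h i
    have h3 := h' i
    push_cast
    linarith
  mono {r s x y} h h' i := by
    have h2 := h' i
    have : (r : ℤ) ≤ s := by exact_mod_cast h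
    linarith
  inv {r x y} g h i := by
    have h1 := h ((A.sg g)⁻¹ i)
    change |x ((A.sg g)⁻¹ i) + A.v g i - (y ((A.sg g)⁻¹ i) + A.v g i)| ≤ (r : ℤ)
    rw [show x ((A.sg g)⁻¹ i) + A.v g i - (y ((A.sg g)⁻¹ i) + A.v g i) =
      x ((A.sg g)⁻¹ i) - y ((A.sg g)⁻¹ i) by ring]
    exact h1

/-- The pieces. -/
def slEqr (A : Aff G ι) {P : ℤ} (hP : 0 < P) (hA : ∀ g i, P ∣ A.v g i) (a w a' : ℤ) :
    Eqr G (Pt A) where
  rel x y := SL P a w a' x y
  refl _ _ := rfl
  symm h i := (h i).symm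
  trans h h' i := (h i).trans (h' i)
  inv g h := sl_act hP hA g h

theorem dim_rk [Fintype ι] (A : Aff G ι) {p : ℕ} (hA : ∀ g i, (p : ℤ) ∣ A.v g i) {f : ℕ}
    (hf : 4 ≤ f) (m : ℕ) : ∀ k i w : ℕ, k + m = Fintype.card ι + 1 → 2 ^ i ≤ p → 1 ≤ w →
      Dim A.Small (ptMet A) f m (Rk (p : ℤ) k ((2 : ℤ) ^ i) w : Set (ι → ℤ)) w (2 ^ i) := by
  induction m with
  | zero =>
    intro k i w hk _ _
    change (Rk (p : ℤ) k ((2 : ℤ) ^ i) w : Set (ι → ℤ)) = ∅
    rw [show k = Fintype.card ι + 1 by omega]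
    exact rk_top _ _ _
  | succ m ih =>
    intro k i w hk hi hw t' d h1 h2 h3
    have hft : 4 * t' ≤ f * t' := Nat.mul_le_mul_right _ hf
    have hd4 : 4 ≤ d := by omega
    obtain ⟨e, he⟩ : ∃ e, Nat.log 2 d = e + 1 := by
      have : 2 ≤ Nat.log 2 d := by
        have h5 := Nat.log_mono_right (b := 2) hd4
        have h6 : Nat.log 2 4 = 2 := by
          have : Nat.log 2 (2 ^ 2) = 2 := Nat.log_pow (by norm_num) 2
          simpa using this
        omega
      exact ⟨Nat.log 2 d - 1, by omega⟩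
    have e1 : 2 ^ (e + 1) ≤ d := by
      rw [← he]
      exact Nat.pow_log_le_self 2 (by omega)
    have e2 : d < 2 ^ (e + 2) := by
      have := Nat.lt_pow_succ_log_self (b := 2) (by norm_num) d
      rw [he] at this
      exact this
    have e3 : e + 1 ≤ i := by
      by_contra hc
      have : 2 ^ (i + 1) ≤ 2 ^ (e + 1) := Nat.pow_le_pow_right (by norm_num) (by omega)
      have h5 : 2 ^ (i + 1) = 2 * 2 ^ i := by ring
      have h6 : 0 < 2 ^ i := by positivity
      omega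
    have e4 : 2 ^ e ≤ p := (Nat.pow_le_pow_right (by norm_num) (by omega)).trans hi
    have e5 : 2 ^ (e + 1) = 2 * 2 ^ e := by ring
    have e6 : 2 ^ (e + 2) = 4 * 2 ^ e := by ring
    have p0 : 0 < p := lt_of_lt_of_le (by positivity) hi
    have hP : (0 : ℤ) < p := by exact_mod_cast p0
    have ha : (0 : ℤ) < 2 ^ i := by positivity
    have ha' : (0 : ℤ) < 2 ^ e := by positivity
    have h : (2 : ℤ) ^ i ≤ p := by exact_mod_cast hi
    have h' : (2 : ℤ) ^ e ≤ p := by exact_mod_cast e4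
    have hdvd : (2 : ℤ) ^ e ∣ 2 ^ i := pow_dvd_pow _ (by omega)
    have g1 : 2 * (w : ℤ) ≤ d := by
      have : 2 * w ≤ d := by omega
      exact_mod_cast this
    have g2 : 2 * (2 : ℤ) ^ e ≤ d := by
      have : 2 * 2 ^ e ≤ d := by omega
      exact_mod_cast this
    have g3 : 2 * (w : ℤ) + t' < 2 ^ i := by
      have : 2 * w + t' < 2 ^ i := by omega
      exact_mod_cast this
    have g4 : (w : ℤ) + t' ≤ (2 * t' : ℕ) := by
      have : w + t' ≤ 2 * t' := by omega
      exact_mod_cast this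
    refine ⟨slEqr A hP hA (2 ^ i) w (2 ^ e),
      (Rk (p : ℤ) (k + 1) ((2 : ℤ) ^ e) ((2 * t' : ℕ) : ℤ) : Set (ι → ℤ)), 2 * t', 2 ^ e, ?_, ?_,
      ?_, ?_, ?_, ?_, ?_⟩
    · intro g x hx
      exact rk_inv hA (k + 1) _ _ g hx
    · exact Nat.mul_le_mul_right _ (by omega)
    · have : 4 * 2 ^ e ≤ f * 2 ^ e := Nat.mul_le_mul_right _ hf
      omega
    · intro x y hx hx' hy hy' hxy
      exact piece hP ha h ha' h' hdvd g4 g3 (Int.natCast_nonneg _) (Int.natCast_nonneg _) hx hy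
        hx' hy' hxy
    · intro x y _ _ _ _ hxy j
      exact lb_dist hP ha h ha' h' g1 g2 (hxy j)
    · intro x _ _
      refine sl_small hP ha h ha' h' g1 g2 _ x fun g hg i => ?_
      exact ((hg : SL _ _ _ _ x (A.act g x)) i).symm
    · exact ih (k + 1) e (2 * t') (by omega) e4 (by omega)

/-- The whole space has dimension at most `|ι|` at all scales between `w ≥ 1` and `2 ^ i ≤ p`. -/
theorem dim_univ [Fintype ι] (A : Aff G ι) {p : ℕ} (hA : ∀ g i, (p : ℤ) ∣ A.v g i) {f : ℕ}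
    (hf : 4 ≤ f) {i w : ℕ} (hi : 2 ^ i ≤ p) (hw : 1 ≤ w) :
    Dim A.Small (ptMet A) f (Fintype.card ι + 1) Set.univ w (2 ^ i) := by
  have h := dim_rk A hA hf (Fintype.card ι + 1) 0 i w (by omega) hi hw
  rw [rk_zero] at h
  exact h

end Pool.Agent.FH
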