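import Pool.Agent.Lib.MP_8f66f0_al_FH.ASpec
import Pool.Agent.Lib.MP_8f66f0_al_FH.CDefs
import Pool.Agent.Lib.MP_8f66f0_al_FH.GDim
import Pool.Agent.Lib.MP_8f66f0_al_Ind.One
import Pool.Agent.Lib.MP_8f66f0_al_Wald.K1Lem

/-! The control theorem `S_K` implies the statement `S_ctl`. -/

set_option autoImplicit false

namespace Pool.Agent.FH

open Pool.Agent.Wald Pool.Agent.WaldL Pool.Agent.Ind Filter

section Blocks

variable {Λ K : Type} [Ring Λ] [CommGroup K]

/-- A matrix which is block diagonal for an equivalence relation on the indices. -/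
theorem kill_blocks (κ : K1Fun Λ K) : ∀ (N : ℕ) (n : Type) [Fintype n] [DecidableEq n]
    (r : n → n → Prop) (_ : Equivalence r) (a a' : Matrix n n Λ), Fintype.card n = N →
    a * a' = 1 → a' * a = 1 → (∀ i k, a i k ≠ 0 → r i k) → (∀ i k, a' i k ≠ 0 → r i k) →
    (∀ (m : Type) [Fintype m] [DecidableEq m] (j : m → n), Function.Injective j →
      (∀ x y, r (j x) (j y)) → a.submatrix j j * a'.submatrix j j = 1 →
      a'.submatrix j j * a.submatrix j j = 1 → κ.f (a.submatrix j j) = 1) → κ.f a = 1 := by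
  intro N
  induction N using Nat.strong_induction_on with
  | _ N ih =>
    intro n _ _ r hr a a' hN h1 h2 h3 h4 hS
    rcases isEmpty_or_nonempty n with hE | ⟨⟨i₀⟩⟩
    · rw [show a = 1 from Matrix.ext fun i => isEmptyElim i, κ.f_one]
    · classical
      set e : {i // r i₀ i} ⊕ {i // ¬ r i₀ i} ≃ n := Equiv.sumCompl (fun i => r i₀ i) with he
      have ha : ∀ c : Matrix n n Λ, (∀ i k, c i k ≠ 0 → r i k) →
          c.submatrix e e = Matrix.fromBlocks
            (c.submatrix (Subtype.val : {i // r i₀ i} → n) Subtype.val) 0 0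
            (c.submatrix (Subtype.val : {i // ¬ r i₀ i} → n) Subtype.val) := by
        intro c hc
        refine Matrix.ext fun i k => ?_
        rcases i with ⟨i, hi⟩ | ⟨i, hi⟩ <;> rcases k with ⟨k, hk⟩ | ⟨k, hk⟩
        · rfl
        · change c i k = 0
          by_contra h
          exact hk (hr.trans hi (hc i k h))
        · change c i k = 0
          by_contra h
          exact hi (hr.trans hk (hr.symm (hc i k h)))
        · rfl
      have hm : ∀ c c' : Matrix n n Λ, c * c' = 1 → (∀ i k, c i k ≠ 0 → r i k) →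
          (∀ i k, c' i k ≠ 0 → r i k) →
          c.submatrix (Subtype.val : {i // r i₀ i} → n) (Subtype.val : {i // r i₀ i} → n) *
            c'.submatrix (Subtype.val : {i // r i₀ i} → n)
              (Subtype.val : {i // r i₀ i} → n) = 1 ∧
          c.submatrix (Subtype.val : {i // ¬ r i₀ i} → n)
              (Subtype.val : {i // ¬ r i₀ i} → n) *
            c'.submatrix (Subtype.val : {i // ¬ r i₀ i} → n)
              (Subtype.val : {i // ¬ r i₀ i} → n) = 1 := by
        intro c c' hcc hc hc'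
        have h5 : c.submatrix e e * c'.submatrix e e = 1 := by
          rw [Matrix.submatrix_mul_equiv, hcc, Matrix.submatrix_one_equiv]
        rw [ha c hc, ha c' hc', Matrix.fromBlocks_multiply, ← Matrix.fromBlocks_one,
          Matrix.fromBlocks_inj] at h5
        obtain ⟨h6, -, -, h7⟩ := h5
        rw [Matrix.zero_mul, add_zero] at h6
        rw [Matrix.mul_zero, zero_add] at h7
        exact ⟨h6, h7⟩
      have hu : ∀ (m : Type) [Fintype m] [DecidableEq m] (c c' : Matrix m m Λ), c * c' = 1 →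
          c' * c = 1 → IsUnit c := fun m _ _ c c' h h' => ⟨⟨c, c', h, h'⟩, rfl⟩
      have u0 := hu n a a' h1 h2
      obtain ⟨p1, p2⟩ := hm a a' h1 h3 h4
      obtain ⟨q1, q2⟩ := hm a' a h2 h4 h3
      have e1 := κ.reindex e.symm a u0
      rw [Equiv.symm_symm, ha a h3, κ.diag _ _ (hu _ _ _ p1 q1) (hu _ _ _ p2 q2)] at e1
      rw [← e1, hS _ Subtype.val Subtype.val_injective
        (fun x y => hr.trans (hr.symm x.2) y.2) p1 q1, one_mul]
      have hr' : Equivalence (fun x y : {i // ¬ r i₀ i} => r x.1 y.1) :=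
        ⟨fun x => hr.refl x.1, fun {x y} h => hr.symm h, fun {x y z} h h' => hr.trans h h'⟩
      refine ih _ ?_ {i // ¬ r i₀ i} _ hr' _ _ rfl p2 q2 (fun i k h => h3 i.1 k.1 h)
        (fun i k h => h4 i.1 k.1 h) ?_
      · rw [← hN]
        exact Fintype.card_subtype_lt (x := i₀) (fun h => h (hr.refl i₀))
      · intro m _ _ j hj hx h5 h6
        exact hS m (fun x => (j x).1) (Subtype.val_injective.comp hj) hx h5 h6

end Blocks

section Diag

variable {L : Type} [CommRing L] {G K : Type} [Group G] [CommGroup K]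

theorem dg_mul {n : Type} [Fintype n] [DecidableEq n] (γ δ : n → G) (h : ∀ i, γ i * δ i = 1) :
    (Matrix.diagonal fun i : n => (MonoidAlgebra.single (γ i) (1 : L))) *
      (Matrix.diagonal fun i : n => (MonoidAlgebra.single (δ i) (1 : L))) = 1 := by
  rw [Matrix.diagonal_mul_diagonal, ← Matrix.diagonal_one]
  congr 1
  funext i
  rw [MonoidAlgebra.single_mul_single, h, one_mul, ← MonoidAlgebra.one_def]

theorem dg_unit {n : Type} [Fintype n] [DecidableEq n] (γ : n → G) :
    IsUnit (Matrix.diagonal fun i : n => (MonoidAlgebra.single (γ i) (1 : L) :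
      MonoidAlgebra L G)) :=
  ⟨⟨_, _, dg_mul γ (fun i => (γ i)⁻¹) (fun _ => mul_inv_cancel _),
    dg_mul (fun i => (γ i)⁻¹) γ (fun _ => inv_mul_cancel _)⟩, rfl⟩

theorem dg_kill (κ : K1Fun (MonoidAlgebra L G) K) (hκ : KU κ) {n : Type} [Fintype n]
    [DecidableEq n] (γ : n → G) :
    κ.f (Matrix.diagonal fun i : n => (MonoidAlgebra.single (γ i) (1 : L) :
      MonoidAlgebra L G)) = 1 := by
  refine kill_blocks κ _ n Eq eq_equivalence _ _ rfl
    (dg_mul γ (fun i => (γ i)⁻¹) (fun _ => mul_inv_cancel _))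
    (dg_mul (fun i => (γ i)⁻¹) γ (fun _ => inv_mul_cancel _)) ?_ ?_ ?_
  · intro i k h
    by_contra h'
    exact h (Matrix.diagonal_apply_ne _ h')
  · intro i k h
    by_contra h'
    exact h (Matrix.diagonal_apply_ne _ h')
  · intro m _ _ j hj hx h1 h2
    rcases isEmpty_or_nonempty m with hE | ⟨⟨x⟩⟩
    · rw [show ((Matrix.diagonal fun i : n => (MonoidAlgebra.single (γ i) (1 : L) :
        MonoidAlgebra L G)).submatrix j j) = 1 from Matrix.ext fun i => isEmptyElim i, κ.f_one]
    · have hs : ∀ y, y = x := fun y => hj (hx y x)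
      let e : m ≃ Fin 1 := ⟨fun _ => 0, fun _ => x, fun y => (hs y).symm,
        fun y => Subsingleton.elim _ _⟩
      have h3 := κ.reindex e ((Matrix.diagonal fun i : n => (MonoidAlgebra.single (γ i) (1 : L) :
        MonoidAlgebra L G)).submatrix j j) ⟨⟨_, _, h1, h2⟩, rfl⟩
      rw [← h3, ← hκ (γ (j x)) 1]
      congr 1
      refine Matrix.ext fun i k => ?_
      rw [Matrix.submatrix_apply, Matrix.submatrix_apply, Matrix.of_apply]
      change Matrix.diagonal _ (j x) (j x) = _
      rw [Matrix.diagonal_apply_eq, Units.val_one]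

theorem conj_kill (κ : K1Fun (MonoidAlgebra L G) K) {n : Type} [Fintype n] [DecidableEq n]
    (γ δ : n → G) (h : ∀ i, γ i * δ i = 1) (h' : ∀ i, δ i * γ i = 1)
    (a : Matrix n n (MonoidAlgebra L G)) (ha : IsUnit a) :
    κ.f ((Matrix.diagonal fun i : n => (MonoidAlgebra.single (γ i) (1 : L))) * a *
      (Matrix.diagonal fun i : n => (MonoidAlgebra.single (δ i) (1 : L)))) = κ.f a := by
  have h1 := dg_unit (L := L) γ
  have h2 := dg_unit (L := L) δ
  rw [κ.mul _ _ (h1.mul ha) h2, κ.mul _ _ h1 ha, mul_comm (κ.f _) (κ.f a), mul_assoc,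
    ← κ.mul _ _ h1 h2, dg_mul γ δ h, κ.f_one, mul_one]

theorem perm_kill [IsDomain L] (hL : IsEuc L) (κ : K1Fun (MonoidAlgebra L G) K) (hκ : KU κ)
    {n : Type} [Fintype n] [DecidableEq n] (σ : n ≃ n) :
    IsUnit ((1 : Matrix n n (MonoidAlgebra L G)).submatrix id σ.symm) ∧
    κ.f ((1 : Matrix n n (MonoidAlgebra L G)).submatrix id σ.symm) = 1 := by
  have hq : ∀ (Λ : Type) [Ring Λ], IsUnit ((1 : Matrix n n Λ).submatrix id σ.symm) := by
    intro Λ _
    have h0 := Matrix.submatrix_mul_equiv (1 : Matrix n n Λ) (1 : Matrix n n Λ) id σ.symm id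
    rw [Matrix.one_mul, Matrix.submatrix_id_id] at h0
    have h1 := Matrix.submatrix_mul_equiv (1 : Matrix n n Λ) (1 : Matrix n n Λ) σ.symm
      (Equiv.refl n) σ.symm
    rw [Matrix.one_mul, Matrix.submatrix_one_equiv] at h1
    exact ⟨⟨_, _, h0, h1⟩, rfl⟩
  refine ⟨hq _, ?_⟩
  have h2 := whTL_one hL (Multiplicative PUnit.{1}) K
    (pullK (inc (LL := L) (1 : Multiplicative PUnit.{1} →* G)) κ) ?_ n
    ((1 : Matrix n n (MonoidAlgebra L (Multiplicative PUnit.{1}))).submatrix id σ.symm) (hq _)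
  · change κ.f (Matrix.map _ _) = 1 at h2
    rw [← h2]
    congr 1
    rw [← Matrix.submatrix_map, Matrix.map_one _ (map_zero _) (map_one _)]
  · intro g u
    change κ.f (Matrix.map _ _) = 1
    rw [← hκ 1 u]
    congr 1
    refine Matrix.ext fun i j => ?_
    rw [Matrix.map_apply, Matrix.of_apply, Matrix.of_apply, inc_single]
    rfl

end Diag

section Class

variable {L : Type} [CommRing L] {G : Type} [Group G]

theorem cf_cl (g h : G) (f : MonoidAlgebra L G) :
    (MonoidAlgebra.single g (1 : L) * f).coeff h = f.coeff (g⁻¹ * h) := by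
  rw [MonoidAlgebra.coeff_single_mul_eq_mul_coeff (g⁻¹ * h), one_mul]
  intro m _
  exact eq_inv_mul_iff_mul_eq.symm

theorem cf_cr (g h : G) (f : MonoidAlgebra L G) :
    (f * MonoidAlgebra.single g (1 : L)).coeff h = f.coeff (h * g⁻¹) := by
  rw [MonoidAlgebra.coeff_mul_single_eq_coeff_mul (h * g⁻¹), mul_one]
  intro m _
  exact eq_mul_inv_iff_mul_eq.symm

/-- Restriction of the coefficients. -/
noncomputable def cf_r (V : Subgroup G) (f : MonoidAlgebra L G) : MonoidAlgebra L V :=
  MonoidAlgebra.ofCoeff (f.coeff.comapDomain Subtype.val Subtype.val_injective.injOn)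

theorem cf_inc (V : Subgroup G) (f : MonoidAlgebra L G)
    (hf : ∀ g, f.coeff g ≠ 0 → g ∈ V) : inc V.subtype (cf_r V f) = f := by
  apply MonoidAlgebra.coeff_injective
  change Finsupp.mapDomain Subtype.val
    (f.coeff.comapDomain Subtype.val Subtype.val_injective.injOn) = f.coeff
  refine Finsupp.mapDomain_comapDomain _ Subtype.val_injective f.coeff ?_
  intro g hg
  exact ⟨⟨g, hf g (Finsupp.mem_support_iff.mp hg)⟩, rfl⟩

theorem cf_map (V : Subgroup G) {n : Type} (a : Matrix n n (MonoidAlgebra L G))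
    (hf : ∀ i k g, (a i k).coeff g ≠ 0 → g ∈ V) :
    (a.map (cf_r V)).map (inc V.subtype) = a :=
  Matrix.ext fun i k => cf_inc V _ (hf i k)

theorem cf_mul (V : Subgroup G) {n : Type} [Fintype n] [DecidableEq n]
    (a b : Matrix n n (MonoidAlgebra L G))
    (ha : ∀ i k g, (a i k).coeff g ≠ 0 → g ∈ V) (hb : ∀ i k g, (b i k).coeff g ≠ 0 → g ∈ V)
    (hab : a * b = 1) : a.map (cf_r V) * b.map (cf_r V) = 1 := by
  have hinj : Function.Injective
      (fun M : Matrix n n (MonoidAlgebra L V) => M.map (inc V.subtype)) :=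
    fun M N h => by
      refine Matrix.ext fun i j => MonoidAlgebra.mapDomain_injective Subtype.val_injective ?_
      exact congrFun (congrFun h i) j
  refine hinj ?_
  change Matrix.map _ _ = Matrix.map _ _
  rw [Matrix.map_mul, cf_map V a ha, cf_map V b hb, hab,
    Matrix.map_one _ (map_zero _) (map_one _)]

/-- A matrix over `L[G]` with coefficients in `L[V]`. -/
theorem sub_kill [IsDomain L] (hL : IsEuc L) {K : Type} [CommGroup K]
    (κ : K1Fun (MonoidAlgebra L G) K) (hκ : KU κ) (V : Subgroup G) (hV : KK V) {n : Type}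
    [Fintype n] [DecidableEq n] (a b : Matrix n n (MonoidAlgebra L G))
    (ha : ∀ i k g, (a i k).coeff g ≠ 0 → g ∈ V) (hb : ∀ i k g, (b i k).coeff g ≠ 0 → g ∈ V)
    (hab : a * b = 1) (hba : b * a = 1) : κ.f a = 1 := by
  have h1 := hV L hL K (pullK (inc V.subtype) κ) (fun g w => by
    change κ.f (Matrix.map _ _) = 1
    rw [← hκ (g : G) w]
    congr 1
    refine Matrix.ext fun i j => ?_
    rw [Matrix.map_apply, Matrix.of_apply, Matrix.of_apply, inc_single]
    rfl) n (a.map (cf_r V)) ⟨⟨_, _, cf_mul V a b ha hb hab, cf_mul V b a hb ha hba⟩, rfl⟩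
  change κ.f (Matrix.map _ _) = 1 at h1
  rw [cf_map V a ha] at h1
  exact h1

variable {X : Type} [MulAction G X]

/-- A matrix all of whose positions are in the same class, up to translation. -/
theorem class_kill [IsDomain L] (hL : IsEuc L) {K : Type} [CommGroup K]
    (κ : K1Fun (MonoidAlgebra L G) K) (hκ : KU κ) (E : Eqr G X) {n : Type} [Fintype n]
    [DecidableEq n] (p : n → X) (hV : ∀ i, KK (E.st (p i))) (g : n → G) (i₀ : n)
    (hg : ∀ i, E.rel (p i₀) (g i • p i)) (a b : Matrix n n (MonoidAlgebra L G))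
    (hab : a * b = 1) (hba : b * a = 1) (ha : SupR E.rel p p a) (hb : SupR E.rel p p b) :
    κ.f a = 1 := by
  have hs : ∀ c : Matrix n n (MonoidAlgebra L G), SupR E.rel p p c → ∀ i k h,
      ((((Matrix.diagonal fun i : n => (MonoidAlgebra.single (g i) (1 : L))) * c *
        (Matrix.diagonal fun i : n => (MonoidAlgebra.single (g i)⁻¹ (1 : L)))) :
        Matrix n n (MonoidAlgebra L G)) i k).coeff h ≠ 0 → h ∈ E.st (p i₀) := by
    intro c hc i k h hh
    rw [Matrix.mul_diagonal, Matrix.diagonal_mul, cf_cr, cf_cl, inv_inv] at hh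
    have h1 := E.inv (g i) (hc i k _ hh)
    rw [← mul_smul, mul_inv_cancel_left, mul_smul] at h1
    exact E.trans (E.trans (hg i) h1) (E.inv h (E.symm (hg k)))
  have hm : ∀ c d : Matrix n n (MonoidAlgebra L G), c * d = 1 →
      (((Matrix.diagonal fun i : n => (MonoidAlgebra.single (g i) (1 : L))) * c *
        (Matrix.diagonal fun i : n => (MonoidAlgebra.single (g i)⁻¹ (1 : L)))) :
        Matrix n n (MonoidAlgebra L G)) *
      (((Matrix.diagonal fun i : n => (MonoidAlgebra.single (g i) (1 : L))) * d *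
        (Matrix.diagonal fun i : n => (MonoidAlgebra.single (g i)⁻¹ (1 : L)))) :
        Matrix n n (MonoidAlgebra L G)) = 1 := by
    intro c d hcd
    calc _ = (Matrix.diagonal fun i : n => (MonoidAlgebra.single (g i) (1 : L))) * c *
          ((Matrix.diagonal fun i : n => (MonoidAlgebra.single (g i)⁻¹ (1 : L))) *
          (Matrix.diagonal fun i : n => (MonoidAlgebra.single (g i) (1 : L)))) * d *
          (Matrix.diagonal fun i : n => (MonoidAlgebra.single (g i)⁻¹ (1 : L))) := by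
          simp only [Matrix.mul_assoc]
      _ = _ := by
          rw [dg_mul (fun i => (g i)⁻¹) g (fun _ => inv_mul_cancel _), Matrix.mul_one,
            Matrix.mul_assoc _ c, hcd, Matrix.mul_one,
            dg_mul g (fun i => (g i)⁻¹) (fun _ => mul_inv_cancel _)]
  have h1 := sub_kill hL κ hκ (E.st (p i₀)) (hV i₀) _ _ (hs a ha) (hs b hb) (hm a b hab)
    (hm b a hba)
  rw [conj_kill κ g (fun i => (g i)⁻¹) (fun _ => mul_inv_cancel _)
    (fun _ => inv_mul_cancel _) a ⟨⟨_, _, hab, hba⟩, rfl⟩] at h1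
  exact h1

/-- Block diagonal matrices. -/
theorem block_kill [IsDomain L] (hL : IsEuc L) {K : Type} [CommGroup K]
    (κ : K1Fun (MonoidAlgebra L G) K) (hκ : KU κ) (E : Eqr G X) {n : Type} [Fintype n]
    [DecidableEq n] (p : n → X) (hV : ∀ i, KK (E.st (p i)))
    (a b : Matrix n n (MonoidAlgebra L G)) (hab : a * b = 1) (hba : b * a = 1)
    (ha : SupR E.rel p p a) (hb : SupR E.rel p p b) : κ.f a = 1 := by
  have hne : ∀ c : Matrix n n (MonoidAlgebra L G), SupR E.rel p p c → ∀ i k, c i k ≠ 0 →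
      ∃ γ : G, E.rel (p i) (γ • p k) := by
    intro c hc i k h
    by_contra h'
    refine h (MonoidAlgebra.coeff_injective (Finsupp.ext fun γ => ?_))
    by_contra h2
    exact h' ⟨γ, hc i k γ h2⟩
  refine kill_blocks κ _ n (fun i k => ∃ γ : G, E.rel (p i) (γ • p k)) ⟨?_, ?_, ?_⟩ a b rfl hab
    hba (hne a ha) (hne b hb) ?_
  · intro i
    exact ⟨1, by rw [one_smul]; exact E.refl _⟩
  · rintro i k ⟨γ, h⟩
    refine ⟨γ⁻¹, E.symm ?_⟩
    have h1 := E.inv γ⁻¹ h
    rw [inv_smul_smul] at h1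
    exact h1
  · rintro i k l ⟨γ, h⟩ ⟨δ, h'⟩
    refine ⟨γ * δ, E.trans h ?_⟩
    rw [mul_smul]
    exact E.inv γ h'
  · intro m _ _ j hj hx h1 h2
    rcases isEmpty_or_nonempty m with hE | ⟨⟨x⟩⟩
    · rw [show a.submatrix j j = 1 from Matrix.ext fun i => isEmptyElim i, κ.f_one]
    · choose g hg using fun y => hx x y
      exact class_kill hL κ hκ E (p ∘ j) (fun i => hV (j i)) g x hg _ _ h1 h2
        (fun i k γ h => ha (j i) (j k) γ h) (fun i k γ h => hb (j i) (j k) γ h)

theorem mon_eq {n m : Type} [Fintype n] [DecidableEq n] [DecidableEq m] (σ : n ≃ m)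
    (γ : n → G) : mon L σ γ =
      (Matrix.diagonal fun i : n => (MonoidAlgebra.single (γ i) (1 : L))).submatrix id
        σ.symm := by
  refine Matrix.ext fun i k => ?_
  rw [mon, Matrix.submatrix_apply, id, Matrix.diagonal_apply]
  by_cases h : σ i = k
  · rw [if_pos h, if_pos (by rw [← h, Equiv.symm_apply_apply])]
  · rw [if_neg h, if_neg (fun h' => h (by rw [h', Equiv.apply_symm_apply]))]

theorem moni_eq {n m : Type} [Fintype n] [DecidableEq n] [DecidableEq m] (σ : n ≃ m)
    (γ : n → G) : moni L σ γ =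
      (Matrix.diagonal fun i : n => (MonoidAlgebra.single (γ i)⁻¹ (1 : L))).submatrix
        σ.symm id := by
  refine Matrix.ext fun k i => ?_
  rw [moni, Matrix.submatrix_apply, id, Matrix.diagonal_apply]
  by_cases h : σ i = k
  · rw [if_pos h, if_pos (by rw [← h, Equiv.symm_apply_apply]), ← h, Equiv.symm_apply_apply]
  · rw [if_neg h, if_neg (fun h' => h (by rw [← h', Equiv.apply_symm_apply]))]

/-- Matrices with a controlled expression are killed by all invariants. -/
theorem triv_kill [IsDomain L] (hL : IsEuc L) {K : Type} [CommGroup K]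
    (κ : K1Fun (MonoidAlgebra L G) K) (hκ : KU κ) (Sm : Subgroup G → Prop)
    (hSm : ∀ V, Sm V → KK V) (N : Met G X) (Ω : Set X) (D : ℕ) {k : ℕ} {n : Type} [Fintype n]
    [DecidableEq n] {p : n → X} {a : Matrix n n (MonoidAlgebra L G)}
    (h : Triv L Sm N Ω D k n p a) : IsUnit a ∧ κ.f a = 1 := by
  induction h with
  | elem p q x _ _ _ =>
    exact ⟨K1Fun.isUnit_tri x isUnit_one isUnit_one, by
      rw [κ.tri _ _ _ isUnit_one isUnit_one, κ.f_one, κ.f_one, one_mul]⟩
  | @mono n _ _ p σ γ _ _ =>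
    obtain ⟨h1, h2⟩ := perm_kill hL κ hκ σ
    have h3 : mon L σ γ = (Matrix.diagonal fun i : n => (MonoidAlgebra.single (γ i) (1 : L))) *
        (1 : Matrix n n (MonoidAlgebra L G)).submatrix id σ.symm := by
      rw [mon_eq]
      have h4 := Matrix.submatrix_mul_equiv
        (Matrix.diagonal fun i : n => (MonoidAlgebra.single (γ i) (1 : L)))
        (1 : Matrix n n (MonoidAlgebra L G)) id (Equiv.refl n) σ.symm
      rw [Matrix.mul_one] at h4
      exact h4.symm
    rw [h3]
    exact ⟨(dg_unit γ).mul h1, by rw [κ.mul _ _ (dg_unit γ) h1, dg_kill κ hκ, h2, one_mul]⟩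
  | block p a a' E _ h1 h2 h3 h4 h5 _ =>
    exact ⟨⟨⟨a, a', h1, h2⟩, rfl⟩, block_kill hL κ hκ E p (fun i => hSm _ (h5 i)) a a' h1 h2
      h3 h4⟩
  | mul p a b _ _ ha hb =>
    exact ⟨ha.1.mul hb.1, by rw [κ.mul _ _ ha.1 hb.1, ha.2, hb.2, one_mul]⟩
  | @iso k n m _ _ _ _ p q σ γ a _ _ _ ha =>
    have h1 : moni L σ γ * a * mon L σ γ =
        ((Matrix.diagonal fun i : n => (MonoidAlgebra.single (γ i)⁻¹ (1 : L))) * a *
        (Matrix.diagonal fun i : n => (MonoidAlgebra.single (γ i) (1 : L)))).submatrix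
          σ.symm σ.symm := by
      rw [mon_eq, moni_eq]
      rfl
    have h2 : IsUnit ((Matrix.diagonal fun i : n => (MonoidAlgebra.single (γ i)⁻¹ (1 : L))) * a *
        (Matrix.diagonal fun i : n => (MonoidAlgebra.single (γ i) (1 : L)))) :=
      ((dg_unit (fun i => (γ i)⁻¹)).mul ha.1).mul (dg_unit γ)
    rw [h1]
    exact ⟨K1Fun.isUnit_submatrix σ h2, by
      rw [κ.reindex σ _ h2, conj_kill κ (fun i => (γ i)⁻¹) γ (fun _ => inv_mul_cancel _)
        (fun _ => mul_inv_cancel _) a ha.1, ha.2]⟩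
  | sum p q a b _ _ ha hb =>
    exact ⟨K1Fun.isUnit_tri 0 ha.1 hb.1, by rw [κ.diag _ _ ha.1 hb.1, ha.2, hb.2, one_mul]⟩
  | @stab k n m _ _ _ _ p q a _ _ _ ha =>
    have hu : IsUnit a := by
      obtain ⟨⟨⟨c, c', h1, h2⟩, h3⟩, -⟩ := ha
      change c = _ at h3
      subst h3
      rw [← Matrix.fromBlocks_toBlocks c', Matrix.fromBlocks_multiply, ← Matrix.fromBlocks_one,
        Matrix.fromBlocks_inj] at h1 h2
      have h4 := h1.1
      have h5 := h2.1
      rw [Matrix.zero_mul, add_zero] at h4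
      rw [Matrix.mul_zero, add_zero] at h5
      exact ⟨⟨a, _, h4, h5⟩, rfl⟩
    have h6 := ha.2
    rw [κ.diag _ _ hu isUnit_one, κ.f_one, mul_one] at h6
    exact ⟨hu, h6⟩

end Class

theorem ctl_of_K (hK : ∀ n, S_K n) : S_ctl := by
  intro L _ _ hL ι _ _ Γ _ A p hp hdvd hSm D n _ _ pos a b hab hba ha hb K _ κ hκ
  obtain ⟨Λ, k, h⟩ := hK (Fintype.card ι + 1) 4 (by norm_num)
  have ht : 1 ≤ max D 1 := le_max_right _ _
  filter_upwards [hp.eventually_ge_atTop (2 * (Λ * max D 1) + 1)] with j hj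
  have hp0 : p j ≠ 0 := by omega
  have h1 : 2 ^ Nat.log 2 (p j) ≤ p j := Nat.pow_log_le_self 2 hp0
  have h2 : p j < 2 ^ (Nat.log 2 (p j) + 1) := Nat.lt_pow_succ_log_self (by norm_num) _
  rw [pow_succ] at h2
  have hs : ∀ c : Matrix (n j) (n j) (MonoidAlgebra L (Γ j)),
      (∀ i i' g, (c i i').coeff g ≠ 0 → ∀ k, |pos j i k - (A j).act g (pos j i') k| ≤ D) →
      SupR ((ptMet (A j)).near (max D 1)) (pos j : n j → Pt (A j)) (pos j) c := by
    intro c hc i i' g hg k
    have h3 := hc i i' g hg k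
    have h4 : (D : ℤ) ≤ ((max D 1 : ℕ) : ℤ) := by exact_mod_cast le_max_left D 1
    exact h3.trans h4
  exact (triv_kill hL (κ j) (hκ j) (A j).Small (hSm j) (ptMet (A j)) _ _
    (h (Γ j) (Pt (A j)) (A j).Small (ptMet (A j)) Set.univ (max D 1) (2 ^ Nat.log 2 (p j)) L hL
      (fun V W hVW ⟨b, hb⟩ => ⟨b, fun g hg => hb g (hVW hg)⟩) (hSm j) (fun g x _ => trivial)
      (dim_univ (A j) (hdvd j) le_rfl h1 ht) (by omega) (n j) (pos j) (a j) (b j)
      (fun i => ⟨pos j i, trivial, (ptMet (A j)).refl _ _⟩) (hab j) (hba j)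
      (hs _ (ha j)) (hs _ (hb j)))).2

end Pool.Agent.FH
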