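import Pool.Agent.Lib.MP_8f66f0_al_FH.CBasic

/-! A transversal in the support of an invertible matrix over a group ring. -/

set_option autoImplicit false

namespace Pool.Agent.FH

variable {G : Type} [Group G] {L : Type} [CommRing L]

/-- An invertible matrix over `L[G]` has a permutation in its support (expansion of the determinant
of the augmented matrix). -/
theorem hall [Nontrivial L] {n m : Type} [Fintype n] [DecidableEq n] [Fintype m] [DecidableEq m]
    (c : Matrix n m (MonoidAlgebra L G)) (c' : Matrix m n (MonoidAlgebra L G)) (h : c * c' = 1)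
    (h' : c' * c = 1) : ∃ (σ : n ≃ m) (γ : n → G), ∀ i, (c i (σ i)).coeff (γ i) ≠ 0 := by
  classical
  let ε : MonoidAlgebra L G →+* L := (MonoidAlgebra.lift L L G 1 : MonoidAlgebra L G →ₐ[L] L)
  have e1 : c.map ε * c'.map ε = 1 := by
    rw [← Matrix.map_mul, h, Matrix.map_one _ (map_zero ε) (map_one ε)]
  have e2 : c'.map ε * c.map ε = 1 := by
    rw [← Matrix.map_mul, h', Matrix.map_one _ (map_zero ε) (map_one ε)]
  have hc : Fintype.card n = Fintype.card m := Matrix.square_of_invertible _ _ e1 e2
  obtain ⟨e⟩ : Nonempty (n ≃ m) := Fintype.card_eq.1 hc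
  have hdet : ((c.map ε).submatrix id e).det * ((c'.map ε).submatrix e id).det = 1 := by
    rw [← Matrix.det_mul, Matrix.submatrix_mul_equiv, e1, Matrix.submatrix_id_id,
      Matrix.det_one]
  have hne : ((c.map ε).submatrix id e).det ≠ 0 := left_ne_zero_of_mul_eq_one hdet
  rw [← Matrix.det_transpose, Matrix.det_apply] at hne
  obtain ⟨τ, -, hτ⟩ := Finset.exists_ne_zero_of_sum_ne_zero hne
  have hp : ∏ i, ((c.map ε).submatrix id e).transpose (τ i) i ≠ 0 := fun h0 => hτ (by
    rw [h0, smul_zero])
  have hi : ∀ i, ε (c i (e (τ i))) ≠ 0 := fun i h0 =>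
    hp (Finset.prod_eq_zero (Finset.mem_univ i) h0)
  have hg : ∀ i, ∃ γ : G, (c i (e (τ i))).coeff γ ≠ 0 := by
    intro i
    by_contra hn
    push Not at hn
    apply hi i
    have : c i (e (τ i)) = 0 := by
      ext γ
      exact hn γ
    rw [this, map_zero]
  choose γ hγ using hg
  exact ⟨τ.trans e, γ, hγ⟩

end Pool.Agent.FH
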