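import Pool.Agent.Lib.MP_8f66f0_al_FH.CBasic

/-! Part 2 of Theorem FH, the control theorem: statements and proofs.

All matrices act on row vectors from the right. -/

set_option autoImplicit false

namespace Pool.Agent.FH

open Pool.Agent.Wald Pool.Agent.WaldL Pool.Agent.Ind

section Algebra

/-- **Hall** (helper43). An invertible matrix over `L[G]` contains an invertible monomial matrix.

Proof. The augmentation of `c` is invertible over the domain `L`, so its determinant is not zero;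
by `Matrix.det_apply` some `∏_i ε(c_(i, σ i)) ≠ 0`, so `c_(i, σ i) ≠ 0` for all `i`; take `γ i` in
its support. -/
def S_hall : Prop :=
  ∀ (L G n : Type) [CommRing L] [IsDomain L] [Group G] [Fintype n] [DecidableEq n]
    (c c' : Matrix n n (MonoidAlgebra L G)), c * c' = 1 → c' * c = 1 →
    ∃ (σ : n ≃ n) (γ : n → G), ∀ i, (c i (σ i)).coeff (γ i) ≠ 0

/-- For `V U = 1`: exchange of the image of `U V` with the second summand. -/
def om {S n m : Type} [Ring S] [DecidableEq n] [Fintype m] (U : Matrix n m S)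
    (V : Matrix m n S) : Matrix (n ⊕ m) (n ⊕ m) S := Matrix.fromBlocks (1 - U * V) U (-V) 0

/-- **Om**. The inverse of `om U V` is `om (-U) (-V)`, and it is a product of three elementary
matrices. -/
def S_om : Prop :=
  ∀ (S n m : Type) [Ring S] [Fintype n] [DecidableEq n] [Fintype m] [DecidableEq m]
    (U : Matrix n m S) (V : Matrix m n S), V * U = 1 →
    om U V * om (-U) (-V) = 1 ∧ om (-U) (-V) * om U V = 1 ∧
      om U V = Matrix.fromBlocks 1 U 0 1 * Matrix.fromBlocks 1 0 (-V) 1 * Matrix.fromBlocks 1 U 0 1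

/-- The source decomposition `P ⊕ f₁ | (not P) ⊕ f₂`. -/
def src {n f₁ f₂ : Type} (P : n → Prop) : (n ⊕ f₁) ⊕ f₂ → Prop
  | Sum.inl (Sum.inl i) => P i
  | Sum.inl (Sum.inr _) => True
  | Sum.inr _ => False

/-- The target decomposition `(P and not W) ⊕ f₂ | (not P or W) ⊕ f₁`. -/
def tgt {n f₁ f₂ : Type} (P W : n → Prop) : (n ⊕ f₁) ⊕ f₂ → Prop
  | Sum.inl (Sum.inl i) => P i ∧ ¬ W i
  | Sum.inl (Sum.inr _) => False
  | Sum.inr _ => True

/-- **Cut**. `q = a' p a` is the idempotent with the image (rows of `P`) `a`; outside `W` it is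
`p`; on `W` its image is stably free: `q_W ⊕ 1 = U V`, `V U = 1`. Then `(a ⊕ 1 ⊕ 1) (om U V)` maps
`P ⊕ f₁` to `(P and not W) ⊕ f₂` and `(not P) ⊕ f₂` to `(not P or W) ⊕ f₁`.

Proof. `q ⊕ 1 = e₁ + q̃` with `q̃ = U V` and `e₁` = the diagonal idempotent of `P and not W`;
`e₁ q̃ = 0 = q̃ e₁`. Let `α_i` be the `i`-th row of `a` (extended by `0`). If `P i` then
`α_i (q ⊕ 1) = α_i` (because `a q = p a`), so `α_i (1 - q̃) = α_i e₁`, with entries only in
`P and not W`. If not `P i` then `α_i (q ⊕ 1) = 0`, so `α_i e₁ = 0`, `α_i q̃ = 0`,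
`α_i U = α_i q̃ U = 0` and `α_i (1 - q̃) = α_i`. The row of an element of `f₁`:
`(1 - q̃)` vanishes there, `U` has its entries in `f₂`. The rows of `f₂`: `-V`, and
`V = V q̃` has entries only in the columns `W` and `f₁`. -/
def S_cut : Prop :=
  ∀ (S n f₁ f₂ : Type) [Ring S] [Fintype n] [DecidableEq n] [Fintype f₁] [DecidableEq f₁]
    [Fintype f₂] [DecidableEq f₂] (a a' q : Matrix n n S) (P W : n → Prop) [DecidablePred P]
    [DecidablePred W] (U : Matrix (n ⊕ f₁) f₂ S) (V : Matrix f₂ (n ⊕ f₁) S), a * a' = 1 →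
    a' * a = 1 → q = a' * Matrix.diagonal (fun i => if P i then (1 : S) else 0) * a →
    (∀ i k, (¬ W i ∨ ¬ W k) → q i k = if i = k ∧ P i then 1 else 0) → V * U = 1 →
    U * V = Matrix.fromBlocks (Matrix.of fun i k => if W i ∧ W k then q i k else 0) 0 0 1 →
    ∀ x y : (n ⊕ f₁) ⊕ f₂,
      (Matrix.fromBlocks (Matrix.fromBlocks a 0 0 (1 : Matrix f₁ f₁ S)) 0 0 (1 : Matrix f₂ f₂ S) *
        om U V : Matrix ((n ⊕ f₁) ⊕ f₂) ((n ⊕ f₁) ⊕ f₂) S) x y ≠ 0 →
      (src P x ↔ tgt P W y)

end Algebra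

section Space

/-- **DimM**. Monotonicity of the dimension, and refinement of the distance. (Induction on `n`;
for the refinement use `Eqr.inf`.) -/
def S_dim : Prop :=
  ∀ (G X : Type) [Group G] [MulAction G X] (Sm : Subgroup G → Prop) (N : Met G X) (f n : ℕ)
    (R : Set X) (t D : ℕ), Dim Sm N f n R t D →
    (∀ (R' : Set X) (t' D' : ℕ), R' ⊆ R → t ≤ t' → D' ≤ D → Dim Sm N f n R' t' D') ∧
    ((∀ V W : Subgroup G, V ≤ W → Sm W → Sm V) → ∀ E : Eqr G X, Dim Sm (N.ref E) f n R t D)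

/-- **Thick**. The pieces of `U`, thickened by `4 t`, and one more class for the rest of `X`.

Proof. `E'.rel x y` iff neither `x` nor `y` is in `nb U (4 t)`, or there are `u, u' ∈ U` with
`near (4 t) x u`, `near (4 t) y u'`, `E.rel u u'`. Transitivity: if `near (4 t) y u'` and
`near (4 t) y w` then `near (8 t) u' w`. Stabilizers: if `E'.rel x (g • x)` and `near (4 t) x u`
then `E.rel u (g • u)`. -/
def S_thick : Prop :=
  ∀ (G X : Type) [Group G] [MulAction G X] (Sm : Subgroup G → Prop) (N : Met G X) (U : Set X)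
    (E : Eqr G X) (t d : ℕ), (∀ V W : Subgroup G, V ≤ W → Sm W → Sm V) → InvS G U →
    (∀ x y, x ∈ U → y ∈ U → N.near (8 * t) x y → E.rel x y) →
    (∀ x y, x ∈ U → y ∈ U → E.rel x y → N.near d x y) → (∀ x ∈ U, Sm (E.st x)) →
    ∃ E' : Eqr G X, (∀ x y, x ∈ N.nb U (4 * t) → E'.rel x y → y ∈ N.nb U (4 * t)) ∧
      (∀ x y, x ∈ N.nb U (4 * t) → E'.rel x y → N.near (d + 8 * t) x y) ∧
      (∀ x ∈ N.nb U (4 * t), Sm (E'.st x)) ∧
      ∀ u x y, u ∈ U → N.near (4 * t) x u → N.near (4 * t) y u → E'.rel x y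

/-- The elements with neighbours on both sides. -/
def Wp {G X : Type} [Group G] [MulAction G X] (N : Met G X) (t : ℕ) {n : Type} (p : n → X)
    (P : n → Prop) (i : n) : Prop :=
  (∃ (l : n) (γ : G), N.near t (p i) (γ • p l) ∧ P l) ∧
    ∃ (l : n) (γ : G), N.near t (p i) (γ • p l) ∧ ¬ P l

open Classical in
/-- **QW**. Away from `W` the idempotent `a' p a` is `p`.

Proof. If `i` is not in `W` then either all `l` with `a' i l ≠ 0` are in `P`, and `i` too, so
`q i k = ∑_l a'_il a_lk = δ_ik`, or none of them is in `P` and `q i k = 0`. The same for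
columns. -/
def S_qw : Prop :=
  ∀ (L G X n : Type) [CommRing L] [Group G] [MulAction G X] [Fintype n] [DecidableEq n]
    (N : Met G X) (t : ℕ) (p : n → X) (P : n → Prop) (a a' : Matrix n n (MonoidAlgebra L G)),
    a * a' = 1 → a' * a = 1 → SupR (N.near t) p p a → SupR (N.near t) p p a' →
    ∀ i k, (¬ Wp (G := G) N t p P i ∨ ¬ Wp (G := G) N t p P k) →
      (a' * Matrix.diagonal (fun i => if P i then (1 : MonoidAlgebra L G) else 0) * a) i k =
        if i = k ∧ P i then 1 else 0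

end Space

section Triv

/-- **TMono**. -/
def S_tmono : Prop :=
  ∀ (L G X : Type) [CommRing L] [Group G] [MulAction G X] (Sm : Subgroup G → Prop)
    (N : Met G X) (Ω Ω' : Set X) (D D' k k' : ℕ) (n : Type) [Fintype n] [DecidableEq n]
    (p : n → X) (a : Matrix n n (MonoidAlgebra L G)), Ω ⊆ Ω' → D ≤ D' → k ≤ k' →
    Triv L Sm N Ω D k n p a → Triv L Sm N Ω' D' k' n p a

/-- **TLow**. Lower triangular elementary matrices (exchange the summands with `iso`). -/
def S_tlow : Prop :=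
  ∀ (L G X : Type) [CommRing L] [Group G] [MulAction G X] (Sm : Subgroup G → Prop)
    (N : Met G X) (Ω : Set X) (D : ℕ) (n m : Type) [Fintype n] [DecidableEq n] [Fintype m]
    [DecidableEq m] (p : n → X) (q : m → X) (y : Matrix m n (MonoidAlgebra L G)),
    (∀ i, p i ∈ Ω) → (∀ i, q i ∈ Ω) → SupR (N.near D) q p y →
    Triv L Sm N Ω D 1 (n ⊕ m) (Sum.elim p q) (Matrix.fromBlocks 1 0 y 1)

open Classical in
/-- **TBlk**. Block diagonal matrices for a decomposition of the index set (`sum` and `iso` along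
`{x // P x} ⊕ {x // ¬ P x} ≃ n`). -/
def S_tblk : Prop :=
  ∀ (L G X : Type) [CommRing L] [Group G] [MulAction G X] (Sm : Subgroup G → Prop)
    (N : Met G X) (Ω : Set X) (D k : ℕ) (n : Type) [Fintype n] [DecidableEq n] (p : n → X)
    (P : n → Prop) (b : Matrix n n (MonoidAlgebra L G)), (∀ i, p i ∈ Ω) →
    (∀ x y, b x y ≠ 0 → (P x ↔ P y)) →
    Triv L Sm N Ω D k {x // P x} (fun x => p x) (b.submatrix Subtype.val Subtype.val) →
    Triv L Sm N Ω D k {x // ¬ P x} (fun x => p x) (b.submatrix Subtype.val Subtype.val) →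
    Triv L Sm N Ω D (k + 2) n p b

/-- **Base** (`R = ∅`, so there are no positions: `m` is empty, `a` is monomial). -/
def S_base : Prop := S_K 0

/-- **Step** (uses `S_hall`, `S_om`, `S_cut`, `S_dim`, `S_thick`, `S_qw`, `S_tmono`, `S_tlow`,
`S_tblk`). Let `Λ₀`, `Λ₁`, `k` be the constants of `S_K0 n`, `S_K n`;
`t₁ = 8 f t`, `D₁ = (Λ₀ + 1) t₁`, `Λ t = 2 f (4 Λ₁ + 1) D₁`.
Apply `Dim (n + 1)` with `t' = 8 t`, `d = D / 2`: `E`, `V`, `s ≤ t₁`, `D'` with
`(4 Λ₁ + 1) D₁ ≤ D'`. Put `V' = V ∩ R`, `U = R \ V`, `E'` from `S_thick`, `N' = N.ref E'`,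
`V'' = V' ∩ nb U (4 t)`; `P i` iff `p i ∈ nb U t` (otherwise `p i ∈ nb V' t`), `W = Wp N t p P`
(so `p i ∈ nb U (2 t) ∩ nb V' (2 t)` for `W i`, hence `p i ∈ N'.nb V'' (2 t)`),
`q = a' p a` (`near (2 t)`). `q` restricted to `{i // W i}` is an idempotent with propagation
`2 t` for `N'` (`near (4 t) (γ • p k) u` if `near (2 t) (p i) u`), so `S_K0 n` for
`(N', V'', t₁, D₁)` gives `f₁`, `f₂`, `U₀`, `V₀`; extend by `0` to `U : (m ⊕ f₁) × f₂`,
`V : f₂ × (m ⊕ f₁)`. `c = (a ⊕ 1 ⊕ 1) (om U V)` has propagation `2 D₁`, and so has its inverse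
`om (-U) (-V) (a' ⊕ 1 ⊕ 1)`. By `S_cut` and `S_hall` (applied to `c`) there are `σ`, `γ` with
`src x ↔ tgt (σ x)`, so that `b = c * moni σ γ` satisfies `b x y ≠ 0 → (src x ↔ src y)`;
propagation `4 D₁`. On `src`: all positions are in `nb U (4 t)` and `b`, `b⁻¹` have supports in
`E'` (rows of `a` and columns of `a'` which belong to `P` have supports in `E'`, as `u ∈ U` with
`near t (p i) u` is near both), so `Triv.block` applies (diameter `d + 8 t ≤ D`). On the
complement: positions in `nb V' D₁`, apply `S_K n` with `V'`, `4 D₁`, `Λ₁ (4 D₁)`. So `b` is in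
`Triv` (`S_tblk`, `S_tmono`), `mon σ γ` is (`mono`),
`om (-U) (-V)` is (`S_om`, `elem`, `S_tlow`), and
`(a ⊕ 1) ⊕ 1 = b * mon σ γ * om (-U) (-V)`; `stab` twice. -/
def S_step : Prop := ∀ n : ℕ, S_K n → S_K0 n → S_K (n + 1)

end Triv

section StF

/-- **StM**. Monotonicity. -/
def S_stm : Prop :=
  ∀ (L G X : Type) [CommRing L] [Group G] [MulAction G X] (N : Met G X) (Ω Ω' : Set X)
    (D D' : ℕ) (n : Type) [Fintype n] [DecidableEq n] (p : n → X)
    (q : Matrix n n (MonoidAlgebra L G)), Ω ⊆ Ω' → D ≤ D' → StF L N Ω D p q → StF L N Ω' D' p q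

/-- **StI**. Isomorphic images: `U = (u ⊕ 1) U'`, `V = V' (v ⊕ 1)`. -/
def S_sti : Prop :=
  ∀ (L G X : Type) [CommRing L] [Group G] [MulAction G X] (N : Met G X) (Ω : Set X) (r D : ℕ)
    (n n' : Type) [Fintype n] [DecidableEq n] [Fintype n'] [DecidableEq n'] (p : n → X)
    (p' : n' → X) (q : Matrix n n (MonoidAlgebra L G)) (q' : Matrix n' n' (MonoidAlgebra L G))
    (u : Matrix n n' (MonoidAlgebra L G)) (v : Matrix n' n (MonoidAlgebra L G)), q * q = q →
    u * v = q → v * u = q' → SupR (N.near r) p p' u → SupR (N.near r) p' p v →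
    StF L N Ω D p' q' → StF L N Ω (r + D) p q

/-- **StS**. Sums. -/
def S_sts : Prop :=
  ∀ (L G X : Type) [CommRing L] [Group G] [MulAction G X] (N : Met G X) (Ω : Set X) (D : ℕ)
    (n n' : Type) [Fintype n] [DecidableEq n] [Fintype n'] [DecidableEq n'] (p : n → X)
    (p' : n' → X) (q : Matrix n n (MonoidAlgebra L G)) (q' : Matrix n' n' (MonoidAlgebra L G)),
    StF L N Ω D p q → StF L N Ω D p' q' →
    StF L N Ω D (Sum.elim p p') (Matrix.fromBlocks q 0 0 q')

open Classical in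
/-- **StC**. Coordinate projections are free (`n₁` empty, `n₂ = {i // P i}`). -/
def S_stc : Prop :=
  ∀ (L G X : Type) [CommRing L] [Group G] [MulAction G X] (N : Met G X) (Ω : Set X) (D : ℕ)
    (n : Type) [Fintype n] [DecidableEq n] (p : n → X) (P : n → Prop), (∀ i, p i ∈ Ω) →
    StF L N Ω D p (Matrix.diagonal fun i => if P i then (1 : MonoidAlgebra L G) else 0)

open Classical in
/-- **StX**. Cancellation of coordinate projections (`n₁' = {i // P i} ⊕ n₁`). -/
def S_stx : Prop :=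
  ∀ (L G X : Type) [CommRing L] [Group G] [MulAction G X] (N : Met G X) (Ω : Set X) (D : ℕ)
    (n n' : Type) [Fintype n] [DecidableEq n] [Fintype n'] [DecidableEq n'] (p : n → X)
    (p' : n' → X) (q : Matrix n n (MonoidAlgebra L G)) (P : n' → Prop), (∀ i, p' i ∈ Ω) →
    StF L N Ω D (Sum.elim p p')
      (Matrix.fromBlocks q 0 0
        (Matrix.diagonal fun i => if P i then (1 : MonoidAlgebra L G) else 0)) →
    StF L N Ω D p q

/-- **StN**. The complement. With `U = [U_n; U_1]`, `V = [V_n, V_1]` for `1 - q` the matrices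
`[[q, 0], [V_n, V_1]]` and `[[q, U_n], [0, U_1]]` (`n₁' = n₂`, `n₂' = n ⊕ n₁`) are inverse to each
other on `q ⊕ 1`: `q U_n = 0`, `V_n q = 0`. -/
def S_stn : Prop :=
  ∀ (L G X : Type) [CommRing L] [Group G] [MulAction G X] (N : Met G X) (Ω : Set X) (r D : ℕ)
    (n : Type) [Fintype n] [DecidableEq n] (p : n → X) (q : Matrix n n (MonoidAlgebra L G)),
    (∀ i, p i ∈ Ω) → q * q = q → SupR (N.near r) p p q → StF L N Ω D p (1 - q) →
    StF L N Ω (max r D) p q

/-- **StB**. Block diagonal idempotents with small stabilizers are stably free by block diagonal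
matrices, with positions among the positions of `p`.

Proof. `i ∼ k` iff `E.rel (p i) (g • p k)` for some `g`; choose representatives `r i` of the
classes and `γ_i` with `E.rel (p (r i)) (γ_i • p i)`. The matrix `diag(γ) q diag(γ)⁻¹` is block
diagonal for the classes, and the block of the class of `r` has entries in `L[V]`,
`V = E.st (p r)`. Its image is a finitely generated projective `L[V]`-module, so there are `a, b`
and an isomorphism (image) `⊕ L[V]^a ≅ L[V]^b`; `n₁`, `n₂` = the sums of the `Fin a`, `Fin b` over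
the classes, with positions `p r`. -/
def S_stb : Prop :=
  ∀ (L G X : Type) [CommRing L] [IsDomain L] [Group G] [MulAction G X] (E : Eqr G X)
    (n : Type) [Fintype n] [DecidableEq n] (p : n → X) (q : Matrix n n (MonoidAlgebra L G)),
    q * q = q → SupR E.rel p p q →
    (∀ i, ProjSF (MonoidAlgebra L (E.st (p i)))) →
    ∃ (n₁ n₂ : Type) (_ : Fintype n₁) (_ : DecidableEq n₁) (_ : Fintype n₂) (_ : DecidableEq n₂)
      (i₁ : n₁ → n) (i₂ : n₂ → n) (u : Matrix (n ⊕ n₁) n₂ (MonoidAlgebra L G))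
      (v : Matrix n₂ (n ⊕ n₁) (MonoidAlgebra L G)),
      SupR E.rel (Sum.elim p fun x => p (i₁ x)) (fun x => p (i₂ x)) u ∧
      SupR E.rel (fun x => p (i₂ x)) (Sum.elim p fun x => p (i₁ x)) v ∧
      u * v = Matrix.fromBlocks q 0 0 1 ∧ v * u = 1

end StF

end Pool.Agent.FH
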