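import Pool.Agent.Lib.MP_8f66f0_al_FH.CSpec

/-! Part 2 of Theorem FH, module Cut (helper26). -/

set_option autoImplicit false

namespace Pool.Agent.FH

theorem cut : S_cut := by
  intro S n f₁ f₂ _ _ _ _ _ _ _ a a' q P W _ _ U V haa' ha'a hq hqW hVU hUV
  set qW : Matrix n n S := Matrix.of fun i k => if W i ∧ W k then q i k else 0 with hqWd
  have haq2 : ∀ i k, (a * q) i k = if P i then a i k else 0 := by
    intro i k
    have haq : a * q = Matrix.diagonal (fun i => if P i then (1 : S) else 0) * a := by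
      rw [hq, ← Matrix.mul_assoc, ← Matrix.mul_assoc, haa', Matrix.one_mul]
    rw [haq, Matrix.diagonal_mul]
    by_cases h : P i
    · rw [if_pos h, if_pos h, one_mul]
    · rw [if_neg h, if_neg h, zero_mul]
  have hsplit : q = Matrix.diagonal (fun i => if P i ∧ ¬ W i then (1 : S) else 0) + qW := by
    ext i k
    rw [Matrix.add_apply, hqWd, Matrix.of_apply, Matrix.diagonal_apply]
    by_cases hw : W i ∧ W k
    · rw [if_pos hw]
      by_cases hik : i = k
      · rw [if_pos hik, if_neg fun h => h.2 hw.1, zero_add]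
      · rw [if_neg hik, zero_add]
    · rw [if_neg hw, add_zero, hqW i k (by tauto)]
      by_cases hik : i = k
      · subst hik
        rw [if_pos rfl]
        have hw' : ¬ W i := fun h => hw ⟨h, h⟩
        by_cases hp : P i
        · rw [if_pos ⟨rfl, hp⟩, if_pos ⟨hp, hw'⟩]
        · rw [if_neg fun h => hp h.2, if_neg fun h => hp h.1]
      · rw [if_neg fun h => hik h.1, if_neg hik]
  have hqe : ∀ i k, (a * q) i k = (if P k ∧ ¬ W k then a i k else 0) + (a * qW) i k := by
    intro i k
    have h1 : a * q = a * Matrix.diagonal (fun i => if P i ∧ ¬ W i then (1 : S) else 0) + a * qW := by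
      rw [← Matrix.mul_add, ← hsplit]
    rw [h1, Matrix.add_apply, Matrix.mul_diagonal]
    by_cases h : P k ∧ ¬ W k
    · rw [if_pos h, if_pos h, mul_one]
    · rw [if_neg h, if_neg h, mul_zero]
  have hcol : ∀ i k, ¬ W k → (a * qW) i k = 0 := by
    intro i k hk
    rw [Matrix.mul_apply]
    exact Finset.sum_eq_zero fun l _ => by
      rw [hqWd, Matrix.of_apply, if_neg (fun h => hk h.2), mul_zero]
  have hnP : ∀ i, ¬ P i → ∀ k, (P k ∧ ¬ W k → a i k = 0) ∧ (a * qW) i k = 0 := by
    intro i hi k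
    have h1 := hqe i k
    rw [haq2, if_neg hi] at h1
    by_cases hk : P k ∧ ¬ W k
    · have h2 := hcol i k hk.2
      rw [if_pos hk, h2, add_zero] at h1
      exact ⟨fun _ => h1.symm, h2⟩
    · rw [if_neg hk, zero_add] at h1
      exact ⟨fun h => absurd h hk, h1.symm⟩
  have hM : Matrix.fromBlocks (Matrix.fromBlocks a 0 0 (1 : Matrix f₁ f₁ S)) 0 0 (1 : Matrix f₂ f₂ S) *
      om U V = Matrix.fromBlocks (Matrix.fromBlocks (a - a * qW) 0 0 0)
        (Matrix.fromBlocks a 0 0 (1 : Matrix f₁ f₁ S) * U) (-V) 0 := by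
    unfold om
    rw [Matrix.fromBlocks_multiply, Matrix.zero_mul, Matrix.zero_mul, Matrix.zero_mul, Matrix.zero_mul,
      Matrix.one_mul, Matrix.one_mul, add_zero, add_zero, zero_add, zero_add]
    congr 1
    rw [Matrix.mul_sub, Matrix.mul_one, hUV, Matrix.fromBlocks_multiply, Matrix.mul_zero, Matrix.zero_mul,
      Matrix.zero_mul, Matrix.mul_zero, Matrix.zero_mul, Matrix.mul_one, add_zero, add_zero, zero_add,
      zero_add, Matrix.mul_zero, sub_eq_add_neg, Matrix.fromBlocks_neg, Matrix.fromBlocks_add, neg_zero,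
      add_zero, ← sub_eq_add_neg]
    simp
  intro x y hxy
  rw [hM] at hxy
  rcases x with (i | i) | i <;> rcases y with (k | k) | k
  · change (a - a * qW) i k ≠ 0 at hxy
    change P i ↔ (P k ∧ ¬ W k)
    rw [Matrix.sub_apply] at hxy
    by_cases hi : P i
    · refine ⟨fun _ => ?_, fun _ => hi⟩
      by_contra hk
      have h1 := hqe i k
      rw [haq2, if_pos hi, if_neg hk, zero_add] at h1
      exact hxy (by rw [← h1, sub_self])
    · refine ⟨fun h => absurd h hi, fun hk => ?_⟩
      obtain ⟨h1, h2⟩ := hnP i hi k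
      exact absurd (by rw [h1 hk, h2, sub_zero]) hxy
  · exact absurd rfl hxy
  · change (Matrix.fromBlocks a 0 0 (1 : Matrix f₁ f₁ S) * U) (Sum.inl i) k ≠ 0 at hxy
    change P i ↔ True
    refine ⟨fun _ => trivial, fun _ => ?_⟩
    by_contra hi
    apply hxy
    have h1 : U = U * V * U := by rw [Matrix.mul_assoc, hVU, Matrix.mul_one]
    rw [h1, ← Matrix.mul_assoc, hUV, Matrix.mul_apply]
    refine Finset.sum_eq_zero fun l _ => ?_
    rw [Matrix.fromBlocks_multiply]
    rcases l with l | l
    · rw [Matrix.fromBlocks_apply₁₁, Matrix.zero_mul, add_zero, (hnP i hi l).2, zero_mul]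
    · rw [Matrix.fromBlocks_apply₁₂, Matrix.mul_zero, Matrix.zero_mul, add_zero, Matrix.zero_apply, zero_mul]
  · exact absurd rfl hxy
  · exact absurd rfl hxy
  · exact Iff.rfl
  · change (-V) i (Sum.inl k) ≠ 0 at hxy
    change False ↔ (P k ∧ ¬ W k)
    refine ⟨False.elim, fun hk => ?_⟩
    apply hxy
    have h1 : V = V * (U * V) := by rw [← Matrix.mul_assoc, hVU, Matrix.one_mul]
    have h2 : V i (Sum.inl k) = 0 := by
      rw [h1, hUV, Matrix.mul_apply]
      refine Finset.sum_eq_zero fun l _ => ?_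
      rcases l with l | l
      · rw [Matrix.fromBlocks_apply₁₁, hqWd, Matrix.of_apply, if_neg (fun h => hk.2 h.2), mul_zero]
      · rw [Matrix.fromBlocks_apply₂₁, Matrix.zero_apply, mul_zero]
    rw [Matrix.neg_apply, h2, neg_zero]
  · exact Iff.rfl
  · exact absurd rfl hxy

end Pool.Agent.FH
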