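import Pool.Agent.Lib.MP_8f66f0_al_FH.CSpec

/-! Monotonicity of the dimension. -/

set_option autoImplicit false

namespace Pool.Agent.FH

theorem dimM : S_dim := by
  intro G X _ _ Sm N f n
  induction n with
  | zero =>
    intro R t D h
    have h0 : R = ∅ := h
    refine ⟨fun R' t' D' hR _ _ => ?_, fun _ E => h0⟩
    change R' = ∅
    rw [h0] at hR
    exact Set.subset_empty_iff.1 hR
  | succ n ih =>
    intro R t D h
    refine ⟨fun R' t1 D1 hR ht hD => ?_, fun hSm E => ?_⟩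
    · intro t' d h1 h2 h3
      obtain ⟨E, V, s, D', a1, a2, a3, a4, a5, a6, a7⟩ := h t' d (ht.trans h1) h2 (h3.trans hD)
      exact ⟨E, V, s, D', a1, a2, a3,
        fun x y hx hxV hy hyV hn => a4 x y (hR hx) hxV (hR hy) hyV hn,
        fun x y hx hxV hy hyV hn => a5 x y (hR hx) hxV (hR hy) hyV hn,
        fun x hx hxV => a6 x (hR hx) hxV, a7⟩
    · intro t' d h1 h2 h3
      obtain ⟨E0, V, s, D', a1, a2, a3, a4, a5, a6, a7⟩ := h t' d h1 h2 h3
      refine ⟨E0.inf E, V, s, D', a1, a2, a3, ?_, ?_, ?_, (ih V s D' a7).2 hSm E⟩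
      · intro x y hx hxV hy hyV hn
        exact ⟨a4 x y hx hxV hy hyV hn.1, hn.2⟩
      · intro x y hx hxV hy hyV hr
        exact ⟨a5 x y hx hxV hy hyV hr.1, hr.2⟩
      · intro x hx hxV
        exact hSm _ _ (fun g hg => ((Eqr.mem_st _ _ _).1 hg).1) (a6 x hx hxV)

end Pool.Agent.FH
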