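import Pool.Agent.Lib.MP_8f66f0_al_FH.ISpec

/-! Conjugation by constant matrices and sums for the index idempotents. -/

set_option autoImplicit false

namespace Pool.Agent.FH

open Pool.Agent.Wald Pool.Agent.WaldL Pool.Agent.Ind

section

variable {S Q : Type} [Ring S] [Ring Q] (D : Lau S Q)

private theorem EpsC_tr (q : Q) (s : S) : D.tr (q * D.c s) = D.tr q * D.c s := by
  have h : D.tr (q * D.c s) - D.tr q * D.c s = 0 := by
    apply D.ext
    intro k
    rw [map_sub, D.cf_tr, D.cf_mul_c, D.cf_mul_c, D.cf_tr]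
    by_cases hk : 0 ≤ k
    · rw [if_pos hk, if_pos hk, sub_self]
    · rw [if_neg hk, if_neg hk, zero_mul, sub_self]
  exact sub_eq_zero.1 h

private theorem EpsC_trm {k n l : Type} [Fintype n] (Z : Matrix k n Q) (u : Matrix n l S) :
    (Z * u.map D.c).map D.tr = Z.map D.tr * u.map D.c := by
  ext i j
  rw [Matrix.map_apply, Matrix.mul_apply, Matrix.mul_apply, map_sum]
  refine Finset.sum_congr rfl fun x _ => ?_
  rw [Matrix.map_apply, Matrix.map_apply, EpsC_tr]

private theorem EpsC_res {k n l : Type} [Fintype n] (m : ℕ) (Z : Matrix k n Q)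
    (u : Matrix n l S) : D.res m (Z * u.map D.c) = D.res m Z * dgl m u := by
  ext i x
  obtain ⟨r, j⟩ := x
  rw [Matrix.mul_apply, Fintype.sum_prod_type, Finset.sum_eq_single r]
  · change D.cf ((r : ℤ) - m) ((Z * u.map D.c) i j) = _
    rw [Matrix.mul_apply, map_sum]
    refine Finset.sum_congr rfl fun x _ => ?_
    rw [Matrix.map_apply, D.cf_mul_c]
    change _ = D.cf ((r : ℤ) - m) (Z i x) * (if r = r then u x j else 0)
    rw [if_pos rfl]
  · intro r' _ hr'
    refine Finset.sum_eq_zero fun x _ => ?_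
    change _ * (if r' = r then u x j else 0) = 0
    rw [if_neg hr', mul_zero]
  · intro h
    exact absurd (Finset.mem_univ _) h

private theorem EpsC_Y {k n : Type} [Fintype n] [Fintype k] [DecidableEq n] [DecidableEq k]
    (m : ℕ) (v : Matrix k n S) : D.Y m k * v.map D.c = (dgl m v).map D.c * D.Y m n := by
  ext x l
  obtain ⟨r, i⟩ := x
  rw [Matrix.mul_apply, Matrix.mul_apply, Fintype.sum_prod_type, Finset.sum_eq_single i,
    Finset.sum_eq_single r, Finset.sum_eq_single l]
  · rw [Matrix.map_apply, Matrix.map_apply]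
    change (if i = i then D.y ((r : ℤ) - m) else 0) * D.c (v i l) =
      D.c (if r = r then v i l else 0) * (if l = l then D.y ((r : ℤ) - m) else 0)
    rw [if_pos rfl, if_pos rfl, if_pos rfl, D.y_comm]
  · intro l' _ hl'
    change _ * (if l' = l then D.y ((r : ℤ) - m) else 0) = 0
    rw [if_neg hl', mul_zero]
  · intro h
    exact absurd (Finset.mem_univ _) h
  · intro r' _ hr'
    refine Finset.sum_eq_zero fun l' _ => ?_
    rw [Matrix.map_apply]
    change D.c (if r = r' then v i l' else 0) * _ = 0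
    rw [if_neg (Ne.symm hr'), map_zero, zero_mul]
  · intro h
    exact absurd (Finset.mem_univ _) h
  · intro i' _ hi'
    change (if i = i' then D.y ((r : ℤ) - m) else 0) * _ = 0
    rw [if_neg (Ne.symm hi'), zero_mul]
  · intro h
    exact absurd (Finset.mem_univ _) h

end

theorem epsC : S_epsC := by
  intro S Q n k _ _ _ _ _ _ D hD m a a' u v huv _
  have h1 : u.map D.c * v.map D.c = 1 := by
    rw [← Matrix.map_mul, huv, Matrix.map_one _ D.c.map_zero D.c.map_one]
  have h2 : (D.Y m k * (v.map D.c * a' * u.map D.c)).map D.tr =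
      (dgl m v).map D.c * (D.Y m n * a').map D.tr * u.map D.c := by
    rw [← Matrix.mul_assoc, ← Matrix.mul_assoc, EpsC_Y, EpsC_trm, Matrix.mul_assoc _ (D.Y m n),
      hD.tr_c]
  have h3 : (D.Y m k * (v.map D.c * a' * u.map D.c)).map D.tr * (v.map D.c * a * u.map D.c) =
      (dgl m v).map D.c * ((D.Y m n * a').map D.tr * a) * u.map D.c := by
    rw [h2]
    calc (dgl m v).map D.c * (D.Y m n * a').map D.tr * u.map D.c *
          (v.map D.c * a * u.map D.c) =
          (dgl m v).map D.c * (D.Y m n * a').map D.tr * (u.map D.c * v.map D.c) * a *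
            u.map D.c := by simp only [Matrix.mul_assoc]
      _ = _ := by
        rw [h1, Matrix.mul_one]
        simp only [Matrix.mul_assoc]
  rw [Lau.eps, Lau.eps, h3, EpsC_res, hD.res_c]

section

variable {S Q : Type} [Ring S] [Ring Q] (D : Lau S Q)

private theorem EpsC_YB {n k : Type} [DecidableEq n] [DecidableEq k] (m : ℕ) :
    D.Y m (n ⊕ k) = (Matrix.fromBlocks (D.Y m n) 0 0 (D.Y m k)).submatrix (winE m n k) id := by
  ext x l
  obtain ⟨r, i | i⟩ := x <;> rcases l with l | l
  · change (if Sum.inl i = Sum.inl l then D.y ((r : ℤ) - m) else 0) =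
      (if i = l then D.y ((r : ℤ) - m) else 0)
    by_cases h : i = l
    · rw [if_pos h, if_pos (congrArg _ h)]
    · rw [if_neg h, if_neg fun h' => h (Sum.inl_injective h')]
  · change (if Sum.inl i = Sum.inr l then D.y ((r : ℤ) - m) else 0) = 0
    rw [if_neg Sum.inl_ne_inr]
  · change (if Sum.inr i = Sum.inl l then D.y ((r : ℤ) - m) else 0) = 0
    rw [if_neg Sum.inr_ne_inl]
  · change (if Sum.inr i = Sum.inr l then D.y ((r : ℤ) - m) else 0) =
      (if i = l then D.y ((r : ℤ) - m) else 0)
    by_cases h : i = l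
    · rw [if_pos h, if_pos (congrArg _ h)]
    · rw [if_neg h, if_neg fun h' => h (Sum.inr_injective h')]

private theorem EpsC_resB {n k : Type} (m : ℕ) (P : Matrix (Fin (2 * m) × n) n Q)
    (R : Matrix (Fin (2 * m) × k) k Q) :
    D.res m ((Matrix.fromBlocks P 0 0 R).submatrix (winE m n k) id) =
      (Matrix.fromBlocks (D.res m P) 0 0 (D.res m R)).submatrix (winE m n k) (winE m n k) := by
  ext x z
  obtain ⟨r, i | i⟩ := x <;> obtain ⟨r', l | l⟩ := z
  · rfl
  · change D.cf _ (0 : Q) = 0
    rw [map_zero]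
  · change D.cf _ (0 : Q) = 0
    rw [map_zero]
  · rfl

omit [Ring S] in
private theorem EpsC_mulB {l l₁ l₂ n k : Type} [Fintype n] [Fintype k] (e : l ≃ l₁ ⊕ l₂)
    (P : Matrix l₁ n Q) (R : Matrix l₂ k Q) (a : Matrix n n Q) (b : Matrix k k Q) :
    (Matrix.fromBlocks P 0 0 R).submatrix e id * Matrix.fromBlocks a 0 0 b =
      (Matrix.fromBlocks (P * a) 0 0 (R * b)).submatrix e id := by
  have h1 : (Matrix.fromBlocks P 0 0 R).submatrix e id * Matrix.fromBlocks a 0 0 b =
      (Matrix.fromBlocks P 0 0 R * Matrix.fromBlocks a 0 0 b).submatrix e id := rfl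
  rw [h1, Matrix.fromBlocks_multiply]
  simp only [Matrix.mul_zero, Matrix.zero_mul, add_zero, zero_add]

end

theorem epsB : S_epsB := by
  intro S Q n k _ _ _ _ _ _ D _ m a a' b b'
  have h1 : ((Matrix.fromBlocks (D.Y m n * a') 0 0 (D.Y m k * b')).submatrix
      (winE m n k) id).map D.tr = (Matrix.fromBlocks ((D.Y m n * a').map D.tr) 0 0
        ((D.Y m k * b').map D.tr)).submatrix (winE m n k) id := by
    rw [← Matrix.submatrix_map, Matrix.fromBlocks_map, Matrix.map_zero _ D.tr.map_zero,
      Matrix.map_zero _ D.tr.map_zero]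
  rw [Lau.eps, EpsC_YB, Lau.eps, Lau.eps, ← EpsC_resB, EpsC_mulB, h1, EpsC_mulB]

end Pool.Agent.FH
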