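import Pool.Agent.Lib.MP_8f66f0_al_FH.ISpec

/-! The index idempotent: conjugation by constants, sums. -/

set_option autoImplicit false

namespace Pool.Agent.FH

open Pool.Agent.Wald Pool.Agent.WaldL Pool.Agent.Ind

section

variable {S Q : Type} [Ring S] [Ring Q] (D : Lau S Q)

private theorem EpsC_Y (m : ℕ) {n k : Type} [Fintype n] [DecidableEq n] (Z : Matrix n k Q)
    (x : Fin (2 * m) × n) (l : k) : (D.Y m n * Z) x l = D.y ((x.1 : ℤ) - m) * Z x.2 l := by
  rw [Matrix.mul_apply, Finset.sum_eq_single x.2]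
  · unfold Lau.Y
    rw [if_pos rfl]
  · intro j _ hj
    unfold Lau.Y
    rw [if_neg fun h => hj h.symm, zero_mul]
  · intro h
    exact absurd (Finset.mem_univ _) h

private theorem EpsC_eps (m : ℕ) {n : Type} [Fintype n] [DecidableEq n] (a a' : Matrix n n Q)
    (x z : Fin (2 * m) × n) : D.eps m a a' x z =
      D.cf ((z.1 : ℤ) - m) (∑ l, D.tr (D.y ((x.1 : ℤ) - m) * a' x.2 l) * a l z.2) := by
  unfold Lau.eps Lau.res
  rw [Matrix.mul_apply]
  congr 1
  apply Finset.sum_congr rfl
  intro l _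
  rw [Matrix.map_apply, EpsC_Y]

private theorem EpsC_trc (z : Q) (s : S) : D.tr (z * D.c s) = D.tr z * D.c s := by
  have h : D.tr (z * D.c s) - D.tr z * D.c s = 0 := by
    apply D.ext
    intro k
    rw [map_sub, D.cf_tr, D.cf_mul_c, D.cf_mul_c, D.cf_tr]
    split_ifs
    · exact sub_self _
    · rw [zero_mul, sub_zero]
  exact sub_eq_zero.1 h

private theorem EpsC_tr (k n l : Type) [Fintype n] (Z : Matrix k n Q) (u : Matrix n l S) :
    (Z * u.map D.c).map D.tr = Z.map D.tr * u.map D.c := by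
  apply Matrix.ext
  intro i j
  rw [Matrix.map_apply, Matrix.mul_apply, Matrix.mul_apply, map_sum]
  apply Finset.sum_congr rfl
  intro x _
  rw [Matrix.map_apply, Matrix.map_apply, EpsC_trc]

private theorem EpsC_res (m : ℕ) {k n l : Type} [Fintype n] (Z : Matrix k n Q)
    (u : Matrix n l S) : D.res m (Z * u.map D.c) = D.res m Z * dgl m u := by
  classical
  apply Matrix.ext
  intro i z
  change D.cf ((z.1 : ℤ) - m) ((Z * u.map D.c) i z.2) = (D.res m Z * dgl m u) i z
  rw [Matrix.mul_apply, Matrix.mul_apply, map_sum, Fintype.sum_prod_type,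
    Finset.sum_eq_single z.1]
  · apply Finset.sum_congr rfl
    intro x _
    rw [Matrix.map_apply, D.cf_mul_c]
    unfold dgl Lau.res
    rw [if_pos rfl]
  · intro r _ hr
    apply Finset.sum_eq_zero
    intro x _
    unfold dgl
    rw [if_neg hr, mul_zero]
  · intro h
    exact absurd (Finset.mem_univ _) h

private theorem EpsC_Yv (m : ℕ) {k n : Type} [Fintype n] [DecidableEq n] [Fintype k]
    [DecidableEq k] (v : Matrix k n S) :
    D.Y m k * v.map D.c = (dgl m v).map D.c * D.Y m n := by
  apply Matrix.ext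
  intro x l
  rw [EpsC_Y, Matrix.mul_apply, Finset.sum_eq_single (x.1, l)]
  · rw [Matrix.map_apply, Matrix.map_apply]
    unfold dgl Lau.Y
    rw [if_pos rfl, if_pos rfl, D.y_comm]
  · rintro ⟨r, j⟩ _ hz
    rw [Matrix.map_apply]
    unfold dgl Lau.Y
    by_cases hr : x.1 = r
    · have hj : j ≠ l := fun h => hz (by rw [hr, h])
      rw [if_neg hj, mul_zero]
    · rw [if_neg hr, map_zero, zero_mul]
  · intro h
    exact absurd (Finset.mem_univ _) h

end

theorem epsC7 : S_epsC := by
  intro S Q n k _ _ _ _ _ _ D hD m a a' u v huv _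
  have h1 : u.map D.c * v.map D.c = 1 := by
    rw [← Matrix.map_mul, huv, Matrix.map_one _ (map_zero D.c) (map_one D.c)]
  have h2 : D.Y m k * (v.map D.c * a' * u.map D.c) =
      (dgl m v).map D.c * (D.Y m n * a') * u.map D.c := by
    rw [← Matrix.mul_assoc, ← Matrix.mul_assoc, EpsC_Yv]
    simp only [Matrix.mul_assoc]
  unfold Lau.eps
  rw [h2, EpsC_tr, hD.tr_c]
  have h3 : (dgl m v).map D.c * (D.Y m n * a').map D.tr * u.map D.c *
      (v.map D.c * a * u.map D.c) =
      (dgl m v).map D.c * ((D.Y m n * a').map D.tr * a * u.map D.c) := by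
    calc (dgl m v).map D.c * (D.Y m n * a').map D.tr * u.map D.c * (v.map D.c * a * u.map D.c)
        = (dgl m v).map D.c * ((D.Y m n * a').map D.tr * (u.map D.c * v.map D.c) * a *
            u.map D.c) := by simp only [Matrix.mul_assoc]
      _ = _ := by rw [h1, Matrix.mul_one]
  rw [h3, hD.res_c, EpsC_res]
  simp only [Matrix.mul_assoc]

theorem epsB7 : S_epsB := by
  intro S Q n k _ _ _ _ _ _ D _ m a a' b b'
  apply Matrix.ext
  intro x z
  rw [EpsC_eps, Matrix.submatrix_apply, Fintype.sum_sum_type]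
  obtain ⟨r, i⟩ := x
  obtain ⟨s, j⟩ := z
  rcases i with i | i <;> rcases j with j | j
  · change _ = D.eps m a a' (r, i) (s, j)
    rw [EpsC_eps]
    simp
  · change _ = (0 : S)
    simp
  · change _ = (0 : S)
    simp
  · change _ = D.eps m b b' (r, i) (s, j)
    rw [EpsC_eps]
    simp

end Pool.Agent.FH
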