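import Pool.Agent.Lib.MP_8f66f0_al_FH.ISpec

/-! EpsD and EpsQ: the idempotents of the diagonal matrices of powers of `y` and of
`1 - q + y q`. -/

set_option autoImplicit false

namespace Pool.Agent.FH

section

variable {S Q n : Type} [Ring S] [Ring Q] (D : Lau S Q)

private theorem EpsD_cf_y (k l : ℤ) : D.cf k (D.y l) = if k = l then 1 else 0 := by
  rw [← mul_one (D.y l), D.cf_y_mul, D.cf_one]
  by_cases h : k = l
  · rw [if_pos h, if_pos (by omega)]
  · rw [if_neg h, if_neg (by omega)]

private theorem EpsD_cf_yc (k l : ℤ) (s : S) :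
    D.cf k (D.y l * D.c s) = if k = l then s else 0 := by
  rw [D.cf_mul_c, EpsD_cf_y]
  by_cases h : k = l
  · rw [if_pos h, if_pos h, one_mul]
  · rw [if_neg h, if_neg h, zero_mul]

private theorem EpsD_cf_my (k l : ℤ) (q : Q) : D.cf k (q * D.y l) = D.cf (k - l) q := by
  rw [← D.y_comm, D.cf_y_mul]

private theorem EpsD_mapL {k l p : Type} [Fintype l] (r : ℤ) (A : Matrix k l Q)
    (B : Matrix l p Q) : (A.map fun z => D.y r * z) * B = (A * B).map fun z => D.y r * z := by
  ext i j
  rw [Matrix.mul_apply, Matrix.map_apply, Matrix.mul_apply, Finset.mul_sum]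
  refine Finset.sum_congr rfl fun t _ => ?_
  rw [Matrix.map_apply, mul_assoc]

private theorem EpsD_mapR {k l p : Type} [Fintype l] (r : ℤ) (A : Matrix k l Q)
    (B : Matrix l p Q) : A * (B.map fun z => D.y r * z) = (A * B).map fun z => D.y r * z := by
  ext i j
  rw [Matrix.mul_apply, Matrix.map_apply, Matrix.mul_apply, Finset.mul_sum]
  refine Finset.sum_congr rfl fun t _ => ?_
  rw [Matrix.map_apply, ← mul_assoc, ← D.y_comm, mul_assoc]

private theorem EpsD_map0 {k l : Type} (A : Matrix k l Q) : (A.map fun z => D.y 0 * z) = A := by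
  ext i j
  rw [Matrix.map_apply, D.y_zero, one_mul]

private theorem EpsD_mapmap {k l : Type} (r s : ℤ) (A : Matrix k l Q) :
    ((A.map fun z => D.y r * z).map fun z => D.y s * z) = A.map fun z => D.y (s + r) * z := by
  ext i j
  rw [Matrix.map_apply, Matrix.map_apply, Matrix.map_apply, D.y_add, mul_assoc]

private theorem EpsD_mapz {k l : Type} (r : ℤ) :
    ((0 : Matrix k l Q).map fun z => D.y r * z) = 0 := by
  ext i j
  rw [Matrix.map_apply, Matrix.zero_apply, mul_zero]

private theorem EpsD_inv [Fintype n] [DecidableEq n] (P : Matrix n n Q) (hP : P * P = P)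
    (r : ℤ) : (1 - P + P.map fun z => D.y r * z) * (1 - P + P.map fun z => D.y (-r) * z) = 1 := by
  have h1 : (1 - P) * (1 - P) = 1 - P := by
    rw [sub_mul, one_mul, mul_sub, mul_one, hP, sub_self, sub_zero]
  have h2 : (1 - P) * P = 0 := by rw [sub_mul, one_mul, hP, sub_self]
  have h3 : P * (1 - P) = 0 := by rw [mul_sub, mul_one, hP, sub_self]
  rw [add_mul, mul_add, mul_add, h1, EpsD_mapR, h2, EpsD_mapL, h3, EpsD_mapL, EpsD_mapR, hP,
    EpsD_mapmap, add_neg_cancel, EpsD_map0, EpsD_mapz, EpsD_mapz, add_zero, zero_add,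
    sub_add_cancel]

private theorem EpsD_Y [Fintype n] [DecidableEq n] (m : ℕ) (Z : Matrix n n Q)
    (x : Fin (2 * m) × n) (j : n) :
    (D.Y m n * Z) x j = D.y ((x.1 : ℤ) - m) * Z x.2 j := by
  rw [Matrix.mul_apply, Finset.sum_eq_single x.2]
  · change (if x.2 = x.2 then _ else _) * _ = _
    rw [if_pos rfl]
  · intro b _ hb
    change (if x.2 = b then _ else _) * _ = _
    rw [if_neg (Ne.symm hb), zero_mul]
  · intro h
    exact absurd (Finset.mem_univ _) h

private theorem EpsD_entry [DecidableEq n] (q : Matrix n n S) (r : ℤ) (i j : n) :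
    (1 - q.map D.c + (q.map D.c).map fun z => D.y r * z) i j =
      D.c ((1 - q) i j) + D.y r * D.c (q i j) := by
  rw [Matrix.add_apply, Matrix.sub_apply, Matrix.map_apply, Matrix.map_apply, Matrix.sub_apply,
    map_sub, Matrix.map_apply]
  congr 2
  rw [Matrix.one_apply, Matrix.one_apply]
  split_ifs
  · rw [map_one]
  · rw [map_zero]

/-- The coefficients of the truncated rows. -/
private theorem EpsD_tr [Fintype n] [DecidableEq n] (m : ℕ) (q : Matrix n n S)
    (x : Fin (2 * m) × n) (j : n) (k : ℤ) :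
    D.cf k (D.tr ((D.Y m n * (1 - q.map D.c + (q.map D.c).map fun z => D.y (-1) * z) :
      Matrix (Fin (2 * m) × n) n Q) x j)) =
      if 0 ≤ k then (if k = (x.1 : ℤ) - m then (1 - q) x.2 j else 0) +
        (if k = (x.1 : ℤ) - m - 1 then q x.2 j else 0) else 0 := by
  rw [D.cf_tr, EpsD_Y, EpsD_entry, mul_add, map_add, EpsD_cf_yc, ← mul_assoc, ← D.y_add,
    EpsD_cf_yc]
  rfl

private theorem EpsD_lin [Fintype n] [DecidableEq n] (q : Matrix n n S) (T : n → Q) (z : n)
    (k : ℤ) :
    D.cf k (∑ j, T j * (1 - q.map D.c + (q.map D.c).map fun z => D.y 1 * z) j z) =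
      ∑ j, (D.cf k (T j) * (1 - q) j z + D.cf (k - 1) (T j) * q j z) := by
  rw [map_sum]
  refine Finset.sum_congr rfl fun j _ => ?_
  rw [EpsD_entry, mul_add, map_add, D.cf_mul_c, ← mul_assoc, D.cf_mul_c, EpsD_cf_my]

end

theorem epsD : S_epsD := by
  intro S Q n _ _ _ _ D _ m c
  ext x z
  change D.cf ((z.1 : ℤ) - m) ((((D.Y m n * Matrix.diagonal fun i => D.y (-c i)).map D.tr) *
    Matrix.diagonal fun i => D.y (c i)) x z.2) = _
  rw [Matrix.mul_diagonal, Matrix.map_apply, Matrix.mul_diagonal, EpsD_cf_my, D.cf_tr,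
    EpsD_cf_my]
  change (if 0 ≤ (z.1 : ℤ) - m - c z.2 then
    D.cf ((z.1 : ℤ) - m - c z.2 - (-c z.2)) (if x.2 = z.2 then D.y ((x.1 : ℤ) - m) else 0)
      else 0) = _
  by_cases h : x = z
  · subst h
    have h0 : (x.1 : ℤ) - m - c x.2 - (-c x.2) = (x.1 : ℤ) - m := by ring
    rw [h0, Matrix.diagonal_apply_eq, if_pos (rfl : x.2 = x.2), EpsD_cf_y,
      if_pos (rfl : (x.1 : ℤ) - m = (x.1 : ℤ) - m)]
    by_cases h : c x.2 ≤ (x.1 : ℤ) - m
    · rw [if_pos h, if_pos (by omega)]
    · rw [if_neg h, if_neg (by omega)]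
  · rw [Matrix.diagonal_apply_ne _ h]
    by_cases h2 : x.2 = z.2
    · have h3 : ¬ (z.1 : ℤ) - m - c z.2 - (-c z.2) = (x.1 : ℤ) - m := by
        intro h3
        apply h
        refine Prod.ext (Fin.ext ?_) h2
        omega
      rw [if_pos h2, EpsD_cf_y, if_neg h3, ite_self]
    · rw [if_neg h2, map_zero, ite_self]

theorem epsQ : S_epsQ := by
  intro S Q n _ _ _ _ D _ m q hq
  have hP : q.map D.c * q.map D.c = q.map D.c := by
    rw [← Matrix.map_mul, hq]
  have h1 : (1 - q) * (1 - q) = 1 - q := by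
    rw [sub_mul, one_mul, mul_sub, mul_one, hq, sub_self, sub_zero]
  have h2 : (1 - q) * q = 0 := by rw [sub_mul, one_mul, hq, sub_self]
  have h3 : q * (1 - q) = 0 := by rw [mul_sub, mul_one, hq, sub_self]
  refine ⟨EpsD_inv D _ hP 1, ?_, ?_⟩
  · have h4 := EpsD_inv D _ hP (-1)
    rw [neg_neg] at h4
    exact h4
  · ext x z
    change D.cf ((z.1 : ℤ) - m)
      ((((D.Y m n * (1 - q.map D.c + (q.map D.c).map fun z => D.y (-1) * z)).map D.tr) *
        (1 - q.map D.c + (q.map D.c).map fun z => D.y 1 * z) :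
        Matrix (Fin (2 * m) × n) n Q) x z.2) = _
    rw [Matrix.mul_apply]
    have h5 := EpsD_lin D q (fun j => ((D.Y m n * (1 - q.map D.c +
      (q.map D.c).map fun z => D.y (-1) * z)).map D.tr) x j) z.2 ((z.1 : ℤ) - m)
    refine h5.trans ?_
    have h6 : ∀ k : ℤ, ∀ j : n, D.cf k (((D.Y m n * (1 - q.map D.c +
        (q.map D.c).map fun z => D.y (-1) * z)).map D.tr) x j) =
        if 0 ≤ k then (if k = (x.1 : ℤ) - m then (1 - q) x.2 j else 0) +
        (if k = (x.1 : ℤ) - m - 1 then q x.2 j else 0) else 0 :=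
      fun k j => EpsD_tr D m q x j k
    simp only [h6]
    rw [Finset.sum_add_distrib]
    have e1 : ∀ i j : n, ∑ t, (1 - q) i t * (1 - q) t j = (1 - q) i j := by
      intro i j
      rw [← Matrix.mul_apply, h1]
    have e2 : ∀ i j : n, ∑ t, (1 - q) i t * q t j = 0 := by
      intro i j
      rw [← Matrix.mul_apply, h2, Matrix.zero_apply]
    have e3 : ∀ i j : n, ∑ t, q i t * (1 - q) t j = 0 := by
      intro i j
      rw [← Matrix.mul_apply, h3, Matrix.zero_apply]
    have e4 : ∀ i j : n, ∑ t, q i t * q t j = q i j := by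
      intro i j
      rw [← Matrix.mul_apply, hq]
    have s1 : ∀ k : ℤ, ∀ i j : n, ∑ t, (if 0 ≤ k then (if k = (x.1 : ℤ) - m then (1 - q) i t
        else 0) + (if k = (x.1 : ℤ) - m - 1 then q i t else 0) else 0) * (1 - q) t j =
        if 0 ≤ k then (if k = (x.1 : ℤ) - m then (1 - q) i j else 0) else 0 := by
      intro k i j
      by_cases a1 : 0 ≤ k
      · simp only [if_pos a1, add_mul, Finset.sum_add_distrib]
        by_cases a2 : k = (x.1 : ℤ) - m
        · have a3 : ¬ k = (x.1 : ℤ) - m - 1 := by omega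
          simp only [if_pos a2, if_neg a3, zero_mul, Finset.sum_const_zero, add_zero]
          exact e1 i j
        · simp only [if_neg a2, zero_mul, Finset.sum_const_zero, zero_add]
          by_cases a3 : k = (x.1 : ℤ) - m - 1
          · simp only [if_pos a3]
            exact e3 i j
          · simp only [if_neg a3, zero_mul, Finset.sum_const_zero]
      · simp only [if_neg a1, zero_mul, Finset.sum_const_zero]
    have s2 : ∀ k : ℤ, ∀ i j : n, ∑ t, (if 0 ≤ k then (if k = (x.1 : ℤ) - m then (1 - q) i t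
        else 0) + (if k = (x.1 : ℤ) - m - 1 then q i t else 0) else 0) * q t j =
        if 0 ≤ k then (if k = (x.1 : ℤ) - m - 1 then q i j else 0) else 0 := by
      intro k i j
      by_cases a1 : 0 ≤ k
      · simp only [if_pos a1, add_mul, Finset.sum_add_distrib]
        by_cases a2 : k = (x.1 : ℤ) - m
        · have a3 : ¬ k = (x.1 : ℤ) - m - 1 := by omega
          simp only [if_pos a2, if_neg a3, zero_mul, Finset.sum_const_zero, add_zero]
          exact e2 i j
        · simp only [if_neg a2, zero_mul, Finset.sum_const_zero, zero_add]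
          by_cases a3 : k = (x.1 : ℤ) - m - 1
          · simp only [if_pos a3]
            exact e4 i j
          · simp only [if_neg a3, zero_mul, Finset.sum_const_zero]
      · simp only [if_neg a1, zero_mul, Finset.sum_const_zero]
    refine (congrArg₂ (· + ·) (s1 _ _ _) (s2 _ _ _)).trans ?_
    by_cases b1 : x.1 = z.1
    · rw [if_pos b1, ← b1]
      have b4 : (x.1 : ℤ) - m - 1 = (x.1 : ℤ) - m - 1 := rfl
      rw [if_pos rfl, if_pos rfl]
      by_cases b2 : (x.1 : ℕ) = m
      · rw [if_pos b2, if_pos (by omega), if_neg (by omega), add_zero]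
      · rw [if_neg b2]
        by_cases b3 : m < (x.1 : ℕ)
        · rw [if_pos b3, if_pos (by omega), if_pos (by omega), Matrix.sub_apply, sub_add_cancel]
        · rw [if_neg b3, if_neg (by omega), if_neg (by omega), add_zero]
    · rw [if_neg b1]
      have b2 : (x.1 : ℕ) ≠ (z.1 : ℕ) := fun h => b1 (Fin.ext h)
      have b3 : ¬ (z.1 : ℤ) - m = (x.1 : ℤ) - m := by omega
      have b4 : ¬ (z.1 : ℤ) - m - 1 = (x.1 : ℤ) - m - 1 := by omega
      rw [if_neg b3, if_neg b4, ite_self, ite_self, add_zero]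

end Pool.Agent.FH
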