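import Pool.Agent.Lib.MP_8f66f0_al_FH.ISpec

/-! The matrix `eps` is an idempotent. -/

set_option autoImplicit false

namespace Pool.Agent.FH

open Pool.Agent.Wald Pool.Agent.WaldL Pool.Agent.Ind

theorem epsI : S_epsI := by
  intro S Q n _ _ _ _ D hB m a a' haa' ha'a ha ha'
  set T : Matrix (Fin (2 * m) × n) n Q := (D.Y m n * a').map D.tr with hT
  set E : Matrix (Fin (2 * m) × n) (Fin (2 * m) × n) S := D.res m (T * a) with hE
  have hE' : D.eps m a a' = E := rfl
  rw [hE']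
  have hT0 : D.In 0 T := hB.in_tr _ _ _
  have hTa : D.In (-(m : ℤ)) (T * a) := by
    have h := hB.mul _ _ _ 0 (-(m : ℤ)) T a hT0 ha
    rwa [zero_add] at h
  set R : Matrix (Fin (2 * m) × n) n Q := T * a - E.map D.c * D.Y m n with hR
  have hRin : D.In m R := hB.win _ _ m (T * a) hTa
  have h1 : E.map D.c * D.Y m n = T * a - R := by
    rw [hR]
    abel
  have h2 : E.map D.c * (D.Y m n * a') = T - R * a' := by
    rw [← Matrix.mul_assoc, h1, Matrix.sub_mul, Matrix.mul_assoc, haa', Matrix.mul_one]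
  have h3 : D.In 0 (T - R * a') := by
    refine hB.in_sub _ _ 0 _ _ hT0 ?_
    have h := hB.mul _ _ _ (m : ℤ) (-(m : ℤ)) R a' hRin ha'
    rwa [add_neg_cancel] at h
  have h4 : E.map D.c * T = T - R * a' := by
    rw [hT, ← hB.tr_c, ← hT, h2]
    exact hB.tr_in _ _ _ h3
  have h5 : E * E = D.res m (E.map D.c * (T * a)) := (hB.res_c _ _ _ m E (T * a)).symm
  rw [h5, ← Matrix.mul_assoc, h4, Matrix.sub_mul, Matrix.mul_assoc, ha'a, Matrix.mul_one, ← h1]
  exact hB.res_inj _ _ m E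

end Pool.Agent.FH
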