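import Pool.Agent.Lib.MP_8f66f0_al_FH.ISpec

/-! The index is additive. -/

set_option autoImplicit false

namespace Pool.Agent.FH

open Pool.Agent.Wald Pool.Agent.WaldL Pool.Agent.Ind

section

variable {S Q : Type} [Ring S] [Ring Q] {D : Lau S Q}

private theorem EpsM_sh_mul {k n j : Type} [Fintype n] (l : ℤ) (Z : Matrix k n Q)
    (W : Matrix n j Q) :
    (Z.map fun q => D.y l * q) * W = (Z * W).map fun q => D.y l * q := by
  ext x z
  rw [Matrix.mul_apply, Matrix.map_apply, Matrix.mul_apply, Finset.mul_sum]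
  refine Finset.sum_congr rfl fun t _ => ?_
  rw [Matrix.map_apply, mul_assoc]

private theorem EpsM_mul_sh {k n j : Type} [Fintype n] (l : ℤ) (Z : Matrix k n Q)
    (W : Matrix n j Q) :
    Z * (W.map fun q => D.y l * q) = (Z * W).map fun q => D.y l * q := by
  ext x z
  rw [Matrix.mul_apply, Matrix.map_apply, Matrix.mul_apply, Finset.mul_sum]
  refine Finset.sum_congr rfl fun t _ => ?_
  rw [Matrix.map_apply, ← mul_assoc, ← mul_assoc, D.y_comm]

private theorem EpsM_sh_sub {k n : Type} (l : ℤ) (Z W : Matrix k n Q) :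
    ((Z - W).map fun q => D.y l * q) =
      (Z.map fun q => D.y l * q) - (W.map fun q => D.y l * q) := by
  ext x z
  simp only [Matrix.map_apply, Matrix.sub_apply, mul_sub]

private theorem EpsM_sh_sh {k n : Type} (l l' : ℤ) (h : l + l' = 0) (Z : Matrix k n Q) :
    ((Z.map fun q => D.y l' * q).map fun q => D.y l * q) = Z := by
  ext x z
  simp only [Matrix.map_apply]
  rw [← mul_assoc, ← D.y_add, h, D.y_zero, one_mul]

private theorem EpsM_res_sub {k n : Type} (m : ℕ) (Z W : Matrix k n Q) :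
    D.res m (Z - W) = D.res m Z - D.res m W := by
  ext x z
  simp only [Lau.res, Matrix.sub_apply, map_sub]

private theorem EpsM_res_add {k n : Type} (m : ℕ) (Z W : Matrix k n Q) :
    D.res m (Z + W) = D.res m Z + D.res m W := by
  ext x z
  simp only [Lau.res, Matrix.add_apply, map_add]

private theorem EpsM_A (hD : IB D) {k n : Type} [Fintype n] [DecidableEq n] (m : ℕ)
    (a a' : Matrix n n Q) (x : Matrix k (Fin (2 * m) × n) S) :
    x * D.eps m a a' = D.res m ((x.map D.c * D.Y m n * a').map D.tr * a) := by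
  unfold Lau.eps
  rw [← hD.res_c, ← Matrix.mul_assoc, ← hD.tr_c, ← Matrix.mul_assoc]

/-- The image of `eps`. -/
private theorem EpsM_B (hD : IB D) {k n : Type} [Fintype n] [DecidableEq n] (m : ℕ)
    (a a' : Matrix n n Q) (h1 : a * a' = 1) (hp : D.Pole m a) (hp' : D.Pole m a')
    (x : Matrix k (Fin (2 * m) × n) S) (hx : x * D.eps m a a' = x) :
    D.In 0 (x.map D.c * D.Y m n * a') := by
  have hA := EpsM_A hD m a a' x
  set T := (x.map D.c * D.Y m n * a').map D.tr with hT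
  have hT0 : D.In 0 T := hD.in_tr _ _ _
  have hTa : D.In (-(m : ℤ)) (T * a) := by
    have := hD.mul k n n 0 (-(m : ℤ)) T a hT0 hp
    rwa [zero_add] at this
  have hw := hD.win k n m (T * a) hTa
  rw [← hA, hx] at hw
  have h2 := hD.mul k n n m (-(m : ℤ)) _ a' hw hp'
  rw [add_neg_cancel, Matrix.sub_mul, Matrix.mul_assoc T, h1, Matrix.mul_one] at h2
  have h3 := hD.in_sub k n 0 _ _ hT0 h2
  rwa [sub_sub_cancel] at h3

private theorem EpsM_B' (hD : IB D) {k n : Type} [Fintype n] [DecidableEq n] (m : ℕ)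
    (a a' : Matrix n n Q) (h2 : a' * a = 1) (hp : D.Pole m a) (hp' : D.Pole m a')
    (Z : Matrix k n Q) (hZ : D.In 0 (Z * a')) :
    D.res m Z * D.eps m a a' = D.res m Z ∧ D.In m (Z - (D.res m Z).map D.c * D.Y m n) := by
  have hZm : D.In (-(m : ℤ)) Z := by
    have := hD.mul k n n 0 (-(m : ℤ)) _ a hZ hp
    rwa [zero_add, Matrix.mul_assoc, h2, Matrix.mul_one] at this
  have hw := hD.win k n m Z hZm
  refine ⟨?_, hw⟩
  have h3 := hD.mul k n n m (-(m : ℤ)) _ a' hw hp'
  rw [add_neg_cancel, Matrix.sub_mul] at h3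
  have h4 := hD.in_sub k n 0 _ _ hZ h3
  rw [sub_sub_cancel] at h4
  rw [EpsM_A hD, hD.tr_in _ _ _ h4, Matrix.mul_assoc _ a', h2, Matrix.mul_one, hD.res_inj]

private theorem EpsM_idem (hD : IB D) {n : Type} [Fintype n] [DecidableEq n] (m : ℕ)
    (a a' : Matrix n n Q) (h1 : a * a' = 1) (h2 : a' * a = 1) (hp : D.Pole m a)
    (hp' : D.Pole m a') : D.eps m a a' * D.eps m a a' = D.eps m a a' := by
  refine (EpsM_B' hD m a a' h2 hp hp' ((D.Y m n * a').map D.tr * a) ?_).1
  rw [Matrix.mul_assoc, h1, Matrix.mul_one]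
  exact hD.in_tr _ _ _

end

theorem epsM : S_epsM := by
  intro S Q n _ _ _ _ D hD ma mb a a' b b' ha ha' hb hb' pa pa' pb pb' E Ea Eb V₁ W₁ V₂ W₂
    hE hEa hEb hV₁ hW₁ hV₂ hW₂
  have hc : ((ma + mb : ℕ) : ℤ) = (ma : ℤ) + mb := Nat.cast_add ma mb
  have hab : a * b * (b' * a') = 1 := by
    rw [Matrix.mul_assoc, ← Matrix.mul_assoc b, hb, Matrix.one_mul, ha]
  have hab' : b' * a' * (a * b) = 1 := by
    rw [Matrix.mul_assoc, ← Matrix.mul_assoc a', ha', Matrix.one_mul, hb']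
  have pab : D.Pole (ma + mb) (a * b) := by
    have := hD.mul n n n (-(ma : ℤ)) (-(mb : ℤ)) a b pa pb
    rw [← neg_add, ← hc] at this
    exact this
  have pab' : D.Pole (ma + mb) (b' * a') := by
    have := hD.mul n n n (-(mb : ℤ)) (-(ma : ℤ)) b' a' pb' pa'
    rw [← neg_add, add_comm, ← hc] at this
    exact this
  -- the four maps on rows
  have xV₁ : ∀ {k : Type} (x : Matrix k (Fin (2 * (ma + mb)) × n) S),
      x * V₁ = D.res ma (x.map D.c * D.Y (ma + mb) n * b') := by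
    intro k x
    rw [hV₁, ← hD.res_c, Matrix.mul_assoc]
  have xW₁ : ∀ {k : Type} (x : Matrix k (Fin (2 * (ma + mb)) × n) S),
      x * W₁ = D.res mb ((x.map D.c * D.Y (ma + mb) n -
        (x * V₁).map D.c * D.Y ma n * b).map fun q => D.y (-(ma : ℤ)) * q) := by
    intro k x
    rw [hW₁, ← hD.res_c, EpsM_mul_sh, Matrix.mul_sub, Matrix.map_mul, Matrix.mul_assoc,
      Matrix.mul_assoc, Matrix.mul_assoc]
  have vV₂ : ∀ {k : Type} (v : Matrix k (Fin (2 * ma) × n) S),
      v * V₂ = D.res (ma + mb) (v.map D.c * D.Y ma n * b) := by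
    intro k v
    rw [hV₂, ← hD.res_c, Matrix.mul_assoc]
  have wW₂ : ∀ {k : Type} (w : Matrix k (Fin (2 * mb) × n) S),
      w * W₂ = D.res (ma + mb) ((w.map D.c * D.Y mb n).map fun q => D.y (ma : ℤ) * q) := by
    intro k w
    rw [hW₂, ← hD.res_c, EpsM_mul_sh]
  -- rows in the image of `E`
  have key1 : ∀ {k : Type} (x : Matrix k (Fin (2 * (ma + mb)) × n) S), x * E = x →
      x * V₁ * Ea = x * V₁ ∧ x * W₁ * Eb = x * W₁ ∧ x * V₁ * V₂ + x * W₁ * W₂ = x := by
    intro k x hx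
    rw [hE] at hx
    have h0 := EpsM_B hD (ma + mb) (a * b) (b' * a') hab pab pab' x hx
    set X := x.map D.c * D.Y (ma + mb) n with hX
    have h1 := EpsM_B' hD ma a a' ha' pa pa' (X * b') (by rwa [Matrix.mul_assoc])
    rw [← xV₁ x, ← hEa] at h1
    set V := x * V₁ with hV
    have h2 : D.In 0 (((X - V.map D.c * D.Y ma n * b).map fun q => D.y (-(ma : ℤ)) * q) * b') := by
      rw [EpsM_sh_mul, Matrix.sub_mul, Matrix.mul_assoc _ b, hb, Matrix.mul_one]
      have := hD.shift k n ma (-(ma : ℤ)) _ h1.2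
      rwa [add_neg_cancel] at this
    have h3 := EpsM_B' hD mb b b' hb' pb pb' _ h2
    rw [← xW₁ x, ← hEb] at h3
    refine ⟨h1.1, h3.1, ?_⟩
    set W := x * W₁ with hW
    rw [vV₂, wW₂, ← EpsM_res_add]
    have h4 := hD.shift k n mb ma _ h3.2
    rw [EpsM_sh_sub, EpsM_sh_sh _ _ (add_neg_cancel (ma : ℤ)), add_comm, ← hc] at h4
    have h5 := hD.res_zero k n (ma + mb) _ h4
    have h6 : V.map D.c * D.Y ma n * b + ((W.map D.c * D.Y mb n).map fun q => D.y (ma : ℤ) * q) =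
        X - (X - V.map D.c * D.Y ma n * b -
          ((W.map D.c * D.Y mb n).map fun q => D.y (ma : ℤ) * q)) := by abel
    rw [h6, EpsM_res_sub, h5, sub_zero, hX, hD.res_inj]
  -- rows in the image of `Ea`
  have key2 : ∀ {k : Type} (v : Matrix k (Fin (2 * ma) × n) S), v * Ea = v →
      v * V₂ * E = v * V₂ ∧ v * V₂ * V₁ = v ∧ v * V₂ * W₁ = 0 := by
    intro k v hv
    rw [hEa] at hv
    have h0 := EpsM_B hD ma a a' ha pa pa' v hv
    set X := v.map D.c * D.Y ma n with hX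
    have h1 := EpsM_B' hD (ma + mb) (a * b) (b' * a') hab' pab pab' (X * b) (by
      rwa [Matrix.mul_assoc, ← Matrix.mul_assoc b, hb, Matrix.one_mul])
    rw [← vV₂ v, ← hE] at h1
    set x := v * V₂ with hx
    have h2 : x * V₁ = v := by
      rw [xV₁]
      have h3 := hD.mul k n n _ (-(mb : ℤ)) _ b' h1.2 pb'
      rw [hc, add_neg_cancel_right, Matrix.sub_mul, Matrix.mul_assoc X, hb, Matrix.mul_one] at h3
      have h4 := hD.res_zero k n ma _ h3
      rw [EpsM_res_sub, hX, hD.res_inj, sub_eq_zero] at h4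
      exact h4.symm
    refine ⟨h1.1, h2, ?_⟩
    rw [xW₁, h2, ← hX]
    have h3 := hD.shift k n _ (-(ma : ℤ)) _ h1.2
    rw [hc, add_comm (ma : ℤ), add_neg_cancel_right] at h3
    have h4 := hD.res_zero k n mb _ h3
    have h5 : x.map D.c * D.Y (ma + mb) n - X * b =
        0 - (X * b - x.map D.c * D.Y (ma + mb) n) := by abel
    rw [h5, EpsM_sh_sub, EpsM_res_sub, h4, sub_zero]
    ext i j
    simp [Lau.res]
  -- rows in the image of `Eb`
  have key3 : ∀ {k : Type} (w : Matrix k (Fin (2 * mb) × n) S), w * Eb = w →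
      w * W₂ * E = w * W₂ ∧ w * W₂ * V₁ = 0 ∧ w * W₂ * W₁ = w := by
    intro k w hw
    rw [hEb] at hw
    have h0 := EpsM_B hD mb b b' hb pb pb' w hw
    set X := w.map D.c * D.Y mb n with hX
    have hs := hD.shift k n 0 ma _ h0
    rw [zero_add] at hs
    have h1 := EpsM_B' hD (ma + mb) (a * b) (b' * a') hab' pab pab'
      (X.map fun q => D.y (ma : ℤ) * q) (by
        rw [← Matrix.mul_assoc, EpsM_sh_mul]
        have := hD.mul k n n _ (-(ma : ℤ)) _ a' hs pa'
        rwa [add_neg_cancel] at this)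
    rw [← wW₂ w, ← hE] at h1
    set x := w * W₂ with hx
    have h2 : x * V₁ = 0 := by
      rw [xV₁]
      have h3 := hD.mul k n n _ (-(mb : ℤ)) _ b' h1.2 pb'
      rw [hc, add_neg_cancel_right, Matrix.sub_mul, EpsM_sh_mul] at h3
      have h4 := hD.in_sub k n _ _ _ hs h3
      rw [sub_sub_cancel] at h4
      exact hD.res_zero k n ma _ h4
    refine ⟨h1.1, h2, ?_⟩
    rw [xW₁, h2]
    have h3 := hD.shift k n _ (-(ma : ℤ)) _ h1.2
    rw [hc, add_comm (ma : ℤ), add_neg_cancel_right, EpsM_sh_sub,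
      EpsM_sh_sh _ _ (neg_add_cancel (ma : ℤ))] at h3
    have h4 := hD.res_zero k n mb _ h3
    rw [EpsM_res_sub, hX, hD.res_inj, sub_eq_zero] at h4
    have h5 : (0 : Matrix k (Fin (2 * ma) × n) S).map D.c * D.Y ma n * b = 0 := by
      rw [Matrix.map_zero _ (map_zero D.c), Matrix.zero_mul, Matrix.zero_mul]
    rw [h5, sub_zero]
    exact h4.symm
  have iE : E * E = E := by
    rw [hE]
    exact EpsM_idem hD _ _ _ hab hab' pab pab'
  have iEa : Ea * Ea = Ea := by
    rw [hEa]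
    exact EpsM_idem hD _ _ _ ha ha' pa pa'
  have iEb : Eb * Eb = Eb := by
    rw [hEb]
    exact EpsM_idem hD _ _ _ hb hb' pb pb'
  obtain ⟨k1, k2, k3⟩ := key1 E iE
  obtain ⟨l1, l2, l3⟩ := key2 Ea iEa
  obtain ⟨m1, m2, m3⟩ := key3 Eb iEb
  refine ⟨?_, ?_, ?_, ?_, ?_⟩
  · rw [← Matrix.mul_assoc, k1, ← Matrix.mul_assoc (E * W₁), k2, k3]
  · rw [← Matrix.mul_assoc, l1, l2]
  · rw [← Matrix.mul_assoc, l1, l3]
  · rw [← Matrix.mul_assoc, m1, m2]
  · rw [← Matrix.mul_assoc, m1, m3]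

end Pool.Agent.FH
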