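import Pool.Agent.Lib.MP_8f66f0_al_FH.FinalE
import Pool.Agent.Lib.MP_8f66f0_al_FH.VN
import Pool.Agent.Lib.MP_8f66f0_al_HierZ.FinalS

/-! The proof of the final theorem from the theorem on affine actions. -/

set_option autoImplicit false

namespace Pool.Agent.WhVan

open Pool.Agent Pool.Agent.WaldL Pool.Agent.WaldP Pool.Agent.TreeC

theorem eam_of_EA {G : Type} [Group G] (h : EA G) : FH.EAm G := by
  induction h with
  | fin h => exact FH.EAm.fin h
  | ab h => exact FH.EAm.ab h
  | sub f hf _ ih => exact FH.EAm.sub f hf ih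
  | quot f hf _ ih => exact FH.EAm.quot f hf ih
  | ext N _ _ ih ih' => exact FH.EAm.ext N ih ih'
  | directed S hne hd hS _ ih => exact FH.EAm.directed S hne hd hS ih

theorem kk_of_CE (hA : FH.KSAff) {Γ : Type} [Group Γ] (h : CE Γ) : KK Γ := by
  induction h with
  | base h => exact Hier.kk_of_kc (Hier.KC.base h)
  | colim H t f hf htt hs hker _ ih =>
    exact Hier.kk_of_kc (Hier.KC.colim H t f hf htt hs hker fun i =>
      Hier.KC.base fun L _ _ hL => (k1Units_iff L _).2 (ih i L hL))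
  | amalgam G E φ k hφ _ _ hE ih ihE =>
    exact Hier.kk_of_kc (Hier.KC.amalgam G E φ k hφ
      (fun i => Hier.KC.base fun L _ _ hL => (k1Units_iff L _).2 (ih i L hL))
      (Hier.KC.base fun L _ _ hL => (k1Units_iff L _).2 (ihE L hL))
      fun i w hw => small_of (hE i w (red_of_alt φ k i w hw)))
  | hnn G A B φ k _ _ hA' ih ihA =>
    exact Hier.kk_of_kc (Hier.KC.hnn G A B φ k
      (Hier.KC.base fun L _ _ hL => (k1Units_iff L _).2 (ih L hL))
      (Hier.KC.base fun L _ _ hL => (k1Units_iff L _).2 (ihA L hL))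
      fun i w hw => small_of (hA' i w (redH_of_altH φ k i w hw)))
  | amen θ hQ _ hN ih =>
    exact (FH.ks_rel hA (eam_of_EA hQ) θ fun U hU =>
      ⟨ih U hU, Hier.ss_of_nn (nn_of_NN (hN U hU))⟩).1

/-- The main theorem. -/
theorem ce_main (hA : FH.KSAff) {Γ : Type} [Group Γ] (h : CE Γ) (L : Type) [CommRing L]
    [IsDomain L] (hL : IsEuc L) : K1Units L Γ :=
  Hier.kc_main (Hier.KC.base fun L _ _ hL => (k1Units_iff L _).2 (kk_of_CE hA h L hL)) L hL

theorem ce_of_CC {Γ : Type} [Group Γ] (h : CC Γ) : CE Γ := CE.base fun L _ _ hL => cc_main h L hL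

theorem ce_triv (Γ : Type) [Group Γ] [Subsingleton Γ] : CE Γ := ce_of_CC (cc_triv Γ)

/-- All torsion-free elementary amenable groups are in the class. -/
theorem ce_ea {Γ : Type} [Group Γ] (h : EA Γ) (ht : ∀ g : Γ, ∀ n : ℕ, 0 < n → g ^ n = 1 → g = 1) :
    CE Γ := by
  have h1 : ∀ U : Subgroup Γ, Finite (U.map (MonoidHom.id Γ)) → Subsingleton U := by
    intro U hU
    rw [Subgroup.map_id] at hU
    refine ⟨fun a b => ?_⟩
    have h2 : ∀ a : U, a = 1 := by
      intro a
      obtain ⟨n, hn, h3⟩ := (isOfFinOrder_of_finite a).exists_pow_eq_one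
      exact Subtype.ext (ht a n hn (by simpa using congrArg Subtype.val h3))
    rw [h2 a, h2 b]
  refine CE.amen (MonoidHom.id Γ) h (fun U hU => ?_) fun U hU => ?_
  · have := h1 U hU
    exact ce_triv U
  · have := h1 U hU
    exact NN.cd 0 WaldL.cdLE_trivial

end Pool.Agent.WhVan
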