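import Pool.Agent.Lib.MP_8f66f0_al_FH.FinalE

/-! The class of groups which is used in the final theorem. (The definition of elementary amenable
groups, `EA`, is in `FinalE`; those of `IsEuc`, `K1Units`, `NN`, `Red`, `RedH`, `SmallStab` are in
`HierZ/FinalD`.) -/

set_option autoImplicit false

namespace Pool.Agent.WhVan

/-- The least class of groups which contains all torsion-free elementary amenable groups and all
groups `Γ` such that `K_1(LΓ)` is generated by the units of `L` and the elements of `Γ` for all
Euclidean domains `L`, and is closed under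

* directed colimits with arbitrary structure maps;
* those amalgams `G₀ *_E G₁` and HNN extensions `G *_A` of groups of the class for which the edge
  group `E` (or `A`) is in the class and, for some `k`, the stabilizers of all reduced paths with
  `k + 1` edges in the Bass-Serre tree are contained in subgroups which belong to `NN`;
* elementary amenable quotients: if `θ` is a homomorphism from `Γ` to an elementary amenable group,
  and all subgroups `U` of `Γ` with finite image `θ(U)` are in the class and in `NN`, then `Γ` is
  in the class. -/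
inductive CG : (Γ : Type) → [Group Γ] → Prop
  | ea {Γ : Type} [Group Γ] : EA Γ → (∀ g : Γ, ∀ n : ℕ, 0 < n → g ^ n = 1 → g = 1) → CG Γ
  | base {Γ : Type} [Group Γ] : (∀ (L : Type) [CommRing L] [IsDomain L], IsEuc L →
      K1Units L Γ) → CG Γ
  | colim {Γ : Type} [Group Γ] {ι : Type} [Preorder ι] [IsDirectedOrder ι] [Nonempty ι]
      (H : ι → Type) [∀ i, Group (H i)] (t : ∀ i j, i ≤ j → H i →* H j) (f : ∀ i, H i →* Γ) :
      (∀ i j (h : i ≤ j) x, f j (t i j h x) = f i x) →
      (∀ i j k (h : i ≤ j) (h' : j ≤ k) x, t j k h' (t i j h x) = t i k (h.trans h') x) →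
      (∀ g : Γ, ∃ i, ∃ x, f i x = g) → (∀ i x, f i x = 1 → ∃ j, ∃ h : i ≤ j, t i j h x = 1) →
      (∀ i, CG (H i)) → CG Γ
  | amalgam (G : Bool → Type) [∀ i, Group (G i)] (E : Type) [Group E] (φ : ∀ i, E →* G i)
      (k : ℕ) : (∀ i, Function.Injective (φ i)) → (∀ i, CG (G i)) → CG E →
      (∀ i w, Red φ k i w → SmallStab (Monoid.PushoutI.base φ).range w) → CG (Monoid.PushoutI φ)
  | hnn (G : Type) [Group G] (A B : Subgroup G) (φ : A ≃* B) (k : ℕ) : CG G → CG A →
      (∀ i w, RedH φ k i w → SmallStab ((HNNExtension.of (φ := φ)).comp B.subtype).range w) →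
      CG (HNNExtension G A B φ)
  | amen {Γ Q : Type} [Group Γ] [Group Q] (θ : Γ →* Q) : EA Q →
      (∀ U : Subgroup Γ, Finite (U.map θ) → CG U) →
      (∀ U : Subgroup Γ, Finite (U.map θ) → NN U) → CG Γ

end Pool.Agent.WhVan
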