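import Pool.Agent.Lib.MP_8f66f0_al_FH.ISpec

/-! Part 2 of Theorem FH: supports. -/

set_option autoImplicit false

namespace Pool.Agent.FH

open Pool.Agent.Wald Pool.Agent.WaldL Pool.Agent.Ind

private theorem ISup_y (L G : Type) [CommRing L] [Group G] (l : ℤ)
    (x : MonoidAlgebra (LaurentSeries L) G) (γ : G) (h : ((lauG L G).y l * x).coeff γ ≠ 0) :
    x.coeff γ ≠ 0 := by
  classical
  intro h0
  apply h
  obtain ⟨γ₁, γ₂, h1, h2, h3⟩ := mul_coeff_ne h
  exfalso
  rw [lauG_y, MonoidAlgebra.coeff_single, Finsupp.single_apply] at h2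
  by_cases h4 : (1 : G) = γ₁
  · rw [← h4, one_mul] at h1
    rw [h1] at h3
    exact h3 h0
  · rw [if_neg h4] at h2
    exact h2 rfl

theorem isup : S_isup := by
  classical
  intro L G X _ _ _ R k n p q
  refine ⟨?_, ?_, ?_, ?_, ?_⟩
  · intro m Z hZ i z γ h
    apply hZ i z.2 γ
    intro h0
    apply h
    change ((lauG L G).cf ((z.1 : ℤ) - m) (Z i z.2)).coeff γ = 0
    rw [lauG_cf, h0, HahnSeries.coeff_zero]
  · intro m _ hR x l γ h
    unfold Lau.Y at h
    by_cases h1 : x.2 = l
    · rw [if_pos h1, lauG_y, MonoidAlgebra.coeff_single, Finsupp.single_apply] at h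
      by_cases h2 : (1 : G) = γ
      · rw [← h2, one_smul]
        change R (q x.2) (q l)
        rw [h1]
        exact hR _
      · rw [if_neg h2] at h
        exact absurd rfl h
    · rw [if_neg h1] at h
      exact absurd rfl h
  · intro Z hZ i j γ h
    apply hZ i j γ
    intro h0
    apply h
    change ((lauG L G).tr (Z i j)).coeff γ = 0
    rw [lauG_tr, h0, map_zero]
  · intro Z hZ i j γ h
    apply hZ i j γ
    intro h0
    apply h
    change ((lauG L G).c (Z i j)).coeff γ = 0
    rw [lauG_c, h0, map_zero]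
  · intro l Z hZ i j γ h
    exact hZ i j γ (ISup_y L G l (Z i j) γ h)

end Pool.Agent.FH
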