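import Pool.Agent.Lib.MP_8f66f0_al_FH.ISpec

/-! Basic facts on windows. -/

set_option autoImplicit false

namespace Pool.Agent.FH

open Pool.Agent.Wald Pool.Agent.WaldL Pool.Agent.Ind

section

variable {S Q : Type} [Ring S] [Ring Q] (D : Lau S Q)

private theorem Ib_ext {q q' : Q} (h : ∀ k : ℤ, D.cf k q = D.cf k q') : q = q' := by
  rw [← sub_eq_zero]
  exact D.ext _ fun k => by rw [map_sub, h k, sub_self]

private theorem Ib_cf_y (s l : ℤ) : D.cf s (D.y l) = if s = l then 1 else 0 := by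
  have h := D.cf_y_mul s l 1
  rw [mul_one, D.cf_one] at h
  rw [h]
  by_cases hs : s = l
  · rw [if_pos hs, if_pos (by omega)]
  · rw [if_neg hs, if_neg (by omega)]

private theorem Ib_y_neg (l : ℤ) (q : Q) : D.y l * (D.y (-l) * q) = q := by
  rw [← mul_assoc, ← D.y_add, add_neg_cancel, D.y_zero, one_mul]

private theorem Ib_mul_zero {r s : ℤ} {q q' : Q} (h : ∀ k : ℤ, k < r → D.cf k q = 0)
    (h' : ∀ k : ℤ, k < s → D.cf k q' = 0) (t : ℤ) (ht : t < r + s) : D.cf t (q * q') = 0 := by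
  have e : q * q' = D.y (r + s) * ((D.y (-r) * q) * (D.y (-s) * q')) := by
    conv_lhs => rw [← Ib_y_neg D r q, ← Ib_y_neg D s q']
    rw [D.y_add]
    simp only [mul_assoc]
    congr 1
    rw [← mul_assoc q, ← mul_assoc (D.y (-r)), ← mul_assoc (D.y (-r)) q]
    rw [← D.y_comm s (D.y (-r) * q)]
    simp only [mul_assoc]
  rw [e, D.cf_y_mul]
  apply D.int_mul
  · intro k hk
    rw [D.cf_y_mul]
    exact h _ (by omega)
  · intro k hk
    rw [D.cf_y_mul]
    exact h' _ (by omega)
  · omega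

private theorem Ib_cf_Y (m : ℕ) {n : Type} [DecidableEq n] (s : ℤ) (x : Fin (2 * m) × n) (l : n) :
    D.cf s (D.Y m n x l) = if x.2 = l ∧ s = (x.1 : ℤ) - m then 1 else 0 := by
  unfold Lau.Y
  by_cases h : x.2 = l
  · rw [if_pos h, Ib_cf_y]
    by_cases h' : s = (x.1 : ℤ) - m
    · rw [if_pos h', if_pos ⟨h, h'⟩]
    · rw [if_neg h', if_neg fun c => h' c.2]
  · rw [if_neg h, if_neg fun c => h c.1, map_zero]

private theorem Ib_cf_c {k l n : Type} [Fintype l] (s : ℤ) (v : Matrix k l S) (Z : Matrix l n Q)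
    (i : k) (j : n) : D.cf s ((v.map D.c * Z) i j) = ∑ x, v i x * D.cf s (Z x j) := by
  rw [Matrix.mul_apply, map_sum]
  refine Finset.sum_congr rfl fun x _ => ?_
  rw [Matrix.map_apply, D.cf_c_mul]

end

theorem ib : S_ib := by
  intro S Q _ _ D
  refine ⟨?_, ?_, ?_, ?_, ?_, ?_, ?_, ?_, ?_, ?_, ?_, ?_⟩
  · intro k n l _ r s Z W hZ hW i j t ht
    rw [Matrix.mul_apply, map_sum]
    exact Finset.sum_eq_zero fun x _ => Ib_mul_zero D (hZ i x) (hW x j) t ht
  · intro k n r l Z hZ i j s hs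
    rw [Matrix.map_apply, D.cf_y_mul]
    exact hZ i j _ (by omega)
  · intro k n _ _ m v
    ext i z
    change D.cf _ _ = _
    rw [Ib_cf_c, Finset.sum_eq_single z]
    · rw [Ib_cf_Y, if_pos ⟨rfl, rfl⟩, mul_one]
    · intro x _ hx
      rw [Ib_cf_Y, if_neg, mul_zero]
      rintro ⟨h1, h2⟩
      apply hx
      apply Prod.ext
      · apply Fin.ext
        omega
      · exact h1
    · intro h
      exact absurd (Finset.mem_univ _) h
  · intro k l n _ m v Z
    ext i z
    change D.cf _ _ = _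
    rw [Ib_cf_c, Matrix.mul_apply]
    rfl
  · intro k n _ _ m Z hZ i j s hs
    rw [Matrix.sub_apply, map_sub, Ib_cf_c]
    by_cases h : s < -(m : ℤ)
    · rw [hZ i j s h, zero_sub, neg_eq_zero]
      refine Finset.sum_eq_zero fun x _ => ?_
      rw [Ib_cf_Y, if_neg, mul_zero]
      rintro ⟨_, h2⟩
      omega
    · obtain ⟨a, ha⟩ : ∃ a : ℕ, (a : ℤ) = s + m := ⟨(s + m).toNat, by omega⟩
      have hlt : a < 2 * m := by omega
      rw [Finset.sum_eq_single ((⟨a, hlt⟩ : Fin (2 * m)), j)]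
      · rw [Ib_cf_Y, if_pos ⟨rfl, by change s = (a : ℤ) - m; omega⟩, mul_one]
        change _ - D.cf ((a : ℤ) - m) (Z i j) = 0
        have e : (a : ℤ) - m = s := by omega
        rw [e, sub_self]
      · rintro ⟨x1, x2⟩ _ hx
        rw [Ib_cf_Y, if_neg, mul_zero]
        rintro ⟨h1, h2⟩
        apply hx
        apply Prod.ext
        · apply Fin.ext
          change (x1 : ℕ) = a
          change s = (x1 : ℤ) - m at h2
          omega
        · exact h1
      · intro h'
        exact absurd (Finset.mem_univ _) h'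
  · intro k n m Z hZ
    ext i z
    change D.cf _ _ = 0
    apply hZ
    have := z.1.isLt
    omega
  · intro n _ m x l s hs
    rw [Ib_cf_Y, if_neg]
    rintro ⟨_, h2⟩
    omega
  · intro k l n _ v Z
    ext i j
    rw [Matrix.map_apply]
    apply Ib_ext D
    intro s
    rw [D.cf_tr, Ib_cf_c, Ib_cf_c]
    by_cases h : 0 ≤ s
    · rw [if_pos h]
      refine Finset.sum_congr rfl fun x _ => ?_
      rw [Matrix.map_apply, D.cf_tr, if_pos h]
    · rw [if_neg h]
      symm
      refine Finset.sum_eq_zero fun x _ => ?_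
      rw [Matrix.map_apply, D.cf_tr, if_neg h, mul_zero]
  · intro k n Z hZ
    ext i j
    rw [Matrix.map_apply]
    apply Ib_ext D
    intro s
    rw [D.cf_tr]
    by_cases h : 0 ≤ s
    · rw [if_pos h]
    · rw [if_neg h, hZ i j s (by omega)]
  · intro k n Z i j s hs
    rw [Matrix.map_apply, D.cf_tr, if_neg (by omega)]
  · intro k n r Z W hZ hW i j s hs
    rw [Matrix.sub_apply, map_sub, hZ i j s hs, hW i j s hs, sub_zero]
  · intro k n r s Z hsr hZ i j t ht
    exact hZ i j t (by omega)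

end Pool.Agent.FH
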