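import Pool.Agent.Lib.MP_8f66f0_al_FH.ISpec

/-! From `K_1` over Laurent series to `K_0`. -/

set_option autoImplicit false

namespace Pool.Agent.FH

open Pool.Agent.Wald Pool.Agent.WaldL Pool.Agent.Ind

private theorem KofK_dim {G X : Type} [Group G] [MulAction G X] {Sm : Subgroup G → Prop}
    {N : Met G X} {f n : ℕ} {R : Set X} {t D D' : ℕ} (h : Dim Sm N f n R t D) (hD : D' ≤ D) :
    Dim Sm N f n R t D' := by
  cases n with
  | zero => exact h
  | succ n => exact fun t' d h1 h2 h3 => h t' d h1 h2 (h3.trans hD)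

/-- The index set of the window: the part of degree `0` and the rest. -/
private def KofK_e (M : ℕ) (hM : 1 ≤ M) (m : Type) :
    m ⊕ {x : Fin (2 * M) × m // (x.1 : ℕ) ≠ M} ≃ Fin (2 * M) × m where
  toFun x := Sum.elim (fun i => (⟨M, by omega⟩, i)) (fun x => x.1) x
  invFun x := if h : (x.1 : ℕ) = M then Sum.inl x.2 else Sum.inr ⟨x, h⟩
  left_inv x := by
    rcases x with i | x
    · simp
    · simp only [Sum.elim_inr]
      rw [dif_neg x.2]
  right_inv x := by
    dsimp only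
    by_cases h : (x.1 : ℕ) = M
    · rw [dif_pos h]
      exact Prod.ext (Fin.ext h.symm) rfl
    · rw [dif_neg h]
      rfl

theorem kofk : S_ib → S_epsI → S_epsQ → S_isup → S_siA → S_siTriv → S_stm → S_sti → S_stx →
    S_stn → S_kofk := by
  intro hIB hEpsI hEpsQ hSup hA hTriv hstm hsti hstx hstn n hK f hf
  obtain ⟨Λ, k, hΛ⟩ := hK f hf
  obtain ⟨c, hc⟩ := hTriv k
  refine ⟨(20 * c + 1) * (Λ + 1), ?_⟩
  intro G X _ _ Sm N R t D L _ _ hL hSm hKK hR hdim hD m _ _ p q hp hqq hq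
  have hIBl : IB (lauG L G) := hIB _ _ (lauG L G)
  obtain ⟨D₀, hD₀⟩ : ∃ D₀, D₀ = (Λ + 1) * t := ⟨_, rfl⟩
  have hD' : (20 * c + 1) * D₀ ≤ D := by rw [hD₀, ← mul_assoc]; exact hD
  have ht : t ≤ D₀ := by rw [hD₀]; nlinarith [Nat.zero_le (Λ * t)]
  have hD₀D : D₀ ≤ D := by nlinarith [Nat.zero_le (c * D₀)]
  have hp₀ : ∀ i, p i ∈ N.nb R D₀ := fun i => by
    obtain ⟨y, hy, hn⟩ := hp i
    exact ⟨y, hy, N.mono ht hn⟩
  obtain ⟨h1, h2, -⟩ := hEpsQ _ _ m (lauG L G) hIBl 0 q hqq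
  obtain ⟨a, ha⟩ : ∃ a : Matrix m m (MonoidAlgebra (LaurentSeries L) G), a =
    1 - q.map (lauG L G).c + (q.map (lauG L G).c).map fun z => (lauG L G).y 1 * z := ⟨_, rfl⟩
  obtain ⟨a', ha'⟩ : ∃ a' : Matrix m m (MonoidAlgebra (LaurentSeries L) G), a' =
    1 - q.map (lauG L G).c + (q.map (lauG L G).c).map fun z => (lauG L G).y (-1) * z := ⟨_, rfl⟩
  rw [← ha, ← ha'] at h1 h2
  obtain ⟨-, -, -, hs4, hs5⟩ := hSup L G X (N.near t) m m p p
  have hq1 := hs4 q hq
  have hone : SupR (L := LaurentSeries L) (G := G) (N.near t) p p 1 :=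
    SupR.one fun x => N.refl t x
  have hsa : SupR (N.near t) p p a := by
    rw [ha]
    exact (hone.sub hq1).add (hs5 1 _ hq1)
  have hsa' : SupR (N.near t) p p a' := by
    rw [ha']
    exact (hone.sub hq1).add (hs5 (-1) _ hq1)
  have hT := hΛ G X Sm N R t D₀ (LaurentSeries L) (isEuc_laurent hL) hSm hKK hR
    (KofK_dim hdim hD₀D) (by rw [hD₀]; nlinarith [Nat.zero_le t]) m p a a' hp h1 h2 hsa hsa'
  obtain ⟨m₁, hm₁⟩ := hc L G X hL Sm hKK N (N.nb R D₀) D₀ m p a hT
  have hm₂ := (hA L G X N (N.nb R D₀) (N.nb R D₀) (c * D₀) 0 m₁ (max m₁ 1) m p a a').2.2.2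
    (le_max_left _ _) hp₀ hm₁
  obtain ⟨M, hMd⟩ : ∃ M, M = max m₁ 1 := ⟨_, rfl⟩
  have hM : 1 ≤ M := by rw [hMd]; exact le_max_right _ _
  rw [← hMd] at hm₂
  obtain ⟨b, hb1, hb2, hb3, hb4, -, -, hb7⟩ := hm₂
  have hba : b = a' := by
    calc b = a' * a * b := by rw [h2, Matrix.one_mul]
      _ = a' * (a * b) := by rw [Matrix.mul_assoc]
      _ = a' := by rw [hb1, Matrix.mul_one]
  rw [hba] at hb4 hb7
  have hidem := hEpsI _ _ m (lauG L G) hIBl M a a' h1 h2 hb3 hb4
  obtain ⟨-, -, heps⟩ := hEpsQ _ _ m (lauG L G) hIBl M q hqq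
  rw [← ha, ← ha'] at heps
  obtain ⟨E, hE⟩ : ∃ E, E = (lauG L G).eps M a a' := ⟨_, rfl⟩
  rw [← hE] at hidem heps hb7
  -- the support of the idempotent
  have hEs : SupR (N.near t) (fun x : Fin (2 * M) × m => p x.2) (fun x : Fin (2 * M) × m => p x.2)
      E := by
    have hoq : SupR (N.near t) p p (1 - q) :=
      (SupR.one (fun x => N.refl t x)).sub hq
    have ho : SupR (L := L) (G := G) (N.near t) p p 1 := SupR.one fun x => N.refl t x
    intro x z γ hγ
    rw [heps] at hγ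
    simp only at hγ
    split_ifs at hγ with h3 h4 h5
    · exact hoq x.2 z.2 γ hγ
    · exact ho x.2 z.2 γ hγ
    · exact absurd rfl hγ
    · exact absurd rfl hγ
  classical
  have key : E.submatrix (KofK_e M hM m) (KofK_e M hM m) = Matrix.fromBlocks (1 - q) 0 0
      (Matrix.diagonal fun x : {x : Fin (2 * M) × m // (x.1 : ℕ) ≠ M} =>
        @ite _ (M < (x.1.1 : ℕ)) (Classical.propDecidable _) (1 : MonoidAlgebra L G) 0) := by
    rw [heps]
    refine Matrix.ext fun y z => ?_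
    rcases y with i | x
    · rcases z with j | z
      · change (if (⟨M, _⟩ : Fin (2 * M)) = ⟨M, _⟩ then (if M = M then (1 - q) i j else _)
          else _) = (1 - q) i j
        rw [if_pos rfl, if_pos rfl]
      · change (if (⟨M, _⟩ : Fin (2 * M)) = z.1.1 then _ else _) = (0 : MonoidAlgebra L G)
        rw [if_neg]
        intro h
        exact z.2 (by rw [← h])
    · rcases z with j | z
      · change (if x.1.1 = (⟨M, _⟩ : Fin (2 * M)) then _ else _) = (0 : MonoidAlgebra L G)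
        rw [if_neg]
        intro h
        exact x.2 (by rw [h])
      · rw [Matrix.fromBlocks_apply₂₂]
        change (if x.1.1 = z.1.1 then (if (x.1.1 : ℕ) = M then (1 - q) x.1.2 z.1.2
          else if M < (x.1.1 : ℕ) then (1 : Matrix m m (MonoidAlgebra L G)) x.1.2 z.1.2 else 0)
            else 0) = _
        rw [if_neg x.2]
        by_cases hxz : x = z
        · subst hxz
          rw [if_pos rfl, Matrix.diagonal_apply_eq, Matrix.one_apply_eq]
          by_cases h3 : M < (x.1.1 : ℕ)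
          · rw [if_pos h3, if_pos h3]
          · rw [if_neg h3, if_neg h3]
        · rw [Matrix.diagonal_apply_ne _ hxz]
          split_ifs with h3 h4
          · rw [Matrix.one_apply_ne]
            intro h5
            exact hxz (Subtype.ext (Prod.ext h3 h5))
          · rfl
          · rfl
  have hpos : (fun y : m ⊕ {x : Fin (2 * M) × m // (x.1 : ℕ) ≠ M} => p (KofK_e M hM m y).2) =
      Sum.elim p fun x => p x.1.2 := by
    funext y
    rcases y with i | x
    · rfl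
    · rfl
  have hst : StF L N (N.nb R D₀) (t + 20 * (c * D₀))
      (fun y : m ⊕ {x : Fin (2 * M) × m // (x.1 : ℕ) ≠ M} => p (KofK_e M hM m y).2)
      (E.submatrix (KofK_e M hM m) (KofK_e M hM m)) := by
    refine hsti L G X N (N.nb R D₀) t (20 * (c * D₀)) _ _ _
      (fun x : Fin (2 * M) × m => p x.2) _ E (E.submatrix (KofK_e M hM m) id)
      (E.submatrix id (KofK_e M hM m)) ?_ ?_ ?_ ?_ ?_ hb7
    · rw [Matrix.submatrix_mul_equiv, hidem]
    · have h3 := Matrix.submatrix_mul_equiv E E (KofK_e M hM m) (Equiv.refl _) (KofK_e M hM m)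
      rw [hidem] at h3
      exact h3
    · have h3 := Matrix.submatrix_mul_equiv E E id (KofK_e M hM m) id
      rw [hidem] at h3
      exact h3
    · exact fun x z γ hγ => hEs _ _ γ hγ
    · exact fun x z γ hγ => hEs _ _ γ hγ
  rw [key, hpos] at hst
  have hst1 : StF L N (N.nb R D₀) (t + 20 * (c * D₀)) p (1 - q) :=
    hstx L G X N (N.nb R D₀) _ _ _ p (fun x : {x : Fin (2 * M) × m // (x.1 : ℕ) ≠ M} => p x.1.2)
      (1 - q) (fun x => M < (x.1.1 : ℕ)) (fun x => hp₀ x.1.2) hst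
  have hst2 := hstn L G X N (N.nb R D₀) t _ m p q hp₀ hqq hq hst1
  refine hstm L G X N (N.nb R D₀) (N.nb R D) _ D m p q ?_ ?_ hst2
  · rintro x ⟨y, hy, hn⟩
    exact ⟨y, hy, N.mono hD₀D hn⟩
  · rw [max_eq_right (by omega)]
    nlinarith [Nat.zero_le (c * D₀)]

end Pool.Agent.FH
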