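import Pool.Agent.Lib.MP_8f66f0_al_FH.CSpec

/-! Away from `W` the idempotent `a' p a` is `p`. (helper57) -/

set_option autoImplicit false

namespace Pool.Agent.FH

open Pool.Agent.Wald Pool.Agent.WaldL Pool.Agent.Ind

private theorem Qw_ne {L G : Type} [CommRing L] {x : MonoidAlgebra L G} (h : x ≠ 0) :
    ∃ γ, x.coeff γ ≠ 0 := by
  by_contra hn
  push Not at hn
  apply h
  have h1 : x.coeff = (0 : MonoidAlgebra L G).coeff := by
    ext γ
    exact hn γ
  exact (MonoidAlgebra.coeffAddEquiv (R := L) (M := G)).injective h1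

section

variable {S n : Type} [Ring S] [Fintype n] [DecidableEq n] {a a' : Matrix n n S} {d : n → S}
  {i k : n}

private theorem Qw_sum : (a' * Matrix.diagonal d * a) i k = ∑ l, a' i l * d l * a l k := by
  rw [Matrix.mul_apply]
  refine Finset.sum_congr rfl fun l _ => ?_
  rw [Matrix.mul_diagonal]

private theorem Qw_zero (h : ∀ l, a' i l ≠ 0 → a l k ≠ 0 → d l = 0) :
    (a' * Matrix.diagonal d * a) i k = 0 := by
  rw [Qw_sum]
  refine Finset.sum_eq_zero fun l _ => ?_
  by_cases h1 : a' i l = 0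
  · rw [h1, zero_mul, zero_mul]
  · by_cases h2 : a l k = 0
    · rw [h2, mul_zero]
    · rw [h l h1 h2, mul_zero, zero_mul]

private theorem Qw_one (haa : a' * a = 1) (h : ∀ l, a' i l ≠ 0 → a l k ≠ 0 → d l = 1) :
    (a' * Matrix.diagonal d * a) i k = if i = k then 1 else 0 := by
  rw [Qw_sum, ← Matrix.one_apply, ← haa, Matrix.mul_apply]
  refine Finset.sum_congr rfl fun l _ => ?_
  by_cases h1 : a' i l = 0
  · rw [h1, zero_mul, zero_mul]
  · by_cases h2 : a l k = 0
    · rw [h2, mul_zero, mul_zero]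
    · rw [h l h1 h2, mul_one]

end

theorem qw : S_qw := by
  classical
  intro L G X n _ _ _ _ _ N t p P a a' h1 h2 ha ha' i k hik
  -- neighbours of `i` and of `k`
  have hi : ∀ l, a' i l ≠ 0 → ∃ γ : G, N.near t (p i) (γ • p l) := by
    intro l hl
    obtain ⟨γ, hγ⟩ := Qw_ne hl
    exact ⟨γ, ha' i l γ hγ⟩
  have hk : ∀ l, a l k ≠ 0 → ∃ γ : G, N.near t (p k) (γ • p l) := by
    intro l hl
    obtain ⟨γ, hγ⟩ := Qw_ne hl
    refine ⟨γ⁻¹, ?_⟩
    have h3 := N.inv γ⁻¹ (ha l k γ hγ)
    rw [inv_smul_smul] at h3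
    exact N.symm h3
  have hself : ∀ j : n, N.near t (p j) ((1 : G) • p j) := by
    intro j
    rw [one_smul]
    exact N.refl t _
  rcases hik with h | h
  · rcases not_and_or.1 h with h | h
    · push Not at h
      have hPi : ¬ P i := h i 1 (hself i)
      rw [if_neg fun hc => hPi hc.2]
      refine Qw_zero fun l hl _ => ?_
      obtain ⟨γ, hγ⟩ := hi l hl
      exact if_neg (h l γ hγ)
    · push Not at h
      have hPi : P i := h i 1 (hself i)
      rw [Qw_one h2 fun l hl _ => ?_]
      · by_cases hc : i = k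
        · rw [if_pos hc, if_pos ⟨hc, hPi⟩]
        · rw [if_neg hc, if_neg fun h' => hc h'.1]
      · obtain ⟨γ, hγ⟩ := hi l hl
        exact if_pos (h l γ hγ)
  · rcases not_and_or.1 h with h | h
    · push Not at h
      have hPk : ¬ P k := h k 1 (hself k)
      rw [if_neg fun hc : i = k ∧ P i => hPk (by rw [← hc.1]; exact hc.2)]
      refine Qw_zero fun l _ hl => ?_
      obtain ⟨γ, hγ⟩ := hk l hl
      exact if_neg (h l γ hγ)
    · push Not at h
      have hPk : P k := h k 1 (hself k)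
      rw [Qw_one h2 fun l _ hl => ?_]
      · by_cases hc : i = k
        · rw [if_pos hc, if_pos ⟨hc, by rw [hc]; exact hPk⟩]
        · rw [if_neg hc, if_neg fun h' => hc h'.1]
      · obtain ⟨γ, hγ⟩ := hk l hl
        exact if_pos (h l γ hγ)

end Pool.Agent.FH
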