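import Pool.Agent.Lib.MP_8f66f0_al_FH.ISpec

/-! Part 2 of Theorem FH: first examples of controlled indices. -/

set_option autoImplicit false

namespace Pool.Agent.FH

open Pool.Agent.Wald Pool.Agent.WaldL Pool.Agent.Ind

private theorem SiA_cf_y {S Q : Type} [Ring S] [Ring Q] (D : Lau S Q) (k l : ℤ) :
    D.cf k (D.y l) = if k = l then 1 else 0 := by
  have h := D.cf_y_mul k l 1
  rw [mul_one, D.cf_one] at h
  rw [h]
  by_cases h1 : k = l
  · rw [if_pos h1, if_pos (sub_eq_zero.2 h1)]
  · rw [if_neg h1, if_neg fun h2 => h1 (sub_eq_zero.1 h2)]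

private theorem SiA_pole {S Q : Type} [Ring S] [Ring Q] (D : Lau S Q) {n : Type} [DecidableEq n]
    (m : ℕ) (c : n → ℤ) (hc : ∀ i, -(m : ℤ) ≤ c i) :
    D.Pole m (Matrix.diagonal fun i => D.y (c i)) := by
  intro i j s hs
  rw [Matrix.diagonal_apply]
  split_ifs with h
  · rw [SiA_cf_y, if_neg]
    have := hc i
    omega
  · rw [map_zero]

private theorem SiA_inv {S Q : Type} [Ring S] [Ring Q] (D : Lau S Q) {n : Type} [Fintype n]
    [DecidableEq n] (c : n → ℤ) :
    (Matrix.diagonal fun i => D.y (c i)) * (Matrix.diagonal fun i => D.y (-c i)) = 1 := by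
  rw [Matrix.diagonal_mul_diagonal, ← Matrix.diagonal_one]
  congr 1
  funext i
  rw [← D.y_add, add_neg_cancel, D.y_zero]

private theorem SiA_sup {L G X : Type} [CommRing L] [Group G] [MulAction G X] (N : Met G X)
    (D : ℕ) {n : Type} [DecidableEq n] (p : n → X) (c : n → ℤ) :
    SupR (N.near D) p p (Matrix.diagonal fun i => (lauG L G).y (c i)) := by
  classical
  intro i j γ h
  rw [Matrix.diagonal_apply] at h
  by_cases h1 : i = j
  · rw [if_pos h1, lauG_y, MonoidAlgebra.coeff_single, Finsupp.single_apply] at h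
    by_cases h2 : (1 : G) = γ
    · rw [← h2, one_smul, h1]
      exact N.refl _ _
    · rw [if_neg h2] at h
      exact absurd rfl h
  · rw [if_neg h1] at h
    exact absurd rfl h

theorem siA : S_ib → S_epsD → S_stm → S_stc → S_siMul → S_siA := by
  classical
  intro hib hepsD hstm hstc hmul L G X _ _ _ N Ω Ω' D D' m m' n _ _ p a a'
  have hdiag : ∀ (m : ℕ) (c : n → ℤ), (∀ i, |c i| ≤ m) → (∀ i, p i ∈ Ω) →
      SIw L N Ω D m p (Matrix.diagonal fun i => (lauG L G).y (c i)) := by
    intro m c hc hp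
    have hc' : ∀ i, -(m : ℤ) ≤ c i := fun i => (abs_le.1 (hc i)).1
    have hc'' : ∀ i, -(m : ℤ) ≤ -c i := fun i => by
      have := (abs_le.1 (hc i)).2
      omega
    refine ⟨Matrix.diagonal fun i => (lauG L G).y (-c i), SiA_inv _ c, ?_,
      SiA_pole _ m c hc', SiA_pole _ m (fun i => -c i) hc'', SiA_sup N D p c,
      SiA_sup N D p fun i => -c i, ?_⟩
    · have h := SiA_inv (lauG L G) fun i => -c i
      simp only [neg_neg] at h
      exact h
    · rw [hepsD _ _ n (lauG L G) (hib _ _ _) m c]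
      have h := hstc L G X N Ω D (Fin (2 * m) × n) (fun x => p x.2)
        (fun x => c x.2 ≤ (x.1 : ℤ) - m) (fun x => hp x.2)
      have he : (Matrix.diagonal fun x : Fin (2 * m) × n =>
          if c x.2 ≤ (x.1 : ℤ) - m then (1 : MonoidAlgebra L G) else 0) =
          Matrix.diagonal fun x : Fin (2 * m) × n =>
            @ite _ (c x.2 ≤ (x.1 : ℤ) - m) (Classical.propDecidable _)
              (1 : MonoidAlgebra L G) 0 := by
        congr 1
        funext x
        by_cases hx : c x.2 ≤ (x.1 : ℤ) - m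
        · rw [if_pos hx, if_pos hx]
        · rw [if_neg hx, if_neg hx]
      rw [he]
      exact h
  refine ⟨?_, ?_, ?_, ?_⟩
  · rintro hΩ hD ⟨b, h1, h2, h3, h4, h5, h6, h7⟩
    exact ⟨b, h1, h2, h3, h4, h5.near_mono hD, h6.near_mono hD,
      hstm L G X N Ω Ω' D D' _ _ _ hΩ hD h7⟩
  · exact fun c hc hp => hdiag m c hc hp
  · intro h1 h2 h3 h4 h5 h6
    refine ⟨a', h1, h2, h3, h4, h5, h6, ?_⟩
    have hE : IsEmpty (Fin (2 * 0) × n) := ⟨fun x => x.1.elim0⟩
    have h := hstc L G X N Ω D (Fin (2 * 0) × n) (fun x => p x.2) (fun _ => True)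
      (fun x => hE.elim x)
    have he : (lauG L G).eps 0 a a' = Matrix.diagonal fun _ : Fin (2 * 0) × n =>
        @ite _ True (Classical.propDecidable _) (1 : MonoidAlgebra L G) 0 := by
      ext x : 1
      exact hE.elim x
    rw [he]
    exact h
  · intro hm hp hs
    obtain ⟨e, rfl⟩ := Nat.exists_eq_add_of_le hm
    have h1 := hdiag e (fun _ => 0) (fun _ => by simp) hp
    have h2 : (Matrix.diagonal fun _ : n => (lauG L G).y 0) = 1 := by
      rw [(lauG L G).y_zero, Matrix.diagonal_one]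
    rw [h2] at h1
    have h3 := hmul L G X N Ω D m e n p a 1 hs h1
    rwa [mul_one] at h3

end Pool.Agent.FH
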