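import Pool.Agent.Lib.MP_8f66f0_al_FH.ISpec

/-! The index of block diagonal matrices. -/

set_option autoImplicit false

namespace Pool.Agent.FH

open Pool.Agent.Wald Pool.Agent.WaldL Pool.Agent.Ind

private theorem SiBlock_pole {L G : Type} [CommRing L] [Group G] {n k : Type} [Fintype n]
    [Fintype k] (a : Matrix n k (MonoidAlgebra (LaurentSeries L) G)) :
    ∃ m : ℕ, ∀ m' : ℕ, m ≤ m' → (lauG L G).Pole m' a := by
  classical
  choose f hf using fun (x : n × k) => (lauG L G).bdd (a x.1 x.2)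
  refine ⟨Finset.univ.sup f, fun m' hm' i j s hs => hf (i, j) s ?_⟩
  have h1 : f (i, j) ≤ m' := (Finset.le_sup (f := f) (Finset.mem_univ (i, j))).trans hm'
  omega

theorem siBlock (h0 : S_PSF) (h1 : S_ib) (h2 : S_epsI) (h3 : S_isup) (h4 : S_stb) :
    S_siBlock := by
  intro L G X _ _ _ _ hL N Ω D n _ _ p a a' E hp ha ha' hs hs' hK hN
  obtain ⟨m₁, hm₁⟩ := SiBlock_pole a
  obtain ⟨m₂, hm₂⟩ := SiBlock_pole a'
  let m := max m₁ m₂
  have hP : (lauG L G).Pole m a := hm₁ m (le_max_left _ _)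
  have hP' : (lauG L G).Pole m a' := hm₂ m (le_max_right _ _)
  have hnear : ∀ {k l : Type} (i : k → n) (j : l → n) {L' : Type} [CommRing L']
      (b : Matrix k l (MonoidAlgebra L' G)), SupR E.rel (fun x => p (i x)) (fun x => p (j x)) b →
      SupR (N.near D) (fun x => p (i x)) (fun x => p (j x)) b := by
    intro k l i j L' _ b hb x y γ hγ
    exact hN _ _ γ (hb x y γ hγ)
  -- the support of the idempotent
  have e1 : SupR E.rel (fun x : Fin (2 * m) × n => p x.2) p ((lauG L G).Y m n) :=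
    (h3 L G X E.rel n n p p).2.1 m E.refl
  have e2 := (h3 L G X E.rel (Fin (2 * m) × n) n (fun x => p x.2) p).2.2.1 _
    (SupR.rel_mul e1 hs')
  have e3 := (h3 L G X E.rel (Fin (2 * m) × n) n (fun x => p x.2) p).1 m _
    (SupR.rel_mul e2 hs)
  obtain ⟨n₁, n₂, i1, i2, i3, i4, i₁, i₂, u, v, hu, hv, huv, hvu⟩ :=
    h4 L G X E (Fin (2 * m) × n) (fun x => p x.2) ((lauG L G).eps m a a')
      (h2 _ _ n (lauG L G) (h1 _ _ _) m a a' ha ha' hP hP') e3
      (fun x => kk_projSF h0 (hK x.2) L hL)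
  refine ⟨m, a', ha, ha', hP, hP', hnear id id a hs, hnear id id a' hs', n₁, n₂, i1, i2, i3, i4,
    fun x => p (i₁ x).2, fun x => p (i₂ x).2, u, v, fun x => hp _, fun x => hp _, ?_, ?_, huv,
    hvu⟩
  · rintro (x | x) y γ hγ
    · exact hN _ _ γ (hu (Sum.inl x) y γ hγ)
    · exact hN _ _ γ (hu (Sum.inr x) y γ hγ)
  · rintro y (x | x) γ hγ
    · exact hN _ _ γ (hv y (Sum.inl x) γ hγ)
    · exact hN _ _ γ (hv y (Sum.inr x) γ hγ)

end Pool.Agent.FH
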