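import Pool.Agent.Lib.MP_8f66f0_al_FH.ISpec

/-! Part 2 of Theorem FH: the index of elementary matrices. -/

set_option autoImplicit false

namespace Pool.Agent.FH

open Pool.Agent.Wald Pool.Agent.WaldL Pool.Agent.Ind

private theorem SiElem_y (L G : Type) [CommRing L] [Group G] (l : ℤ)
    (x : MonoidAlgebra (LaurentSeries L) G) (γ : G) (h : ((lauG L G).y l * x).coeff γ ≠ 0) :
    x.coeff γ ≠ 0 := by
  classical
  intro h0
  obtain ⟨γ₁, γ₂, h1, h2, h3⟩ := mul_coeff_ne h
  rw [lauG_y, MonoidAlgebra.coeff_single, Finsupp.single_apply] at h2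
  by_cases h4 : (1 : G) = γ₁
  · rw [← h4, one_mul] at h1
    rw [h1] at h3
    exact h3 h0
  · rw [if_neg h4] at h2
    exact h2 rfl

private theorem SiElem_pole {S Q : Type} [Ring S] [Ring Q] (D : Lau S Q) {n k : Type} [Fintype n]
    [Fintype k] (x : Matrix n k Q) : ∃ m : ℕ, D.Pole m x := by
  classical
  choose f hf using fun i j => D.bdd (x i j)
  refine ⟨∑ i, ∑ j, f i j, fun i j s hs => hf i j s ?_⟩
  have h1 : f i j ≤ ∑ j, f i j := Finset.single_le_sum (fun _ _ => Nat.zero_le _)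
    (Finset.mem_univ j)
  have h2 : ∑ j, f i j ≤ ∑ i, ∑ j, f i j := Finset.single_le_sum
    (f := fun i => ∑ j, f i j) (fun _ _ => Nat.zero_le _) (Finset.mem_univ i)
  omega

private theorem SiElem_int {S Q : Type} [Ring S] [Ring Q] (D : Lau S Q) {n k : Type}
    [DecidableEq n] [DecidableEq k] (z : Matrix n k Q) (hz : D.Pole 0 z) :
    D.Pole 0 (Matrix.fromBlocks (1 : Matrix n n Q) z 0 (1 : Matrix k k Q)) := by
  have h1 : ∀ s : ℤ, s < -((0 : ℕ) : ℤ) → D.cf s 1 = 0 := by
    intro s hs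
    rw [D.cf_one, if_neg]
    intro h
    rw [h] at hs
    simp at hs
  rintro (i | i) (j | j) s hs
  · rw [Matrix.fromBlocks_apply₁₁, Matrix.one_apply]
    split_ifs
    · exact h1 s hs
    · exact map_zero _
  · rw [Matrix.fromBlocks_apply₁₂]
    exact hz i j s hs
  · rw [Matrix.fromBlocks_apply₂₁]
    exact map_zero _
  · rw [Matrix.fromBlocks_apply₂₂, Matrix.one_apply]
    split_ifs
    · exact h1 s hs
    · exact map_zero _

/-- The exponents of the diagonal matrix. -/
private def SiElem_c (n k : Type) (l : ℤ) : n ⊕ k → ℤ := Sum.elim (fun _ => l) fun _ => 0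

private theorem SiElem_diag {S Q : Type} [Ring S] [Ring Q] (D : Lau S Q) {n k : Type}
    [DecidableEq n] [DecidableEq k] (l : ℤ) :
    (Matrix.diagonal fun i => D.y (SiElem_c n k l i)) =
      Matrix.fromBlocks (Matrix.diagonal fun _ : n => D.y l) 0 0 (1 : Matrix k k Q) := by
  rw [← Matrix.diagonal_one, Matrix.fromBlocks_diagonal]
  congr 1
  funext i
  rcases i with i | i
  · rfl
  · exact D.y_zero

private theorem SiElem_fac {S Q : Type} [Ring S] [Ring Q] (D : Lau S Q) {n k : Type} [Fintype n]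
    [DecidableEq n] [Fintype k] [DecidableEq k] (m : ℤ) (x : Matrix n k Q) :
    Matrix.fromBlocks (Matrix.diagonal fun _ : n => D.y (-m)) 0 0 (1 : Matrix k k Q) *
      Matrix.fromBlocks 1 (x.map fun z => D.y m * z) 0 1 *
      Matrix.fromBlocks (Matrix.diagonal fun _ : n => D.y m) 0 0 (1 : Matrix k k Q) =
    Matrix.fromBlocks 1 x 0 1 := by
  rw [Matrix.fromBlocks_multiply, Matrix.fromBlocks_multiply]
  congr 1
  · rw [Matrix.mul_one, Matrix.zero_mul, Matrix.mul_zero, add_zero, add_zero,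
      Matrix.diagonal_mul_diagonal, ← Matrix.diagonal_one]
    congr 1
    funext i
    rw [← D.y_add, neg_add_cancel, D.y_zero]
  · rw [Matrix.mul_zero, Matrix.zero_mul, zero_add, add_zero, Matrix.mul_one]
    ext i j
    rw [Matrix.diagonal_mul, Matrix.map_apply, ← mul_assoc, ← D.y_add, neg_add_cancel, D.y_zero,
      one_mul]
  · simp
  · simp

theorem siElem : S_siMul → S_siA → S_siElem := by
  classical
  intro hmul hA L G X _ _ _ N Ω D n k _ _ _ _ p q x hp hq hx
  obtain ⟨m, hm⟩ := SiElem_pole (lauG L G) x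
  have hpq : ∀ i, Sum.elim p q i ∈ Ω := by
    rintro (i | i)
    · exact hp i
    · exact hq i
  set z : Matrix n k (MonoidAlgebra (LaurentSeries L) G) :=
    x.map fun w => (lauG L G).y (m : ℤ) * w with hz
  have hzs : SupR (N.near D) p q z := by
    intro i j γ h
    exact hx i j γ (SiElem_y L G m (x i j) γ h)
  have hzp : (lauG L G).Pole 0 z := by
    intro i j s hs
    rw [hz, Matrix.map_apply, (lauG L G).cf_y_mul]
    apply hm i j
    have : ((0 : ℕ) : ℤ) = 0 := rfl
    rw [this] at hs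
    omega
  have hzn : (lauG L G).Pole 0 (-z) := by
    intro i j s hs
    rw [Matrix.neg_apply, map_neg, hzp i j s hs, neg_zero]
  have hone : ∀ (r : Type) [DecidableEq r] (p : r → X),
      SupR (L := LaurentSeries L) (G := G) (N.near D) p p 1 := fun r _ p =>
    SupR.one fun x => N.refl D x
  -- the integral factor
  have hB : SIw L N Ω D 0 (Sum.elim p q) (Matrix.fromBlocks 1 z 0 1) := by
    refine (hA L G X N Ω Ω D D 0 0 (n ⊕ k) (Sum.elim p q) (Matrix.fromBlocks 1 z 0 1)
      (Matrix.fromBlocks 1 (-z) 0 1)).2.2.1 ?_ ?_ (SiElem_int _ z hzp) (SiElem_int _ (-z) hzn)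
      ?_ ?_
    · rw [Matrix.fromBlocks_multiply]
      simp
    · rw [Matrix.fromBlocks_multiply]
      simp
    · exact SupR.fromBlocks (hone n p) hzs SupR.zero (hone k q)
    · exact SupR.fromBlocks (hone n p) hzs.neg SupR.zero (hone k q)
  -- the diagonal factors
  have hd : ∀ l : ℤ, |l| ≤ m → SIw L N Ω D m (Sum.elim p q)
      (Matrix.diagonal fun i => (lauG L G).y (SiElem_c n k l i)) := by
    intro l hl
    refine (hA L G X N Ω Ω D D m m (n ⊕ k) (Sum.elim p q) 1 1).2.1 (SiElem_c n k l) ?_ hpq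
    rintro (i | i)
    · exact hl
    · change |(0 : ℤ)| ≤ m
      simp
  have h1 := hmul L G X N Ω D m 0 (n ⊕ k) (Sum.elim p q) _ _
    (hd (-(m : ℤ)) (by rw [abs_neg, Nat.abs_cast])) hB
  have h2 : SIw L N Ω (20 * D) m (Sum.elim p q)
      (Matrix.diagonal fun i => (lauG L G).y (SiElem_c n k (m : ℤ) i)) :=
    (hA L G X N Ω Ω D (20 * D) m m (n ⊕ k) (Sum.elim p q) _ 1).1 (Set.Subset.refl _) (by omega)
      (hd (m : ℤ) (by rw [Nat.abs_cast]))
  have h3 := hmul L G X N Ω (20 * D) (m + 0) m (n ⊕ k) (Sum.elim p q) _ _ h1 h2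
  refine ⟨m + 0 + m, ?_⟩
  rw [SiElem_diag, SiElem_diag, SiElem_fac, ← mul_assoc] at h3
  exact h3

end Pool.Agent.FH
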