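import Pool.Agent.Lib.MP_8f66f0_al_FH.ISpec

/-! The index of a product. -/

set_option autoImplicit false

namespace Pool.Agent.FH

open Pool.Agent.Wald Pool.Agent.WaldL Pool.Agent.Ind

section

variable {L G X : Type} [CommRing L] [Group G] [MulAction G X] {N : Met G X}

private theorem SiMul_cast {E E' : X → X → Prop} (h : ∀ x y, E x y → E' x y) {n m : Type}
    {p : n → X} {q : m → X} {S : Type} [CommRing S] {a : Matrix n m (MonoidAlgebra S G)}
    (ha : SupR E p q a) : SupR E' p q a := ha.mono h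

/-- The support of the idempotent. -/
private theorem SiMul_eps (hSup : S_isup) {n : Type} [Fintype n] [DecidableEq n] (p : n → X)
    (m : ℕ) {r s : ℕ} {a a' : Matrix n n (MonoidAlgebra (LaurentSeries L) G)}
    (ha : SupR (N.near r) p p a) (ha' : SupR (N.near s) p p a') :
    SupR (N.near (s + r)) (fun x : Fin (2 * m) × n => p x.2) (fun x : Fin (2 * m) × n => p x.2)
      ((lauG L G).eps m a a') := by
  have h1 : SupR (N.near 0) (fun x : Fin (2 * m) × n => p x.2) p ((lauG L G).Y m n) :=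
    (hSup L G X (N.near 0) n n p p).2.1 m (fun x => N.refl 0 x)
  have h2 := h1.near_mul ha'
  have h3 := (hSup L G X (N.near (0 + s)) _ n (fun x : Fin (2 * m) × n => p x.2) p).2.2.1 _ h2
  have h4 := h3.near_mul ha
  have h5 := (hSup L G X (N.near (0 + s + r)) _ n (fun x : Fin (2 * m) × n => p x.2) p).1 m _ h4
  rw [zero_add] at h5
  exact h5

end

theorem siMul : S_ib → S_epsI → S_epsM → S_isup → S_stm → S_sti → S_sts → S_siMul := by
  intro hIB hEpsI hEpsM hSup hstm hsti hsts L G X _ _ _ N Ω D ma mb n _ _ p a b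
  rintro ⟨a', ha1, ha2, ha3, ha4, ha5, ha6, ha7⟩ ⟨b', hb1, hb2, hb3, hb4, hb5, hb6, hb7⟩
  have hIBl : IB (lauG L G) := hIB _ _ (lauG L G)
  have hcast : (-((ma + mb : ℕ) : ℤ)) = -(ma : ℤ) + -(mb : ℤ) := by push_cast; ring
  have hcast' : (-((ma + mb : ℕ) : ℤ)) = -(mb : ℤ) + -(ma : ℤ) := by push_cast; ring
  have hab1 : (a * b) * (b' * a') = 1 := by
    rw [Matrix.mul_assoc, ← Matrix.mul_assoc b, hb1, Matrix.one_mul, ha1]
  have hab2 : (b' * a') * (a * b) = 1 := by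
    rw [Matrix.mul_assoc, ← Matrix.mul_assoc a', ha2, Matrix.one_mul, hb2]
  have hp1 : (lauG L G).Pole (ma + mb) (a * b) := by
    have h := hIBl.mul n n n _ _ a b ha3 hb3
    intro i j s hs
    rw [hcast] at hs
    exact h i j s hs
  have hp2 : (lauG L G).Pole (ma + mb) (b' * a') := by
    have h := hIBl.mul n n n _ _ b' a' hb4 ha4
    intro i j s hs
    rw [hcast'] at hs
    exact h i j s hs
  have hidem := hEpsI _ _ n (lauG L G) hIBl (ma + mb) (a * b) (b' * a') hab1 hab2 hp1 hp2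
  obtain ⟨E, hE⟩ : ∃ E, E = (lauG L G).eps (ma + mb) (a * b) (b' * a') := ⟨_, rfl⟩
  obtain ⟨Ea, hEa⟩ : ∃ E, E = (lauG L G).eps ma a a' := ⟨_, rfl⟩
  obtain ⟨Eb, hEb⟩ : ∃ E, E = (lauG L G).eps mb b b' := ⟨_, rfl⟩
  obtain ⟨V₁, hV₁⟩ : ∃ V, V = (lauG L G).res ma ((lauG L G).Y (ma + mb) n * b') := ⟨_, rfl⟩
  obtain ⟨W₁, hW₁⟩ : ∃ W, W = (lauG L G).res mb (((lauG L G).Y (ma + mb) n -
    V₁.map (lauG L G).c * (lauG L G).Y ma n * b).map fun q => (lauG L G).y (-(ma : ℤ)) * q) :=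
    ⟨_, rfl⟩
  obtain ⟨V₂, hV₂⟩ : ∃ V, V = (lauG L G).res (ma + mb) ((lauG L G).Y ma n * b) := ⟨_, rfl⟩
  obtain ⟨W₂, hW₂⟩ : ∃ W, W = (lauG L G).res (ma + mb)
    (((lauG L G).Y mb n).map fun q => (lauG L G).y (ma : ℤ) * q) := ⟨_, rfl⟩
  obtain ⟨e1, e2, e3, e4, e5⟩ := hEpsM _ _ n (lauG L G) hIBl ma mb a a' b b' ha1 ha2 hb1 hb2 ha3
    ha4 hb3 hb4 E Ea Eb V₁ W₁ V₂ W₂ hE hEa hEb hV₁ hW₁ hV₂ hW₂
  -- supports
  have sY : ∀ m : ℕ, SupR (N.near 0) (fun x : Fin (2 * m) × n => p x.2) p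
      ((lauG L G).Y m n) := fun m =>
    (hSup L G X (N.near 0) n n p p).2.1 m (fun x => N.refl 0 x)
  have sE : SupR (N.near (4 * D)) (fun x : Fin (2 * (ma + mb)) × n => p x.2)
      (fun x : Fin (2 * (ma + mb)) × n => p x.2) E := by
    rw [hE]
    exact (SiMul_eps hSup p (ma + mb) (ha5.near_mul hb5) (hb6.near_mul ha6)).near_mono
      (by omega)
  have sEa : SupR (N.near (2 * D)) (fun x : Fin (2 * ma) × n => p x.2)
      (fun x : Fin (2 * ma) × n => p x.2) Ea := by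
    rw [hEa]
    exact (SiMul_eps hSup p ma ha5 ha6).near_mono (by omega)
  have sEb : SupR (N.near (2 * D)) (fun x : Fin (2 * mb) × n => p x.2)
      (fun x : Fin (2 * mb) × n => p x.2) Eb := by
    rw [hEb]
    exact (SiMul_eps hSup p mb hb5 hb6).near_mono (by omega)
  have sV₁ : SupR (N.near D) (fun x : Fin (2 * (ma + mb)) × n => p x.2)
      (fun x : Fin (2 * ma) × n => p x.2) V₁ := by
    rw [hV₁]
    have h := (sY (ma + mb)).near_mul hb6
    rw [zero_add] at h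
    exact (hSup L G X (N.near D) _ n (fun x : Fin (2 * (ma + mb)) × n => p x.2) p).1 ma _ h
  have sW₁ : SupR (N.near (2 * D)) (fun x : Fin (2 * (ma + mb)) × n => p x.2)
      (fun x : Fin (2 * mb) × n => p x.2) W₁ := by
    rw [hW₁]
    have h1 := (hSup L G X (N.near D) _ _ (fun x : Fin (2 * (ma + mb)) × n => p x.2)
      (fun x : Fin (2 * ma) × n => p x.2)).2.2.2.1 V₁ sV₁
    have h2 := (h1.near_mul (sY ma)).near_mul hb5
    have h3 := ((sY (ma + mb)).near_mono (Nat.zero_le (2 * D))).sub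
      (h2.near_mono (show D + 0 + D ≤ 2 * D by omega))
    have h4 := (hSup L G X (N.near (2 * D)) _ n (fun x : Fin (2 * (ma + mb)) × n => p x.2)
      p).2.2.2.2 (-(ma : ℤ)) _ h3
    exact (hSup L G X (N.near (2 * D)) _ n (fun x : Fin (2 * (ma + mb)) × n => p x.2) p).1 mb _ h4
  have sV₂ : SupR (N.near D) (fun x : Fin (2 * ma) × n => p x.2)
      (fun x : Fin (2 * (ma + mb)) × n => p x.2) V₂ := by
    rw [hV₂]
    have h := (sY ma).near_mul hb5
    rw [zero_add] at h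
    exact (hSup L G X (N.near D) _ n (fun x : Fin (2 * ma) × n => p x.2) p).1 (ma + mb) _ h
  have sW₂ : SupR (N.near 0) (fun x : Fin (2 * mb) × n => p x.2)
      (fun x : Fin (2 * (ma + mb)) × n => p x.2) W₂ := by
    rw [hW₂]
    have h4 := (hSup L G X (N.near 0) _ n (fun x : Fin (2 * mb) × n => p x.2)
      p).2.2.2.2 (ma : ℤ) _ (sY mb)
    exact (hSup L G X (N.near 0) _ n (fun x : Fin (2 * mb) × n => p x.2) p).1 (ma + mb) _ h4
  refine ⟨b' * a', hab1, hab2, hp1, hp2, (ha5.near_mul hb5).near_mono (by omega),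
    (hb6.near_mul ha6).near_mono (by omega), ?_⟩
  rw [← hE] at hidem ⊢
  rw [← hEa] at ha7
  rw [← hEb] at hb7
  have hsum := hsts L G X N Ω D _ _ (fun x : Fin (2 * ma) × n => p x.2)
    (fun x : Fin (2 * mb) × n => p x.2) Ea Eb ha7 hb7
  have hu : SupR (N.near (6 * D)) (fun x : Fin (2 * (ma + mb)) × n => p x.2)
      (Sum.elim (fun x : Fin (2 * ma) × n => p x.2) fun x : Fin (2 * mb) × n => p x.2)
      (Matrix.fromCols (E * V₁) (E * W₁)) := by
    have h1 := (sE.near_mul sV₁).near_mono (show 4 * D + D ≤ 6 * D by omega)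
    have h2 := (sE.near_mul sW₁).near_mono (show 4 * D + 2 * D ≤ 6 * D by omega)
    rintro i (j | j) γ hγ
    · exact h1 i j γ hγ
    · exact h2 i j γ hγ
  have hv : SupR (N.near (6 * D))
      (Sum.elim (fun x : Fin (2 * ma) × n => p x.2) fun x : Fin (2 * mb) × n => p x.2)
      (fun x : Fin (2 * (ma + mb)) × n => p x.2)
      (Matrix.fromRows (Ea * V₂) (Eb * W₂)) := by
    have h1 := (sEa.near_mul sV₂).near_mono (show 2 * D + D ≤ 6 * D by omega)
    have h2 := (sEb.near_mul sW₂).near_mono (show 2 * D + 0 ≤ 6 * D by omega)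
    rintro (i | i) j γ hγ
    · exact h1 i j γ hγ
    · exact h2 i j γ hγ
  have hfin := hsti L G X N Ω (6 * D) D _ _ (fun x : Fin (2 * (ma + mb)) × n => p x.2)
    (Sum.elim (fun x : Fin (2 * ma) × n => p x.2) fun x : Fin (2 * mb) × n => p x.2) E
    (Matrix.fromBlocks Ea 0 0 Eb) (Matrix.fromCols (E * V₁) (E * W₁))
    (Matrix.fromRows (Ea * V₂) (Eb * W₂)) hidem
    (by rw [Matrix.fromCols_mul_fromRows, e1])
    (by rw [Matrix.fromRows_mul_fromCols, e2, e3, e4, e5]) hu hv hsum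
  exact hstm L G X N Ω Ω (6 * D + D) (20 * D) _ _ E (le_refl _) (by omega) hfin

end Pool.Agent.FH
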