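import Pool.Agent.Lib.MP_8f66f0_al_FH.ISpec

/-! Part 2 of Theorem FH, module SiSum (helper26). -/

set_option autoImplicit false

namespace Pool.Agent.FH

open Pool.Agent.Wald Pool.Agent.WaldL Pool.Agent.Ind

/-- reindexing -/
private theorem SiSum_re {L G X : Type} [CommRing L] [Group G] [MulAction G X] {N : Met G X} {Ω : Set X}
    {D : ℕ} {n n' : Type} [Fintype n] [DecidableEq n] [Fintype n'] [DecidableEq n'] {p : n → X}
    {q : Matrix n n (MonoidAlgebra L G)} (h : StF L N Ω D p q) (e : n' ≃ n) (p' : n' → X)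
    (hp : ∀ i, p' i = p (e i)) (q' : Matrix n' n' (MonoidAlgebra L G)) (hq : ∀ i j, q' i j = q (e i) (e j)) :
    StF L N Ω D p' q' := by
  obtain ⟨n₁, n₂, i1, i2, i3, i4, p₁, p₂, u, v, h1, h2, h3, h4, h5, h6⟩ := h
  refine ⟨n₁, n₂, i1, i2, i3, i4, p₁, p₂, u.submatrix (Sum.map e id) id, v.submatrix id (Sum.map e id),
    h1, h2, ?_, ?_, ?_, ?_⟩
  · rintro (i | i) j γ hγ
    · change N.near D (p' i) (γ • p₂ j)
      rw [hp]
      exact h3 (Sum.inl (e i)) j γ hγ
    · exact h3 (Sum.inr i) j γ hγ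
  · rintro i (j | j) γ hγ
    · change N.near D (p₂ i) (γ • p' j)
      rw [hp]
      exact h4 i (Sum.inl (e j)) γ hγ
    · exact h4 i (Sum.inr j) γ hγ
  · rw [← Matrix.submatrix_mul u v (Sum.map e id) id (Sum.map e id) Function.bijective_id, h5]
    ext (i | i) (j | j) : 1
    · exact (hq i j).symm
    · rfl
    · rfl
    · rfl
  · rw [← Matrix.submatrix_mul v u id (Sum.map e id) id (Equiv.sumCongr e (Equiv.refl n₁)).bijective, h6,
      Matrix.submatrix_id_id]

private theorem SiSum_mul {S n k : Type} [Ring S] [Fintype n] [DecidableEq n] [Fintype k] [DecidableEq k]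
    (a a' : Matrix n n S) (b b' : Matrix k k S) (ha : a * a' = 1) (hb : b * b' = 1) :
    Matrix.fromBlocks a 0 0 b * Matrix.fromBlocks a' 0 0 b' = 1 := by
  rw [Matrix.fromBlocks_multiply, ha, hb, Matrix.mul_zero, Matrix.zero_mul, Matrix.zero_mul, Matrix.mul_zero,
    Matrix.zero_mul, Matrix.mul_zero, add_zero, add_zero, zero_add, zero_add, Matrix.fromBlocks_one]

theorem siSum : S_ib → S_epsD → S_epsB → S_epsI → S_isup → S_stm → S_sti → S_sts → S_stx → S_siSum := by
  intro hib hD hB _ _ _ _ hsts hstx L G X _ _ _ N Ω D m n k _ _ _ _ p q a b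
  have hIB := hib (MonoidAlgebra L G) (MonoidAlgebra (LaurentSeries L) G) (lauG L G)
  refine ⟨?_, ?_⟩
  · rintro ⟨a', ha1, ha2, ha3, ha4, ha5, ha6, ha7⟩ ⟨b', hb1, hb2, hb3, hb4, hb5, hb6, hb7⟩
    have hP : ∀ (c : Matrix n n (MonoidAlgebra (LaurentSeries L) G))
        (d : Matrix k k (MonoidAlgebra (LaurentSeries L) G)), (lauG L G).Pole m c → (lauG L G).Pole m d →
        (lauG L G).Pole m (Matrix.fromBlocks c 0 0 d) := by
      intro c d hc hd
      rintro (i | i) (j | j) s hs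
      · exact hc i j s hs
      · exact map_zero _
      · exact map_zero _
      · exact hd i j s hs
    refine ⟨Matrix.fromBlocks a' 0 0 b', SiSum_mul a a' b b' ha1 hb1, SiSum_mul a' a b' b ha2 hb2,
      hP a b ha3 hb3, hP a' b' ha4 hb4, SupR.fromBlocks ha5 SupR.zero SupR.zero hb5,
      SupR.fromBlocks ha6 SupR.zero SupR.zero hb6, ?_⟩
    refine SiSum_re (hsts L G X N Ω D _ _ _ _ _ _ ha7 hb7) (winE m n k) _ ?_ _ ?_
    · rintro ⟨i, j | j⟩ <;> rfl
    · intro x y
      rw [hB (MonoidAlgebra L G) (MonoidAlgebra (LaurentSeries L) G) n k (lauG L G) hIB m a a' b b']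
      rfl
  · rintro hq ⟨A, hA1, hA2, hA3, hA4, hA5, hA6, hA7⟩
    -- the blocks of the inverse
    obtain ⟨a', a12, a21, a22, rfl⟩ : ∃ a' a12 a21 a22, A = Matrix.fromBlocks a' a12 a21 a22 :=
      ⟨A.toBlocks₁₁, A.toBlocks₁₂, A.toBlocks₂₁, A.toBlocks₂₂, (Matrix.fromBlocks_toBlocks A).symm⟩
    have hA1' := hA1
    have hA2' := hA2
    rw [Matrix.fromBlocks_multiply, ← Matrix.fromBlocks_one, Matrix.fromBlocks_inj] at hA1' hA2'
    simp only [Matrix.zero_mul, Matrix.mul_zero, Matrix.one_mul, Matrix.mul_one, add_zero, zero_add]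
      at hA1' hA2'
    obtain ⟨e1, -, e2, e3⟩ := hA1'
    obtain ⟨e4, e5, -, -⟩ := hA2'
    subst e2 e3 e5
    refine ⟨a', e1, e4, fun i j => hA3 (Sum.inl i) (Sum.inl j), fun i j => hA4 (Sum.inl i) (Sum.inl j),
      fun i j => hA5 (Sum.inl i) (Sum.inl j), fun i j => hA6 (Sum.inl i) (Sum.inl j), ?_⟩
    have h1 := hD (MonoidAlgebra L G) (MonoidAlgebra (LaurentSeries L) G) k (lauG L G) hIB m (fun _ => 0)
    have h2 : (Matrix.diagonal fun _ : k => (lauG L G).y 0) = 1 := by
      rw [(lauG L G).y_zero, Matrix.diagonal_one]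
    have h3 : (Matrix.diagonal fun _ : k => (lauG L G).y (-0)) = 1 := by
      rw [neg_zero, (lauG L G).y_zero, Matrix.diagonal_one]
    rw [h2, h3] at h1
    have h4 := hB (MonoidAlgebra L G) (MonoidAlgebra (LaurentSeries L) G) n k (lauG L G) hIB m a a' 1 1
    refine hstx L G X N Ω D (Fin (2 * m) × n) (Fin (2 * m) × k) (fun x => p x.2) (fun x => q x.2) _
      (fun x => (0 : ℤ) ≤ (x.1 : ℤ) - m) (fun x => hq x.2) ?_
    refine SiSum_re hA7 (winE m n k).symm _ ?_ _ ?_
    · rintro (⟨i, j⟩ | ⟨i, j⟩) <;> rfl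
    · intro x y
      rw [h4, h1]
      change _ = (Matrix.fromBlocks _ _ _ _) ((winE m n k) ((winE m n k).symm x))
        ((winE m n k) ((winE m n k).symm y))
      rw [Equiv.apply_symm_apply, Equiv.apply_symm_apply]
      rcases x with x | x <;> rcases y with y | y
      · rfl
      · rfl
      · rfl
      · rw [Matrix.fromBlocks_apply₂₂, Matrix.fromBlocks_apply₂₂, Matrix.diagonal_apply,
          Matrix.diagonal_apply]
        by_cases hxy : x = y
        · rw [if_pos hxy, if_pos hxy]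
          by_cases h5 : (0 : ℤ) ≤ (x.1 : ℤ) - m
          · rw [if_pos h5, if_pos h5]
          · rw [if_neg h5, if_neg h5]
        · rw [if_neg hxy, if_neg hxy]

end Pool.Agent.FH
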