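import Pool.Agent.Lib.MP_8f66f0_al_FH.ISpec

/-! The index of the matrices in `Triv` is stably free with control. -/

set_option autoImplicit false

namespace Pool.Agent.FH

open Pool.Agent.Wald Pool.Agent.WaldL Pool.Agent.Ind

private theorem SiTriv_pos {L : Type} [CommRing L] {G X : Type} [Group G] [MulAction G X]
    {Sm : Subgroup G → Prop} {N : Met G X} {Ω : Set X} {D k : ℕ} {n : Type} [Fintype n]
    [DecidableEq n] {p : n → X} {a : Matrix n n (MonoidAlgebra L G)}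
    (h : Triv L Sm N Ω D k n p a) : ∀ i, p i ∈ Ω := by
  induction h with
  | elem p q x hp hq _ =>
    rintro (i | i)
    · exact hp i
    · exact hq i
  | mono p σ γ hp _ => exact hp
  | block p a a' E hp _ _ _ _ _ _ => exact hp
  | mul p a b _ _ ih _ => exact ih
  | iso p q σ γ a hq _ _ _ => exact hq
  | sum p q a b _ _ ih1 ih2 =>
    rintro (i | i)
    · exact ih1 i
    · exact ih2 i
  | stab p q a hp _ _ _ => exact hp

private theorem SiTriv_single (L G : Type) [CommRing L] [Group G] (γ : G) (s : ℤ) (hs : s ≠ 0) :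
    (lauG L G).cf s (MonoidAlgebra.single γ 1) = 0 := by
  classical
  ext γ'
  rw [lauG_cf, MonoidAlgebra.coeff_single, Finsupp.single_apply]
  split_ifs
  · rw [HahnSeries.coeff_one, if_neg hs]
    rfl
  · rfl

private theorem SiTriv_mon (L G : Type) [CommRing L] [Group G] {n m : Type} [DecidableEq m]
    (σ : n ≃ m) (γ : n → G) : (lauG L G).Pole 0 (mon (LaurentSeries L) σ γ) := by
  intro i j s hs
  have hs0 : s ≠ 0 := by
    intro h
    rw [h] at hs
    simp at hs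
  unfold mon
  split_ifs
  · exact SiTriv_single L G _ s hs0
  · exact map_zero _

private theorem SiTriv_moni (L G : Type) [CommRing L] [Group G] {n m : Type} [DecidableEq m]
    (σ : n ≃ m) (γ : n → G) : (lauG L G).Pole 0 (moni (LaurentSeries L) σ γ) := by
  intro i j s hs
  have hs0 : s ≠ 0 := by
    intro h
    rw [h] at hs
    simp at hs
  unfold moni
  split_ifs
  · exact SiTriv_single L G _ s hs0
  · exact map_zero _

theorem siTriv : S_siMul → S_siA → S_siElem → S_siBlock → S_siSum → S_siIso → S_siTriv := by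
  intro hMul hA hElem hBlock hSum hIso k
  refine ⟨400 ^ (k + 1), ?_⟩
  intro L G X _ _ _ _ hL Sm hSm N Ω D n _ _ p a h
  induction h with
  | elem p q x hp hq hx =>
    obtain ⟨m, hm⟩ := hElem L G X N Ω D _ _ p q x hp hq hx
    refine ⟨m, ?_⟩
    rw [zero_add, pow_one]
    exact hm
  | mono p σ γ hp hγ =>
    refine ⟨0, ?_⟩
    have h1 := (hA L G X N Ω Ω D (400 ^ (0 + 1) * D) 0 0 _ p (mon (LaurentSeries L) σ γ)
      (moni (LaurentSeries L) σ γ))
    refine h1.1 (le_refl _) (by omega) (h1.2.2.1 (mon_mul_moni σ γ) (moni_mul_mon σ γ)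
      (SiTriv_mon L G σ γ) (SiTriv_moni L G σ γ) (supR_mon σ γ hγ)
      (supR_moni (fun _ _ h => N.symm h) (fun g _ _ h => N.inv g h) σ γ hγ))
  | block p a a' E hp h1 h2 h3 h4 h5 h6 =>
    obtain ⟨m, hm⟩ := hBlock L G X hL N Ω D _ p a a' E hp h1 h2 h3 h4 (fun i => hSm _ (h5 i)) h6
    exact ⟨m, (hA L G X N Ω Ω D (400 ^ (0 + 1) * D) m 0 _ p a a').1 (le_refl _) (by omega) hm⟩
  | @mul k n _ _ p a b _ _ ih1 ih2 =>
    obtain ⟨m1, hm1⟩ := ih1
    obtain ⟨m2, hm2⟩ := ih2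
    have h3 := hMul L G X N Ω (400 ^ (k + 1) * D) m1 m2 n p a b hm1 hm2
    refine ⟨m1 + m2, (hA L G X N Ω Ω _ _ (m1 + m2) 0 _ p (a * b) 1).1 (le_refl _) ?_ h3⟩
    rw [pow_succ 400 (k + 1)]
    nlinarith [Nat.zero_le (400 ^ (k + 1) * D)]
  | @iso k n m _ _ _ _ p q σ γ a hq hγ _ ih =>
    obtain ⟨m1, hm1⟩ := ih
    have h3 := hIso L G X N Ω (400 ^ (k + 1) * D) m1 n m p q σ γ a (fun i => N.mono
      (Nat.le_mul_of_pos_left D (pow_pos (by norm_num) _)) (hγ i)) hm1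
    refine ⟨m1, (hA L G X N Ω Ω _ _ m1 0 _ q _ 1).1 (le_refl _) ?_ h3⟩
    rw [pow_succ 400 (k + 1)]
    nlinarith [Nat.zero_le (400 ^ (k + 1) * D)]
  | @sum k n m _ _ _ _ p q a b h1 h2 ih1 ih2 =>
    obtain ⟨m1, hm1⟩ := ih1
    obtain ⟨m2, hm2⟩ := ih2
    have h3 := (hA L G X N Ω Ω (400 ^ (k + 1) * D) 0 m1 (max m1 m2) _ p a 1).2.2.2
      (le_max_left _ _) (SiTriv_pos h1) hm1
    have h4 := (hA L G X N Ω Ω (400 ^ (k + 1) * D) 0 m2 (max m1 m2) _ q b 1).2.2.2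
      (le_max_right _ _) (SiTriv_pos h2) hm2
    have h5 := (hSum L G X N Ω _ (max m1 m2) n m p q a b).1 h3 h4
    refine ⟨max m1 m2, (hA L G X N Ω Ω _ _ (max m1 m2) 0 _ _ _ 1).1 (le_refl _) ?_ h5⟩
    rw [pow_succ 400 (k + 1)]
    nlinarith [Nat.zero_le (400 ^ (k + 1) * D)]
  | @stab k n m _ _ _ _ p q a hp hq _ ih =>
    obtain ⟨m1, hm1⟩ := ih
    have h5 := (hSum L G X N Ω _ m1 n m p q a 1).2 hq hm1
    refine ⟨m1, (hA L G X N Ω Ω _ _ m1 0 _ _ _ 1).1 (le_refl _) ?_ h5⟩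
    rw [pow_succ 400 (k + 1)]
    nlinarith [Nat.zero_le (400 ^ (k + 1) * D)]

end Pool.Agent.FH
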