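import Pool.Agent.Lib.MP_8f66f0_al_FH.CSpec

/-! Stably free images: monotonicity, isomorphic images, sums. -/

set_option autoImplicit false

namespace Pool.Agent.FH

theorem stm : S_stm := by
  intro L G X _ _ _ N Ω Ω' D D' n _ _ p q hΩ hD h
  obtain ⟨n₁, n₂, i1, i2, i3, i4, p₁, p₂, u, v, h1, h2, h3, h4, h5, h6⟩ := h
  exact ⟨n₁, n₂, i1, i2, i3, i4, p₁, p₂, u, v, fun i => hΩ (h1 i), fun i => hΩ (h2 i),
    h3.near_mono hD, h4.near_mono hD, h5, h6⟩

theorem sti : S_sti := by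
  intro L G X _ _ _ N Ω r D n n' _ _ _ _ p p' q q' u v hq huv hvu hu hv h
  obtain ⟨n₁, n₂, i1, i2, i3, i4, p₁, p₂, U, V, h1, h2, h3, h4, h5, h6⟩ := h
  have hone : SupR (L := L) (G := G) (N.near r) p₁ p₁ (1 : Matrix n₁ n₁ (MonoidAlgebra L G)) :=
    SupR.one fun x => N.refl r x
  obtain ⟨A, hA⟩ : ∃ A : Matrix (n ⊕ n₁) (n' ⊕ n₁) (MonoidAlgebra L G),
    A = Matrix.fromBlocks u 0 0 1 := ⟨_, rfl⟩
  obtain ⟨B, hB⟩ : ∃ B : Matrix (n' ⊕ n₁) (n ⊕ n₁) (MonoidAlgebra L G),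
    B = Matrix.fromBlocks v 0 0 1 := ⟨_, rfl⟩
  have hAs : SupR (N.near r) (Sum.elim p p₁) (Sum.elim p' p₁) A := by
    rw [hA]
    exact SupR.fromBlocks hu SupR.zero SupR.zero hone
  have hBs : SupR (N.near r) (Sum.elim p' p₁) (Sum.elim p p₁) B := by
    rw [hB]
    exact SupR.fromBlocks hv SupR.zero SupR.zero hone
  refine ⟨n₁, n₂, i1, i2, i3, i4, p₁, p₂, A * U, V * B, h1, h2, ?_, ?_, ?_, ?_⟩
  · exact SupR.near_mul hAs h3
  · have h7 := SupR.near_mul h4 hBs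
    rw [add_comm] at h7
    exact h7
  · have e1 : A * U * (V * B) = A * (U * V) * B := by
      simp only [Matrix.mul_assoc]
    have e2 : u * q' * v = q := by
      rw [← hvu, ← Matrix.mul_assoc, huv, Matrix.mul_assoc, huv, hq]
    rw [e1, h5, hA, hB, Matrix.fromBlocks_multiply, Matrix.fromBlocks_multiply]
    simp only [Matrix.mul_zero, Matrix.zero_mul, add_zero, zero_add, Matrix.mul_one, e2]
  · have e1 : V * B * (A * U) = V * (B * A) * U := by
      simp only [Matrix.mul_assoc]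
    have e2 : B * A = Matrix.fromBlocks q' 0 0 1 := by
      rw [hA, hB, Matrix.fromBlocks_multiply]
      simp only [Matrix.mul_zero, Matrix.zero_mul, add_zero, zero_add, Matrix.mul_one, hvu]
    rw [e1, e2, ← h5, ← Matrix.mul_assoc, h6, Matrix.one_mul, h6]

theorem sts : S_sts := by
  intro L G X _ _ _ N Ω D n n' _ _ _ _ p p' q q' h h'
  obtain ⟨n₁, n₂, i1, i2, i3, i4, p₁, p₂, U, V, h1, h2, h3, h4, h5, h6⟩ := h
  obtain ⟨m₁, m₂, j1, j2, j3, j4, r₁, r₂, U', V', k1, k2, k3, k4, k5, k6⟩ := h'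
  refine ⟨n₁ ⊕ m₁, n₂ ⊕ m₂, inferInstance, inferInstance, inferInstance, inferInstance,
    Sum.elim p₁ r₁, Sum.elim p₂ r₂,
    (Matrix.fromBlocks U 0 0 U').submatrix (Equiv.sumSumSumComm n n' n₁ m₁) (Equiv.refl _),
    (Matrix.fromBlocks V 0 0 V').submatrix (Equiv.refl _) (Equiv.sumSumSumComm n n' n₁ m₁),
    ?_, ?_, ?_, ?_, ?_, ?_⟩
  · rintro (i | i)
    · exact h1 i
    · exact k1 i
  · rintro (i | i)
    · exact h2 i
    · exact k2 i
  · have h7 := (SupR.fromBlocks h3 SupR.zero SupR.zero k3).submatrix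
      (Equiv.sumSumSumComm n n' n₁ m₁) (Equiv.refl (n₂ ⊕ m₂))
    have e1 : (fun i => Sum.elim (Sum.elim p p₁) (Sum.elim p' r₁)
        (Equiv.sumSumSumComm n n' n₁ m₁ i)) = Sum.elim (Sum.elim p p') (Sum.elim p₁ r₁) := by
      funext i
      rcases i with (i | i) | (i | i) <;> rfl
    rw [e1] at h7
    exact h7
  · have h7 := (SupR.fromBlocks h4 SupR.zero SupR.zero k4).submatrix (Equiv.refl (n₂ ⊕ m₂))
      (Equiv.sumSumSumComm n n' n₁ m₁)
    have e1 : (fun i => Sum.elim (Sum.elim p p₁) (Sum.elim p' r₁)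
        (Equiv.sumSumSumComm n n' n₁ m₁ i)) = Sum.elim (Sum.elim p p') (Sum.elim p₁ r₁) := by
      funext i
      rcases i with (i | i) | (i | i) <;> rfl
    rw [e1] at h7
    exact h7
  · rw [Matrix.submatrix_mul_equiv, Matrix.fromBlocks_multiply]
    simp only [Matrix.mul_zero, Matrix.zero_mul, add_zero, zero_add, h5, k5]
    ext i j : 2
    rcases i with (i | i) | (i | i) <;> rcases j with (j | j) | (j | j) <;>
      simp [Equiv.sumSumSumComm, Matrix.one_apply]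
  · rw [Matrix.submatrix_mul_equiv, Matrix.fromBlocks_multiply]
    simp only [Matrix.mul_zero, Matrix.zero_mul, add_zero, zero_add, h6, k6,
      Matrix.fromBlocks_one]
    rfl

end Pool.Agent.FH
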