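import Pool.Agent.Lib.MP_8f66f0_al_FH.CSpec

/-! Stably free images: coordinate projections, cancellation, complements. -/

set_option autoImplicit false

namespace Pool.Agent.FH

open Classical in
theorem stc : S_stc := by
  intro L G X _ _ _ N Ω D n _ _ p P hp
  have hone : SupR (L := L) (G := G) (N.near D) p p (1 : Matrix n n (MonoidAlgebra L G)) :=
    SupR.one fun x => N.refl D x
  have key : ∀ (P : n → Prop) (i j : n), (∑ x : {i // P i}, (1 : Matrix n n (MonoidAlgebra L G)) i x *
      (1 : Matrix n n (MonoidAlgebra L G)) x j) = if i = j ∧ P i then 1 else 0 := by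
    intro P i j
    by_cases hi : P i
    · rw [Finset.sum_eq_single (⟨i, hi⟩ : {i // P i})]
      · by_cases hij : i = j
        · subst hij
          simp [hi]
        · simp [hij]
      · intro b _ hb
        have h1 : i ≠ (b : n) := fun h => hb (Subtype.ext h.symm)
        rw [Matrix.one_apply_ne h1, zero_mul]
      · intro h
        exact absurd (Finset.mem_univ _) h
    · rw [if_neg fun h => hi h.2]
      refine Finset.sum_eq_zero fun b _ => ?_
      have h1 : i ≠ (b : n) := fun h => hi (h ▸ b.2)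
      rw [Matrix.one_apply_ne h1, zero_mul]
  refine ⟨Empty, {i // P i}, inferInstance, inferInstance, inferInstance, inferInstance,
    fun e => e.elim, fun i => p i,
    (Matrix.of fun (x : n ⊕ Empty) (k : {i // P i}) =>
      (1 : Matrix n n (MonoidAlgebra L G)) (Sum.elim id (fun e => e.elim) x) k),
    (Matrix.of fun (k : {i // P i}) (x : n ⊕ Empty) =>
      (1 : Matrix n n (MonoidAlgebra L G)) k (Sum.elim id (fun e => e.elim) x)),
    fun e => e.elim, fun i => hp i, ?_, ?_, ?_, ?_⟩
  · rintro (i | e) j γ hγ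
    · exact hone i j γ hγ
    · exact e.elim
  · rintro i (j | e) γ hγ
    · exact hone i j γ hγ
    · exact e.elim
  · refine Matrix.ext fun x y => ?_
    rcases x with i | e
    · rcases y with j | e
      · rw [Matrix.mul_apply]
        refine (key P i j).trans ?_
        rw [Matrix.fromBlocks_apply₁₁, Matrix.diagonal_apply]
        by_cases hij : i = j
        · simp [hij]
        · simp [hij]
      · exact e.elim
    · exact e.elim
  · refine Matrix.ext fun x y => ?_
    rw [Matrix.mul_apply, Fintype.sum_sum_type]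
    simp only [Finset.univ_eq_empty, Finset.sum_empty, add_zero, Matrix.of_apply]
    have h1 : ∑ i : n, (1 : Matrix n n (MonoidAlgebra L G)) x i *
        (1 : Matrix n n (MonoidAlgebra L G)) i y =
        ((1 : Matrix n n (MonoidAlgebra L G)) * (1 : Matrix n n (MonoidAlgebra L G)) :
          Matrix n n (MonoidAlgebra L G)) x y := (Matrix.mul_apply).symm
    refine Eq.trans h1 ?_
    rw [Matrix.mul_one]
    by_cases hxy : x = y
    · subst hxy
      rw [Matrix.one_apply_eq, Matrix.one_apply_eq]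
    · rw [Matrix.one_apply_ne hxy, Matrix.one_apply_ne fun h => hxy (Subtype.ext h)]

open Classical in
theorem stx : S_stx := by
  intro L G X _ _ _ N Ω D n n' _ _ _ _ p p' q P hp' h
  obtain ⟨n₁, n₂, i1, i2, i3, i4, p₁, p₂, U, V, h1, h2, h3, h4, h5, h6⟩ := h
  obtain ⟨f, hf⟩ : ∃ f : n ⊕ ({i // P i} ⊕ n₁) → (n ⊕ n') ⊕ n₁,
      f = Sum.elim (fun i : n => (Sum.inl (Sum.inl i) : (n ⊕ n') ⊕ n₁))
        (Sum.elim (fun i : {i // P i} => (Sum.inl (Sum.inr (i : n')) : (n ⊕ n') ⊕ n₁))
          fun i : n₁ => (Sum.inr i : (n ⊕ n') ⊕ n₁)) :=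
    Exists.intro (Sum.elim (fun i : n => (Sum.inl (Sum.inl i) : (n ⊕ n') ⊕ n₁))
        (Sum.elim (fun i : {i // P i} => (Sum.inl (Sum.inr (i : n')) : (n ⊕ n') ⊕ n₁))
          fun i : n₁ => (Sum.inr i : (n ⊕ n') ⊕ n₁))) rfl
  have hfi : Function.Injective f := by
    rw [hf]
    rintro (x | x | x) (y | y | y) hxy
    · exact congrArg Sum.inl (Sum.inl_injective (Sum.inl_injective hxy))
    · exact absurd (Sum.inl_injective hxy) Sum.inl_ne_inr
    · exact absurd hxy Sum.inl_ne_inr
    · exact absurd (Sum.inl_injective hxy) Sum.inr_ne_inl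
    · exact congrArg (fun z => Sum.inr (Sum.inl z))
        (Subtype.ext (Sum.inr_injective (Sum.inl_injective hxy)))
    · exact absurd hxy Sum.inl_ne_inr
    · exact absurd hxy Sum.inr_ne_inl
    · exact absurd hxy Sum.inr_ne_inl
    · exact congrArg (fun z => Sum.inr (Sum.inr z)) (Sum.inr_injective hxy)
  have hpos : (fun i => Sum.elim (Sum.elim p p') p₁ (f i)) =
      Sum.elim p (Sum.elim (fun i : {i // P i} => p' i) p₁) := by
    funext x
    rw [hf]
    rcases x with x | x | x <;> rfl
  refine ⟨{i // P i} ⊕ n₁, n₂, inferInstance, inferInstance, i3, i4,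
    Sum.elim (fun i : {i // P i} => p' i) p₁, p₂, U.submatrix f id, V.submatrix id f,
    ?_, h2, ?_, ?_, ?_, ?_⟩
  · rintro (i | i)
    · exact hp' i
    · exact h1 i
  · have h7 := h3.submatrix f (id : n₂ → n₂)
    rw [hpos] at h7
    exact h7
  · have h7 := h4.submatrix (id : n₂ → n₂) f
    rw [hpos] at h7
    exact h7
  · have e1 : U.submatrix f id * V.submatrix id f = (U * V).submatrix f f := rfl
    rw [e1, h5]
    refine Matrix.ext fun x y => ?_
    rw [hf]
    rcases x with x | x | x <;> rcases y with y | y | y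
    · rfl
    · rfl
    · rfl
    · rfl
    · simp only [Matrix.submatrix_apply, Sum.elim_inl, Sum.elim_inr, Matrix.fromBlocks_apply₁₁,
        Matrix.fromBlocks_apply₂₂, Matrix.diagonal_apply]
      by_cases hxy : x = y
      · subst hxy
        simp [x.2]
      · have h7 : (x : n') ≠ y := fun h => hxy (Subtype.ext h)
        simp [h7, hxy]
    · simp
    · rfl
    · simp
    · simp [Matrix.one_apply]
  · refine Matrix.ext fun k l => ?_
    rw [← h6, Matrix.mul_apply, Matrix.mul_apply]
    refine Fintype.sum_of_injective f hfi _ _ ?_ ?_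
    · intro x hx
      have hUx : U x l = 0 := by
        have h7 : U = (U * V) * U := by
          rw [Matrix.mul_assoc, h6, Matrix.mul_one]
        rw [h7, h5, Matrix.mul_apply]
        refine Finset.sum_eq_zero fun y _ => ?_
        rcases x with (x | x) | x
        · exact absurd ⟨Sum.inl x, by rw [hf]; rfl⟩ hx
        · have hPx : ¬ P x := fun hx' => hx ⟨Sum.inr (Sum.inl ⟨x, hx'⟩), by rw [hf]; rfl⟩
          rcases y with (y | y) | y
          · simp
          · simp [Matrix.diagonal_apply, hPx]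
          · simp
        · exact absurd ⟨Sum.inr (Sum.inr x), by rw [hf]; rfl⟩ hx
      rw [hUx, mul_zero]
    · intro x
      rfl

theorem stn : S_stn := by
  intro L G X _ _ _ N Ω r D n _ _ p q hp hq hqs h
  obtain ⟨n₁, n₂, i1, i2, i3, i4, p₁, p₂, U, V, h1, h2, h3, h4, h5, h6⟩ := h
  obtain ⟨Un, hUn⟩ : ∃ A : Matrix n n₂ (MonoidAlgebra L G),
    A = Matrix.of fun i k => U (Sum.inl i) k := ⟨_, rfl⟩
  obtain ⟨U1, hU1⟩ : ∃ A : Matrix n₁ n₂ (MonoidAlgebra L G),
    A = Matrix.of fun i k => U (Sum.inr i) k := ⟨_, rfl⟩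
  obtain ⟨Vn, hVn⟩ : ∃ A : Matrix n₂ n (MonoidAlgebra L G),
    A = Matrix.of fun k i => V k (Sum.inl i) := ⟨_, rfl⟩
  obtain ⟨V1, hV1⟩ : ∃ A : Matrix n₂ n₁ (MonoidAlgebra L G),
    A = Matrix.of fun k i => V k (Sum.inr i) := ⟨_, rfl⟩
  have e11 : Un * Vn = 1 - q := by
    refine Matrix.ext fun i j => ?_
    have h7 := congrFun (congrFun h5 (Sum.inl i)) (Sum.inl j)
    rw [hUn, hVn]
    exact h7
  have e12 : Un * V1 = 0 := by
    refine Matrix.ext fun i j => ?_
    have h7 := congrFun (congrFun h5 (Sum.inl i)) (Sum.inr j)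
    rw [hUn, hV1]
    exact h7
  have e21 : U1 * Vn = 0 := by
    refine Matrix.ext fun i j => ?_
    have h7 := congrFun (congrFun h5 (Sum.inr i)) (Sum.inl j)
    rw [hU1, hVn]
    exact h7
  have e22 : U1 * V1 = 1 := by
    refine Matrix.ext fun i j => ?_
    have h7 := congrFun (congrFun h5 (Sum.inr i)) (Sum.inr j)
    rw [hU1, hV1]
    exact h7
  have e0 : Vn * Un + V1 * U1 = 1 := by
    refine Matrix.ext fun k l => ?_
    have h7 := congrFun (congrFun h6 k) l
    rw [Matrix.mul_apply, Fintype.sum_sum_type] at h7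
    rw [hUn, hVn, hU1, hV1]
    exact h7
  have e3 : q * Un = 0 := by
    have h7 : Un = (1 - q) * Un := by
      rw [← e11, Matrix.mul_assoc]
      have h8 : Un * (Vn * Un + V1 * U1) = Un := by rw [e0, Matrix.mul_one]
      rw [Matrix.mul_add, ← Matrix.mul_assoc Un V1, e12, Matrix.zero_mul, add_zero] at h8
      exact h8.symm
    rw [h7, ← Matrix.mul_assoc, Matrix.mul_sub, Matrix.mul_one, hq, sub_self, Matrix.zero_mul]
  have e4 : Vn * q = 0 := by
    have h7 : Vn = Vn * (1 - q) := by
      rw [← e11, ← Matrix.mul_assoc]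
      have h8 : (Vn * Un + V1 * U1) * Vn = Vn := by rw [e0, Matrix.one_mul]
      rw [Matrix.add_mul, Matrix.mul_assoc V1, e21, Matrix.mul_zero, add_zero] at h8
      exact h8.symm
    rw [h7, Matrix.mul_assoc, Matrix.sub_mul, Matrix.one_mul, hq, sub_self, Matrix.mul_zero]
  have sUn : SupR (N.near (max r D)) p p₂ Un := by
    rw [hUn]
    exact fun i j γ hγ => N.mono (le_max_right r D) (h3 (Sum.inl i) j γ hγ)
  have sU1 : SupR (N.near (max r D)) p₁ p₂ U1 := by
    rw [hU1]
    exact fun i j γ hγ => N.mono (le_max_right r D) (h3 (Sum.inr i) j γ hγ)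
  have sVn : SupR (N.near (max r D)) p₂ p Vn := by
    rw [hVn]
    exact fun i j γ hγ => N.mono (le_max_right r D) (h4 i (Sum.inl j) γ hγ)
  have sV1 : SupR (N.near (max r D)) p₂ p₁ V1 := by
    rw [hV1]
    exact fun i j γ hγ => N.mono (le_max_right r D) (h4 i (Sum.inr j) γ hγ)
  have sq : SupR (N.near (max r D)) p p q := hqs.near_mono (le_max_left r D)
  refine ⟨n₂, n ⊕ n₁, i3, i4, inferInstance, inferInstance, p₂, Sum.elim p p₁,
    Matrix.fromBlocks q 0 Vn V1, Matrix.fromBlocks q Un 0 U1, h2, ?_, ?_, ?_, ?_, ?_⟩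
  · rintro (i | i)
    · exact hp i
    · exact h1 i
  · exact SupR.fromBlocks sq SupR.zero sVn sV1
  · exact SupR.fromBlocks sq sUn SupR.zero sU1
  · rw [Matrix.fromBlocks_multiply]
    simp only [Matrix.mul_zero, Matrix.zero_mul, add_zero, hq, e3, e4, e0]
  · rw [Matrix.fromBlocks_multiply]
    simp only [Matrix.mul_zero, Matrix.zero_mul, add_zero, zero_add, hq, e11, e12, e21, e22]
    rw [add_sub_cancel, Matrix.fromBlocks_one]

end Pool.Agent.FH
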