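import Pool.Agent.Lib.MP_8f66f0_al_FH.CSpec

/-! Part 2 of Theorem FH: the induction step of the control theorem for `K_1`. -/

set_option autoImplicit false

namespace Pool.Agent.FH

open Pool.Agent.Wald Pool.Agent.WaldL Pool.Agent.Ind

section Sub

variable {S n : Type} [Ring S] [Fintype n] [DecidableEq n]

omit [Fintype n] in
private theorem Step_one (T : n → Prop) (x y : {x // T x}) :
    (1 : Matrix n n S) x.1 y.1 = (1 : Matrix {x // T x} {x // T x} S) x y := by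
  rw [Matrix.one_apply, Matrix.one_apply]
  by_cases h : x = y
  · rw [if_pos h, if_pos (congrArg Subtype.val h)]
  · rw [if_neg h, if_neg fun h' => h (Subtype.ext h')]

private theorem Step_sub (T : n → Prop) [DecidablePred T] (b b' : Matrix n n S) (h : b * b' = 1)
    (hb : ∀ x y, b x y ≠ 0 → T x → T y) :
    b.submatrix (Subtype.val : {x // T x} → n) (Subtype.val : {x // T x} → n) *
      b'.submatrix (Subtype.val : {x // T x} → n) (Subtype.val : {x // T x} → n) = 1 := by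
  ext x y
  rw [Matrix.mul_apply]
  have h1 : (b * b') x.1 y.1 = (1 : Matrix n n S) x.1 y.1 := by rw [h]
  rw [Matrix.mul_apply, ← Fintype.sum_subtype_add_sum_subtype T, Step_one] at h1
  have h2 : ∑ z : {z // ¬ T z}, b x.1 z.1 * b' z.1 y.1 = 0 := Finset.sum_eq_zero fun z _ => by
    have h3 : b x.1 z.1 = 0 := by
      by_contra hc
      exact z.2 (hb _ _ hc x.2)
    rw [h3, zero_mul]
  rw [h2, add_zero] at h1
  exact h1

private theorem Step_sub' (T : n → Prop) [DecidablePred T] (b b' : Matrix n n S)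
    (h : b' * b = 1) (hb : ∀ x y, b x y ≠ 0 → T y → T x) :
    b'.submatrix (Subtype.val : {x // T x} → n) (Subtype.val : {x // T x} → n) *
      b.submatrix (Subtype.val : {x // T x} → n) (Subtype.val : {x // T x} → n) = 1 := by
  ext x y
  rw [Matrix.mul_apply]
  have h1 : (b' * b) x.1 y.1 = (1 : Matrix n n S) x.1 y.1 := by rw [h]
  rw [Matrix.mul_apply, ← Fintype.sum_subtype_add_sum_subtype T, Step_one] at h1
  have h2 : ∑ z : {z // ¬ T z}, b' x.1 z.1 * b z.1 y.1 = 0 := Finset.sum_eq_zero fun z _ => by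
    have h3 : b z.1 y.1 = 0 := by
      by_contra hc
      exact z.2 (hb _ _ hc y.2)
    rw [h3, mul_zero]
  rw [h2, add_zero] at h1
  exact h1

/-- Extension by zero of the rows outside `W`. -/
private def Step_eu {m f₁ f₂ : Type} (W : m → Prop) [DecidablePred W]
    (u : Matrix ({i // W i} ⊕ f₁) f₂ S) : Matrix (m ⊕ f₁) f₂ S :=
  fun x j => Sum.elim (fun i => if h : W i then u (Sum.inl ⟨i, h⟩) j else 0)
    (fun y => u (Sum.inr y) j) x

/-- Extension by zero of the columns outside `W`. -/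
private def Step_ev {m f₁ f₂ : Type} (W : m → Prop) [DecidablePred W]
    (v : Matrix f₂ ({i // W i} ⊕ f₁) S) : Matrix f₂ (m ⊕ f₁) S :=
  fun j x => Sum.elim (fun i => if h : W i then v j (Sum.inl ⟨i, h⟩) else 0)
    (fun y => v j (Sum.inr y)) x

variable {m f₁ f₂ : Type} {W : m → Prop} [DecidablePred W]

omit [Fintype n] [DecidableEq n] in
private theorem Step_vu [Fintype m] [Fintype f₁] (u : Matrix ({i // W i} ⊕ f₁) f₂ S)
    (v : Matrix f₂ ({i // W i} ⊕ f₁) S) : Step_ev W v * Step_eu W u = v * u := by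
  ext j j'
  rw [Matrix.mul_apply, Matrix.mul_apply, Fintype.sum_sum_type, Fintype.sum_sum_type]
  have h1 : ∑ i : m, Step_ev W v j (Sum.inl i) * Step_eu W u (Sum.inl i) j' =
      ∑ w : {i // W i}, v j (Sum.inl w) * u (Sum.inl w) j' := by
    rw [← Fintype.sum_subtype_add_sum_subtype W]
    have h2 : ∑ z : {z // ¬ W z}, Step_ev W v j (Sum.inl z.1) * Step_eu W u (Sum.inl z.1) j' = 0 :=
      Finset.sum_eq_zero fun z _ => by
        have h3 : Step_ev W v j (Sum.inl z.1) = 0 := dif_neg z.2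
        rw [h3, zero_mul]
    rw [h2, add_zero]
    refine Finset.sum_congr rfl fun w _ => ?_
    have h3 : Step_ev W v j (Sum.inl w.1) = v j (Sum.inl w) := dif_pos w.2
    have h4 : Step_eu W u (Sum.inl w.1) j' = u (Sum.inl w) j' := dif_pos w.2
    rw [h3, h4]
  rw [h1]
  rfl

omit [Fintype n] [DecidableEq n] in
private theorem Step_uv [Fintype f₂] [DecidableEq f₁] (q : Matrix m m S)
    (u : Matrix ({i // W i} ⊕ f₁) f₂ S) (v : Matrix f₂ ({i // W i} ⊕ f₁) S)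
    (h : u * v = Matrix.fromBlocks (q.submatrix Subtype.val Subtype.val) 0 0 1) :
    Step_eu W u * Step_ev W v =
      Matrix.fromBlocks (Matrix.of fun i k => if W i ∧ W k then q i k else 0) 0 0 1 := by
  have key : ∀ x y, ∑ j, u x j * v j y =
      (Matrix.fromBlocks (q.submatrix Subtype.val Subtype.val) 0 0 1 :
        Matrix ({i // W i} ⊕ f₁) ({i // W i} ⊕ f₁) S) x y := by
    intro x y
    rw [← h, Matrix.mul_apply]
  ext x y
  rw [Matrix.mul_apply]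
  rcases x with i | i <;> rcases y with k | k
  · rw [Matrix.fromBlocks_apply₁₁, Matrix.of_apply]
    by_cases hi : W i
    · by_cases hk : W k
      · rw [if_pos ⟨hi, hk⟩]
        have h1 : ∀ j, Step_eu W u (Sum.inl i) j = u (Sum.inl ⟨i, hi⟩) j := fun j => dif_pos hi
        have h2 : ∀ j, Step_ev W v j (Sum.inl k) = v j (Sum.inl ⟨k, hk⟩) := fun j => dif_pos hk
        simp only [h1, h2]
        exact key (Sum.inl ⟨i, hi⟩) (Sum.inl ⟨k, hk⟩)
      · rw [if_neg fun h' => hk h'.2]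
        refine Finset.sum_eq_zero fun j _ => ?_
        have h2 : Step_ev W v j (Sum.inl k) = 0 := dif_neg hk
        rw [h2, mul_zero]
    · rw [if_neg fun h' => hi h'.1]
      refine Finset.sum_eq_zero fun j _ => ?_
      have h2 : Step_eu W u (Sum.inl i) j = 0 := dif_neg hi
      rw [h2, zero_mul]
  · rw [Matrix.fromBlocks_apply₁₂]
    by_cases hi : W i
    · have h1 : ∀ j, Step_eu W u (Sum.inl i) j = u (Sum.inl ⟨i, hi⟩) j := fun j => dif_pos hi
      simp only [h1]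
      exact key (Sum.inl ⟨i, hi⟩) (Sum.inr k)
    · refine Finset.sum_eq_zero fun j _ => ?_
      have h2 : Step_eu W u (Sum.inl i) j = 0 := dif_neg hi
      rw [h2, zero_mul]
  · rw [Matrix.fromBlocks_apply₂₁]
    by_cases hk : W k
    · have h2 : ∀ j, Step_ev W v j (Sum.inl k) = v j (Sum.inl ⟨k, hk⟩) := fun j => dif_pos hk
      simp only [h2]
      exact key (Sum.inr i) (Sum.inl ⟨k, hk⟩)
    · refine Finset.sum_eq_zero fun j _ => ?_
      have h2 : Step_ev W v j (Sum.inl k) = 0 := dif_neg hk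
      rw [h2, mul_zero]
  · rw [Matrix.fromBlocks_apply₂₂]
    exact key (Sum.inr i) (Sum.inr k)

end Sub

section Sup

variable {L G X : Type} [CommRing L] [Group G] [MulAction G X]

private theorem Step_mon {n : Type} [DecidableEq n] {σ : n ≃ n} {γ : n → G} {x y : n} {g : G}
    (h : (mon L σ γ x y).coeff g ≠ 0) : σ x = y ∧ γ x = g := by
  classical
  unfold mon at h
  by_cases hxy : σ x = y
  · rw [if_pos hxy, MonoidAlgebra.coeff_single, Finsupp.single_apply] at h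
    refine ⟨hxy, ?_⟩
    by_contra hg
    rw [if_neg hg] at h
    exact h rfl
  · rw [if_neg hxy] at h
    exact absurd rfl h

private theorem Step_moni {n : Type} [DecidableEq n] {σ : n ≃ n} {γ : n → G} {x y : n} {g : G}
    (h : (moni L σ γ y x).coeff g ≠ 0) : σ x = y ∧ (γ x)⁻¹ = g := by
  classical
  unfold moni at h
  by_cases hxy : σ x = y
  · rw [if_pos hxy, MonoidAlgebra.coeff_single, Finsupp.single_apply] at h
    refine ⟨hxy, ?_⟩
    by_contra hg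
    rw [if_neg hg] at h
    exact h rfl
  · rw [if_neg hxy] at h
    exact absurd rfl h

private theorem Step_ne {n m k : Type} [Fintype m] {a : Matrix n m (MonoidAlgebra L G)}
    {b : Matrix m k (MonoidAlgebra L G)} {i : n} {j : k} {g : G} (h : ((a * b) i j).coeff g ≠ 0) :
    ∃ (l : m) (g₁ g₂ : G), g₁ * g₂ = g ∧ (a i l).coeff g₁ ≠ 0 ∧ (b l j).coeff g₂ ≠ 0 := by
  rw [Matrix.mul_apply] at h
  obtain ⟨l, -, hl⟩ := sum_coeff_ne h
  obtain ⟨γ₁, γ₂, h0, h1, h2⟩ := mul_coeff_ne hl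
  exact ⟨l, γ₁, γ₂, h0, h1, h2⟩

private theorem Step_eus {m f₁ f₂ : Type} {W : m → Prop} [DecidablePred W] {E : X → X → Prop}
    {p : m → X} {p₁ : f₁ → X} {p₂ : f₂ → X} {u : Matrix ({i // W i} ⊕ f₁) f₂ (MonoidAlgebra L G)}
    (hu : SupR E (Sum.elim (fun i : {i // W i} => p i) p₁) p₂ u) :
    SupR E (Sum.elim p p₁) p₂ (Step_eu W u) := by
  rintro (i | y) j γ h
  · by_cases hi : W i
    · have h1 : Step_eu W u (Sum.inl i) j = u (Sum.inl ⟨i, hi⟩) j := dif_pos hi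
      rw [h1] at h
      exact hu (Sum.inl ⟨i, hi⟩) j γ h
    · have h1 : Step_eu W u (Sum.inl i) j = 0 := dif_neg hi
      rw [h1] at h
      exact absurd rfl h
  · exact hu (Sum.inr y) j γ h

private theorem Step_evs {m f₁ f₂ : Type} {W : m → Prop} [DecidablePred W] {E : X → X → Prop}
    {p : m → X} {p₁ : f₁ → X} {p₂ : f₂ → X} {v : Matrix f₂ ({i // W i} ⊕ f₁) (MonoidAlgebra L G)}
    (hv : SupR E p₂ (Sum.elim (fun i : {i // W i} => p i) p₁) v) :
    SupR E p₂ (Sum.elim p p₁) (Step_ev W v) := by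
  rintro j (i | y) γ h
  · by_cases hi : W i
    · have h1 : Step_ev W v j (Sum.inl i) = v j (Sum.inl ⟨i, hi⟩) := dif_pos hi
      rw [h1] at h
      exact hv j (Sum.inl ⟨i, hi⟩) γ h
    · have h1 : Step_ev W v j (Sum.inl i) = 0 := dif_neg hi
      rw [h1] at h
      exact absurd rfl h
  · exact hv j (Sum.inr y) γ h

end Sup

section Red

variable {L G X : Type} [CommRing L] [IsDomain L] [Group G] [MulAction G X]

omit [IsDomain L] in
private theorem Step_O (h2 : S_om) (h7 : S_tmono) (h8 : S_tlow) (Sm : Subgroup G → Prop)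
    (N : Met G X) (Ω : Set X) (D k : ℕ) {n m : Type} [Fintype n] [DecidableEq n] [Fintype m]
    [DecidableEq m] (p : n → X) (q : m → X) (U : Matrix n m (MonoidAlgebra L G))
    (V : Matrix m n (MonoidAlgebra L G)) (hVU : V * U = 1) (hp : ∀ i, p i ∈ Ω)
    (hq : ∀ i, q i ∈ Ω) (hU : SupR (N.near D) p q U) (hV : SupR (N.near D) q p V) :
    Triv L Sm N Ω D (k + 3) (n ⊕ m) (Sum.elim p q) (om (-U) (-V)) := by
  have h := (h2 (MonoidAlgebra L G) n m (-U) (-V) (by rw [Matrix.neg_mul, Matrix.mul_neg, neg_neg, hVU])).2.2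
  rw [h]
  have t1 := Triv.elem (Sm := Sm) (N := N) (Ω := Ω) (D := D) p q (-U) hp hq hU.neg
  have t2 := h8 L G X Sm N Ω D n m p q (- -V) hp hq hV.neg.neg
  have t3 := Triv.mul _ _ _ (h7 L G X Sm N Ω Ω D D 0 1 _ _ _ le_rfl le_rfl (by omega) t1) t2
  have t4 := Triv.mul _ _ _ t3 (h7 L G X Sm N Ω Ω D D 0 2 _ _ _ le_rfl le_rfl (by omega) t1)
  exact h7 L G X Sm N Ω Ω D D 3 (k + 3) _ _ _ le_rfl le_rfl (by omega) t4

open Classical in
private theorem Step_red (h1 : S_hall) (h7 : S_tmono) (h9 : S_tblk) (Sm : Subgroup G → Prop)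
    (N : Met G X) (Ω : Set X) (D k r : ℕ) {ν : Type} [Fintype ν] [DecidableEq ν]
    (p : ν → X) (A A' O O' : Matrix ν ν (MonoidAlgebra L G)) (S T : ν → Prop) (E : Eqr G X)
    (hA : A * A' = 1) (hA' : A' * A = 1) (hO : O * O' = 1) (hO' : O' * O = 1)
    (hST : ∀ x y, (A * O) x y ≠ 0 → (S x ↔ T y))
    (hr : SupR (N.near r) p p (A * O)) (hr' : SupR (N.near r) p p (O' * A'))
    (hOE : SupR E.rel p p O) (hOE' : SupR E.rel p p O')
    (hAE : ∀ x y (g : G), S x → (A x y).coeff g ≠ 0 → E.rel (p x) (g • p y))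
    (hAE' : ∀ x y (g : G), S y → (A' x y).coeff g ≠ 0 → E.rel (p x) (g • p y))
    (hSm : ∀ x, S x → Sm (E.st (p x)))
    (hnear : ∀ x y, S x → E.rel (p x) y → N.near D (p x) y)
    (hΩ : ∀ x, p x ∈ Ω) (hrD : r ≤ D)
    (hK : ∀ b b' : Matrix {x // ¬ S x} {x // ¬ S x} (MonoidAlgebra L G), b * b' = 1 → b' * b = 1 →
      SupR (N.near (r + r)) (fun x : {x // ¬ S x} => p x) (fun x : {x // ¬ S x} => p x) b →
      SupR (N.near (r + r)) (fun x : {x // ¬ S x} => p x) (fun x : {x // ¬ S x} => p x) b' →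
      Triv L Sm N Ω D k {x // ¬ S x} (fun x => p x) b)
    (hTO : Triv L Sm N Ω D (k + 3) ν p O') : Triv L Sm N Ω D (k + 4) ν p A := by
  have hcc : A * O * (O' * A') = 1 := by
    rw [Matrix.mul_assoc, ← Matrix.mul_assoc O, hO, Matrix.one_mul, hA]
  have hcc' : O' * A' * (A * O) = 1 := by
    rw [Matrix.mul_assoc, ← Matrix.mul_assoc A', hA', Matrix.one_mul, hO']
  obtain ⟨σ, γ, hσ⟩ := h1 L G ν (A * O) (O' * A') hcc hcc'
  have hSσ : ∀ x, S x ↔ T (σ x) := fun x => hST x (σ x) fun h => hσ x (by rw [h]; rfl)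
  -- supports in `E`
  have hAO : ∀ x z (g : G), S x → ((A * O) x z).coeff g ≠ 0 → E.rel (p x) (g • p z) := by
    intro x z g hx hg
    obtain ⟨l, g₁, g₂, rfl, k1, k2⟩ := Step_ne hg
    rw [mul_smul]
    exact E.trans (hAE x l g₁ hx k1) (E.inv g₁ (hOE l z g₂ k2))
  have hOA : ∀ z y (g : G), S y → ((O' * A') z y).coeff g ≠ 0 → E.rel (p z) (g • p y) := by
    intro z y g hy hg
    obtain ⟨l, g₁, g₂, rfl, k1, k2⟩ := Step_ne hg
    rw [mul_smul]
    exact E.trans (hOE' z l g₁ k1) (E.inv g₁ (hAE' l y g₂ hy k2))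
  have hγ : ∀ y, S y → E.rel (p y) (γ y • p (σ y)) := fun y hy => hAO y (σ y) (γ y) hy (hσ y)
  have hγr : ∀ y, N.near r (p y) (γ y • p (σ y)) := fun y => hr y (σ y) (γ y) (hσ y)
  obtain ⟨b, hb⟩ : ∃ b, b = A * O * moni L σ γ := ⟨_, rfl⟩
  obtain ⟨b', hb'⟩ : ∃ b', b' = mon L σ γ * (O' * A') := ⟨_, rfl⟩
  have hbb : b * b' = 1 := by
    rw [hb, hb', Matrix.mul_assoc, ← Matrix.mul_assoc (moni L σ γ), moni_mul_mon, Matrix.one_mul,
      hcc]
  have hbb' : b' * b = 1 := by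
    rw [hb, hb', Matrix.mul_assoc, ← Matrix.mul_assoc (O' * A'), hcc', Matrix.one_mul,
      mon_mul_moni]
  have hbA : b * mon L σ γ * O' = A := by
    rw [hb, Matrix.mul_assoc (A * O), moni_mul_mon, Matrix.mul_one, Matrix.mul_assoc, hO,
      Matrix.mul_one]
  have hbS : ∀ x y, b x y ≠ 0 → (S x ↔ S y) := by
    intro x y hxy
    rw [hb, Matrix.mul_apply] at hxy
    obtain ⟨z, -, hz⟩ := Finset.exists_ne_zero_of_sum_ne_zero hxy
    have hz1 : (A * O) x z ≠ 0 := left_ne_zero_of_mul hz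
    have hz2 : moni L σ γ z y ≠ 0 := right_ne_zero_of_mul hz
    have hz3 : σ y = z := by
      by_contra hc
      apply hz2
      unfold moni
      rw [if_neg hc]
    rw [hST x z hz1, ← hz3, hSσ y]
  have hbr : SupR (N.near (r + r)) p p b := by
    rw [hb]
    exact SupR.near_mul hr (supR_moni (fun _ _ h => N.symm h) (fun g _ _ h => N.inv g h) σ γ hγr)
  have hbr' : SupR (N.near (r + r)) p p b' := by
    rw [hb']
    exact SupR.near_mul (supR_mon σ γ hγr) hr'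
  have hbE : SupR E.rel (fun x : {x // S x} => p x) (fun x : {x // S x} => p x)
      (b.submatrix Subtype.val Subtype.val) := by
    intro x y g hg
    have hg' : (b x.1 y.1).coeff g ≠ 0 := hg
    rw [hb] at hg'
    obtain ⟨z, g₁, g₂, rfl, k1, k2⟩ := Step_ne hg'
    obtain ⟨rfl, rfl⟩ := Step_moni k2
    have e1 := hAO x.1 _ g₁ x.2 k1
    have e2 := E.inv (g₁ * (γ y.1)⁻¹) (hγ y.1 y.2)
    rw [← mul_smul, inv_mul_cancel_right] at e2
    exact E.trans e1 (E.symm e2)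
  have hbE' : SupR E.rel (fun x : {x // S x} => p x) (fun x : {x // S x} => p x)
      (b'.submatrix Subtype.val Subtype.val) := by
    intro x y g hg
    have hg' : (b' x.1 y.1).coeff g ≠ 0 := hg
    rw [hb'] at hg'
    obtain ⟨z, g₁, g₂, rfl, k1, k2⟩ := Step_ne hg'
    obtain ⟨rfl, rfl⟩ := Step_mon k1
    have e1 := hγ x.1 x.2
    have e2 := E.inv (γ x.1) (hOA _ y.1 g₂ y.2 k2)
    rw [mul_smul]
    exact E.trans e1 e2
  have t0 : Triv L Sm N Ω D 0 {x // S x} (fun x => p x) (b.submatrix Subtype.val Subtype.val) :=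
    Triv.block (fun x : {x // S x} => p x) _ (b'.submatrix Subtype.val Subtype.val) E
      (fun x => hΩ x) (Step_sub S b b' hbb fun x y h hx => (hbS x y h).1 hx)
      (Step_sub' S b b' hbb' fun x y h hy => (hbS x y h).2 hy) hbE hbE'
      (fun x => hSm x.1 x.2) fun x y g h => hnear x.1 _ x.2 h
  have t1 : Triv L Sm N Ω D (k + 2) ν p b :=
    h9 L G X Sm N Ω D k ν p S b hΩ hbS
      (h7 L G X Sm N Ω Ω D D 0 k _ _ _ le_rfl le_rfl (Nat.zero_le _) t0)
      (hK _ (b'.submatrix Subtype.val Subtype.val)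
        (Step_sub (fun x => ¬ S x) b b' hbb fun x y h hx hy => hx ((hbS x y h).2 hy))
        (Step_sub' (fun x => ¬ S x) b b' hbb' fun x y h hy hx => hy ((hbS x y h).1 hx))
        (hbr.submatrix _ _) (hbr'.submatrix _ _))
  have t2 : Triv L Sm N Ω D (k + 2) ν p (mon L σ γ) :=
    h7 L G X Sm N Ω Ω D D 0 (k + 2) _ _ _ le_rfl le_rfl (Nat.zero_le _)
      (Triv.mono p σ γ hΩ fun i => N.mono hrD (hγr i))
  have t4 := Triv.mul p _ _ (Triv.mul p _ _ t1 t2) hTO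
  rw [hbA] at t4
  exact t4

end Red

section Main

open Classical in
/-- The induction step. -/
theorem step (h1 : S_hall) (h2 : S_om) (h3 : S_cut) (h4 : S_dim) (h5 : S_thick) (h6 : S_qw)
    (h7 : S_tmono) (h8 : S_tlow) (h9 : S_tblk) : S_step := by
  intro n hK hK0 f hf
  obtain ⟨Λ₀, hK0⟩ := hK0 f hf
  obtain ⟨Λ₁, k, hK⟩ := hK f hf
  refine ⟨2 * f * (6 * Λ₁ + 6) * ((Λ₀ + 1) * (8 * f)), k + 6, ?_⟩
  intro G X _ _ Sm N R t D L _ _ hL hSm hKK hR hDim hΛ m _ _ p a a' hp haa ha'a hsa hsa'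
  obtain ⟨t₁, ht₁⟩ : ∃ t₁, t₁ = 8 * f * t := ⟨_, rfl⟩
  obtain ⟨D₁, hD₁⟩ : ∃ D₁, D₁ = (Λ₀ + 1) * t₁ := ⟨_, rfl⟩
  obtain ⟨Δ, hΔ⟩ : ∃ Δ, Δ = (6 * Λ₁ + 6) * D₁ := ⟨_, rfl⟩
  -- arithmetic
  have c1 : 2 * (f * Δ) ≤ D := by
    refine le_trans (le_of_eq ?_) hΛ
    rw [hΔ, hD₁, ht₁]
    ring
  have c2 : t₁ ≤ D₁ := by
    rw [hD₁]
    exact Nat.le_mul_of_pos_left t₁ (Nat.succ_pos _)
  have c3 : 8 * t ≤ t₁ := by
    rw [ht₁]
    have := Nat.mul_le_mul_left 8 (Nat.mul_le_mul_right t hf)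
    rw [one_mul] at this
    rw [mul_assoc]
    exact this
  have c4 : Δ = 6 * (Λ₁ * D₁) + 6 * D₁ := by rw [hΔ]; ring
  have c5 : Δ ≤ f * Δ := Nat.le_mul_of_pos_left Δ hf
  have c6 : f * Δ ≤ D / 2 := by omega
  have c7 : f * (8 * t) ≤ D / 2 := by
    have : f * (8 * t) = t₁ := by rw [ht₁]; ring
    omega
  have c8 : Λ₀ * t₁ ≤ D₁ := by
    rw [hD₁]
    exact Nat.mul_le_mul_right t₁ (Nat.le_succ _)
  unfold Dim at hDim
  obtain ⟨E, V, s, D', hV, hs, hD', hE1, hE2, hE3, hDV⟩ :=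
    hDim (8 * t) (D / 2) (by omega) c7 (Nat.div_le_self _ _)
  have c9 : s ≤ t₁ := by
    refine hs.trans (le_of_eq ?_)
    rw [ht₁]
    ring
  have c10 : Δ ≤ D' := by
    have h10 : f * Δ ≤ f * D' := c6.trans hD'
    exact Nat.le_of_mul_le_mul_left h10 hf
  -- the sets
  obtain ⟨U, hU⟩ : ∃ U : Set X, ∀ x, x ∈ U ↔ x ∈ R ∧ x ∉ V := ⟨{x | x ∈ R ∧ x ∉ V}, fun _ => Iff.rfl⟩
  obtain ⟨V', hV'⟩ : ∃ V' : Set X, ∀ x, x ∈ V' ↔ x ∈ V ∧ x ∈ R :=
    ⟨{x | x ∈ V ∧ x ∈ R}, fun _ => Iff.rfl⟩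
  have hUi : InvS G U := by
    intro g x hx
    rw [hU] at hx ⊢
    refine ⟨hR g x hx.1, fun h => hx.2 ?_⟩
    have := hV g⁻¹ _ h
    rwa [inv_smul_smul] at this
  have hV'i : InvS G V' := by
    intro g x hx
    rw [hV'] at hx ⊢
    exact ⟨hV g x hx.1, hR g x hx.2⟩
  obtain ⟨E', e1, e2, e3, e4⟩ := h5 G X Sm N U E t (D / 2) hSm hUi
    (fun x y hx hy h => hE1 x y ((hU x).1 hx).1 ((hU x).1 hx).2 ((hU y).1 hy).1 ((hU y).1 hy).2 h)
    (fun x y hx hy h => hE2 x y ((hU x).1 hx).1 ((hU x).1 hx).2 ((hU y).1 hy).1 ((hU y).1 hy).2 h)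
    (fun x hx => hE3 x ((hU x).1 hx).1 ((hU x).1 hx).2)
  have hnbi : ∀ r : ℕ, InvS G (N.nb U r) := by
    rintro r g x ⟨y, hy, hxy⟩
    exact ⟨g • y, hUi g y hy, N.inv g hxy⟩
  obtain ⟨V'', hV''⟩ : ∃ V'' : Set X, ∀ x, x ∈ V'' ↔ x ∈ V' ∧ x ∈ N.nb U (4 * t) :=
    ⟨{x | x ∈ V' ∧ x ∈ N.nb U (4 * t)}, fun _ => Iff.rfl⟩
  have hV''i : InvS G V'' := by
    intro g x hx
    rw [hV''] at hx ⊢
    exact ⟨hV'i g x hx.1, hnbi _ g x hx.2⟩
  have hDV' : ∀ t'' D'' : ℕ, s ≤ t'' → D'' ≤ D' → Dim Sm N f n V' t'' D'' := fun t'' D'' h h' =>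
    (h4 G X Sm N f n V s D' hDV).1 V' t'' D'' (fun x hx => ((hV' x).1 hx).1) h h'
  have hDV'' : Dim Sm (N.ref E') f n V'' t₁ D₁ :=
    (h4 G X Sm N f n V'' t₁ D₁ ((h4 G X Sm N f n V s D' hDV).1 V'' t₁ D₁
      (fun x hx => ((hV' x).1 ((hV'' x).1 hx).1).1) c9 (by omega))).2 hSm E'
  -- `P`, `W` and the idempotent
  obtain ⟨P, hP⟩ : ∃ P : m → Prop, ∀ i, P i ↔ p i ∈ N.nb U t := ⟨fun i => p i ∈ N.nb U t, fun _ => Iff.rfl⟩
  obtain ⟨W, hW⟩ : ∃ W : m → Prop, W = Wp (G := G) N t p P := ⟨_, rfl⟩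
  obtain ⟨q, hq⟩ : ∃ q, q = a' * Matrix.diagonal (fun i => if P i then (1 : MonoidAlgebra L G) else 0) *
    a := ⟨_, rfl⟩
  have hPn : ∀ i, ¬ P i → ∃ v ∈ V', N.near t (p i) v := by
    intro i hi
    obtain ⟨y, hy, hiy⟩ := hp i
    refine ⟨y, (hV' y).2 ⟨?_, hy⟩, hiy⟩
    by_contra hyV
    exact hi ((hP i).2 ⟨y, (hU y).2 ⟨hy, hyV⟩, hiy⟩)
  have hqW : ∀ i k, (¬ W i ∨ ¬ W k) → q i k = if i = k ∧ P i then 1 else 0 := by
    rw [hq, hW]
    exact h6 L G X m N t p P a a' haa ha'a hsa hsa'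
  have hqq : q * q = q := by
    have hd : Matrix.diagonal (fun i => if P i then (1 : MonoidAlgebra L G) else 0) *
        Matrix.diagonal (fun i => if P i then (1 : MonoidAlgebra L G) else 0) =
        Matrix.diagonal (fun i => if P i then (1 : MonoidAlgebra L G) else 0) := by
      rw [Matrix.diagonal_mul_diagonal]
      congr 1
      funext i
      by_cases h : P i
      · rw [if_pos h, mul_one]
      · rw [if_neg h, mul_zero]
    rw [hq, Matrix.mul_assoc (a' * _), ← Matrix.mul_assoc a, ← Matrix.mul_assoc a, haa,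
      Matrix.one_mul, ← Matrix.mul_assoc, Matrix.mul_assoc a', hd]
  have hqs : SupR (N.near (2 * t)) p p q := by
    have hd : SupR (L := L) (G := G) (N.near 0) p p
        (Matrix.diagonal (fun i => if P i then (1 : MonoidAlgebra L G) else 0)) := by
      intro i j g hg
      by_cases hij : i = j
      · subst hij
        rw [Matrix.diagonal_apply_eq] at hg
        by_cases hPi : P i
        · rw [if_pos hPi] at hg
          have := SupR.one (L := L) (G := G) (p := p) (fun x => N.refl 0 x) i i g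
          rw [Matrix.one_apply_eq] at this
          exact this hg
        · rw [if_neg hPi] at hg
          exact absurd rfl hg
      · rw [Matrix.diagonal_apply_ne _ hij] at hg
        exact absurd rfl hg
    rw [hq]
    exact SupR.near_mono (by omega) (SupR.near_mul (SupR.near_mul hsa' hd) hsa)
  have hWp : ∀ i, W i → (∃ u ∈ U, N.near (2 * t) (p i) u) ∧ ∃ v ∈ V', N.near (2 * t) (p i) v := by
    intro i hi
    rw [hW] at hi
    obtain ⟨⟨l, γ, hl, hPl⟩, l', γ', hl', hPl'⟩ := hi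
    constructor
    · obtain ⟨u, hu, hlu⟩ := (hP l).1 hPl
      refine ⟨γ • u, hUi γ u hu, N.mono (by omega) (N.trans hl (N.inv γ hlu))⟩
    · obtain ⟨v, hv, hlv⟩ := hPn l' hPl'
      refine ⟨γ' • v, hV'i γ' v hv, N.mono (by omega) (N.trans hl' (N.inv γ' hlv))⟩
  have hqWs : SupR ((N.ref E').near (2 * t)) (fun i : {i // W i} => p i) (fun i : {i // W i} => p i)
      (q.submatrix Subtype.val Subtype.val) := by
    intro i j g hg
    have k1 := hqs i.1 j.1 g hg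
    obtain ⟨u, hu, hiu⟩ := (hWp i.1 i.2).1
    exact ⟨k1, e4 u _ _ hu (N.mono (by omega) hiu) (N.mono (by omega) (N.trans (N.symm k1) hiu))⟩
  have hqWq : q.submatrix (Subtype.val : {i // W i} → m) (Subtype.val : {i // W i} → m) *
      q.submatrix (Subtype.val : {i // W i} → m) (Subtype.val : {i // W i} → m) =
      q.submatrix (Subtype.val : {i // W i} → m) (Subtype.val : {i // W i} → m) := by
    refine Matrix.ext fun i j => ?_
    have k1 : (q * q) i.1 j.1 = q i.1 j.1 := by rw [hqq]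
    rw [Matrix.mul_apply, ← Fintype.sum_subtype_add_sum_subtype W] at k1
    have k2 : ∑ z : {z // ¬ W z}, q i.1 z.1 * q z.1 j.1 = 0 := Finset.sum_eq_zero fun z _ => by
      have k3 : q i.1 z.1 = 0 := by
        rw [hqW _ _ (Or.inr z.2), if_neg]
        rintro ⟨h, -⟩
        exact z.2 (h ▸ i.2)
      rw [k3, zero_mul]
    rw [k2, add_zero] at k1
    rw [Matrix.mul_apply]
    exact k1
  have hWpos : ∀ i : {i // W i}, p i ∈ (N.ref E').nb V'' t₁ := by
    rintro ⟨i, hi⟩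
    obtain ⟨⟨u, hu, hiu⟩, v, hv, hiv⟩ := hWp i hi
    refine ⟨v, (hV'' v).2 ⟨hv, u, hu, N.mono (by omega) (N.trans (N.symm hiv) hiu)⟩,
      N.mono (by omega) hiv, e4 u _ _ hu (N.mono (by omega) hiu) (N.mono (by omega)
        (N.trans (N.symm hiv) hiu))⟩
  obtain ⟨f₁, f₂, _, _, _, _, p₁, p₂, u, v, hp₁, hp₂, hu, hv, huv, hvu⟩ :=
    hK0 G X Sm (N.ref E') V'' t₁ D₁ L hL hSm hKK hV''i hDV'' c8 {i // W i} (fun i => p i)
      (q.submatrix Subtype.val Subtype.val) hWpos hqWq (SupR.near_mono (by omega) hqWs)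
  -- extension by zero
  obtain ⟨U0, hU0⟩ : ∃ U0 : Matrix (m ⊕ f₁) f₂ (MonoidAlgebra L G), U0 = Step_eu W u := ⟨_, rfl⟩
  obtain ⟨V0, hV0⟩ : ∃ V0 : Matrix f₂ (m ⊕ f₁) (MonoidAlgebra L G), V0 = Step_ev W v := ⟨_, rfl⟩
  have hVU0 : V0 * U0 = 1 := by rw [hU0, hV0, Step_vu, hvu]
  have hUV0 : U0 * V0 = Matrix.fromBlocks (Matrix.of fun i k => if W i ∧ W k then q i k else 0)
      0 0 1 := by
    rw [hU0, hV0]
    exact Step_uv q u v huv
  have hU0s : SupR ((N.ref E').near D₁) (Sum.elim p p₁) p₂ U0 := by rw [hU0]; exact Step_eus hu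
  have hV0s : SupR ((N.ref E').near D₁) p₂ (Sum.elim p p₁) V0 := by rw [hV0]; exact Step_evs hv
  have hUn : SupR (N.near D₁) (Sum.elim p p₁) p₂ U0 := hU0s.mono fun _ _ h => h.1
  have hVn : SupR (N.near D₁) p₂ (Sum.elim p p₁) V0 := hV0s.mono fun _ _ h => h.1
  have hUE : SupR E'.rel (Sum.elim p p₁) p₂ U0 := hU0s.mono fun _ _ h => h.2
  have hVE : SupR E'.rel p₂ (Sum.elim p p₁) V0 := hV0s.mono fun _ _ h => h.2
  have hom : ∀ (U1 : Matrix (m ⊕ f₁) f₂ (MonoidAlgebra L G)) (V1 : Matrix f₂ (m ⊕ f₁) (MonoidAlgebra L G)),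
      SupR (N.near D₁) (Sum.elim p p₁) p₂ U1 → SupR (N.near D₁) p₂ (Sum.elim p p₁) V1 →
      SupR (N.near (D₁ + D₁)) (Sum.elim (Sum.elim p p₁) p₂) (Sum.elim (Sum.elim p p₁) p₂)
        (om U1 V1) := fun U1 V1 hU1 hV1 =>
    SupR.fromBlocks (SupR.sub (SupR.one fun x => N.refl _ x) (SupR.near_mul hU1 hV1))
      (SupR.near_mono (by omega) hU1) (SupR.near_mono (by omega) hV1.neg) SupR.zero
  have homE : ∀ (U1 : Matrix (m ⊕ f₁) f₂ (MonoidAlgebra L G)) (V1 : Matrix f₂ (m ⊕ f₁) (MonoidAlgebra L G)),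
      SupR E'.rel (Sum.elim p p₁) p₂ U1 → SupR E'.rel p₂ (Sum.elim p p₁) V1 →
      SupR E'.rel (Sum.elim (Sum.elim p p₁) p₂) (Sum.elim (Sum.elim p p₁) p₂)
        (om U1 V1) := fun U1 V1 hU1 hV1 =>
    SupR.fromBlocks (SupR.sub (SupR.one fun x => E'.refl x) (SupR.rel_mul hU1 hV1))
      hU1 hV1.neg SupR.zero
  obtain ⟨ho1, ho2, -⟩ := h2 (MonoidAlgebra L G) (m ⊕ f₁) f₂ U0 V0 hVU0
  -- `a ⊕ 1 ⊕ 1`
  have hblk : ∀ b b' : Matrix m m (MonoidAlgebra L G), b * b' = 1 →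
      (Matrix.fromBlocks (Matrix.fromBlocks b 0 0 (1 : Matrix f₁ f₁ (MonoidAlgebra L G))) 0 0
        (1 : Matrix f₂ f₂ (MonoidAlgebra L G)) : Matrix ((m ⊕ f₁) ⊕ f₂) ((m ⊕ f₁) ⊕ f₂) _) *
      Matrix.fromBlocks (Matrix.fromBlocks b' 0 0 (1 : Matrix f₁ f₁ (MonoidAlgebra L G))) 0 0
        (1 : Matrix f₂ f₂ (MonoidAlgebra L G)) = 1 := by
    intro b b' h
    rw [Matrix.fromBlocks_multiply, Matrix.fromBlocks_multiply, h]
    simp only [Matrix.mul_zero, Matrix.zero_mul, add_zero, zero_add, Matrix.mul_one,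
      Matrix.fromBlocks_one]
  have hblks : ∀ b : Matrix m m (MonoidAlgebra L G), SupR (N.near t) p p b →
      SupR (N.near t) (Sum.elim (Sum.elim p p₁) p₂) (Sum.elim (Sum.elim p p₁) p₂)
      (Matrix.fromBlocks (Matrix.fromBlocks b 0 0 (1 : Matrix f₁ f₁ (MonoidAlgebra L G))) 0 0
        (1 : Matrix f₂ f₂ (MonoidAlgebra L G))) := fun b hb =>
    SupR.fromBlocks (SupR.fromBlocks hb SupR.zero SupR.zero (SupR.one fun x => N.refl _ x))
      SupR.zero SupR.zero (SupR.one fun x => N.refl _ x)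
  have hrowA : ∀ x y (g : G), src (f₁ := f₁) (f₂ := f₂) P x →
      (Matrix.fromBlocks (Matrix.fromBlocks a 0 0 (1 : Matrix f₁ f₁ (MonoidAlgebra L G))) 0 0
        (1 : Matrix f₂ f₂ (MonoidAlgebra L G)) x y).coeff g ≠ 0 →
      E'.rel (Sum.elim (Sum.elim p p₁) p₂ x) (g • Sum.elim (Sum.elim p p₁) p₂ y) := by
    rintro ((i | i) | i) ((j | j) | j) g hx hg
    · obtain ⟨w, hw, hiw⟩ := (hP i).1 hx
      have k1 := hsa i j g hg
      exact e4 w _ _ hw (N.mono (by omega) hiw) (N.mono (by omega) (N.trans (N.symm k1) hiw))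
    · exact absurd rfl hg
    · exact absurd rfl hg
    · exact absurd rfl hg
    · exact SupR.one (L := L) (G := G) (p := p₁) (fun x => E'.refl x) i j g hg
    · exact absurd rfl hg
    · exact absurd hx (fun h => h)
    · exact absurd hx (fun h => h)
    · exact absurd hx (fun h => h)
  have hcolA : ∀ x y (g : G), src (f₁ := f₁) (f₂ := f₂) P y →
      (Matrix.fromBlocks (Matrix.fromBlocks a' 0 0 (1 : Matrix f₁ f₁ (MonoidAlgebra L G))) 0 0
        (1 : Matrix f₂ f₂ (MonoidAlgebra L G)) x y).coeff g ≠ 0 →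
      E'.rel (Sum.elim (Sum.elim p p₁) p₂ x) (g • Sum.elim (Sum.elim p p₁) p₂ y) := by
    rintro ((i | i) | i) ((j | j) | j) g hy hg
    · obtain ⟨w, hw, hjw⟩ := (hP j).1 hy
      have k1 := hsa' i j g hg
      have k2 := N.inv g hjw
      exact e4 (g • w) _ _ (hUi g w hw) (N.mono (by omega) (N.trans k1 k2)) (N.mono (by omega) k2)
    · exact absurd rfl hg
    · exact absurd hy (fun h => h)
    · exact absurd rfl hg
    · exact SupR.one (L := L) (G := G) (p := p₁) (fun x => E'.refl x) i j g hg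
    · exact absurd hy (fun h => h)
    · exact absurd rfl hg
    · exact absurd rfl hg
    · exact absurd hy (fun h => h)
  -- positions
  have hnb1 : ∀ x, x ∈ (N.ref E').nb V'' D₁ → x ∈ N.nb U (4 * t) := by
    rintro x ⟨w, hw, hxw⟩
    exact e1 w x ((hV'' w).1 hw).2 (E'.symm hxw.2)
  have hnb2 : ∀ x, x ∈ (N.ref E').nb V'' D₁ → x ∈ N.nb V' D₁ := by
    rintro x ⟨w, hw, hxw⟩
    exact ⟨w, ((hV'' w).1 hw).1, hxw.1⟩
  have hnb3 : ∀ x, x ∈ N.nb V' D₁ → x ∈ N.nb R D := by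
    rintro x ⟨w, hw, hxw⟩
    exact ⟨w, ((hV' w).1 hw).2, N.mono (by omega) hxw⟩
  have hΩ : ∀ x, Sum.elim (Sum.elim p p₁) p₂ x ∈ N.nb R D := by
    rintro ((i | i) | i)
    · obtain ⟨y, hy, hiy⟩ := hp i
      exact ⟨y, hy, N.mono (by omega) hiy⟩
    · exact hnb3 _ (hnb2 _ (hp₁ i))
    · exact hnb3 _ (hnb2 _ (hp₂ i))
  have hsrc : ∀ x, src (f₁ := f₁) (f₂ := f₂) P x → Sum.elim (Sum.elim p p₁) p₂ x ∈ N.nb U (4 * t) := by
    rintro ((i | i) | i) hx
    · obtain ⟨w, hw, hiw⟩ := (hP i).1 hx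
      exact ⟨w, hw, N.mono (by omega) hiw⟩
    · exact hnb1 _ (hp₁ i)
    · exact absurd hx (fun h => h)
  have hnsrc : ∀ x, ¬ src (f₁ := f₁) (f₂ := f₂) P x → Sum.elim (Sum.elim p p₁) p₂ x ∈ N.nb V' D₁ := by
    rintro ((i | i) | i) hx
    · obtain ⟨w, hw, hiw⟩ := hPn i hx
      exact ⟨w, hw, N.mono (by omega) hiw⟩
    · exact absurd trivial hx
    · exact hnb2 _ (hp₂ i)
  have key := Step_red h1 h7 h9 Sm N (N.nb R D) D k (t + (D₁ + D₁)) (Sum.elim (Sum.elim p p₁) p₂)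
    (Matrix.fromBlocks (Matrix.fromBlocks a 0 0 (1 : Matrix f₁ f₁ (MonoidAlgebra L G))) 0 0
        (1 : Matrix f₂ f₂ (MonoidAlgebra L G)))
    (Matrix.fromBlocks (Matrix.fromBlocks a' 0 0 (1 : Matrix f₁ f₁ (MonoidAlgebra L G))) 0 0
        (1 : Matrix f₂ f₂ (MonoidAlgebra L G))) (om U0 V0) (om (-U0) (-V0))
    (src P) (tgt P W) E' (hblk a a' haa) (hblk a' a ha'a) ho1 ho2
    (h3 (MonoidAlgebra L G) m f₁ f₂ a a' q P W U0 V0 haa ha'a hq hqW hVU0 hUV0)
    (SupR.near_mul (hblks a hsa) (hom U0 V0 hUn hVn))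
    (SupR.near_mono (by omega) (SupR.near_mul (hom (-U0) (-V0) hUn.neg hVn.neg) (hblks a' hsa')))
    (homE U0 V0 hUE hVE) (homE (-U0) (-V0) hUE.neg hVE.neg) hrowA hcolA
    (fun x hx => e3 _ (hsrc x hx))
    (fun x y hx hxy => N.mono (by omega) (e2 _ y (hsrc x hx) hxy)) hΩ (by omega)
    (fun b b' hb1 hb2 hb3 hb4 => ?_)
    (Step_O h2 h7 h8 Sm N (N.nb R D) D k (Sum.elim p p₁) p₂ U0 V0 hVU0
      (fun i => hΩ (Sum.inl i)) (fun i => hΩ (Sum.inr i)) (SupR.near_mono (by omega) hUn)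
      (SupR.near_mono (by omega) hVn))
  · have s1 := Triv.stab (Sum.elim p p₁) p₂ _ (fun i => hΩ (Sum.inl i)) (fun i => hΩ (Sum.inr i)) key
    exact Triv.stab p p₁ _ (fun i => hΩ (Sum.inl (Sum.inl i))) (fun i => hΩ (Sum.inl (Sum.inr i))) s1
  · -- the complement
    have hmon : 6 * Λ₁ * D₁ = 6 * (Λ₁ * D₁) := by ring
    have kk := hK G X Sm N V' (6 * D₁) (6 * Λ₁ * D₁) L hL hSm hKK hV'i (hDV' _ _ (by omega) (by omega))
      (le_of_eq (by ring)) {x // ¬ src (f₁ := f₁) (f₂ := f₂) P x}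
      (fun x => Sum.elim (Sum.elim p p₁) p₂ x) b b'
      (fun x => by
        obtain ⟨w, hw, hxw⟩ := hnsrc x.1 x.2
        exact ⟨w, hw, N.mono (by omega) hxw⟩) hb1 hb2
      (SupR.near_mono (by omega) hb3) (SupR.near_mono (by omega) hb4)
    refine h7 L G X Sm N (N.nb V' (6 * Λ₁ * D₁)) (N.nb R D) (6 * Λ₁ * D₁) D k k _ _ _ ?_ (by omega)
      le_rfl kk
    rintro x ⟨w, hw, hxw⟩
    exact ⟨w, ((hV' w).1 hw).2, N.mono (by omega) hxw⟩

end Main

end Pool.Agent.FH
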