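import Pool.Agent.Lib.MP_8f66f0_al_FH.CSpec

set_option autoImplicit false

namespace Pool.Agent.FH

private theorem Tblk_conj {G L : Type} [Group G] [CommRing L] {n m : Type} [Fintype n]
    [DecidableEq n] [Fintype m] [DecidableEq m] (σ : n ≃ m)
    (A : Matrix n n (MonoidAlgebra L G)) (b : Matrix m m (MonoidAlgebra L G))
    (h : ∀ i j, A (σ.symm i) (σ.symm j) = b i j) :
    moni L σ (fun _ => (1 : G)) * A * mon L σ (fun _ => (1 : G)) = b := by
  refine Matrix.ext fun i j => ?_
  rw [← h i j]
  have h1 : ∀ l : n, (moni L σ (fun _ => (1 : G)) * A) i l = A (σ.symm i) l := by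
    intro l
    rw [Matrix.mul_apply, Finset.sum_eq_single (σ.symm i)]
    · unfold moni
      rw [if_pos (σ.apply_symm_apply i), inv_one]
      exact one_mul _
    · intro k _ hk
      unfold moni
      rw [if_neg fun h => hk (by rw [← h, σ.symm_apply_apply]), zero_mul]
    · intro h
      exact absurd (Finset.mem_univ _) h
  rw [Matrix.mul_apply, Finset.sum_eq_single (σ.symm j)]
  · rw [h1]
    unfold mon
    rw [if_pos (σ.apply_symm_apply j)]
    exact mul_one _
  · intro k _ hk
    unfold mon
    rw [if_neg fun h => hk (by rw [← h, σ.symm_apply_apply]), mul_zero]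
  · intro h
    exact absurd (Finset.mem_univ _) h

open Classical in
theorem tblk : S_tblk := by
  intro L G X _ _ _ Sm N Ω D k n _ _ p P b hp hb h1 h2
  have h3 := Triv.sum _ _ _ _ h1 h2
  have h4 := Triv.iso (q := p) _ (Equiv.sumCompl P) (fun _ => (1 : G)) _ hp
    (by
      rintro (i | i)
      · change N.near D (p i) ((1 : G) • p i)
        rw [one_smul]
        exact N.refl D _
      · change N.near D (p i) ((1 : G) • p i)
        rw [one_smul]
        exact N.refl D _) h3
  rw [Tblk_conj _ _ b] at h4
  · exact h4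
  · intro i j
    by_cases hi : P i <;> by_cases hj : P j
    · rw [Equiv.sumCompl_symm_apply_of_pos hi, Equiv.sumCompl_symm_apply_of_pos hj]
      rfl
    · rw [Equiv.sumCompl_symm_apply_of_pos hi, Equiv.sumCompl_symm_apply_of_neg hj]
      by_contra h
      exact hj ((hb i j fun h0 => h (by rw [h0]; rfl)).1 hi)
    · rw [Equiv.sumCompl_symm_apply_of_neg hi, Equiv.sumCompl_symm_apply_of_pos hj]
      by_contra h
      exact hi ((hb i j fun h0 => h (by rw [h0]; rfl)).2 hj)
    · rw [Equiv.sumCompl_symm_apply_of_neg hi, Equiv.sumCompl_symm_apply_of_neg hj]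
      rfl

end Pool.Agent.FH
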