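import Pool.Agent.Lib.MP_8f66f0_al_FH.CSpec

/-! Thickening of separated pieces. -/

set_option autoImplicit false

namespace Pool.Agent.FH

open Pool.Agent.Wald Pool.Agent.WaldL Pool.Agent.Ind

variable {G X : Type} [Group G] [MulAction G X]

private theorem Thick_nb (N : Met G X) (U : Set X) (s : ℕ) (hU : InvS G U) (g : G) (x : X)
    (h : g • x ∈ N.nb U s) : x ∈ N.nb U s := by
  obtain ⟨u, hu, h1⟩ := h
  refine ⟨g⁻¹ • u, hU g⁻¹ u hu, ?_⟩
  have h2 := N.inv g⁻¹ h1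
  rw [inv_smul_smul] at h2
  exact h2

private def Thick_eqr (N : Met G X) (U : Set X) (E : Eqr G X) (t : ℕ) (hU : InvS G U)
    (h8 : ∀ x y, x ∈ U → y ∈ U → N.near (8 * t) x y → E.rel x y) : Eqr G X where
  rel x y := (x ∉ N.nb U (4 * t) ∧ y ∉ N.nb U (4 * t)) ∨
    ∃ u u', u ∈ U ∧ u' ∈ U ∧ N.near (4 * t) x u ∧ N.near (4 * t) y u' ∧ E.rel u u'
  refl x := by
    by_cases hx : x ∈ N.nb U (4 * t)
    · obtain ⟨u, hu, h1⟩ := hx
      exact Or.inr ⟨u, u, hu, hu, h1, h1, E.refl u⟩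
    · exact Or.inl ⟨hx, hx⟩
  symm := by
    rintro x y (h | ⟨u, u', hu, hu', h1, h2, h3⟩)
    · exact Or.inl ⟨h.2, h.1⟩
    · exact Or.inr ⟨u', u, hu', hu, h2, h1, E.symm h3⟩
  trans := by
    rintro x y z (h | ⟨u, u', hu, hu', h1, h2, h3⟩) (h' | ⟨w, w', hw, hw', k1, k2, k3⟩)
    · exact Or.inl ⟨h.1, h'.2⟩
    · exact absurd ⟨w, hw, k1⟩ h.2
    · exact absurd ⟨u', hu', h2⟩ h'.1
    · refine Or.inr ⟨u, w', hu, hw', h1, k2, E.trans h3 (E.trans (h8 u' w hu' hw ?_) k3)⟩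
      have h4 := N.trans (N.symm h2) k1
      exact N.mono (by omega) h4
  inv := by
    rintro x y g (h | ⟨u, u', hu, hu', h1, h2, h3⟩)
    · exact Or.inl ⟨fun h4 => h.1 (Thick_nb N U _ hU g x h4),
        fun h4 => h.2 (Thick_nb N U _ hU g y h4)⟩
    · exact Or.inr ⟨g • u, g • u', hU g u hu, hU g u' hu', N.inv g h1, N.inv g h2, E.inv g h3⟩

theorem thick : S_thick := by
  intro G X _ _ Sm N U E t d hSm hU h8 hd hst
  refine ⟨Thick_eqr N U E t hU h8, ?_, ?_, ?_, ?_⟩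
  · rintro x y hx (h | ⟨u, u', hu, hu', h1, h2, h3⟩)
    · exact absurd hx h.1
    · exact ⟨u', hu', h2⟩
  · rintro x y hx (h | ⟨u, u', hu, hu', h1, h2, h3⟩)
    · exact absurd hx h.1
    · exact N.mono (by omega) (N.trans (N.trans h1 (hd u u' hu hu' h3)) (N.symm h2))
  · rintro x ⟨u, hu, hxu⟩
    refine hSm _ _ ?_ (hst u hu)
    intro g hg
    rcases hg with h | ⟨w, w', hw, hw', h1, h2, h3⟩
    · exact absurd ⟨u, hu, hxu⟩ h.1
    · rw [Eqr.mem_st]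
      have h4 : E.rel u w := h8 u w hu hw (N.mono (by omega) (N.trans (N.symm hxu) h1))
      have h5 : E.rel w' (g • u) := h8 w' (g • u) hw' (hU g u hu)
        (N.mono (by omega) (N.trans (N.symm h2) (N.inv g hxu)))
      exact E.trans h4 (E.trans h3 h5)
  · intro u x y hu hx hy
    exact Or.inr ⟨u, u, hu, hu, hx, hy, E.refl u⟩

end Pool.Agent.FH
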