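import Pool.Agent.Lib.MP_8f66f0_al_FH.CSpec

/-! Lower triangular elementary matrices. -/

set_option autoImplicit false

namespace Pool.Agent.FH

private theorem Tlow_conj (L G : Type) [CommRing L] [Group G] {n m : Type} [Fintype n]
    [DecidableEq n] [Fintype m] [DecidableEq m] (σ : n ≃ m)
    (a : Matrix n n (MonoidAlgebra L G)) :
    moni L σ (fun _ => (1 : G)) * a * mon L σ (fun _ => (1 : G)) = a.submatrix σ.symm σ.symm := by
  have h1 : moni L σ (fun _ => (1 : G)) = (1 : Matrix n n (MonoidAlgebra L G)).submatrix σ.symm id := by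
    ext k i : 2
    simp only [moni, Matrix.submatrix_apply, id, Matrix.one_apply, inv_one]
    by_cases h : σ i = k
    · have h' : σ.symm k = i := by rw [← h, Equiv.symm_apply_apply]
      rw [if_pos h, if_pos h']
      rfl
    · have h' : ¬ σ.symm k = i := fun h0 => h (by rw [← h0, Equiv.apply_symm_apply])
      rw [if_neg h, if_neg h']
  have h2 : mon L σ (fun _ => (1 : G)) = (1 : Matrix n n (MonoidAlgebra L G)).submatrix id σ.symm := by
    ext i k : 2
    simp only [mon, Matrix.submatrix_apply, id, Matrix.one_apply]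
    by_cases h : σ i = k
    · have h' : i = σ.symm k := by rw [← h, Equiv.symm_apply_apply]
      rw [if_pos h, if_pos h']
      rfl
    · have h' : ¬ i = σ.symm k := fun h0 => h (by rw [h0, Equiv.apply_symm_apply])
      rw [if_neg h, if_neg h']
  rw [h1, h2]
  ext k l : 2
  simp [Matrix.mul_apply, Matrix.one_apply]

theorem tlow : S_tlow := by
  intro L G X _ _ _ Sm N Ω D n m _ _ _ _ p q y hp hq hy
  have h1 : Triv L Sm N Ω D 0 (m ⊕ n) (Sum.elim q p) (Matrix.fromBlocks 1 y 0 1) :=
    Triv.elem q p y hq hp hy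
  have h2 : Triv L Sm N Ω D 1 (n ⊕ m) (Sum.elim p q)
      (moni L (Equiv.sumComm m n) (fun _ => (1 : G)) *
        (Matrix.fromBlocks 1 y 0 1 : Matrix (m ⊕ n) (m ⊕ n) (MonoidAlgebra L G)) *
        mon L (Equiv.sumComm m n) (fun _ => (1 : G))) := by
    refine Triv.iso (Sum.elim q p) (Sum.elim p q) (Equiv.sumComm m n) (fun _ => (1 : G)) _ ?_ ?_ h1
    · rintro (i | i)
      · exact hp i
      · exact hq i
    · rintro (i | i)
      · rw [one_smul]
        exact N.refl _ _
      · rw [one_smul]
        exact N.refl _ _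
  rw [Tlow_conj] at h2
  have h3 : (Matrix.fromBlocks 1 y 0 1 : Matrix (m ⊕ n) (m ⊕ n) (MonoidAlgebra L G)).submatrix
      (Equiv.sumComm m n).symm (Equiv.sumComm m n).symm = Matrix.fromBlocks 1 0 y 1 := by
    ext (i | i) (j | j) : 2
    · rfl
    · rfl
    · rfl
    · rfl
  rw [h3] at h2
  exact h2

end Pool.Agent.FH
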