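import Pool.Agent.Lib.MP_8f66f0_al_FH.CSpec

/-! Monotonicity of `Triv`. -/

set_option autoImplicit false

namespace Pool.Agent.FH

open Pool.Agent.Wald Pool.Agent.WaldL Pool.Agent.Ind

section

variable {L G X : Type} [CommRing L] [Group G] [MulAction G X] {Sm : Subgroup G → Prop}
  {N : Met G X}

private theorem Tm_pos {Ω : Set X} {D k : ℕ} {n : Type} [Fintype n] [DecidableEq n] {p : n → X}
    {a : Matrix n n (MonoidAlgebra L G)} (h : Triv L Sm N Ω D k n p a) : ∀ i, p i ∈ Ω := by
  induction h with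
  | elem p q x hp hq _ =>
    rintro (i | i)
    · exact hp i
    · exact hq i
  | mono p σ γ hp _ => exact hp
  | block p a a' E hp _ _ _ _ _ _ => exact hp
  | mul p a b _ _ ih _ => exact ih
  | iso p q σ γ a hq _ _ _ => exact hq
  | sum p q a b _ _ iha ihb =>
    rintro (i | i)
    · exact iha i
    · exact ihb i
  | stab p q a hp _ _ _ => exact hp

private theorem Tm_one {Ω : Set X} {D : ℕ} {n : Type} [Fintype n] [DecidableEq n] (p : n → X)
    (hp : ∀ i, p i ∈ Ω) (k : ℕ) :
    Triv L Sm N Ω D k n p (1 : Matrix n n (MonoidAlgebra L G)) := by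
  induction k with
  | zero =>
    have h1 : mon L (Equiv.refl n) (fun _ => (1 : G)) = 1 := by
      ext i j : 2
      unfold mon
      rw [Matrix.one_apply, Equiv.refl_apply]
      rfl
    rw [← h1]
    refine Triv.mono p (Equiv.refl n) (fun _ => (1 : G)) hp fun i => ?_
    rw [one_smul]
    exact N.refl D _
  | succ k ih =>
    have h := Triv.mul p 1 1 ih ih
    rwa [mul_one] at h

private theorem Tm_step {Ω : Set X} {D k : ℕ} {n : Type} [Fintype n] [DecidableEq n] {p : n → X}
    {a : Matrix n n (MonoidAlgebra L G)} (h : Triv L Sm N Ω D k n p a) (j : ℕ) :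
    Triv L Sm N Ω D (k + j) n p a := by
  induction j with
  | zero => exact h
  | succ j ih =>
    have h1 := Triv.mul p a 1 ih (Tm_one p (Tm_pos h) (k + j))
    rwa [mul_one] at h1

private theorem Tm_incl {Ω Ω' : Set X} {D D' k : ℕ} (hΩ : Ω ⊆ Ω') (hD : D ≤ D') {n : Type}
    [Fintype n] [DecidableEq n] {p : n → X} {a : Matrix n n (MonoidAlgebra L G)}
    (h : Triv L Sm N Ω D k n p a) : Triv L Sm N Ω' D' k n p a := by
  induction h with
  | elem p q x hp hq hx =>
    exact Triv.elem p q x (fun i => hΩ (hp i)) (fun i => hΩ (hq i)) (hx.near_mono hD)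
  | mono p σ γ hp h1 => exact Triv.mono p σ γ (fun i => hΩ (hp i)) fun i => N.mono hD (h1 i)
  | block p a a' E hp h1 h2 h3 h4 h5 h6 =>
    exact Triv.block p a a' E (fun i => hΩ (hp i)) h1 h2 h3 h4 h5
      fun i k γ h => N.mono hD (h6 i k γ h)
  | mul p a b _ _ iha ihb => exact Triv.mul p a b iha ihb
  | iso p q σ γ a hq h1 _ ih =>
    exact Triv.iso p q σ γ a (fun i => hΩ (hq i)) (fun i => N.mono hD (h1 i)) ih
  | sum p q a b _ _ iha ihb => exact Triv.sum p q a b iha ihb
  | stab p q a hp hq _ ih =>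
    exact Triv.stab p q a (fun i => hΩ (hp i)) (fun i => hΩ (hq i)) ih

end

theorem tmono : S_tmono := by
  intro L G X _ _ _ Sm N Ω Ω' D D' k k' n _ _ p a hΩ hD hk h
  obtain ⟨j, rfl⟩ := Nat.exists_eq_add_of_le hk
  exact Tm_step (Tm_incl hΩ hD h) j

end Pool.Agent.FH
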