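import Pool.Agent.Lib.MP_8f66f0_al_FH.KAux
import Pool.Agent.Lib.MP_8f66f0_al_FH.Cut
import Pool.Agent.Lib.MP_8f66f0_al_FH.Thick
import Pool.Agent.Lib.MP_8f66f0_al_FH.Qw
import Pool.Agent.Lib.MP_8f66f0_al_FH.Tm
import Pool.Agent.Lib.MP_8f66f0_al_FH.Tlow
import Pool.Agent.Lib.MP_8f66f0_al_FH.Tblk
import Pool.Agent.Lib.MP_8f66f0_al_FH.Base
import Pool.Agent.Lib.MP_8f66f0_al_FH.Step
import Pool.Agent.Lib.MP_8f66f0_al_FH.StA
import Pool.Agent.Lib.MP_8f66f0_al_FH.StC
import Pool.Agent.Lib.MP_8f66f0_al_FH.Stb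
import Pool.Agent.Lib.MP_8f66f0_al_FH.Ib
import Pool.Agent.Lib.MP_8f66f0_al_FH.EpsI
import Pool.Agent.Lib.MP_8f66f0_al_FH.EpsM
import Pool.Agent.Lib.MP_8f66f0_al_FH.EpsD
import Pool.Agent.Lib.MP_8f66f0_al_FH.EpsC7
import Pool.Agent.Lib.MP_8f66f0_al_FH.ISup
import Pool.Agent.Lib.MP_8f66f0_al_FH.SiMul
import Pool.Agent.Lib.MP_8f66f0_al_FH.SiA
import Pool.Agent.Lib.MP_8f66f0_al_FH.SiElem
import Pool.Agent.Lib.MP_8f66f0_al_FH.SiBlock
import Pool.Agent.Lib.MP_8f66f0_al_FH.SiSum
import Pool.Agent.Lib.MP_8f66f0_al_FH.SiIso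
import Pool.Agent.Lib.MP_8f66f0_al_FH.SiTriv
import Pool.Agent.Lib.MP_8f66f0_al_FH.KofK
import Pool.Agent.Lib.MP_8f66f0_al_FH.CFin
import Pool.Agent.Lib.MP_8f66f0_al_FH.AAll
import Pool.Agent.Lib.MP_8f66f0_al_WaldP.ClassK

/-! The control theorem and Theorem FH: assembly. -/

set_option autoImplicit false

namespace Pool.Agent.FH

theorem all_siMul : S_siMul := siMul ib epsI epsM isup stm sti sts

theorem all_siA : S_siA := siA ib epsD stm stc all_siMul

theorem all_siElem : S_siElem := siElem all_siMul all_siA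

theorem all_siBlock : S_siBlock := siBlock WaldP.psf_all ib epsI isup stb

theorem all_siSum : S_siSum := siSum ib epsD epsB7 epsI isup stm sti sts stx

theorem all_siIso : S_siIso := siIso ib epsI epsC7 isup stm sti

theorem all_siTriv : S_siTriv :=
  siTriv all_siMul all_siA all_siElem all_siBlock all_siSum all_siIso

theorem all_kofk : S_kofk := kofk ib epsI epsQ isup all_siA all_siTriv stm sti stx stn

theorem all_step : S_step := step all_hall all_om cut all_dim thick qw tmono tlow tblk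

/-- The control theorem. -/
theorem K_all (n : ℕ) : S_K n := by
  induction n with
  | zero => exact base
  | succ n ih => exact all_step n ih (all_kofk n ih)

theorem all_ctl : S_ctl := ctl_of_K K_all

/-- Theorem FH: if a group `G` acts on `ℤ^ι` by permutations and translations and all its
subgroups with bounded translations are in `KS`, then `G` is in `KS`. -/
theorem ksAff : KSAff := ksAff_of_ctl all_ctl

end Pool.Agent.FH
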