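import Pool.Agent.Lib.MP_8f66f0_al_FH.FinalG
import Pool.Agent.Lib.MP_8f66f0_al_FH.FinalF
import Pool.Agent.Lib.MP_8f66f0_al_FH.KAll

/-! The proof of the final theorem. -/

set_option autoImplicit false

namespace Pool.Agent.WhVan

open Pool.Agent Pool.Agent.WaldL Pool.Agent.WaldP Pool.Agent.TreeC

theorem ce_of_CG {Γ : Type} [Group Γ] (h : CG Γ) : CE Γ := by
  induction h with
  | ea h ht => exact ce_ea h ht
  | base h => exact CE.base h
  | colim H t f hf htt hs hker _ ih => exact CE.colim H t f hf htt hs hker ih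
  | amalgam G E φ k hφ _ _ hE ih ihE => exact CE.amalgam G E φ k hφ ih ihE hE
  | hnn G A B φ k _ _ hA' ih ihA => exact CE.hnn G A B φ k ih ihA hA'
  | amen θ hQ _ hN ih => exact CE.amen θ hQ ih hN

/-- The main theorem. -/
theorem cg_main {Γ : Type} [Group Γ] (h : CG Γ) (L : Type) [CommRing L] [IsDomain L]
    (hL : IsEuc L) : K1Units L Γ :=
  ce_main FH.ksAff (ce_of_CG h) L hL

end Pool.Agent.WhVan
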