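import Pool.Agent.Lib.MP_8f66f0_al_FH.ASpec

/-! A point whose class modulo the translations modulo `p` is fixed. -/

set_option autoImplicit false

namespace Pool.Agent.FH

private theorem Fix_diff {G : Type} [Group G] {ι : Type} (A : Aff G ι) (p : ℕ) [Fact p.Prime]
    (h h' : G) (e : A.sg h = A.sg h') :
    (fun i => ((A.v h i - A.v h' i : ℤ) : ZMod p)) ∈ A.E p := by
  refine Submodule.subset_span ⟨h * h'⁻¹, by rw [map_mul, map_inv, e, mul_inv_cancel], ?_⟩
  funext i
  have h1 := A.mul (h * h'⁻¹) h' i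
  have h2 : A.sg (h * h'⁻¹) = 1 := by rw [map_mul, map_inv, e, mul_inv_cancel]
  rw [inv_mul_cancel_right, h2, inv_one, Equiv.Perm.one_apply] at h1
  rw [h1, add_sub_cancel_right]

private theorem Fix_range {G : Type} [Group G] {ι : Type} (A : Aff G ι) (f : A.sg.range) :
    ∃ g : G, A.sg g = (f : Equiv.Perm ι) := MonoidHom.mem_range.1 f.2

theorem fix : S_E → S_fix := by
  intro _ G _ ι _ A p _ hp
  classical
  have : Fintype A.sg.range := Fintype.ofFinite _
  choose t ht using Fix_range A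
  have hc : (A.nF : ZMod p) ≠ 0 := fun h => hp ((ZMod.natCast_eq_zero_iff _ _).1 h)
  have hcard : (A.nF : ZMod p) = ∑ _f : A.sg.range, (1 : ZMod p) := by
    rw [Finset.sum_const, Finset.card_univ, nsmul_eq_mul, mul_one, Aff.nF, Nat.card_eq_fintype_card]
  set w : ι → ZMod p := fun i => (A.nF : ZMod p)⁻¹ * ∑ f : A.sg.range, (A.v (t f) i : ZMod p)
    with hw
  choose u hu using fun i => ZMod.intCast_surjective (w i)
  refine ⟨u, fun g => ?_⟩
  let gr : A.sg.range := ⟨A.sg g, MonoidHom.mem_range.2 ⟨g, rfl⟩⟩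
  have key : (fun i => ((A.act g u i - u i : ℤ) : ZMod p)) =
      (A.nF : ZMod p)⁻¹ • ∑ f : A.sg.range,
        (fun i => ((A.v (g * t f) i - A.v (t (gr * f)) i : ℤ) : ZMod p)) := by
    funext i
    have e1 : ∑ f : A.sg.range, (A.v (t (gr * f)) i : ZMod p) =
        ∑ f : A.sg.range, (A.v (t f) i : ZMod p) :=
      Equiv.sum_comp (Equiv.mulLeft gr) fun f => (A.v (t f) i : ZMod p)
    have e2 : ∑ f : A.sg.range, (A.v (g * t f) i : ZMod p) =
        (A.nF : ZMod p) * (A.v g i : ZMod p) +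
          ∑ f : A.sg.range, (A.v (t f) ((A.sg g)⁻¹ i) : ZMod p) := by
      rw [hcard, Finset.sum_mul, ← Finset.sum_add_distrib]
      refine Finset.sum_congr rfl fun f _ => ?_
      rw [A.mul, Int.cast_add, one_mul]
    simp only [Pi.smul_apply, Finset.sum_apply, smul_eq_mul, Int.cast_sub, Finset.sum_sub_distrib]
    rw [e1, e2, Aff.act, Int.cast_add, hu, hu]
    simp only [hw]
    field_simp
    ring
  rw [key]
  refine Submodule.smul_mem _ _ (Submodule.sum_mem _ fun f _ => ?_)
  refine Fix_diff A p _ _ ?_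
  rw [ht, map_mul, ht]
  rfl

end Pool.Agent.FH
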