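import Pool.Agent.Lib.MP_8f66f0_al_FH.ADefs
import Pool.Agent.Lib.MP_8f66f0_al_FH.CDefs

/-! The space `ℤ^ι` with the action of a group of affine maps (part 3 of Theorem FH). -/

set_option autoImplicit false

namespace Pool.Agent.FH

section Pt

variable {G : Type} [Group G] {ι : Type}

/-- `ℤ^ι`. -/
def Aff.Pt (_A : Aff G ι) : Type := ι → ℤ

theorem Aff.v_one_aux (A : Aff G ι) (i : ι) : A.v 1 i = 0 := by
  have h := A.mul 1 1 i
  rw [mul_one, map_one, inv_one, Equiv.Perm.one_apply] at h
  omega

noncomputable instance (A : Aff G ι) : MulAction G A.Pt where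
  smul g x := A.act g x
  one_smul x := by
    funext i
    change x ((A.sg 1)⁻¹ i) + A.v 1 i = x i
    rw [A.v_one_aux, map_one, inv_one, Equiv.Perm.one_apply, add_zero]
  mul_smul g h x := by
    funext i
    change x ((A.sg (g * h))⁻¹ i) + A.v (g * h) i =
      (x ((A.sg h)⁻¹ ((A.sg g)⁻¹ i)) + A.v h ((A.sg g)⁻¹ i)) + A.v g i
    rw [A.mul, map_mul, mul_inv_rev, Equiv.Perm.mul_apply]
    ring

theorem Aff.smul_apply (A : Aff G ι) (g : G) (x : A.Pt) (i : ι) :
    (g • x : A.Pt) i = x ((A.sg g)⁻¹ i) + A.v g i := rfl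

/-- The maximum distance. -/
def Aff.met (A : Aff G ι) : Met G A.Pt where
  near r x y := ∀ i, |x i - y i| ≤ r
  refl r x i := by
    rw [sub_self, abs_zero]
    exact Int.natCast_nonneg r
  symm h i := by
    rw [abs_sub_comm]
    exact h i
  trans {r s x y z} h h' i := by
    have h1 : x i - z i = (x i - y i) + (y i - z i) := by ring
    rw [h1]
    push_cast
    exact (abs_add_le _ _).trans (add_le_add (h i) (h' i))
  mono hrs h i := (h i).trans (by exact_mod_cast hrs)
  inv g h i := by
    rw [Aff.smul_apply, Aff.smul_apply, add_sub_add_right_eq_sub]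
    exact h _

end Pt

/-- **Geo** (helper88). The whole space has dimension at most `#ι` at the scales between `1` and
`p / f`, if all translations are divisible by `p`.

Proof. Nested walls: `W_i = {x : ℤ | x mod p is a multiple of 2^i and ≤ p - 2^i}` for
`2^i ≤ p` (periodic; the gaps are in `[2^i, 2^(i+1))`), `W_i ⊆ W_i'` for `i' ≤ i`;
`R_k(i, w)` = the points with at least `k` coordinates within `w` of `W_i` (invariant).
Claim: `Dim Small met 16 (#ι + 1 - k) (R_k(i, w)) w (2^i)` (`4 w ≤ 2^i`, or trivially true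
otherwise), by induction on `#ι + 1 - k`; `R_(#ι + 1) = ∅`, `R_0 = univ`. Given `w ≤ t'`,
`16 t' ≤ d ≤ 2^i`, take `2^i' ≤ d / 2 < 2^(i'+1)`, `s = 2 t'`, `D' = 2^i'`,
`V = R_(k+1)(i', s)`, and `E` = the equivalence relation generated by `near t'` on `R_k \ V`. A
point of `R_k \ V` has exactly `k` coordinates within `s` of `W_i'`, and they are within `w` of
`W_i`. Along a step of length `t'` these coordinates, the walls near them and the gaps of the
other coordinates do not change, so classes have diameter `≤ d`; a subgroup with a bounded orbit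
is small. -/
def S_geo : Prop :=
  ∀ (ι : Type) [Fintype ι] [DecidableEq ι], ∃ f : ℕ, 1 ≤ f ∧
    ∀ (G : Type) [Group G] (A : Aff G ι) (p : ℕ), 1 ≤ p → (∀ g i, (p : ℤ) ∣ A.v g i) →
      ∃ D : ℕ, p ≤ f * D ∧ Dim A.Small A.met f (Fintype.card ι + 1) Set.univ 1 D

end Pool.Agent.FH
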