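import Pool.Agent.Lib.MP_8f66f0_al_FH.CSpec
import Pool.Agent.Lib.MP_8f66f0_al_FH.CHall

/-! An invertible matrix over `L[G]` contains an invertible monomial matrix. -/

set_option autoImplicit false

namespace Pool.Agent.FH

theorem hall' : S_hall := fun _ _ _ _ _ _ _ _ c c' h h' => hall c c' h h'

end Pool.Agent.FH
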