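import Pool.Agent.Lib.MP_8f66f0_al_FH.CBasic
import Pool.Agent.Lib.MP_8f66f0_al_Ind.LaurHom

/-! The index of invertible matrices over Laurent series (part 2 of Theorem FH): definitions. -/

set_option autoImplicit false

namespace Pool.Agent.FH

open Pool.Agent.Wald Pool.Agent.Ind

/-- A ring `Q` of Laurent series over a ring `S`: constants `c`, powers `y k` of the central
variable, coefficients `cf k`, truncation `tr` (drop the negative powers). The example is
`S = L[G]`, `Q = L((y))[G]` (`lauG`). -/
structure Lau (S Q : Type) [Ring S] [Ring Q] where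
  c : S →+* Q
  y : ℤ → Q
  cf : ℤ → Q →+ S
  tr : Q →+ Q
  y_zero : y 0 = 1
  y_add : ∀ a b : ℤ, y (a + b) = y a * y b
  y_comm : ∀ (k : ℤ) (q : Q), y k * q = q * y k
  cf_c_mul : ∀ (k : ℤ) (s : S) (q : Q), cf k (c s * q) = s * cf k q
  cf_mul_c : ∀ (k : ℤ) (s : S) (q : Q), cf k (q * c s) = cf k q * s
  cf_y_mul : ∀ (k l : ℤ) (q : Q), cf k (y l * q) = cf (k - l) q
  cf_one : ∀ k : ℤ, cf k 1 = if k = 0 then 1 else 0
  cf_tr : ∀ (k : ℤ) (q : Q), cf k (tr q) = if 0 ≤ k then cf k q else 0
  ext : ∀ q : Q, (∀ k : ℤ, cf k q = 0) → q = 0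
  int_mul : ∀ q q' : Q, (∀ k : ℤ, k < 0 → cf k q = 0) → (∀ k : ℤ, k < 0 → cf k q' = 0) →
    ∀ k : ℤ, k < 0 → cf k (q * q') = 0
  bdd : ∀ q : Q, ∃ m : ℕ, ∀ k : ℤ, k < -(m : ℤ) → cf k q = 0

section Eps

variable {S Q : Type} [Ring S] [Ring Q] (D : Lau S Q)

/-- The poles of the entries of `a` have order at most `m`: `y^m a` is integral. -/
def Lau.Pole (m : ℕ) {n k : Type} (a : Matrix n k Q) : Prop :=
  ∀ i j, ∀ s : ℤ, s < -(m : ℤ) → D.cf s (a i j) = 0

/-- The basis `y^r e_i`, `-m ≤ r < m`, of the window `y^-m Λ / y^m Λ`, as rows over `Q`. -/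
def Lau.Y (m : ℕ) (n : Type) [DecidableEq n] : Matrix (Fin (2 * m) × n) n Q :=
  fun x l => if x.2 = l then D.y ((x.1 : ℤ) - m) else 0

/-- The coordinates of the rows of `Z` in the window. -/
def Lau.res (m : ℕ) {n k : Type} (Z : Matrix k n Q) : Matrix k (Fin (2 * m) × n) S :=
  fun i z => D.cf ((z.1 : ℤ) - m) (Z i z.2)

/-- The idempotent `x ↦ tr (x a') a` in the window; its image is `Λ a / y^m Λ`. -/
def Lau.eps (m : ℕ) {n : Type} [Fintype n] [DecidableEq n] (a a' : Matrix n n Q) :
    Matrix (Fin (2 * m) × n) (Fin (2 * m) × n) S :=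
  D.res m ((D.Y m n * a').map D.tr * a)

end Eps

section Group

variable (L G : Type) [CommRing L] [Group G]

/-- `L((y))[G] → L[G]((y))`. -/
noncomputable def phi : MonoidAlgebra (LaurentSeries L) G →+* LaurentSeries (MonoidAlgebra L G) :=
  (exists_hom L G).choose

theorem phi_single (g : G) (f : LaurentSeries L) (k : ℤ) :
    (phi L G (MonoidAlgebra.single g f)).coeff k = MonoidAlgebra.single g (f.coeff k) :=
  (exists_hom L G).choose_spec g f k

theorem phi_coeff (x : MonoidAlgebra (LaurentSeries L) G) (k : ℤ) (γ : G) :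
    ((phi L G x).coeff k).coeff γ = (x.coeff γ).coeff k := by
  classical
  induction x using MonoidAlgebra.induction_linear with
  | zero =>
    rw [map_zero]
    rfl
  | add x x' h h' =>
    rw [map_add, HahnSeries.coeff_add]
    change ((phi L G x).coeff k).coeff γ + ((phi L G x').coeff k).coeff γ =
      (x.coeff γ + x'.coeff γ).coeff k
    rw [HahnSeries.coeff_add, h, h']
  | single g f =>
    rw [phi_single, MonoidAlgebra.coeff_single, MonoidAlgebra.coeff_single, Finsupp.single_apply,
      Finsupp.single_apply]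
    split_ifs
    · rfl
    · rfl

/-- Drop the negative powers. -/
noncomputable def trL : LaurentSeries L →+ LaurentSeries L where
  toFun f := f - HahnSeries.truncLT 0 f
  map_zero' := by
    ext k
    rw [HahnSeries.coeff_sub, HahnSeries.coeff_truncLT, HahnSeries.coeff_zero]
    split_ifs <;> simp
  map_add' f g := by
    rw [HahnSeries.truncLT_add]
    abel

theorem trL_coeff (f : LaurentSeries L) (k : ℤ) :
    (trL L f).coeff k = if 0 ≤ k then f.coeff k else 0 := by
  change (f - HahnSeries.truncLT 0 f).coeff k = _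
  rw [HahnSeries.coeff_sub, HahnSeries.coeff_truncLT]
  by_cases h : 0 ≤ k
  · rw [if_pos h, if_neg (not_lt.2 h), sub_zero]
  · rw [if_neg h, if_pos (not_le.1 h), sub_self]

/-- Drop the negative powers in the coefficients. -/
noncomputable def trG : MonoidAlgebra (LaurentSeries L) G →+ MonoidAlgebra (LaurentSeries L) G where
  toFun x := MonoidAlgebra.ofCoeff (x.coeff.mapRange (trL L) (map_zero (trL L)))
  map_zero' := by
    rw [MonoidAlgebra.coeff_zero, Finsupp.mapRange_zero]
    rfl
  map_add' x x' := by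
    rw [MonoidAlgebra.coeff_add, Finsupp.mapRange_add (map_add (trL L))]
    rfl

omit [Group G] in
theorem trG_coeff (x : MonoidAlgebra (LaurentSeries L) G) (γ : G) :
    (trG L G x).coeff γ = trL L (x.coeff γ) := rfl

theorem phi_C (s : MonoidAlgebra L G) :
    phi L G (MonoidAlgebra.mapRingHom G (HahnSeries.C : L →+* LaurentSeries L) s) =
      HahnSeries.C s := by
  ext k γ
  rw [phi_coeff, MonoidAlgebra.coeff_mapRingHom, HahnSeries.C_apply, HahnSeries.C_apply,
    HahnSeries.coeff_single, HahnSeries.coeff_single]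
  split_ifs
  · rfl
  · rfl

theorem phi_Y (l : ℤ) :
    phi L G (MonoidAlgebra.single 1 (HahnSeries.single l 1)) = HahnSeries.single l 1 := by
  ext k γ
  rw [phi_single, HahnSeries.coeff_single, HahnSeries.coeff_single]
  split_ifs
  · rfl
  · rw [MonoidAlgebra.single_zero]

/-- The Laurent structure of `L((y))[G]` over `L[G]`. -/
noncomputable def lauG : Lau (MonoidAlgebra L G) (MonoidAlgebra (LaurentSeries L) G) where
  c := MonoidAlgebra.mapRingHom G (HahnSeries.C : L →+* LaurentSeries L)
  y k := MonoidAlgebra.single 1 (HahnSeries.single k 1)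
  cf k :=
    { toFun := fun x => (phi L G x).coeff k
      map_zero' := by rw [map_zero, HahnSeries.coeff_zero]
      map_add' := fun x x' => by rw [map_add, HahnSeries.coeff_add] }
  tr := trG L G
  y_zero := rfl
  y_add a b := by
    rw [MonoidAlgebra.single_mul_single, HahnSeries.single_mul_single, one_mul, one_mul]
  y_comm k q := by
    induction q using MonoidAlgebra.induction_linear with
    | zero => rw [mul_zero, zero_mul]
    | add x x' h h' => rw [mul_add, add_mul, h, h']
    | single g f => rw [MonoidAlgebra.single_mul_single, MonoidAlgebra.single_mul_single, one_mul,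
        mul_one, mul_comm]
  cf_c_mul k s q := by
    change (phi L G (_ * q)).coeff k = s * (phi L G q).coeff k
    rw [map_mul, phi_C, HahnSeries.C_apply, HahnSeries.coeff_single_zero_mul]
  cf_mul_c k s q := by
    change (phi L G (q * _)).coeff k = (phi L G q).coeff k * s
    rw [map_mul, phi_C, HahnSeries.C_apply, HahnSeries.coeff_mul_single_zero]
  cf_y_mul k l q := by
    change (phi L G (_ * q)).coeff k = (phi L G q).coeff (k - l)
    rw [map_mul, phi_Y, HahnSeries.coeff_single_mul, one_mul]
  cf_one k := by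
    change (phi L G 1).coeff k = _
    rw [map_one, HahnSeries.coeff_one]
    split_ifs <;> rfl
  cf_tr k q := by
    change (phi L G (trG L G q)).coeff k = if 0 ≤ k then (phi L G q).coeff k else 0
    ext γ
    rw [phi_coeff, trG_coeff, trL_coeff]
    split_ifs
    · rw [phi_coeff]
    · rfl
  ext q h := by
    ext γ k
    have h1 : ((phi L G q).coeff k).coeff γ = 0 := by
      have h2 := h k
      change (phi L G q).coeff k = 0 at h2
      rw [h2]
      rfl
    rw [phi_coeff] at h1
    exact h1
  int_mul q q' h h' k hk := by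
    change (phi L G (q * q')).coeff k = 0
    rw [map_mul, HahnSeries.coeff_mul]
    apply Finset.sum_eq_zero
    rintro ⟨i, j⟩ hij
    rw [Finset.mem_antidiagonal] at hij
    obtain ⟨h1, h2, h3⟩ := hij
    exfalso
    have h4 : 0 ≤ i := by
      by_contra hi
      exact h1 (h i (not_le.1 hi))
    have h5 : 0 ≤ j := by
      by_contra hj
      exact h2 (h' j (not_le.1 hj))
    simp only at h3
    omega
  bdd q := by
    refine ⟨(phi L G q).order.natAbs, fun k hk => ?_⟩
    change (phi L G q).coeff k = 0
    apply HahnSeries.coeff_eq_zero_of_lt_order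
    omega

theorem lauG_cf (k : ℤ) (x : MonoidAlgebra (LaurentSeries L) G) (γ : G) :
    ((lauG L G).cf k x).coeff γ = (x.coeff γ).coeff k := phi_coeff L G x k γ

theorem lauG_tr (x : MonoidAlgebra (LaurentSeries L) G) (γ : G) :
    ((lauG L G).tr x).coeff γ = trL L (x.coeff γ) := rfl

theorem lauG_c (x : MonoidAlgebra L G) (γ : G) :
    ((lauG L G).c x).coeff γ = HahnSeries.C (x.coeff γ) := MonoidAlgebra.coeff_mapRingHom _ _ _

theorem lauG_y (k : ℤ) :
    (lauG L G).y k = MonoidAlgebra.single 1 (HahnSeries.single k 1) := rfl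

end Group

end Pool.Agent.FH
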