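import Pool.Agent.Lib.MP_8f66f0_al_FH.CSpec
import Pool.Agent.Lib.MP_8f66f0_al_FH.IDefs

/-! Part 2 of Theorem FH, the index `K_1(L((y))[G]) → K_0(L[G])` with control: statements and
proofs. All matrices act on row vectors from the right; `Λ` = the integral row vectors. -/

set_option autoImplicit false

namespace Pool.Agent.FH

open Pool.Agent.Wald Pool.Agent.WaldL Pool.Agent.Ind

section Abstract

/-- The rows of `Z` are in `y^r Λ`. -/
def Lau.In {S Q : Type} [Ring S] [Ring Q] (D : Lau S Q) (r : ℤ) {k n : Type}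
    (Z : Matrix k n Q) : Prop := ∀ i j, ∀ s : ℤ, s < r → D.cf s (Z i j) = 0

/-- Basic facts on windows (`D.Pole m a` is `D.In (-m) a`). -/
structure IB {S Q : Type} [Ring S] [Ring Q] (D : Lau S Q) : Prop where
  mul : ∀ (k n l : Type) [Fintype n] (r s : ℤ) (Z : Matrix k n Q) (W : Matrix n l Q),
    D.In r Z → D.In s W → D.In (r + s) (Z * W)
  shift : ∀ (k n : Type) (r l : ℤ) (Z : Matrix k n Q), D.In r Z →
    D.In (r + l) (Z.map fun q => D.y l * q)
  res_inj : ∀ (k n : Type) [Fintype n] [DecidableEq n] (m : ℕ)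
    (v : Matrix k (Fin (2 * m) × n) S), D.res m (v.map D.c * D.Y m n) = v
  res_c : ∀ (k l n : Type) [Fintype l] (m : ℕ) (v : Matrix k l S) (Z : Matrix l n Q),
    D.res m (v.map D.c * Z) = v * D.res m Z
  win : ∀ (k n : Type) [Fintype n] [DecidableEq n] (m : ℕ) (Z : Matrix k n Q),
    D.In (-(m : ℤ)) Z → D.In m (Z - (D.res m Z).map D.c * D.Y m n)
  res_zero : ∀ (k n : Type) (m : ℕ) (Z : Matrix k n Q), D.In m Z → D.res m Z = 0
  in_Y : ∀ (n : Type) [DecidableEq n] (m : ℕ), D.In (-(m : ℤ)) (D.Y m n)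
  tr_c : ∀ (k l n : Type) [Fintype l] (v : Matrix k l S) (Z : Matrix l n Q),
    (v.map D.c * Z).map D.tr = v.map D.c * Z.map D.tr
  tr_in : ∀ (k n : Type) (Z : Matrix k n Q), D.In 0 Z → Z.map D.tr = Z
  in_tr : ∀ (k n : Type) (Z : Matrix k n Q), D.In 0 (Z.map D.tr)
  in_sub : ∀ (k n : Type) (r : ℤ) (Z W : Matrix k n Q), D.In r Z → D.In r W → D.In r (Z - W)
  in_mono : ∀ (k n : Type) (r s : ℤ) (Z : Matrix k n Q), s ≤ r → D.In r Z → D.In s Z

/-- **Ib**. The basic facts. (`mul`: multiply by `y^(-r)`, `y^(-s)` and use `int_mul`; `win`: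
coefficients: for `-m ≤ s < m` they cancel; `tr_c`, `tr_in`: compare coefficients with `ext`;
`D.cf s (D.y l) = if s = l then 1 else 0` from `cf_y_mul`, `cf_one`.) -/
def S_ib : Prop := ∀ (S Q : Type) [Ring S] [Ring Q] (D : Lau S Q), IB D

/-- **EpsI**. `eps` is an idempotent.

Proof. `T = (Y a').map tr`, `In 0`; `eps = res (T a)`, `T a` is in `In (-m)`.
`eps * eps = res (eps.map c * (T a)) = res ((eps.map c * Y * a').map tr * a)` and
`eps.map c * Y = T a - R` with `R` in `In m` (`win`), `R a'` in `In 0`, so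
`(eps.map c * Y * a').map tr = T - R a'` and `(T - R a') a = T a - R`, `res R = 0`. -/
def S_epsI : Prop :=
  ∀ (S Q n : Type) [Ring S] [Ring Q] [Fintype n] [DecidableEq n] (D : Lau S Q), IB D →
    ∀ (m : ℕ) (a a' : Matrix n n Q), a * a' = 1 → a' * a = 1 → D.Pole m a → D.Pole m a' →
      D.eps m a a' * D.eps m a a' = D.eps m a a'

/-- **EpsM**. The index is additive: `Λ ab / y^M Λ` is isomorphic to
`Λ a / y^ma Λ ⊕ Λ b / y^mb Λ`, `M = ma + mb`.

Proof. `x` is in the image of `E = eps M (ab)` iff (the lift) `inj x = x.map c * Y` is in `Λ ab`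
modulo `y^M Λ`, i.e. in `Λ ab` (as `y^M Λ ⊆ Λ ab`); similarly for `Ea`, `Eb`. For `x` in the image
of `E`: `v = x V₁ = res (inj x * b')` is in the image of `Ea`, `inj v = inj x * b'` modulo
`y^ma Λ`, so `inj x - inj v * b` is in `y^ma Λ b`; `w = x W₁ = res (y^-ma (inj x - inj v * b))` is
in the image of `Eb` and `inj w = y^-ma (inj x - inj v * b)` modulo `y^mb Λ`. Hence
`v V₂ + w W₂ = res (inj v * b + y^ma inj w) = x`. Conversely, for `v`, `w` in the images of `Ea`,
`Eb`, `x = res_M (inj v * b + y^ma inj w)` has `inj x = inj v * b + y^ma inj w` modulo `y^M Λ`, it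
is in the image of `E`, `x V₁ = res (inj v + y^ma inj w b' + ..) = v` (`inj w b'` is in `Λ`,
`y^M Λ b' ⊆ y^ma Λ`), `x W₁ = res (inj w + ..) = w`. (Apply this to `x` = the rows of `E`, etc.) -/
def S_epsM : Prop :=
  ∀ (S Q n : Type) [Ring S] [Ring Q] [Fintype n] [DecidableEq n] (D : Lau S Q), IB D →
    ∀ (ma mb : ℕ) (a a' b b' : Matrix n n Q), a * a' = 1 → a' * a = 1 → b * b' = 1 →
      b' * b = 1 → D.Pole ma a → D.Pole ma a' → D.Pole mb b → D.Pole mb b' →
      ∀ (E : Matrix (Fin (2 * (ma + mb)) × n) (Fin (2 * (ma + mb)) × n) S)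
        (Ea : Matrix (Fin (2 * ma) × n) (Fin (2 * ma) × n) S)
        (Eb : Matrix (Fin (2 * mb) × n) (Fin (2 * mb) × n) S)
        (V₁ : Matrix (Fin (2 * (ma + mb)) × n) (Fin (2 * ma) × n) S)
        (W₁ : Matrix (Fin (2 * (ma + mb)) × n) (Fin (2 * mb) × n) S)
        (V₂ : Matrix (Fin (2 * ma) × n) (Fin (2 * (ma + mb)) × n) S)
        (W₂ : Matrix (Fin (2 * mb) × n) (Fin (2 * (ma + mb)) × n) S),
        E = D.eps (ma + mb) (a * b) (b' * a') → Ea = D.eps ma a a' → Eb = D.eps mb b b' →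
        V₁ = D.res ma (D.Y (ma + mb) n * b') →
        W₁ = D.res mb ((D.Y (ma + mb) n - V₁.map D.c * D.Y ma n * b).map
          fun q => D.y (-(ma : ℤ)) * q) →
        V₂ = D.res (ma + mb) (D.Y ma n * b) →
        W₂ = D.res (ma + mb) ((D.Y mb n).map fun q => D.y (ma : ℤ) * q) →
        (E * V₁) * (Ea * V₂) + (E * W₁) * (Eb * W₂) = E ∧ (Ea * V₂) * (E * V₁) = Ea ∧
          (Ea * V₂) * (E * W₁) = 0 ∧ (Eb * W₂) * (E * V₁) = 0 ∧ (Eb * W₂) * (E * W₁) = Eb

/-- **EpsD**. Diagonal matrices of powers of `y`. -/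
def S_epsD : Prop :=
  ∀ (S Q n : Type) [Ring S] [Ring Q] [Fintype n] [DecidableEq n] (D : Lau S Q), IB D →
    ∀ (m : ℕ) (c : n → ℤ), D.eps m (Matrix.diagonal fun i => D.y (c i))
      (Matrix.diagonal fun i => D.y (-c i)) =
      Matrix.diagonal fun x => if c x.2 ≤ (x.1 : ℤ) - m then 1 else 0

/-- **EpsQ**. `a = 1 - q + y q`. In degree `0` the idempotent is `1 - q`, in positive degrees `1`,
in negative degrees `0`. -/
def S_epsQ : Prop :=
  ∀ (S Q n : Type) [Ring S] [Ring Q] [Fintype n] [DecidableEq n] (D : Lau S Q), IB D →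
    ∀ (m : ℕ) (q : Matrix n n S), q * q = q →
      (1 - q.map D.c + (q.map D.c).map fun z => D.y 1 * z) *
        (1 - q.map D.c + (q.map D.c).map fun z => D.y (-1) * z) = 1 ∧
      (1 - q.map D.c + (q.map D.c).map fun z => D.y (-1) * z) *
        (1 - q.map D.c + (q.map D.c).map fun z => D.y 1 * z) = 1 ∧
      D.eps m (1 - q.map D.c + (q.map D.c).map fun z => D.y 1 * z)
        (1 - q.map D.c + (q.map D.c).map fun z => D.y (-1) * z) =
        fun x z => if x.1 = z.1 then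
          (if (x.1 : ℕ) = m then (1 - q) x.2 z.2
            else if m < (x.1 : ℕ) then (1 : Matrix n n S) x.2 z.2 else 0) else 0

/-- The same matrix in all degrees. -/
def dgl {S : Type} [Ring S] (m : ℕ) {k n : Type} (v : Matrix k n S) :
    Matrix (Fin (2 * m) × k) (Fin (2 * m) × n) S := fun x z => if x.1 = z.1 then v x.2 z.2 else 0

/-- **EpsC**. Conjugation by constant matrices. -/
def S_epsC : Prop :=
  ∀ (S Q n k : Type) [Ring S] [Ring Q] [Fintype n] [DecidableEq n] [Fintype k] [DecidableEq k]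
    (D : Lau S Q), IB D → ∀ (m : ℕ) (a a' : Matrix n n Q) (u : Matrix n k S)
      (v : Matrix k n S), u * v = 1 → v * u = 1 →
      D.eps m (v.map D.c * a * u.map D.c) (v.map D.c * a' * u.map D.c) =
        dgl m v * D.eps m a a' * dgl m u

/-- The index set of a window of a sum. -/
def winE (m : ℕ) (n k : Type) : Fin (2 * m) × (n ⊕ k) ≃ (Fin (2 * m) × n) ⊕ (Fin (2 * m) × k) :=
  Equiv.prodSumDistrib (Fin (2 * m)) n k

/-- **EpsB**. Sums. -/
def S_epsB : Prop :=
  ∀ (S Q n k : Type) [Ring S] [Ring Q] [Fintype n] [DecidableEq n] [Fintype k] [DecidableEq k]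
    (D : Lau S Q), IB D → ∀ (m : ℕ) (a a' : Matrix n n Q) (b b' : Matrix k k Q),
      D.eps m (Matrix.fromBlocks a 0 0 b) (Matrix.fromBlocks a' 0 0 b') =
        (Matrix.fromBlocks (D.eps m a a') 0 0 (D.eps m b b')).submatrix (winE m n k) (winE m n k)

end Abstract

section Concrete

/-- **ISup**. Supports. -/
def S_isup : Prop :=
  ∀ (L G X : Type) [CommRing L] [Group G] [MulAction G X] (R : X → X → Prop) (k n : Type)
    (p : k → X) (q : n → X),
    (∀ (m : ℕ) (Z : Matrix k n (MonoidAlgebra (LaurentSeries L) G)), SupR R p q Z →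
      SupR R p (fun x : Fin (2 * m) × n => q x.2) ((lauG L G).res m Z)) ∧
    (∀ (m : ℕ) [DecidableEq n], (∀ x, R x x) →
      SupR R (fun x : Fin (2 * m) × n => q x.2) q ((lauG L G).Y m n)) ∧
    (∀ Z : Matrix k n (MonoidAlgebra (LaurentSeries L) G), SupR R p q Z →
      SupR R p q (Z.map (lauG L G).tr)) ∧
    (∀ Z : Matrix k n (MonoidAlgebra L G), SupR R p q Z → SupR R p q (Z.map (lauG L G).c)) ∧
    (∀ (l : ℤ) (Z : Matrix k n (MonoidAlgebra (LaurentSeries L) G)), SupR R p q Z →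
      SupR R p q (Z.map fun z => (lauG L G).y l * z))

/-- `a` is invertible with control, the poles of `a` and of its inverse have order at most `m`,
and the index of `a` (in the window of size `m`) is stably free with control. -/
def SIw (L : Type) [CommRing L] {G X : Type} [Group G] [MulAction G X] (N : Met G X) (Ω : Set X)
    (D m : ℕ) {n : Type} [Fintype n] [DecidableEq n] (p : n → X)
    (a : Matrix n n (MonoidAlgebra (LaurentSeries L) G)) : Prop :=
  ∃ a' : Matrix n n (MonoidAlgebra (LaurentSeries L) G), a * a' = 1 ∧ a' * a = 1 ∧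
    (lauG L G).Pole m a ∧ (lauG L G).Pole m a' ∧ SupR (N.near D) p p a ∧
    SupR (N.near D) p p a' ∧
    StF L N Ω D (fun x : Fin (2 * m) × n => p x.2) ((lauG L G).eps m a a')

/-- **SiMul**. (`S_epsM` with `u = [E V₁, E W₁]`, `v = [Ea V₂; Eb W₂]`, `S_sts`, `S_sti`.) -/
def S_siMul : Prop :=
  ∀ (L G X : Type) [CommRing L] [Group G] [MulAction G X] (N : Met G X) (Ω : Set X)
    (D ma mb : ℕ) (n : Type) [Fintype n] [DecidableEq n] (p : n → X)
    (a b : Matrix n n (MonoidAlgebra (LaurentSeries L) G)), SIw L N Ω D ma p a →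
    SIw L N Ω D mb p b → SIw L N Ω (20 * D) (ma + mb) p (a * b)

/-- **SiA**. Monotonicity; diagonal matrices of powers of `y`; integral matrices with integral
inverse; larger windows (`a = a * 1`, `S_siMul`). -/
def S_siA : Prop :=
  ∀ (L G X : Type) [CommRing L] [Group G] [MulAction G X] (N : Met G X) (Ω Ω' : Set X)
    (D D' m m' : ℕ) (n : Type) [Fintype n] [DecidableEq n] (p : n → X)
    (a a' : Matrix n n (MonoidAlgebra (LaurentSeries L) G)),
    (Ω ⊆ Ω' → D ≤ D' → SIw L N Ω D m p a → SIw L N Ω' D' m p a) ∧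
    (∀ c : n → ℤ, (∀ i, |c i| ≤ m) → (∀ i, p i ∈ Ω) →
      SIw L N Ω D m p (Matrix.diagonal fun i => (lauG L G).y (c i))) ∧
    (a * a' = 1 → a' * a = 1 → (lauG L G).Pole 0 a → (lauG L G).Pole 0 a' →
      SupR (N.near D) p p a → SupR (N.near D) p p a' → SIw L N Ω D 0 p a) ∧
    (m ≤ m' → (∀ i, p i ∈ Ω) → SIw L N Ω D m p a → SIw L N Ω (20 * D) m' p a)

/-- **SiElem**. Elementary matrices: `[[1, x], [0, 1]]` is the product of
`diag(y^-m, 1)`, `[[1, y^m x], [0, 1]]`, `diag(y^m, 1)`. -/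
def S_siElem : Prop :=
  ∀ (L G X : Type) [CommRing L] [Group G] [MulAction G X] (N : Met G X) (Ω : Set X) (D : ℕ)
    (n k : Type) [Fintype n] [DecidableEq n] [Fintype k] [DecidableEq k] (p : n → X)
    (q : k → X) (x : Matrix n k (MonoidAlgebra (LaurentSeries L) G)), (∀ i, p i ∈ Ω) →
    (∀ i, q i ∈ Ω) → SupR (N.near D) p q x →
    ∃ m : ℕ, SIw L N Ω (400 * D) m (Sum.elim p q) (Matrix.fromBlocks 1 x 0 1)

/-- **SiBlock**. Block diagonal matrices (`eps` is block diagonal; `S_stb` with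
`kk_projSF psf_all`). -/
def S_siBlock : Prop :=
  ∀ (L G X : Type) [CommRing L] [IsDomain L] [Group G] [MulAction G X], IsEuc L →
    ∀ (N : Met G X) (Ω : Set X) (D : ℕ) (n : Type) [Fintype n] [DecidableEq n] (p : n → X)
    (a a' : Matrix n n (MonoidAlgebra (LaurentSeries L) G)) (E : Eqr G X), (∀ i, p i ∈ Ω) →
    a * a' = 1 → a' * a = 1 → SupR E.rel p p a → SupR E.rel p p a' →
    (∀ i, KK (E.st (p i))) → (∀ i k (γ : G), E.rel (p i) (γ • p k) → N.near D (p i) (γ • p k)) →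
    ∃ m : ℕ, SIw L N Ω D m p a

/-- **SiSum**. Sums and stabilization. -/
def S_siSum : Prop :=
  ∀ (L G X : Type) [CommRing L] [Group G] [MulAction G X] (N : Met G X) (Ω : Set X) (D m : ℕ)
    (n k : Type) [Fintype n] [DecidableEq n] [Fintype k] [DecidableEq k] (p : n → X)
    (q : k → X) (a : Matrix n n (MonoidAlgebra (LaurentSeries L) G))
    (b : Matrix k k (MonoidAlgebra (LaurentSeries L) G)),
    (SIw L N Ω D m p a → SIw L N Ω D m q b →
      SIw L N Ω D m (Sum.elim p q) (Matrix.fromBlocks a 0 0 b)) ∧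
    ((∀ i, q i ∈ Ω) → SIw L N Ω D m (Sum.elim p q) (Matrix.fromBlocks a 0 0 1) →
      SIw L N Ω D m p a)

/-- **SiIso**. Conjugation by monomial matrices. -/
def S_siIso : Prop :=
  ∀ (L G X : Type) [CommRing L] [Group G] [MulAction G X] (N : Met G X) (Ω : Set X) (D m : ℕ)
    (n k : Type) [Fintype n] [DecidableEq n] [Fintype k] [DecidableEq k] (p : n → X)
    (q : k → X) (σ : n ≃ k) (γ : n → G)
    (a : Matrix n n (MonoidAlgebra (LaurentSeries L) G)),
    (∀ i, N.near D (p i) (γ i • q (σ i))) → SIw L N Ω D m p a →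
    SIw L N Ω (20 * D) m q (moni (LaurentSeries L) σ γ * a * mon (LaurentSeries L) σ γ)

/-- **SiTriv** (uses `S_siMul`, `S_siA`, `S_siElem`, `S_siBlock`, `S_siSum`, `S_siIso`). Induction
on the expression; the constant `c` depends only on the height `k`. -/
def S_siTriv : Prop :=
  ∀ k : ℕ, ∃ c : ℕ, ∀ (L G X : Type) [CommRing L] [IsDomain L] [Group G] [MulAction G X],
    IsEuc L → ∀ (Sm : Subgroup G → Prop), (∀ V : Subgroup G, Sm V → KK V) →
    ∀ (N : Met G X) (Ω : Set X) (D : ℕ) (n : Type) [Fintype n] [DecidableEq n] (p : n → X)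
      (a : Matrix n n (MonoidAlgebra (LaurentSeries L) G)),
      Triv (LaurentSeries L) Sm N Ω D k n p a → ∃ m : ℕ, SIw L N Ω (c * D) m p a

/-- **KofK**. From `K_1` to `K_0`.

Proof. `Λ`, `k` from `S_K n` (for the Euclidean domain `L((y))`), `c` from `S_siTriv`, `D₀ = Λ t`.
`a = 1 - q + y q`, propagation `t`; `Triv` over `nb R D₀`, so `SIw (c D₀) m a`; by `S_siA` (larger
window) `m ≥ 1`; the inverse is the one of `S_epsQ`, `eps` is `(1 - q) ⊕ coordinate projection`
(window index set `≃ n ⊕ {x // x.1 ≠ m}`), so `StF (1 - q)` (`S_sti`, `S_stx`) and `StF q`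
(`S_stn`). `Λ₀ = (20 c + 1) (Λ + 1)` (or larger). -/
def S_kofk : Prop := ∀ n : ℕ, S_K n → S_K0 n

end Concrete

end Pool.Agent.FH
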