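import Pool.Agent.Lib.MP_8f66f0_al_FH.ISpec

/-! Supports of windows. -/

set_option autoImplicit false

namespace Pool.Agent.FH

open Pool.Agent.Wald Pool.Agent.WaldL Pool.Agent.Ind

theorem isup7 : S_isup := by
  classical
  intro L G X _ _ _ R k n p q
  refine ⟨?_, ?_, ?_, ?_, ?_⟩
  · intro m Z hZ i z γ hγ
    apply hZ i z.2 γ
    intro h0
    apply hγ
    change ((lauG L G).cf _ (Z i z.2)).coeff γ = 0
    rw [lauG_cf, h0, HahnSeries.coeff_zero]
  · intro m _ hR x l γ hγ
    unfold Lau.Y at hγ
    by_cases hx : x.2 = l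
    · rw [if_pos hx, lauG_y, MonoidAlgebra.coeff_single, Finsupp.single_apply] at hγ
      by_cases h1 : (1 : G) = γ
      · rw [← h1, one_smul, ← hx]
        exact hR _
      · rw [if_neg h1] at hγ
        exact absurd rfl hγ
    · rw [if_neg hx] at hγ
      exact absurd rfl hγ
  · intro Z hZ i j γ hγ
    apply hZ i j γ
    intro h0
    apply hγ
    change ((lauG L G).tr (Z i j)).coeff γ = 0
    rw [lauG_tr, h0, map_zero]
  · intro Z hZ i j γ hγ
    apply hZ i j γ
    intro h0
    apply hγ
    change ((lauG L G).c (Z i j)).coeff γ = 0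
    rw [lauG_c, h0, map_zero]
  · intro l Z hZ i j γ hγ
    apply hZ i j γ
    intro h0
    apply hγ
    change ((lauG L G).y l * Z i j).coeff γ = 0
    rw [lauG_y, MonoidAlgebra.coeff_single_one_mul, h0, mul_zero]

end Pool.Agent.FH
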