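import Pool.Agent.Lib.MP_8f66f0_al_FH.CSpec
import Pool.Agent.Lib.MP_8f66f0_al_FH.CHall

/-! Short modules of the control theorem: exchange matrices, monotonicity of the dimension. -/

set_option autoImplicit false

namespace Pool.Agent.FH

open Pool.Agent.Wald Pool.Agent.WaldL Pool.Agent.Ind

theorem all_hall : S_hall := fun _ _ _ _ _ _ _ _ c c' h h' => hall c c' h h'

private theorem KAux_dim1 {G X : Type} [Group G] [MulAction G X] (Sm : Subgroup G → Prop)
    (N : Met G X) (f n : ℕ) (R : Set X) (t D : ℕ) (h : Dim Sm N f n R t D) (R' : Set X)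
    (t₁ D₁ : ℕ) (hR : R' ⊆ R) (ht : t ≤ t₁) (hD : D₁ ≤ D) : Dim Sm N f n R' t₁ D₁ := by
  cases n with
  | zero =>
    change R = ∅ at h
    change R' = ∅
    rw [h] at hR
    exact Set.subset_empty_iff.1 hR
  | succ n =>
    intro t' d h1 h2 h3
    obtain ⟨E, V, s, D', a1, a2, a3, a4, a5, a6, a7⟩ := h t' d (ht.trans h1) h2 (h3.trans hD)
    exact ⟨E, V, s, D', a1, a2, a3, fun x y hx hx' hy hy' => a4 x y (hR hx) hx' (hR hy) hy',
      fun x y hx hx' hy hy' => a5 x y (hR hx) hx' (hR hy) hy', fun x hx hx' => a6 x (hR hx) hx',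
      a7⟩

private theorem KAux_dim2 {G X : Type} [Group G] [MulAction G X] (Sm : Subgroup G → Prop)
    (N : Met G X) (f n : ℕ) (hSm : ∀ V W : Subgroup G, V ≤ W → Sm W → Sm V) (E : Eqr G X) :
    ∀ (R : Set X) (t D : ℕ), Dim Sm N f n R t D → Dim Sm (N.ref E) f n R t D := by
  induction n with
  | zero => exact fun R t D h => h
  | succ n ih =>
    intro R t D h t' d h1 h2 h3
    obtain ⟨E', V, s, D', a1, a2, a3, a4, a5, a6, a7⟩ := h t' d h1 h2 h3
    refine ⟨E'.inf E, V, s, D', a1, a2, a3, ?_, ?_, ?_, ih V s D' a7⟩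
    · exact fun x y hx hx' hy hy' hn => ⟨a4 x y hx hx' hy hy' hn.1, hn.2⟩
    · exact fun x y hx hx' hy hy' hn => ⟨a5 x y hx hx' hy hy' hn.1, hn.2⟩
    · exact fun x hx hx' => hSm _ _ (fun g hg => hg.1) (a6 x hx hx')

theorem all_dim : S_dim := fun _ _ _ _ Sm N f n R t D h =>
  ⟨fun R' t₁ D₁ hR ht hD => KAux_dim1 Sm N f n R t D h R' t₁ D₁ hR ht hD,
    fun hSm E => KAux_dim2 Sm N f n hSm E R t D h⟩

private theorem KAux_om {S n m : Type} [Ring S] [Fintype n] [DecidableEq n] [Fintype m]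
    [DecidableEq m] (U : Matrix n m S) (V : Matrix m n S) (h : V * U = 1) :
    om U V * om (-U) (-V) = 1 := by
  have h1 : U * V * (U * V) = U * V := by
    rw [Matrix.mul_assoc, ← Matrix.mul_assoc V, h, Matrix.one_mul]
  have h2 : U * V * U = U := by
    rw [Matrix.mul_assoc, h, Matrix.mul_one]
  have h3 : V * (U * V) = V := by
    rw [← Matrix.mul_assoc, h, Matrix.one_mul]
  unfold om
  rw [Matrix.fromBlocks_multiply, ← Matrix.fromBlocks_one]
  congr 1
  · simp only [Matrix.neg_mul, Matrix.mul_neg, neg_neg, Matrix.sub_mul, Matrix.mul_sub,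
      Matrix.one_mul, Matrix.mul_one, h1]
    abel
  · simp only [Matrix.mul_neg, Matrix.sub_mul, Matrix.one_mul, Matrix.mul_zero, h2]
    simp
  · simp only [Matrix.neg_mul, Matrix.mul_neg, neg_neg, Matrix.mul_sub, Matrix.mul_one,
      Matrix.zero_mul, h3]
    simp
  · simp only [Matrix.neg_mul, Matrix.mul_neg, neg_neg, Matrix.zero_mul, add_zero, h]

theorem all_om : S_om := by
  intro S n m _ _ _ _ _ U V h
  refine ⟨KAux_om U V h, ?_, ?_⟩
  · have h1 : (-V) * (-U) = 1 := by
      rw [Matrix.neg_mul, Matrix.mul_neg, neg_neg, h]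
    have h2 := KAux_om (-U) (-V) h1
    rw [neg_neg, neg_neg] at h2
    exact h2
  · have h2 : U * V * U = U := by
      rw [Matrix.mul_assoc, h, Matrix.mul_one]
    unfold om
    rw [Matrix.fromBlocks_multiply, Matrix.fromBlocks_multiply]
    congr 1
    · simp only [Matrix.mul_neg, Matrix.mul_one, Matrix.mul_zero, add_zero]
      abel
    · simp only [Matrix.one_mul, Matrix.mul_neg, Matrix.mul_one, Matrix.add_mul, Matrix.neg_mul,
        h2]
      abel
    · simp
    · simp only [Matrix.one_mul, Matrix.mul_one, Matrix.mul_zero, zero_add, Matrix.neg_mul, h]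
      simp

end Pool.Agent.FH
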