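import Pool.Agent.Lib.MP_8f66f0_al_HierZ.FinalD

/-! The Kuhn triangulation of `ℝ^N`: a finite permutation resolution for all groups which act on
`ℤ^N` by order preserving maps which commute with the translation by `(1, …, 1)`. -/

set_option autoImplicit false

namespace Pool.Agent.Kuhn

open Pool.Agent.WhVan

section Lists

variable {V : Type}

/-- Formal sums of lists. -/
abbrev Ch (V : Type) := List V →₀ ℤ

theorem lext {M : Type} [AddCommGroup M] {φ ψ : Ch V →ₗ[ℤ] M}
    (h : ∀ l, φ (Finsupp.single l 1) = ψ (Finsupp.single l 1)) : φ = ψ := by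
  refine Finsupp.lhom_ext fun l n => ?_
  have h1 : (Finsupp.single l n : Ch V) = n • Finsupp.single l (1 : ℤ) := by
    rw [Finsupp.smul_single, smul_eq_mul, mul_one]
  rw [h1, map_smul, map_smul, h]

/-- Prepend an element. -/
noncomputable def pre (a : V) : Ch V →ₗ[ℤ] Ch V := Finsupp.lmapDomain ℤ ℤ (List.cons a)

@[simp] theorem pre_single (a : V) (l : List V) (n : ℤ) :
    pre a (Finsupp.single l n) = Finsupp.single (a :: l) n := by
  simp [pre, Finsupp.mapDomain_single]

/-- The boundary of a list. -/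
noncomputable def dl : List V → Ch V
  | [] => 0
  | a :: l => Finsupp.single l 1 - pre a (dl l)

/-- The boundary. -/
noncomputable def d : Ch V →ₗ[ℤ] Ch V := Finsupp.linearCombination ℤ dl

@[simp] theorem d_single (l : List V) : d (Finsupp.single l 1) = dl l := by
  simp [d]

theorem d_pre (a : V) (z : Ch V) : d (pre a z) = z - pre a (d z) := by
  have h : d ∘ₗ pre a = LinearMap.id - pre a ∘ₗ d := by
    refine lext fun l => ?_
    simp [dl]
  exact LinearMap.congr_fun h z

theorem d_dl (l : List V) : d (dl l) = 0 := by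
  induction l with
  | nil => simp [dl]
  | cons a l ih => simp [dl, d_pre, ih]

theorem d_d (z : Ch V) : d (d z) = 0 := by
  have h : (d : Ch V →ₗ[ℤ] Ch V) ∘ₗ d = 0 := by
    refine lext fun l => ?_
    simp [d_dl]
  exact LinearMap.congr_fun h z

/-- The map induced by a map of vertices. -/
noncomputable def mp (f : V → V) : Ch V →ₗ[ℤ] Ch V := Finsupp.lmapDomain ℤ ℤ (List.map f)

@[simp] theorem mp_single (f : V → V) (l : List V) (n : ℤ) :
    mp f (Finsupp.single l n) = Finsupp.single (l.map f) n := by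
  simp [mp, Finsupp.mapDomain_single]

theorem mp_pre (f : V → V) (a : V) (z : Ch V) : mp f (pre a z) = pre (f a) (mp f z) := by
  have h : mp f ∘ₗ pre a = pre (f a) ∘ₗ mp f := by
    refine lext fun l => ?_
    simp
  exact LinearMap.congr_fun h z

theorem mp_dl (f : V → V) (l : List V) : mp f (dl l) = dl (l.map f) := by
  induction l with
  | nil => simp [dl]
  | cons a l ih => simp [dl, mp_pre, ih]

theorem d_mp (f : V → V) (z : Ch V) : d (mp f z) = mp f (d z) := by
  have h : d ∘ₗ mp f = mp f ∘ₗ d := by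
    refine lext fun l => ?_
    simp [mp_dl]
  exact LinearMap.congr_fun h z

theorem mp_mp (f g : V → V) (z : Ch V) : mp f (mp g z) = mp (f ∘ g) z := by
  have h : mp f ∘ₗ mp g = mp (f ∘ g) := by
    refine lext fun l => ?_
    simp
  exact LinearMap.congr_fun h z

theorem mp_id (z : Ch V) : mp (id : V → V) z = z := by
  have h : mp (id : V → V) = LinearMap.id := by
    refine lext fun l => ?_
    simp
  exact LinearMap.congr_fun h z

/-- The prism operator on lists. -/
noncomputable def pl (f g : V → V) : List V → Ch V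
  | [] => 0
  | a :: l => Finsupp.single (f a :: g a :: l.map g) 1 - pre (f a) (pl f g l)

/-- The prism operator. -/
noncomputable def pr (f g : V → V) : Ch V →ₗ[ℤ] Ch V := Finsupp.linearCombination ℤ (pl f g)

@[simp] theorem pr_single (f g : V → V) (l : List V) : pr f g (Finsupp.single l 1) = pl f g l := by
  simp [pr]

theorem pr_pre (f g : V → V) (a : V) (z : Ch V) :
    pr f g (pre a z) = pre (f a) (mp g (pre a z)) - pre (f a) (pr f g z) := by
  have h : pr f g ∘ₗ pre a = pre (f a) ∘ₗ mp g ∘ₗ pre a - pre (f a) ∘ₗ pr f g := by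
    refine lext fun l => ?_
    simp [pl]
  exact LinearMap.congr_fun h z

theorem pr_dl (f g : V → V) (l : List V) :
    d (pl f g l) + pr f g (dl l) = Finsupp.single (l.map g) 1 - Finsupp.single (l.map f) 1 := by
  induction l with
  | nil => simp [dl, pl]
  | cons a l ih =>
    have h1 : pr f g (dl l) = Finsupp.single (l.map g) 1 - Finsupp.single (l.map f) 1 -
        d (pl f g l) := by
      rw [← ih]; abel
    simp only [dl, pl, map_sub, pr_single, d_single, d_pre, pr_pre, mp_pre, mp_dl, h1, pre_single,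
      List.map_cons]
    abel

theorem pr_d (f g : V → V) (z : Ch V) : d (pr f g z) + pr f g (d z) = mp g z - mp f z := by
  have h : d ∘ₗ pr f g + pr f g ∘ₗ d = mp g - mp f := by
    refine lext fun l => ?_
    simp [pr_dl]
  exact LinearMap.congr_fun h z

/-- Formal sums of lists with a given property. -/
noncomputable def Sp (p : List V → Prop) : Submodule ℤ (Ch V) := Finsupp.supported ℤ ℤ {l | p l}

theorem single_mem {p : List V → Prop} {l : List V} (h : p l) (n : ℤ) :
    (Finsupp.single l n : Ch V) ∈ Sp p := Finsupp.single_mem_supported ℤ n h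

theorem sp_map {M : Type} [AddCommGroup M] (φ : Ch V →ₗ[ℤ] M) (p : List V → Prop)
    (N : Submodule ℤ M) (h : ∀ l, p l → φ (Finsupp.single l 1) ∈ N) {z : Ch V} (hz : z ∈ Sp p) :
    φ z ∈ N := by
  have h1 : Sp p = Submodule.span ℤ ((fun l : List V => (Finsupp.single l 1 : Ch V)) '' {l | p l}) :=
    Finsupp.supported_eq_span_single ℤ _
  rw [h1] at hz
  have h2 : Submodule.span ℤ ((fun l : List V => (Finsupp.single l 1 : Ch V)) '' {l | p l}) ≤
      N.comap φ := by
    rw [Submodule.span_le]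
    rintro _ ⟨l, hl, rfl⟩
    exact h l hl
  exact h2 hz

theorem sp_mono {p q : List V → Prop} (h : ∀ l, p l → q l) {z : Ch V} (hz : z ∈ Sp p) : z ∈ Sp q :=
  sp_map LinearMap.id p (Sp q) (fun l hl => single_mem (h l hl) 1) hz

/-- Two linear maps which agree on the lists with a property. -/
theorem sp_eq {M : Type} [AddCommGroup M] {φ ψ : Ch V →ₗ[ℤ] M} {p : List V → Prop}
    (h : ∀ l, p l → φ (Finsupp.single l 1) = ψ (Finsupp.single l 1)) {z : Ch V} (hz : z ∈ Sp p) :
    φ z = ψ z := by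
  have h1 : (φ - ψ) z ∈ (⊥ : Submodule ℤ M) := by
    refine sp_map (φ - ψ) p ⊥ (fun l hl => ?_) hz
    rw [Submodule.mem_bot, LinearMap.sub_apply, h l hl, sub_self]
  rw [Submodule.mem_bot, LinearMap.sub_apply] at h1
  exact sub_eq_zero.1 h1

theorem pre_mem {p q : List V → Prop} {a : V} (h : ∀ l, p l → q (a :: l)) {z : Ch V}
    (hz : z ∈ Sp p) : pre a z ∈ Sp q :=
  sp_map (pre a) p (Sp q) (fun l hl => by rw [pre_single]; exact single_mem (h l hl) 1) hz

theorem dl_mem (l : List V) : dl l ∈ Sp fun m : List V => m.Sublist l ∧ m.length + 1 = l.length := by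
  induction l with
  | nil => simp [dl]
  | cons a l ih =>
    refine sub_mem (single_mem ⟨List.sublist_cons_self a l, rfl⟩ 1) (pre_mem (fun m hm => ?_) ih)
    exact ⟨hm.1.cons_cons a, by simp [hm.2]⟩

end Lists

section Cube

variable {N : ℕ}

/-- Vertices. -/
abbrev Vt (N : ℕ) := Fin N → ℤ

/-- The relation between the vertices of a simplex. -/
def R (x y : Vt N) : Prop := x ≤ y ∧ y ≤ x + 1

/-- Degenerate simplices, with `k` vertices. -/
def W (k : ℕ) (l : List (Vt N)) : Prop := l.Pairwise R ∧ l.length = k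

/-- Simplices with `k` vertices. -/
def St (k : ℕ) (l : List (Vt N)) : Prop := W k l ∧ l.Pairwise (· < ·)

/-- Cut off from below. -/
def ct (n : ℤ) (x : Vt N) : Vt N := fun i => max (x i) n

theorem R_refl (x : Vt N) : R x x := ⟨le_rfl, fun i => by simp⟩

theorem R_ct {x y : Vt N} (h : R x y) (n : ℤ) : R (ct n x) (ct n y) := by
  refine ⟨fun i => ?_, fun i => ?_⟩
  · have : x i ≤ y i := h.1 i
    simp only [ct]
    omega
  · have : y i ≤ x i + 1 := h.2 i
    simp only [ct, Pi.add_apply, Pi.one_apply]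
    omega

theorem R_ct' {x y : Vt N} (h : R x y) (n : ℤ) : R (ct n x) (ct (n + 1) y) := by
  refine ⟨fun i => ?_, fun i => ?_⟩
  · have : x i ≤ y i := h.1 i
    simp only [ct]
    omega
  · have : y i ≤ x i + 1 := h.2 i
    simp only [ct, Pi.add_apply, Pi.one_apply]
    omega

theorem W_map {f : Vt N → Vt N} (hf : ∀ x y, R x y → R (f x) (f y)) {k : ℕ} {l : List (Vt N)}
    (h : W k l) : W k (l.map f) := by
  refine ⟨?_, by rw [List.length_map]; exact h.2⟩
  rw [List.pairwise_map]
  exact h.1.imp fun {a b} hab => hf a b hab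

theorem pl_mem (n : ℤ) (l : List (Vt N)) (h : l.Pairwise R) :
    pl (ct n) (ct (n + 1)) l ∈ Sp fun m : List (Vt N) => W (l.length + 1) m ∧
      ∀ x ∈ m, ∃ b ∈ l, x = ct n b ∨ x = ct (n + 1) b := by
  induction l with
  | nil => simp [pl]
  | cons a l ih =>
    rw [List.pairwise_cons] at h
    refine sub_mem (single_mem ⟨⟨?_, by simp⟩, ?_⟩ 1) (pre_mem (fun m hm => ⟨⟨?_, ?_⟩, ?_⟩) (ih h.2))
    · rw [List.pairwise_cons, List.pairwise_cons]
      refine ⟨?_, ?_, ?_⟩
      · intro x hx
        rcases List.mem_cons.1 hx with rfl | hx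
        · exact R_ct' (R_refl a) n
        · obtain ⟨b, hb, rfl⟩ := List.mem_map.1 hx
          exact R_ct' (h.1 b hb) n
      · intro x hx
        obtain ⟨b, hb, rfl⟩ := List.mem_map.1 hx
        exact R_ct (h.1 b hb) (n + 1)
      · rw [List.pairwise_map]
        exact h.2.imp fun {x y} hxy => R_ct hxy (n + 1)
    · intro x hx
      rcases List.mem_cons.1 hx with rfl | hx
      · exact ⟨a, List.mem_cons_self, Or.inl rfl⟩
      rcases List.mem_cons.1 hx with rfl | hx
      · exact ⟨a, List.mem_cons_self, Or.inr rfl⟩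
      · obtain ⟨b, hb, rfl⟩ := List.mem_map.1 hx
        exact ⟨b, List.mem_cons_of_mem _ hb, Or.inr rfl⟩
    · rw [List.pairwise_cons]
      refine ⟨fun x hx => ?_, hm.1.1⟩
      obtain ⟨b, hb, rfl | rfl⟩ := hm.2 x hx
      · exact R_ct (h.1 b hb) n
      · exact R_ct' (h.1 b hb) n
    · rw [List.length_cons, hm.1.2, List.length_cons]
    · intro x hx
      rcases List.mem_cons.1 hx with rfl | hx
      · exact ⟨a, List.mem_cons_self, Or.inl rfl⟩
      · obtain ⟨b, hb, hb'⟩ := hm.2 x hx
        exact ⟨b, List.mem_cons_of_mem _ hb, hb'⟩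

theorem pr_mem (n : ℤ) {k : ℕ} {z : Ch (Vt N)} (h : z ∈ Sp (W k)) :
    pr (ct n) (ct (n + 1)) z ∈ Sp (W (k + 1)) :=
  sp_map _ (W k) (Sp (W (k + 1))) (fun l hl => by
    rw [pr_single]
    refine sp_mono (fun m hm => ?_) (pl_mem n l hl.1)
    rw [← hl.2]
    exact hm.1) h

/-- Bounds for the coordinates of all vertices. -/
theorem bound_list (l : List (Vt N)) : ∃ n₀ : ℤ, ∀ x ∈ l, ∀ i, |x i| ≤ n₀ := by
  induction l with
  | nil => exact ⟨0, by simp⟩
  | cons a l ih =>
    obtain ⟨n, hn⟩ := ih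
    refine ⟨max n (∑ j, |a j|), fun x hx i => ?_⟩
    rcases List.mem_cons.1 hx with rfl | hx
    · exact le_max_of_le_right (Finset.single_le_sum (f := fun j => |x j|)
        (fun j _ => abs_nonneg _) (Finset.mem_univ i))
    · exact le_max_of_le_left (hn x hx i)

theorem bound_ch (z : Ch (Vt N)) : ∃ n₀ : ℤ, ∀ l ∈ z.support, ∀ x ∈ l, ∀ i, |x i| ≤ n₀ := by
  classical
  have key : ∀ s : Finset (List (Vt N)), ∃ n₀ : ℤ, ∀ l ∈ s, ∀ x ∈ l, ∀ i, |x i| ≤ n₀ := by
    intro s
    induction s using Finset.induction_on with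
    | empty => exact ⟨0, by simp⟩
    | insert l s _ ih =>
      obtain ⟨n, hn⟩ := ih
      obtain ⟨m, hm⟩ := bound_list l
      refine ⟨max n m, fun l' hl' x hx i => ?_⟩
      rcases Finset.mem_insert.1 hl' with rfl | hl'
      · exact le_max_of_le_right (hm x hx i)
      · exact le_max_of_le_left (hn l' hl' x hx i)
  exact key z.support

theorem mem_sp_support {V : Type} (z : Ch V) : z ∈ Sp fun l => l ∈ z.support := by
  rw [Sp, Finsupp.mem_supported]
  exact fun l hl => hl

theorem sp_and {V : Type} {p q : List V → Prop} {z : Ch V} (hp : z ∈ Sp p) (hq : z ∈ Sp q) :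
    z ∈ Sp fun l => p l ∧ q l := by
  rw [Sp, Finsupp.mem_supported] at *
  exact fun l hl => ⟨hp hl, hq hl⟩

/-- Acyclicity of the complex with degenerate simplices. -/
theorem acyclic_W {k : ℕ} {z : Ch (Vt N)} (hz : z ∈ Sp (W k)) (hd : d z = 0) :
    ∃ y ∈ Sp (W (k + 1)), d y = z := by
  obtain ⟨n₀, h0, hn⟩ : ∃ n₀ : ℤ, 0 ≤ n₀ ∧ ∀ l ∈ z.support, ∀ x ∈ l, ∀ i, |x i| ≤ n₀ := by
    obtain ⟨n, hn⟩ := bound_ch z
    exact ⟨max n 0, le_max_right _ _, fun l hl x hx i => le_max_of_le_left (hn l hl x hx i)⟩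
  have hb : z ∈ Sp fun l => W k l ∧ ∀ x ∈ l, ∀ i, |x i| ≤ n₀ :=
    sp_mono (fun l hl => ⟨hl.1, hn l hl.2⟩) (sp_and hz (mem_sp_support z))
  have h1 : mp (ct (-n₀)) z = z := by
    refine (sp_eq (ψ := LinearMap.id) (fun l hl => ?_) hb)
    rw [mp_single, LinearMap.id_apply]
    congr 1
    conv_rhs => rw [← List.map_id l]
    refine List.map_congr_left fun x hx => ?_
    funext i
    have := abs_le.1 (hl.2 x hx i)
    simp only [ct, id]
    omega
  have h2 : mp (ct n₀) z ∈ Sp fun l : List (Vt N) => W k l ∧ ∀ x ∈ l, x = fun _ => n₀ := by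
    refine sp_map _ _ _ (fun l hl => ?_) hb
    rw [mp_single]
    refine single_mem ⟨W_map (fun x y h => R_ct h _) hl.1, fun x hx => ?_⟩ 1
    obtain ⟨b, hb', rfl⟩ := List.mem_map.1 hx
    funext i
    have := abs_le.1 (hl.2 b hb' i)
    simp only [ct]
    omega
  have h3 : ∀ m : ℕ, ∃ y ∈ Sp (W (k + 1)), d y = mp (ct (-n₀ + m)) z - z := by
    intro m
    induction m with
    | zero => exact ⟨0, zero_mem _, by simp [h1]⟩
    | succ m ih =>
      obtain ⟨y, hy, hy'⟩ := ih
      refine ⟨y + pr (ct (-n₀ + m)) (ct (-n₀ + m + 1)) z, add_mem hy (pr_mem _ hz), ?_⟩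
      have h4 := pr_d (ct (-n₀ + m)) (ct (-n₀ + m + 1)) z
      rw [hd, map_zero, add_zero] at h4
      rw [map_add, hy', h4]
      push_cast
      rw [add_assoc]
      abel
  obtain ⟨y, hy, hy'⟩ := h3 (2 * n₀).toNat
  have h5 : -n₀ + ((2 * n₀).toNat : ℤ) = n₀ := by omega
  rw [h5] at hy'
  have h6 : pre (fun _ => n₀) (mp (ct n₀) z) ∈ Sp (W (k + 1)) := by
    refine pre_mem (fun l hl => ?_) h2
    refine ⟨?_, by rw [List.length_cons, hl.1.2]⟩
    rw [List.pairwise_cons]
    refine ⟨fun x hx => ?_, hl.1.1⟩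
    rw [hl.2 x hx]
    exact R_refl _
  refine ⟨_, sub_mem h6 hy, ?_⟩
  rw [map_sub, hy', d_pre, d_mp, hd, map_zero, map_zero]
  abel

open Classical in
/-- Kill the degenerate lists. -/
noncomputable def pil (l : List (Vt N)) : Ch (Vt N) :=
  if l.Pairwise (· < ·) then Finsupp.single l 1 else 0

/-- Kill the degenerate lists. -/
noncomputable def pj : Ch (Vt N) →ₗ[ℤ] Ch (Vt N) := Finsupp.linearCombination ℤ pil

@[simp] theorem pj_single (l : List (Vt N)) : pj (Finsupp.single l 1) = pil l := by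
  simp [pj]

open Classical in
/-- Prepend `a` to the lists whose elements are bigger. -/
noncomputable def ql (a : Vt N) (l : List (Vt N)) : Ch (Vt N) :=
  if ∀ b ∈ l, a < b then Finsupp.single (a :: l) 1 else 0

/-- Prepend `a` to the lists whose elements are bigger. -/
noncomputable def qj (a : Vt N) : Ch (Vt N) →ₗ[ℤ] Ch (Vt N) := Finsupp.linearCombination ℤ (ql a)

@[simp] theorem qj_single (a : Vt N) (l : List (Vt N)) : qj a (Finsupp.single l 1) = ql a l := by
  simp [qj]

theorem pj_pre (a : Vt N) (z : Ch (Vt N)) : pj (pre a z) = qj a (pj z) := by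
  have h : pj ∘ₗ pre a = qj a ∘ₗ pj := by
    refine lext fun l => ?_
    simp only [LinearMap.comp_apply, pre_single, pj_single, pil]
    by_cases h1 : l.Pairwise (· < ·)
    · by_cases h2 : ∀ b ∈ l, a < b
      · rw [if_pos (List.pairwise_cons.2 ⟨h2, h1⟩), if_pos h1, qj_single, ql, if_pos h2]
      · rw [if_neg (fun h => h2 (List.pairwise_cons.1 h).1), if_pos h1, qj_single, ql, if_neg h2]
    · rw [if_neg (fun h => h1 (List.pairwise_cons.1 h).2), if_neg h1, map_zero]
  exact LinearMap.congr_fun h z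

theorem qj_big {a : Vt N} {z : Ch (Vt N)} (h : z ∈ Sp fun l => ∀ b ∈ l, a < b) :
    qj a z = pre a z := by
  refine sp_eq (fun l hl => ?_) h
  rw [qj_single, ql, if_pos hl, pre_single]

theorem pj_dl {l : List (Vt N)} (h : l.Pairwise R) : pj (dl l) = d (pil l) := by
  induction l with
  | nil => simp [dl, pil]
  | cons a l ih =>
    rw [List.pairwise_cons] at h
    rw [dl, map_sub, pj_single, pj_pre, ih h.2]
    by_cases h1 : l.Pairwise (· < ·)
    · have h2 : pil l = Finsupp.single l 1 := by rw [pil, if_pos h1]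
      rw [h2, d_single]
      by_cases h3 : ∀ b ∈ l, a < b
      · have h4 : pil (a :: l) = Finsupp.single (a :: l) 1 := by
          rw [pil, if_pos (List.pairwise_cons.2 ⟨h3, h1⟩)]
        rw [h4, d_single, dl, qj_big (sp_mono (fun m hm b hb => h3 b (hm.1.subset hb)) (dl_mem l))]
      · have h4 : pil (a :: l) = 0 := by
          rw [pil, if_neg (fun h => h3 (List.pairwise_cons.1 h).1)]
        rw [h4, map_zero]
        cases l with
        | nil => exact absurd (by simp) h3
        | cons b m =>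
          rw [List.pairwise_cons] at h1
          have h5 : a = b := by
            by_contra hne
            refine h3 fun c hc => ?_
            have hab : a < b := lt_of_le_of_ne (h.1 b List.mem_cons_self).1 hne
            rcases List.mem_cons.1 hc with rfl | hc
            · exact hab
            · exact hab.trans (h1.1 c hc)
          subst h5
          have h6 : qj a (pre a (dl m)) = 0 := by
            have h7 : qj a ∘ₗ pre a = 0 := by
              refine lext fun l' => ?_
              simp only [LinearMap.comp_apply, pre_single, qj_single, ql, LinearMap.zero_apply]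
              exact if_neg fun h8 => lt_irrefl _ (h8 a List.mem_cons_self)
            exact LinearMap.congr_fun h7 _
          rw [dl, map_sub, h6, qj_single, ql, if_pos h1.1, sub_zero, sub_self]
    · have h2 : pil l = 0 := by rw [pil, if_neg h1]
      have h3 : pil (a :: l) = 0 := by
        rw [pil, if_neg (fun h => h1 (List.pairwise_cons.1 h).2)]
      rw [h2, h3, map_zero, map_zero, sub_zero]

theorem pj_d {k : ℕ} {z : Ch (Vt N)} (h : z ∈ Sp (W k)) : pj (d z) = d (pj z) := by
  have h1 : (pj ∘ₗ d) z = (d ∘ₗ pj) z := by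
    refine sp_eq (p := W k) (fun l hl => ?_) h
    simp only [LinearMap.comp_apply, d_single, pj_single]
    exact pj_dl hl.1
  exact h1

theorem pj_mem {k : ℕ} {z : Ch (Vt N)} (h : z ∈ Sp (W k)) : pj z ∈ Sp (St k) := by
  refine sp_map _ _ _ (fun l hl => ?_) h
  rw [pj_single, pil]
  by_cases h1 : l.Pairwise (· < ·)
  · rw [if_pos h1]
    exact single_mem ⟨hl, h1⟩ 1
  · rw [if_neg h1]
    exact zero_mem _

theorem pj_id {k : ℕ} {z : Ch (Vt N)} (h : z ∈ Sp (St k)) : pj z = z := by
  refine sp_eq (ψ := LinearMap.id) (fun l hl => ?_) h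
  rw [pj_single, pil, if_pos hl.2, LinearMap.id_apply]

/-- Acyclicity of the complex of simplices. -/
theorem acyclic {k : ℕ} {z : Ch (Vt N)} (hz : z ∈ Sp (St k)) (hd : d z = 0) :
    ∃ y ∈ Sp (St (k + 1)), d y = z := by
  obtain ⟨y, hy, hy'⟩ := acyclic_W (sp_mono (fun l hl => hl.1) hz) hd
  exact ⟨pj y, pj_mem hy, by rw [← pj_d hy, hy', pj_id hz]⟩

theorem d_mem {k : ℕ} {z : Ch (Vt N)} (hz : z ∈ Sp (St (k + 1))) : d z ∈ Sp (St k) := by
  refine sp_map _ _ _ (fun l hl => ?_) hz
  rw [d_single]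
  refine sp_mono (fun m hm => ⟨⟨hl.1.1.sublist hm.1, ?_⟩, hl.2.sublist hm.1⟩) (dl_mem l)
  have := hl.1.2
  omega

/-- Simplices have at most `N + 1` vertices. -/
theorem St_length {k : ℕ} {l : List (Vt N)} (h : St k l) : k ≤ N + 1 := by
  cases l with
  | nil =>
    have := h.1.2
    simp at this
    omega
  | cons a l =>
    have h1 : (a :: l).Pairwise R := h.1.1
    have h2 := h.2
    rw [List.pairwise_cons] at h1
    have h3 : (((a :: l).map fun x => ∑ i, x i).Pairwise (· < ·)) := by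
      rw [List.pairwise_map]
      refine h2.imp fun {x y} hxy => ?_
      obtain ⟨hle, i, hi⟩ := Pi.lt_def.1 hxy
      exact Finset.sum_lt_sum (fun j _ => hle j) ⟨i, Finset.mem_univ i, hi⟩
    have h4 : ((a :: l).map fun x => ∑ i, x i).Nodup := h3.imp fun {x y} hxy => hxy.ne
    have h5 : ((a :: l).map fun x => ∑ i, x i).toFinset ⊆
        Finset.Icc (∑ i, a i) (∑ i, a i + N) := by
      intro s hs
      rw [List.mem_toFinset, List.mem_map] at hs
      obtain ⟨x, hx, rfl⟩ := hs
      have h6 : R a x := by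
        rcases List.mem_cons.1 hx with rfl | hx
        · exact R_refl _
        · exact h1.1 x hx
      rw [Finset.mem_Icc]
      refine ⟨Finset.sum_le_sum fun i _ => h6.1 i, ?_⟩
      calc ∑ i, x i ≤ ∑ i, (a i + 1) := Finset.sum_le_sum fun i _ => h6.2 i
        _ = ∑ i, a i + N := by simp [Finset.sum_add_distrib]
    have h6 := Finset.card_le_card h5
    rw [List.toFinset_card_of_nodup h4, List.length_map, Int.card_Icc] at h6
    have := h.1.2
    omega

end Cube

section Act

variable {G : Type} [Group G] {N : ℕ}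

/-- An action of `G` on `ℤ^N` by order preserving maps which commute with the translation by
`(1, …, 1)`. -/
structure Dat (G : Type) [Group G] (N : ℕ) where
  /-- the action -/
  a : G →* Equiv.Perm (Fin N → ℤ)
  mono : ∀ g x y, x ≤ y → a g x ≤ a g y
  add_one : ∀ g x, a g (x + 1) = a g x + 1

variable (D : Dat G N)

theorem Dat.R (g : G) {x y : Vt N} (h : Kuhn.R x y) : Kuhn.R (D.a g x) (D.a g y) :=
  ⟨D.mono g x y h.1, by rw [← D.add_one]; exact D.mono g _ _ h.2⟩

theorem Dat.lt (g : G) {x y : Vt N} (h : x < y) : D.a g x < D.a g y :=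
  lt_of_le_of_ne (D.mono g x y h.le) fun h1 => h.ne ((D.a g).injective h1)

theorem Dat.St (g : G) {k : ℕ} {l : List (Vt N)} (h : Kuhn.St k l) : Kuhn.St k (l.map (D.a g)) :=
  ⟨W_map (fun _ _ h => D.R g h) h.1, by
    rw [List.pairwise_map]
    exact h.2.imp fun {a b} hab => D.lt g hab⟩

theorem Dat.mem (g : G) {k : ℕ} {z : Ch (Vt N)} (h : z ∈ Sp (Kuhn.St k)) :
    mp (D.a g) z ∈ Sp (Kuhn.St k) :=
  sp_map _ _ _ (fun l hl => by rw [mp_single]; exact single_mem (D.St g hl) 1) h

theorem Dat.mp_mul (g h : G) (z : Ch (Vt N)) : mp (D.a (g * h)) z = mp (D.a g) (mp (D.a h) z) := by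
  rw [mp_mp]
  congr 2
  rw [map_mul]
  rfl

theorem Dat.mp_one (z : Ch (Vt N)) : mp (D.a 1) z = z := by
  have h : (D.a 1 : Vt N → Vt N) = id := by
    rw [map_one]
    rfl
  rw [h, mp_id]

/-- The chains. -/
def CT (_D : Dat G N) (k : ℕ) : Type := Sp (V := Vt N) (Kuhn.St k)

noncomputable instance (k : ℕ) : AddCommGroup (CT D k) :=
  inferInstanceAs (AddCommGroup (Sp (V := Vt N) (Kuhn.St k)))

noncomputable instance (k : ℕ) : DistribMulAction G (CT D k) where
  smul g z := ⟨mp (D.a g) z.1, D.mem g z.2⟩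
  one_smul z := Subtype.ext (D.mp_one z.1)
  mul_smul g h z := Subtype.ext (D.mp_mul g h z.1)
  smul_zero g := Subtype.ext (map_zero (mp (D.a g)))
  smul_add g x y := Subtype.ext (map_add (mp (D.a g)) x.1 y.1)

theorem ct_smul (k : ℕ) (g : G) (z : CT D k) : (g • z).1 = mp (D.a g) z.1 := rfl

/-- The cycles. -/
def ZT (_D : Dat G N) (k : ℕ) : Type :=
  (Sp (V := Vt N) (Kuhn.St k) ⊓ LinearMap.ker d : Submodule ℤ (Ch (Vt N)))

noncomputable instance (k : ℕ) : AddCommGroup (ZT D k) :=
  inferInstanceAs (AddCommGroup (Sp (V := Vt N) (Kuhn.St k) ⊓ LinearMap.ker d :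
    Submodule ℤ (Ch (Vt N))))

theorem zt_mem (g : G) {k : ℕ} (z : ZT D k) :
    mp (D.a g) z.1 ∈ (Sp (V := Vt N) (Kuhn.St k) ⊓ LinearMap.ker d : Submodule ℤ (Ch (Vt N))) := by
  refine ⟨D.mem g z.2.1, ?_⟩
  have h : d z.1 = 0 := z.2.2
  rw [SetLike.mem_coe, LinearMap.mem_ker, d_mp, h, map_zero]

noncomputable instance (k : ℕ) : DistribMulAction G (ZT D k) where
  smul g z := ⟨mp (D.a g) z.1, zt_mem D g z⟩
  one_smul z := Subtype.ext (D.mp_one z.1)
  mul_smul g h z := Subtype.ext (D.mp_mul g h z.1)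
  smul_zero g := Subtype.ext (map_zero (mp (D.a g)))
  smul_add g x y := Subtype.ext (map_add (mp (D.a g)) x.1 y.1)

theorem zt_smul (k : ℕ) (g : G) (z : ZT D k) : (g • z).1 = mp (D.a g) z.1 := rfl

/-- The simplices with `k` vertices. -/
def SX (_D : Dat G N) (k : ℕ) : Type := {l : List (Vt N) // Kuhn.St k l}

instance (k : ℕ) : MulAction G (SX D k) where
  smul g l := ⟨l.1.map (D.a g), D.St g l.2⟩
  one_smul l := Subtype.ext (by
    change l.1.map (D.a 1) = l.1
    rw [map_one]
    exact List.map_id l.1)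
  mul_smul g h l := Subtype.ext (by
    change l.1.map (D.a (g * h)) = (l.1.map (D.a h)).map (D.a g)
    rw [map_mul, List.map_map]
    rfl)

/-- The basis of the chains. -/
noncomputable def bas (k : ℕ) : Module.Basis (SX D k) ℤ (CT D k) :=
  Module.Basis.ofRepr (Finsupp.supportedEquivFinsupp {l : List (Vt N) | Kuhn.St k l})

theorem bas_apply (k : ℕ) (x : SX D k) : (bas D k x).1 = Finsupp.single x.1 1 := by
  have h : bas D k x = (Finsupp.supportedEquivFinsupp {l : List (Vt N) | Kuhn.St k l}).symm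
      (Finsupp.single x 1) := rfl
  rw [h]
  exact Finsupp.supportedEquivFinsupp_symm_single _ _ _

theorem isPerm (𝒞 : Subgroup G → Prop)
    (h𝒞 : ∀ C : Subgroup G, (∃ x, ∀ g ∈ C, D.a g x = x) → 𝒞 C) (k : ℕ) :
    IsPerm 𝒞 (CT D (k + 1)) := by
  refine ⟨SX D (k + 1), inferInstance, bas D (k + 1), fun g x => Subtype.ext ?_, fun x => ?_⟩
  · rw [ct_smul, bas_apply, bas_apply, mp_single]
    rfl
  · rcases hx : x.1 with _ | ⟨a, l⟩
    · have h1 := x.2.1.2
      rw [hx] at h1
      exact absurd h1 (by simp)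
    · refine h𝒞 _ ⟨a, fun g hg => ?_⟩
      have h1 : x.1.map (D.a g) = x.1 :=
        congrArg (fun y : SX D (k + 1) => y.1) (MulAction.mem_stabilizer_iff.1 hg)
      rw [hx, List.map_cons] at h1
      exact (List.cons.inj h1).1

theorem isPerm_zero (𝒞 : Subgroup G → Prop) : IsPerm 𝒞 (ZT D (N + 2)) := by
  have h0 : Subsingleton (ZT D (N + 2)) := by
    refine ⟨fun x y => Subtype.ext ?_⟩
    have h1 : ∀ z : ZT D (N + 2), z.1 = 0 := by
      intro z
      have h2 : (LinearMap.id : Ch (Vt N) →ₗ[ℤ] Ch (Vt N)) z.1 = (0 : Ch (Vt N) →ₗ[ℤ] Ch (Vt N)) z.1 :=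
        sp_eq (fun l hl => absurd (St_length hl) (by omega)) z.2.1
      exact h2
    rw [h1 x, h1 y]
  refine ⟨Empty, { smul := fun _ x => x, one_smul := fun _ => rfl, mul_smul := fun _ _ _ => rfl },
    Module.Basis.empty _, fun _ x => x.elim, fun x => x.elim⟩

/-- The inclusion of the cycles. -/
noncomputable def inc (k : ℕ) : ZT D k →+[G] CT D k where
  toFun z := ⟨z.1, z.2.1⟩
  map_smul' _ _ := rfl
  map_zero' := rfl
  map_add' _ _ := rfl

/-- The boundary. -/
noncomputable def bd (k : ℕ) : CT D (k + 1) →+[G] ZT D k where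
  toFun z := ⟨d z.1, d_mem z.2, d_d z.1⟩
  map_smul' g z := Subtype.ext (d_mp (D.a g) z.1)
  map_zero' := Subtype.ext (map_zero d)
  map_add' x y := Subtype.ext (map_add d x.1 y.1)

theorem res_Z (𝒞 : Subgroup G → Prop)
    (h𝒞 : ∀ C : Subgroup G, (∃ x, ∀ g ∈ C, D.a g x = x) → 𝒞 C) (m : ℕ) :
    ∀ k, k + m = N + 2 → Res 𝒞 (ZT D k) := by
  induction m with
  | zero =>
    intro k hk
    obtain rfl : k = N + 2 := by omega
    exact Res.perm (isPerm_zero D 𝒞)
  | succ m ih =>
    intro k hk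
    refine Res.step (inc D (k + 1)) (bd D k) (fun x y h => ?_) (fun z => ?_) (fun z => ?_)
      (isPerm D 𝒞 h𝒞 k) (ih (k + 1) (by omega))
    · exact Subtype.ext (congrArg (fun y : CT D (k + 1) => y.1) h)
    · constructor
      · intro h
        exact ⟨⟨z.1, z.2, congrArg (fun y : ZT D k => y.1) h⟩, rfl⟩
      · rintro ⟨y, rfl⟩
        exact Subtype.ext y.2.2
    · obtain ⟨y, hy, hy'⟩ := acyclic z.2.1 z.2.2
      exact ⟨⟨y, hy⟩, Subtype.ext hy'⟩

/-- The augmentation. -/
noncomputable def aug : CT D 1 →+[G] TrivZ G where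
  toFun z := d z.1 []
  map_smul' g z := by
    change d (mp (D.a g) z.1) [] = d z.1 []
    have h : (Finsupp.lapply [] ∘ₗ d ∘ₗ mp (D.a g) : Ch (Vt N) →ₗ[ℤ] ℤ) z.1 =
        (Finsupp.lapply [] ∘ₗ d : Ch (Vt N) →ₗ[ℤ] ℤ) z.1 := by
      refine sp_eq (fun l hl => ?_) z.2
      obtain ⟨a, rfl⟩ := List.length_eq_one_iff.1 hl.1.2
      simp [dl]
    exact h
  map_zero' := by
    change d (0 : Ch (Vt N)) [] = 0
    rw [map_zero]
    rfl
  map_add' x y := by
    change d (x.1 + y.1) [] = d x.1 [] + d y.1 []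
    rw [map_add]
    rfl

theorem aug_zero {z : CT D 1} (h : aug D z = 0) : d z.1 = 0 := by
  have h1 : d z.1 ∈ Sp (Kuhn.St (N := N) 0) := d_mem z.2
  ext l
  by_cases hl : l = []
  · subst hl
    exact h
  · rw [Sp, Finsupp.mem_supported] at h1
    by_contra h2
    exact hl (List.length_eq_zero_iff.1 (h1 (Finsupp.mem_support_iff.2 h2)).1.2)

/-- A finite resolution of the trivial module. -/
theorem res_triv (𝒞 : Subgroup G → Prop)
    (h𝒞 : ∀ C : Subgroup G, (∃ x, ∀ g ∈ C, D.a g x = x) → 𝒞 C) : Res 𝒞 (TrivZ G) := by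
  refine Res.step (inc D 1) (aug D) (fun x y h => ?_) (fun z => ?_) (fun z => ?_)
    (isPerm D 𝒞 h𝒞 0) (res_Z D 𝒞 h𝒞 (N + 1) 1 (by omega))
  · exact Subtype.ext (congrArg (fun y : CT D 1 => y.1) h)
  · constructor
    · intro h
      exact ⟨⟨z.1, z.2, aug_zero D h⟩, rfl⟩
    · rintro ⟨y, rfl⟩
      have h : d y.1 = 0 := y.2.2
      change d y.1 [] = 0
      rw [h]
      rfl
  · have key : ∀ n : ℤ, d (Finsupp.single [(0 : Vt N)] n) [] = n := by
      intro n
      have h1 : (Finsupp.single [(0 : Vt N)] n : Ch (Vt N)) = n • Finsupp.single [0] (1 : ℤ) := by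
        rw [Finsupp.smul_single, smul_eq_mul, mul_one]
      rw [h1, map_smul, d_single]
      simp [dl]
    refine ⟨⟨Finsupp.single [0] (show ℤ from z), ?_⟩, key z⟩
    exact single_mem ⟨⟨List.pairwise_singleton _ _, rfl⟩, List.pairwise_singleton _ _⟩ _

/-- The groups with an action on `ℤ^N` by order preserving maps which commute with the translation
by `(1, …, 1)`, such that all subgroups with a fixed point are in `NN`, are in `NN`. -/
theorem nn_of_dat (h : ∀ C : Subgroup G, (∃ x, ∀ g ∈ C, D.a g x = x) → NN C) : NN G :=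
  NN.res (fun C => ∃ x, ∀ g ∈ C, D.a g x = x) h (res_triv D _ fun _ hC => hC)

end Act

end Pool.Agent.Kuhn
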