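import Pool.Agent.Lib.MP_8f66f0_al_FH.CSpec

/-! The matrix `om U V` for `V U = 1`. -/

set_option autoImplicit false

namespace Pool.Agent.FH

theorem om_all : S_om := by
  intro S n m _ _ _ _ _ U V hVU
  have hUVU : U * V * U = U := by rw [Matrix.mul_assoc, hVU, Matrix.mul_one]
  have hVUV : V * (U * V) = V := by rw [← Matrix.mul_assoc, hVU, Matrix.one_mul]
  have hP : U * V * (U * V) = U * V := by rw [← Matrix.mul_assoc, hUVU]
  have e1 : (1 - U * V) * (1 - U * V) = 1 - U * V := by
    rw [Matrix.sub_mul, Matrix.one_mul, Matrix.mul_sub, Matrix.mul_one, hP, sub_self, sub_zero]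
  have e2 : (1 - U * V) * U = 0 := by
    rw [Matrix.sub_mul, Matrix.one_mul, hUVU, sub_self]
  have e3 : V * (1 - U * V) = 0 := by
    rw [Matrix.mul_sub, Matrix.mul_one, hVUV, sub_self]
  have n1 : -U * -V = U * V := by rw [Matrix.neg_mul, Matrix.mul_neg, neg_neg]
  have n2 : -V * -U = V * U := by rw [Matrix.neg_mul, Matrix.mul_neg, neg_neg]
  refine ⟨?_, ?_, ?_⟩
  · unfold om
    rw [Matrix.fromBlocks_multiply, ← Matrix.fromBlocks_one, n1, e1, n2, hVU]
    congr 1
    · rw [neg_neg, sub_add_cancel]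
    · rw [Matrix.mul_neg, e2, neg_zero, Matrix.mul_zero, add_zero]
    · rw [Matrix.neg_mul, e3, neg_zero, Matrix.zero_mul, add_zero]
    · rw [Matrix.mul_zero, add_zero]
  · unfold om
    rw [Matrix.fromBlocks_multiply, ← Matrix.fromBlocks_one, n1, e1, neg_neg]
    congr 1
    · exact sub_add_cancel _ _
    · rw [e2, Matrix.mul_zero, add_zero]
    · rw [e3, Matrix.zero_mul, add_zero]
    · rw [hVU, Matrix.mul_zero, add_zero]
  · unfold om
    rw [Matrix.fromBlocks_multiply, Matrix.fromBlocks_multiply]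
    congr 1
    · rw [Matrix.one_mul, Matrix.mul_neg, Matrix.mul_zero, add_zero, Matrix.mul_one,
        sub_eq_add_neg]
    · rw [Matrix.one_mul, Matrix.mul_neg, ← sub_eq_add_neg, e2, Matrix.mul_zero, Matrix.mul_one,
        Matrix.mul_one, zero_add, zero_add]
    · rw [Matrix.zero_mul, Matrix.one_mul, zero_add, Matrix.mul_one, Matrix.mul_zero, add_zero]
    · rw [Matrix.zero_mul, Matrix.one_mul, zero_add, Matrix.neg_mul, hVU, Matrix.zero_mul,
        zero_add, Matrix.mul_one, Matrix.mul_one, neg_add_cancel]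

end Pool.Agent.FH
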