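import Pool.Agent.Lib.MP_8f66f0_al_FH.ISpec

/-! First properties of the index. -/

set_option autoImplicit false

namespace Pool.Agent.FH

open Pool.Agent.Wald Pool.Agent.WaldL Pool.Agent.Ind

private theorem SiA_mono (hm : S_stm) {L G X : Type} [CommRing L] [Group G] [MulAction G X]
    (N : Met G X) (Ω Ω' : Set X) (D D' m : ℕ) {n : Type} [Fintype n] [DecidableEq n] (p : n → X)
    (a : Matrix n n (MonoidAlgebra (LaurentSeries L) G)) (h1 : Ω ⊆ Ω') (h2 : D ≤ D')
    (h : SIw L N Ω D m p a) : SIw L N Ω' D' m p a := by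
  obtain ⟨a', a1, a2, a3, a4, a5, a6, a7⟩ := h
  exact ⟨a', a1, a2, a3, a4, a5.near_mono h2, a6.near_mono h2, hm L G X N Ω Ω' D D' _ _ _ h1 h2 a7⟩

private theorem SiA_cfy {S Q : Type} [Ring S] [Ring Q] (D : Lau S Q) (s l : ℤ) (h : s < l) :
    D.cf s (D.y l) = 0 := by
  have h1 := D.cf_y_mul s l 1
  rw [mul_one, D.cf_one, if_neg (by omega)] at h1
  exact h1

private theorem SiA_pole {S Q : Type} [Ring S] [Ring Q] (D : Lau S Q) (m : ℕ) {n : Type}
    [DecidableEq n] (c : n → ℤ) (hc : ∀ i, |c i| ≤ m) :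
    D.Pole m (Matrix.diagonal fun i => D.y (c i)) := by
  intro i j s hs
  rw [Matrix.diagonal_apply]
  split_ifs
  · exact SiA_cfy D s _ (lt_of_lt_of_le hs (neg_le_of_abs_le (hc i)))
  · exact map_zero _

private theorem SiA_sup {L G X : Type} [CommRing L] [Group G] [MulAction G X] (N : Met G X)
    (D : ℕ) {n : Type} [DecidableEq n] (p : n → X) (c : n → ℤ) :
    SupR (N.near D) p p (Matrix.diagonal fun i => (lauG L G).y (c i)) := by
  classical
  intro i j γ hγ
  rw [Matrix.diagonal_apply] at hγ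
  by_cases hij : i = j
  · rw [if_pos hij, lauG_y, MonoidAlgebra.coeff_single, Finsupp.single_apply] at hγ
    by_cases h1 : (1 : G) = γ
    · rw [← h1, one_smul, hij]
      exact N.refl D _
    · rw [if_neg h1] at hγ
      exact absurd rfl hγ
  · rw [if_neg hij] at hγ
    exact absurd rfl hγ

private theorem SiA_diag (hib : S_ib) (hD : S_epsD) (hC : S_stc) {L G X : Type} [CommRing L]
    [Group G] [MulAction G X] (N : Met G X) (Ω : Set X) (D m : ℕ) {n : Type} [Fintype n]
    [DecidableEq n] (p : n → X) (c : n → ℤ) (hc : ∀ i, |c i| ≤ m) (hp : ∀ i, p i ∈ Ω) :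
    SIw L N Ω D m p (Matrix.diagonal fun i => (lauG L G).y (c i)) := by
  classical
  refine ⟨Matrix.diagonal fun i => (lauG L G).y (-c i), ?_, ?_, SiA_pole _ m c hc,
    SiA_pole _ m (fun i => -c i) (fun i => by rw [abs_neg]; exact hc i), SiA_sup N D p c,
    SiA_sup N D p (fun i => -c i), ?_⟩
  · rw [Matrix.diagonal_mul_diagonal, ← Matrix.diagonal_one]
    congr 1
    funext i
    rw [← (lauG L G).y_add, add_neg_cancel, (lauG L G).y_zero]
  · rw [Matrix.diagonal_mul_diagonal, ← Matrix.diagonal_one]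
    congr 1
    funext i
    rw [← (lauG L G).y_add, neg_add_cancel, (lauG L G).y_zero]
  · rw [hD _ _ n (lauG L G) (hib _ _ _) m c]
    have h1 := hC L G X N Ω D (Fin (2 * m) × n) (fun x => p x.2)
      (fun x => c x.2 ≤ ((x.1 : ℕ) : ℤ) - m) (fun x => hp x.2)
    convert h1 using 3
    split_ifs <;> rfl

theorem siA7 (hib : S_ib) (hD : S_epsD) (hm : S_stm) (hC : S_stc) (hM : S_siMul) : S_siA := by
  classical
  intro L G X _ _ _ N Ω Ω' D D' m m' n _ _ p a a'
  refine ⟨SiA_mono hm N Ω Ω' D D' m p a, fun c hc hp => SiA_diag hib hD hC N Ω D m p c hc hp,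
    ?_, ?_⟩
  · intro h1 h2 h3 h4 h5 h6
    refine ⟨a', h1, h2, h3, h4, h5, h6, ?_⟩
    have he : IsEmpty (Fin (2 * 0) × n) := ⟨fun x => x.1.elim0⟩
    have h7 := hC L G X N Ω D (Fin (2 * 0) × n) (fun x => p x.2) (fun _ => True)
      (fun x => (he.false x).elim)
    have h8 : (lauG L G).eps 0 a a' = Matrix.diagonal fun _ => if True then 1 else 0 := by
      apply Matrix.ext
      intro i
      exact (he.false i).elim
    rw [h8]
    convert h7 using 3
  · intro hmm hp h
    have h1 : SIw L N Ω D (m' - m) p (1 : Matrix n n (MonoidAlgebra (LaurentSeries L) G)) := by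
      have h2 := SiA_diag hib hD hC (L := L) N Ω D (m' - m) p (fun _ => 0)
        (fun _ => by rw [abs_zero]; exact Int.natCast_nonneg _) hp
      have h3 : (Matrix.diagonal fun _ : n => (lauG L G).y 0) = 1 := by
        rw [(lauG L G).y_zero]
        exact Matrix.diagonal_one
      rw [h3] at h2
      exact h2
    have h4 := hM L G X N Ω D m (m' - m) n p a 1 h h1
    rw [mul_one, Nat.add_sub_cancel' hmm] at h4
    exact h4

end Pool.Agent.FH
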