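import Pool.Agent.Lib.MP_8f66f0_al_FH.ISpec

/-! The index of elementary matrices. -/

set_option autoImplicit false

namespace Pool.Agent.FH

open Pool.Agent.Wald Pool.Agent.WaldL Pool.Agent.Ind

private theorem SiE_bdd {S Q : Type} [Ring S] [Ring Q] (D : Lau S Q) {n k : Type} [Fintype n]
    [Fintype k] (x : Matrix n k Q) : ∃ m : ℕ, D.Pole m x := by
  classical
  choose m hm using fun z : n × k => D.bdd (x z.1 z.2)
  refine ⟨Finset.univ.sup m, fun i j s hs => hm (i, j) s ?_⟩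
  have h1 : m (i, j) ≤ Finset.univ.sup m := Finset.le_sup (Finset.mem_univ _)
  have h2 : (m (i, j) : ℤ) ≤ (Finset.univ.sup m : ℕ) := by exact_mod_cast h1
  exact lt_of_lt_of_le hs (neg_le_neg h2)

private theorem SiE_pole0 {S Q : Type} [Ring S] [Ring Q] (D : Lau S Q) {n k : Type}
    [DecidableEq n] [DecidableEq k] (z : Matrix n k Q) (hz : D.Pole 0 z) :
    D.Pole 0 (Matrix.fromBlocks 1 z 0 1 : Matrix (n ⊕ k) (n ⊕ k) Q) := by
  have h1 : ∀ s : ℤ, s < -((0 : ℕ) : ℤ) → D.cf s 1 = 0 := by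
    intro s hs
    rw [D.cf_one, if_neg]
    intro h
    rw [h] at hs
    exact absurd hs (by norm_num)
  rintro (i | i) (j | j) s hs
  · change D.cf s ((1 : Matrix n n Q) i j) = 0
    rw [Matrix.one_apply]
    split_ifs
    · exact h1 s hs
    · exact map_zero _
  · exact hz i j s hs
  · exact map_zero _
  · change D.cf s ((1 : Matrix k k Q) i j) = 0
    rw [Matrix.one_apply]
    split_ifs
    · exact h1 s hs
    · exact map_zero _

theorem siElem7 (hM : S_siMul) (hA : S_siA) : S_siElem := by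
  intro L G X _ _ _ N Ω D n k _ _ _ _ p q x hp hq hx
  classical
  set Da := lauG L G with hDa
  obtain ⟨m, hm⟩ := SiE_bdd Da x
  refine ⟨m + 0 + m, ?_⟩
  have hpq : ∀ i : n ⊕ k, Sum.elim p q i ∈ Ω := by
    rintro (i | i)
    · exact hp i
    · exact hq i
  let z : Matrix n k (MonoidAlgebra (LaurentSeries L) G) := x.map fun w => Da.y (m : ℤ) * w
  have hz : Da.Pole 0 z := by
    intro i j s hs
    change Da.cf s (Da.y (m : ℤ) * x i j) = 0
    rw [Da.cf_y_mul]
    apply hm i j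
    push_cast at hs
    linarith
  have hz' : Da.Pole 0 (-z) := by
    intro i j s hs
    change Da.cf s (-(z i j)) = 0
    rw [map_neg, hz i j s hs, neg_zero]
  have hzs : SupR (N.near D) p q z := by
    intro i j γ hγ
    apply hx i j γ
    intro h0
    apply hγ
    change (Da.y (m : ℤ) * x i j).coeff γ = 0
    rw [hDa, lauG_y, MonoidAlgebra.coeff_single_one_mul, h0, mul_zero]
  let c1 : n ⊕ k → ℤ := Sum.elim (fun _ => -(m : ℤ)) (fun _ => 0)
  let c2 : n ⊕ k → ℤ := Sum.elim (fun _ => (m : ℤ)) (fun _ => 0)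
  have hc1 : ∀ i, |c1 i| ≤ m := by
    rintro (i | i)
    · change |(-(m : ℤ))| ≤ m
      rw [abs_neg, Nat.abs_cast]
    · change |(0 : ℤ)| ≤ m
      rw [abs_zero]
      exact Int.natCast_nonneg m
  have hc2 : ∀ i, |c2 i| ≤ m := by
    rintro (i | i)
    · change |((m : ℤ))| ≤ m
      rw [Nat.abs_cast]
    · change |(0 : ℤ)| ≤ m
      rw [abs_zero]
      exact Int.natCast_nonneg m
  have s1 : SIw L N Ω D m (Sum.elim p q) (Matrix.diagonal fun i => Da.y (c1 i)) :=
    (hA L G X N Ω Ω D D m m (n ⊕ k) (Sum.elim p q) 1 1).2.1 c1 hc1 hpq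
  have s3 : SIw L N Ω (20 * D) m (Sum.elim p q) (Matrix.diagonal fun i => Da.y (c2 i)) :=
    (hA L G X N Ω Ω (20 * D) D m m (n ⊕ k) (Sum.elim p q) 1 1).2.1 c2 hc2 hpq
  have hr : ∀ w, N.near D w w := N.refl D
  have s2 : SIw L N Ω D 0 (Sum.elim p q) (Matrix.fromBlocks 1 z 0 1) := by
    refine (hA L G X N Ω Ω D D 0 0 (n ⊕ k) (Sum.elim p q) (Matrix.fromBlocks 1 z 0 1)
      (Matrix.fromBlocks 1 (-z) 0 1)).2.2.1 ?_ ?_ (SiE_pole0 Da z hz) (SiE_pole0 Da (-z) hz') ?_ ?_
    · rw [Matrix.fromBlocks_multiply, ← Matrix.fromBlocks_one]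
      congr 1 <;> simp
    · rw [Matrix.fromBlocks_multiply, ← Matrix.fromBlocks_one]
      congr 1 <;> simp
    · exact SupR.fromBlocks (SupR.one hr) hzs SupR.zero (SupR.one hr)
    · exact SupR.fromBlocks (SupR.one hr) hzs.neg SupR.zero (SupR.one hr)
  have s4 := hM L G X N Ω D m 0 (n ⊕ k) (Sum.elim p q) _ _ s1 s2
  have s5 := hM L G X N Ω (20 * D) (m + 0) m (n ⊕ k) (Sum.elim p q) _ _ s4 s3
  have e1 : (Matrix.diagonal fun i => Da.y (c1 i)) * Matrix.fromBlocks 1 z 0 1 *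
      (Matrix.diagonal fun i => Da.y (c2 i)) = Matrix.fromBlocks 1 x 0 1 := by
    have h0 : Da.y (-(m : ℤ)) * Da.y (m : ℤ) = 1 := by
      rw [← Da.y_add, neg_add_cancel, Da.y_zero]
    apply Matrix.ext
    intro i j
    rw [Matrix.mul_diagonal, Matrix.diagonal_mul]
    rcases i with i | i <;> rcases j with j | j
    · change Da.y (-(m : ℤ)) * (1 : Matrix n n _) i j * Da.y (m : ℤ) = (1 : Matrix n n _) i j
      rw [Matrix.one_apply]
      split_ifs
      · rw [mul_one, h0]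
      · rw [mul_zero, zero_mul]
    · change Da.y (-(m : ℤ)) * (Da.y (m : ℤ) * x i j) * Da.y 0 = x i j
      rw [← mul_assoc, h0, one_mul, Da.y_zero, mul_one]
    · change Da.y 0 * 0 * Da.y (m : ℤ) = 0
      rw [mul_zero, zero_mul]
    · change Da.y 0 * (1 : Matrix k k _) i j * Da.y 0 = (1 : Matrix k k _) i j
      rw [Da.y_zero, one_mul, mul_one]
  rw [e1] at s5
  have e2 : 20 * (20 * D) = 400 * D := by ring
  rw [e2] at s5
  exact s5

end Pool.Agent.FH
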