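import Pool.Agent.Lib.MP_8f66f0_al_FH.ISpec

/-! The index of a conjugate by a monomial matrix. -/

set_option autoImplicit false

namespace Pool.Agent.FH

open Pool.Agent.Wald Pool.Agent.WaldL Pool.Agent.Ind

private theorem SiIso_cf_c {S Q : Type} [Ring S] [Ring Q] (D : Lau S Q) (s : S) (k : ℤ)
    (hk : k ≠ 0) : D.cf k (D.c s) = 0 := by
  have h1 := D.cf_c_mul k s 1
  rw [mul_one, D.cf_one, if_neg hk, mul_zero] at h1
  exact h1

private theorem SiIso_in_c {S Q : Type} [Ring S] [Ring Q] (D : Lau S Q) {k n : Type}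
    (v : Matrix k n S) : D.In 0 (v.map D.c) := by
  intro i j s hs
  exact SiIso_cf_c D (v i j) s (by omega)

private theorem SiIso_dgl_mul {S : Type} [Ring S] (m : ℕ) {k n l : Type} [Fintype n]
    (v : Matrix k n S) (w : Matrix n l S) : dgl m v * dgl m w = dgl m (v * w) := by
  classical
  ext x z
  rw [Matrix.mul_apply, Fintype.sum_prod_type]
  unfold dgl
  rw [Finset.sum_eq_single x.1]
  · by_cases h : x.1 = z.1
    · simp only [h, if_true, Matrix.mul_apply]
    · simp [h]
  · intro b _ hb
    refine Finset.sum_eq_zero fun c _ => ?_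
    simp [Ne.symm hb]
  · intro h
    exact absurd (Finset.mem_univ _) h

private theorem SiIso_dgl_one {S : Type} [Ring S] (m : ℕ) {n : Type} [DecidableEq n] :
    dgl m (1 : Matrix n n S) = 1 := by
  ext x z
  unfold dgl
  rw [Matrix.one_apply, Matrix.one_apply]
  by_cases h : x.1 = z.1
  · by_cases h' : x.2 = z.2
    · rw [if_pos h, if_pos h', if_pos (Prod.ext h h')]
    · rw [if_pos h, if_neg h', if_neg fun e => h' (congrArg Prod.snd e)]
  · rw [if_neg h, if_neg fun e => h (congrArg Prod.fst e)]

private theorem SiIso_dgl_sup {L G X : Type} [CommRing L] [Group G] [MulAction G X]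
    {E : X → X → Prop} (m : ℕ) {k n : Type} {p : k → X} {q : n → X}
    {v : Matrix k n (MonoidAlgebra L G)} (hv : SupR E p q v) :
    SupR E (fun x : Fin (2 * m) × k => p x.2) (fun x : Fin (2 * m) × n => q x.2) (dgl m v) := by
  intro x z γ hγ
  unfold dgl at hγ
  by_cases h : x.1 = z.1
  · rw [if_pos h] at hγ
    exact hv _ _ γ hγ
  · rw [if_neg h] at hγ
    exact absurd rfl hγ

private theorem SiIso_single {L G : Type} [CommRing L] [Group G] (g : G) :
    (lauG L G).c (MonoidAlgebra.single g 1) = MonoidAlgebra.single g 1 := by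
  classical
  ext γ : 2
  rw [lauG_c, MonoidAlgebra.coeff_single, MonoidAlgebra.coeff_single, Finsupp.single_apply,
    Finsupp.single_apply]
  split_ifs
  · exact map_one _
  · exact map_zero _

private theorem SiIso_mon {L G : Type} [CommRing L] [Group G] {n k : Type} [DecidableEq k]
    (σ : n ≃ k) (γ : n → G) : mon (LaurentSeries L) σ γ = (mon L σ γ).map (lauG L G).c := by
  apply Matrix.ext
  intro i j
  rw [Matrix.map_apply]
  unfold mon
  split_ifs
  · exact (SiIso_single _).symm
  · exact (map_zero _).symm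

private theorem SiIso_moni {L G : Type} [CommRing L] [Group G] {n k : Type} [DecidableEq k]
    (σ : n ≃ k) (γ : n → G) : moni (LaurentSeries L) σ γ = (moni L σ γ).map (lauG L G).c := by
  apply Matrix.ext
  intro i j
  rw [Matrix.map_apply]
  unfold moni
  split_ifs
  · exact (SiIso_single _).symm
  · exact (map_zero _).symm

theorem siIso (h1 : S_ib) (h2 : S_epsI) (h3 : S_epsC) (h4 : S_isup) (h5 : S_stm) (h6 : S_sti) :
    S_siIso := by
  intro L G X _ _ _ N Ω D m n k _ _ _ _ p q σ γ a hN ⟨a', ha, ha', hP, hP', hs, hs', hst⟩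
  have huv : mon L σ γ * moni L σ γ = 1 := mon_mul_moni σ γ
  have hvu : moni L σ γ * mon L σ γ = 1 := moni_mul_mon σ γ
  have hsu : SupR (N.near D) p q (mon L σ γ) := supR_mon σ γ hN
  have hsv : SupR (N.near D) q p (moni L σ γ) :=
    supR_moni (fun _ _ h => N.symm h) (fun g _ _ h => N.inv g h) σ γ hN
  have hsu' : SupR (N.near D) p q (mon (LaurentSeries L) σ γ) := supR_mon σ γ hN
  have hsv' : SupR (N.near D) q p (moni (LaurentSeries L) σ γ) :=
    supR_moni (fun _ _ h => N.symm h) (fun g _ _ h => N.inv g h) σ γ hN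
  have huv' : mon (LaurentSeries L) σ γ * moni (LaurentSeries L) σ γ = 1 := mon_mul_moni σ γ
  have hvu' : moni (LaurentSeries L) σ γ * mon (LaurentSeries L) σ γ = 1 := moni_mul_mon σ γ
  have hconj : ∀ b b' : Matrix n n (MonoidAlgebra (LaurentSeries L) G), b * b' = 1 →
      moni (LaurentSeries L) σ γ * b * mon (LaurentSeries L) σ γ *
        (moni (LaurentSeries L) σ γ * b' * mon (LaurentSeries L) σ γ) = 1 := by
    intro b b' hb
    calc moni (LaurentSeries L) σ γ * b * mon (LaurentSeries L) σ γ *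
        (moni (LaurentSeries L) σ γ * b' * mon (LaurentSeries L) σ γ)
        = moni (LaurentSeries L) σ γ * b * (mon (LaurentSeries L) σ γ *
          moni (LaurentSeries L) σ γ) * b' * mon (LaurentSeries L) σ γ := by
          simp only [Matrix.mul_assoc]
      _ = moni (LaurentSeries L) σ γ * (b * b') * mon (LaurentSeries L) σ γ := by
          rw [huv', Matrix.mul_one, Matrix.mul_assoc (moni (LaurentSeries L) σ γ) b b']
      _ = 1 := by rw [hb, Matrix.mul_one, hvu']
  have hpole : ∀ b : Matrix n n (MonoidAlgebra (LaurentSeries L) G), (lauG L G).Pole m b →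
      (lauG L G).Pole m (moni (LaurentSeries L) σ γ * b * mon (LaurentSeries L) σ γ) := by
    intro b hb
    have e1 : (lauG L G).In (-(m : ℤ)) b := hb
    have e2 := (h1 _ _ (lauG L G)).mul k n n 0 (-(m : ℤ)) ((moni L σ γ).map (lauG L G).c) b
      (SiIso_in_c _ _) e1
    have e3 := (h1 _ _ (lauG L G)).mul k n k (0 + -(m : ℤ)) 0 _ ((mon L σ γ).map (lauG L G).c)
      e2 (SiIso_in_c _ _)
    rw [← SiIso_mon, ← SiIso_moni, zero_add, add_zero] at e3
    exact e3
  have hsup : ∀ b : Matrix n n (MonoidAlgebra (LaurentSeries L) G), SupR (N.near D) p p b →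
      SupR (N.near (20 * D)) q q
        (moni (LaurentSeries L) σ γ * b * mon (LaurentSeries L) σ γ) := by
    intro b hb
    exact ((hsv'.near_mul hb).near_mul hsu').near_mono (by omega)
  refine ⟨moni (LaurentSeries L) σ γ * a' * mon (LaurentSeries L) σ γ, hconj a a' ha,
    hconj a' a ha', hpole a hP, hpole a' hP', hsup a hs, hsup a' hs', ?_⟩
  have heps : (lauG L G).eps m (moni (LaurentSeries L) σ γ * a * mon (LaurentSeries L) σ γ)
      (moni (LaurentSeries L) σ γ * a' * mon (LaurentSeries L) σ γ) =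
      dgl m (moni L σ γ) * (lauG L G).eps m a a' * dgl m (mon L σ γ) := by
    rw [SiIso_mon, SiIso_moni]
    exact h3 _ _ n k (lauG L G) (h1 _ _ _) m a a' (mon L σ γ) (moni L σ γ) huv hvu
  have hid : (lauG L G).eps m a a' * (lauG L G).eps m a a' = (lauG L G).eps m a a' :=
    h2 _ _ n (lauG L G) (h1 _ _ _) m a a' ha ha' hP hP'
  -- the support of the idempotent
  have s1 : SupR (N.near 0) (fun x : Fin (2 * m) × n => p x.2) p ((lauG L G).Y m n) :=
    (h4 L G X (N.near 0) n n p p).2.1 m (N.refl 0)
  have s2 := (h4 L G X (N.near (0 + D)) (Fin (2 * m) × n) n (fun x => p x.2) p).2.2.1 _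
    (s1.near_mul hs')
  have s3 : SupR (N.near (0 + D + D)) (fun x : Fin (2 * m) × n => p x.2)
      (fun x : Fin (2 * m) × n => p x.2) ((lauG L G).eps m a a') :=
    (h4 L G X (N.near (0 + D + D)) (Fin (2 * m) × n) n (fun x => p x.2) p).1 m _
      (s2.near_mul hs)
  rw [heps]
  refine h5 L G X N Ω Ω (4 * D) (20 * D) _ _ _ subset_rfl (by omega) ?_
  have e4 : dgl m (mon L σ γ) * dgl m (moni L σ γ) = 1 := by
    rw [SiIso_dgl_mul, huv, SiIso_dgl_one]
  have h7 := h6 L G X N Ω (3 * D) D (Fin (2 * m) × k) (Fin (2 * m) × n) (fun x => q x.2)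
    (fun x => p x.2)
    (dgl m (moni L σ γ) * (lauG L G).eps m a a' * dgl m (mon L σ γ)) ((lauG L G).eps m a a')
    (dgl m (moni L σ γ) * (lauG L G).eps m a a') ((lauG L G).eps m a a' * dgl m (mon L σ γ))
    (by
      calc dgl m (moni L σ γ) * (lauG L G).eps m a a' * dgl m (mon L σ γ) *
          (dgl m (moni L σ γ) * (lauG L G).eps m a a' * dgl m (mon L σ γ))
          = dgl m (moni L σ γ) * (lauG L G).eps m a a' * (dgl m (mon L σ γ) *
            dgl m (moni L σ γ)) * (lauG L G).eps m a a' * dgl m (mon L σ γ) := by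
            simp only [Matrix.mul_assoc]
        _ = _ := by
            rw [e4, Matrix.mul_one, Matrix.mul_assoc (dgl m (moni L σ γ)), hid])
    (by
      calc dgl m (moni L σ γ) * (lauG L G).eps m a a' *
          ((lauG L G).eps m a a' * dgl m (mon L σ γ))
          = dgl m (moni L σ γ) * ((lauG L G).eps m a a' * (lauG L G).eps m a a') *
            dgl m (mon L σ γ) := by simp only [Matrix.mul_assoc]
        _ = _ := by rw [hid])
    (by
      calc (lauG L G).eps m a a' * dgl m (mon L σ γ) *
          (dgl m (moni L σ γ) * (lauG L G).eps m a a')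
          = (lauG L G).eps m a a' * (dgl m (mon L σ γ) * dgl m (moni L σ γ)) *
            (lauG L G).eps m a a' := by simp only [Matrix.mul_assoc]
        _ = _ := by rw [e4, Matrix.mul_one, hid])
    (((SiIso_dgl_sup m hsv).near_mul s3).near_mono (by omega))
    ((s3.near_mul (SiIso_dgl_sup m hsu)).near_mono (by omega)) hst
  have e5 : 3 * D + D = 4 * D := by omega
  rw [e5] at h7
  exact h7

end Pool.Agent.FH
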