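import Pool.Agent.Lib.MP_8f66f0_al_FH.CSpec

/-! Part 2 of Theorem FH: block diagonal idempotents with small stabilizers. -/

set_option autoImplicit false

namespace Pool.Agent.FH

open Pool.Agent.Wald Pool.Agent.WaldL Pool.Agent.Ind

section Mat

variable {R : Type} [Ring R]

/-- the matrix of a linear map of free left modules (row convention) -/
private noncomputable def Stb_mat {A B : Type} [Fintype A] [DecidableEq A]
    (F : (A → R) →ₗ[R] (B → R)) : Matrix A B R := fun i => F (Pi.single i 1)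

private theorem Stb_vecMul {A B : Type} [Fintype A] [DecidableEq A]
    (F : (A → R) →ₗ[R] (B → R)) (x : A → R) : Matrix.vecMul x (Stb_mat F) = F x := by
  have hx : x = ∑ i, x i • (Pi.single i 1 : A → R) := by
    funext j
    rw [Finset.sum_apply, Finset.sum_eq_single j]
    · simp
    · intro b _ hb
      simp [Pi.single_eq_of_ne (Ne.symm hb)]
    · intro h
      exact absurd (Finset.mem_univ j) h
  conv_rhs => rw [hx]
  rw [map_sum]
  funext j
  rw [Finset.sum_apply]
  unfold Matrix.vecMul dotProduct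
  refine Finset.sum_congr rfl fun i _ => ?_
  rw [map_smul]
  rfl

private theorem Stb_comp {A B C : Type} [Fintype A] [DecidableEq A] [Fintype B] [DecidableEq B]
    (F : (A → R) →ₗ[R] (B → R)) (F' : (B → R) →ₗ[R] (C → R)) :
    Stb_mat F * Stb_mat F' = Stb_mat (F'.comp F) := by
  funext i
  rw [Matrix.mul_apply_eq_vecMul]
  exact Stb_vecMul F' _

private theorem Stb_matL {A B : Type} [Fintype A] [DecidableEq A] (M : Matrix A B R) :
    Stb_mat (Matrix.vecMulLinear M) = M := by
  funext i
  show Matrix.vecMul (Pi.single i 1) M = M i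
  rw [Matrix.single_one_vecMul]
  rfl

private theorem Stb_mat_inj {A B : Type} [Fintype A] [DecidableEq A]
    {F : (A → R) →ₗ[R] (B → R)} {M : Matrix A B R} (h : ∀ x, F x = Matrix.vecMul x M) :
    Stb_mat F = M := by
  rw [← Stb_matL M]
  congr 1
  exact LinearMap.ext h

/-- images of idempotents are stably free -/
private theorem Stb_psf (hR : ProjSF R) {I : Type} [Fintype I] [DecidableEq I]
    (p : Matrix I I R) (hp : p * p = p) :
    ∃ (k a : ℕ) (U : Matrix (I ⊕ Fin k) (Fin a) R) (V : Matrix (Fin a) (I ⊕ Fin k) R),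
      U * V = Matrix.fromBlocks p 0 0 1 ∧ V * U = 1 := by
  set e : (I → R) →ₗ[R] (I → R) := Matrix.vecMulLinear p with he
  have hee : ∀ x, e (e x) = e x := by
    intro x
    rw [he, Matrix.vecMulLinear_apply, Matrix.vecMulLinear_apply, Matrix.vecMul_vecMul, hp]
  set P := LinearMap.range e with hP
  have hPe : ∀ x ∈ P, e x = x := by
    rintro x ⟨y, rfl⟩
    exact hee y
  set sP : (I → R) →ₗ[R] P := e.rangeRestrict with hsP
  have h1 : sP.comp P.subtype = LinearMap.id := by
    ext x
    exact congrFun (hPe x x.2) _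
  have : Module.Projective R P := Module.Projective.of_split P.subtype sP h1
  have : Module.Finite R P := Module.Finite.of_surjective sP
    (fun y => ⟨y, LinearMap.congr_fun h1 y⟩)
  obtain ⟨k, a, ⟨φ⟩⟩ := hR P
  have hsPP : ∀ x : P, sP (x : I → R) = x := fun x => LinearMap.congr_fun h1 x
  let L1 : (I ⊕ Fin k → R) →ₗ[R] P × (Fin k → R) :=
    { toFun := fun x => (sP (x ∘ Sum.inl), x ∘ Sum.inr)
      map_add' := by
        intro x y
        have e1 : (x + y) ∘ Sum.inl = x ∘ Sum.inl + y ∘ (Sum.inl : I → I ⊕ Fin k) := rfl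
        rw [e1, map_add]
        rfl
      map_smul' := by
        intro r x
        have e1 : (r • x) ∘ Sum.inl = r • (x ∘ (Sum.inl : I → I ⊕ Fin k)) := rfl
        rw [e1, map_smul]
        rfl }
  let L2 : P × (Fin k → R) →ₗ[R] (I ⊕ Fin k → R) :=
    { toFun := fun z => Sum.elim (z.1 : I → R) z.2
      map_add' := by
        intro x y
        funext z
        rcases z with i | j <;> rfl
      map_smul' := by
        intro r x
        funext z
        rcases z with i | j <;> rfl }
  refine ⟨k, a, Stb_mat (φ.toLinearMap.comp L1), Stb_mat (L2.comp φ.symm.toLinearMap), ?_, ?_⟩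
  · rw [Stb_comp]
    refine Stb_mat_inj fun x => ?_
    show L2 (φ.symm (φ (L1 x))) = _
    rw [LinearEquiv.symm_apply_apply, Matrix.vecMul_fromBlocks]
    simp only [Matrix.vecMul_zero, Matrix.vecMul_one, add_zero, zero_add]
    rfl
  · rw [Stb_comp]
    refine Stb_mat_inj fun x => ?_
    show φ (L1 (L2 (φ.symm x))) = _
    have e1 : L1 (L2 (φ.symm x)) = φ.symm x := by
      refine Prod.ext ?_ rfl
      exact hsPP (φ.symm x).1
    rw [e1, LinearEquiv.apply_symm_apply, Matrix.vecMul_one]

end Mat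

section Res

variable {L : Type} [CommRing L] {G : Type} [Group G]

/-- Restriction of the coefficients. -/
private noncomputable def Stb_r (V : Subgroup G) (f : MonoidAlgebra L G) : MonoidAlgebra L V :=
  MonoidAlgebra.ofCoeff (f.coeff.comapDomain Subtype.val Subtype.val_injective.injOn)

private noncomputable abbrev Stb_i (L : Type) [CommRing L] {G : Type} [Group G]
    (V : Subgroup G) : MonoidAlgebra L V →+* MonoidAlgebra L G :=
  MonoidAlgebra.mapDomainRingHom L V.subtype

private theorem Stb_inc (V : Subgroup G) (f : MonoidAlgebra L G)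
    (hf : ∀ g, f.coeff g ≠ 0 → g ∈ V) : Stb_i L V (Stb_r V f) = f := by
  apply MonoidAlgebra.coeff_injective
  change Finsupp.mapDomain Subtype.val
    (f.coeff.comapDomain Subtype.val Subtype.val_injective.injOn) = f.coeff
  refine Finsupp.mapDomain_comapDomain _ Subtype.val_injective f.coeff ?_
  intro g hg
  exact ⟨⟨g, hf g (Finsupp.mem_support_iff.mp hg)⟩, rfl⟩

private theorem Stb_supp (V : Subgroup G) (f : MonoidAlgebra L V) (g : G)
    (hg : (Stb_i L V f).coeff g ≠ 0) : g ∈ V := by
  by_contra hcon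
  apply hg
  change (Finsupp.mapDomain Subtype.val f.coeff) g = 0
  refine Finsupp.mapDomain_of_notMem_range _ _ ?_
  rintro ⟨x, rfl⟩
  exact hcon x.2

private theorem Stb_map (V : Subgroup G) {n : Type} (a : Matrix n n (MonoidAlgebra L G))
    (hf : ∀ i k g, (a i k).coeff g ≠ 0 → g ∈ V) :
    (a.map (Stb_r V)).map (Stb_i L V) = a :=
  Matrix.ext fun i k => Stb_inc V _ (hf i k)

private theorem Stb_idem (V : Subgroup G) {n : Type} [Fintype n] [DecidableEq n]
    (a : Matrix n n (MonoidAlgebra L G)) (ha : ∀ i k g, (a i k).coeff g ≠ 0 → g ∈ V)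
    (haa : a * a = a) : a.map (Stb_r V) * a.map (Stb_r V) = a.map (Stb_r V) := by
  have hinj : Function.Injective
      (fun M : Matrix n n (MonoidAlgebra L V) => M.map (Stb_i L V)) :=
    fun M N h => by
      refine Matrix.ext fun i j => MonoidAlgebra.mapDomain_injective Subtype.val_injective ?_
      exact congrFun (congrFun h i) j
  refine hinj ?_
  change Matrix.map _ _ = Matrix.map _ _
  rw [Matrix.map_mul, Stb_map V a ha, haa]

end Res

section Main

variable {L : Type} [CommRing L] {G X : Type} [Group G] [MulAction G X]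

/-- the conclusion -/
private def Stb_P (E : Eqr G X) (n : Type) [Fintype n] [DecidableEq n] (p : n → X)
    (q : Matrix n n (MonoidAlgebra L G)) : Prop :=
    ∃ (n₁ n₂ : Type) (_ : Fintype n₁) (_ : DecidableEq n₁) (_ : Fintype n₂) (_ : DecidableEq n₂)
      (i₁ : n₁ → n) (i₂ : n₂ → n) (u : Matrix (n ⊕ n₁) n₂ (MonoidAlgebra L G))
      (v : Matrix n₂ (n ⊕ n₁) (MonoidAlgebra L G)),
      SupR E.rel (Sum.elim p fun x => p (i₁ x)) (fun x => p (i₂ x)) u ∧
      SupR E.rel (fun x => p (i₂ x)) (Sum.elim p fun x => p (i₁ x)) v ∧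
      u * v = Matrix.fromBlocks q 0 0 1 ∧ v * u = 1

/-- the case of a single class -/
private theorem Stb_one (E : Eqr G X) {n : Type} [Fintype n] [DecidableEq n] (p : n → X)
    (q : Matrix n n (MonoidAlgebra L G)) (hq : q * q = q) (hs : SupR E.rel p p q) (i₀ : n)
    (hV : ProjSF (MonoidAlgebra L (E.st (p i₀)))) (γ : n → G)
    (hγ : ∀ i, E.rel (p i₀) (γ i • p i)) : Stb_P E n p q := by
  obtain ⟨x₀, hx₀⟩ : ∃ x₀, x₀ = p i₀ := ⟨_, rfl⟩
  obtain ⟨c, hc⟩ : ∃ c, c = mon L (Equiv.refl n) γ := ⟨_, rfl⟩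
  obtain ⟨c', hc'⟩ : ∃ c', c' = moni L (Equiv.refl n) γ := ⟨_, rfl⟩
  have hcc' : c * c' = 1 := by rw [hc, hc']; exact mon_mul_moni _ _
  have hc'c : c' * c = 1 := by rw [hc, hc']; exact moni_mul_mon _ _
  have hcs : SupR E.rel (fun _ : n => x₀) p c := by
    rw [hc]
    exact supR_mon _ _ (by intro i; rw [hx₀]; exact hγ i)
  have hcs' : SupR E.rel p (fun _ : n => x₀) c' := by
    rw [hc']
    exact supR_moni (fun _ _ => E.symm) (fun g _ _ => E.inv g) _ _
      (by intro i; rw [hx₀]; exact hγ i)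
  obtain ⟨q', hq'⟩ : ∃ q', q' = c * q * c' := ⟨_, rfl⟩
  have hq's : SupR E.rel (fun _ : n => x₀) (fun _ : n => x₀) q' := by
    rw [hq']
    exact (hcs.rel_mul hs).rel_mul hcs'
  have hq'q : q' * q' = q' := by
    rw [hq']
    calc c * q * c' * (c * q * c') = c * q * (c' * c) * q * c' := by
          simp only [Matrix.mul_assoc]
      _ = c * (q * q) * c' := by rw [hc'c, Matrix.mul_one]; simp only [Matrix.mul_assoc]
      _ = c * q * c' := by rw [hq]
  have hsV : ∀ i k g, (q' i k).coeff g ≠ 0 → g ∈ E.st x₀ := fun i k g hg => hq's i k g hg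
  rw [← hx₀] at hV
  obtain ⟨k, a, U, V, hUV, hVU⟩ := Stb_psf hV (q'.map (Stb_r (E.st x₀)))
    (Stb_idem (E.st x₀) q' hsV hq'q)
  obtain ⟨U', hU'⟩ : ∃ U', U' = U.map (Stb_i L (E.st x₀)) := ⟨_, rfl⟩
  obtain ⟨V', hV'⟩ : ∃ V', V' = V.map (Stb_i L (E.st x₀)) := ⟨_, rfl⟩
  have hUV' : U' * V' = Matrix.fromBlocks q' 0 0 1 := by
    rw [hU', hV', ← Matrix.map_mul, hUV, Matrix.fromBlocks_map, Stb_map _ _ hsV,
      Matrix.map_zero _ (map_zero _), Matrix.map_zero _ (map_zero _),
      Matrix.map_one _ (map_zero _) (map_one _)]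
  have hVU' : V' * U' = 1 := by
    rw [hU', hV', ← Matrix.map_mul, hVU, Matrix.map_one _ (map_zero _) (map_one _)]
  have hU's : SupR E.rel (fun _ : n ⊕ Fin k => x₀) (fun _ : Fin a => x₀) U' := by
    intro i j g hg
    rw [hU'] at hg
    exact Stb_supp _ _ _ hg
  have hV's : SupR E.rel (fun _ : Fin a => x₀) (fun _ : n ⊕ Fin k => x₀) V' := by
    intro i j g hg
    rw [hV'] at hg
    exact Stb_supp _ _ _ hg
  obtain ⟨d, hd⟩ : ∃ d, d = Matrix.fromBlocks c 0 0 (1 : Matrix (Fin k) (Fin k) (MonoidAlgebra L G)) :=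
    ⟨_, rfl⟩
  obtain ⟨d', hd'⟩ : ∃ d', d' = Matrix.fromBlocks c' 0 0 (1 : Matrix (Fin k) (Fin k) (MonoidAlgebra L G)) :=
    ⟨_, rfl⟩
  have hell : (Sum.elim (fun _ : n => x₀) (fun _ : Fin k => x₀)) = fun _ : n ⊕ Fin k => x₀ := by
    funext z
    rcases z with z | z <;> rfl
  have hds : SupR E.rel (fun _ : n ⊕ Fin k => x₀) (Sum.elim p fun _ : Fin k => x₀) d := by
    rw [hd, ← hell]
    exact SupR.fromBlocks hcs SupR.zero SupR.zero (SupR.one E.refl)
  have hds' : SupR E.rel (Sum.elim p fun _ : Fin k => x₀) (fun _ : n ⊕ Fin k => x₀) d' := by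
    rw [hd', ← hell]
    exact SupR.fromBlocks hcs' SupR.zero SupR.zero (SupR.one E.refl)
  have hdd' : d * d' = 1 := by
    rw [hd, hd', Matrix.fromBlocks_multiply]
    simp only [Matrix.mul_zero, Matrix.zero_mul, add_zero, zero_add, Matrix.mul_one, hcc']
    exact Matrix.fromBlocks_one
  have key : d' * Matrix.fromBlocks q' 0 0 1 * d = Matrix.fromBlocks q 0 0 1 := by
    rw [hd, hd', Matrix.fromBlocks_multiply, Matrix.fromBlocks_multiply]
    simp only [Matrix.mul_zero, Matrix.zero_mul, add_zero, zero_add, Matrix.mul_one]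
    have : c' * q' * c = q := by
      rw [hq']
      calc c' * (c * q * c') * c = (c' * c) * q * (c' * c) := by simp only [Matrix.mul_assoc]
        _ = q := by rw [hc'c, Matrix.one_mul, Matrix.mul_one]
    rw [this]
  refine ⟨Fin k, Fin a, inferInstance, inferInstance, inferInstance, inferInstance,
    fun _ => i₀, fun _ => i₀, d' * U', V' * d, ?_, ?_, ?_, ?_⟩
  · show SupR E.rel (Sum.elim p fun _ => p i₀) (fun _ => p i₀) (d' * U')
    rw [← hx₀]
    exact hds'.rel_mul hU's
  · show SupR E.rel (fun _ => p i₀) (Sum.elim p fun _ => p i₀) (V' * d)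
    rw [← hx₀]
    exact hV's.rel_mul hds
  · rw [← key, ← hUV']
    simp only [Matrix.mul_assoc]
  · calc V' * d * (d' * U') = V' * (d * d') * U' := by simp only [Matrix.mul_assoc]
      _ = 1 := by rw [hdd', Matrix.mul_one, hVU']

private theorem Stb_sum (E : Eqr G X) {n n' : Type} [Fintype n] [DecidableEq n] [Fintype n']
    [DecidableEq n'] (p : n → X) (p' : n' → X) (q : Matrix n n (MonoidAlgebra L G))
    (q' : Matrix n' n' (MonoidAlgebra L G)) (h : Stb_P E n p q) (h' : Stb_P E n' p' q') :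
    Stb_P E (n ⊕ n') (Sum.elim p p') (Matrix.fromBlocks q 0 0 q') := by
  obtain ⟨n₁, n₂, _, _, _, _, i₁, i₂, u, v, h1, h2, h3, h4⟩ := h
  obtain ⟨m₁, m₂, _, _, _, _, j₁, j₂, u', v', h1', h2', h3', h4'⟩ := h'
  refine ⟨n₁ ⊕ m₁, n₂ ⊕ m₂, inferInstance, inferInstance, inferInstance, inferInstance,
    Sum.map i₁ j₁, Sum.map i₂ j₂,
    (Matrix.fromBlocks u 0 0 u').submatrix (Equiv.sumSumSumComm n n' n₁ m₁) id,
    (Matrix.fromBlocks v 0 0 v').submatrix id (Equiv.sumSumSumComm n n' n₁ m₁), ?_, ?_, ?_, ?_⟩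
  · rintro ((i | i) | (i | i)) (j | j) g hg
    · exact h1 (Sum.inl i) j g hg
    · exact absurd rfl hg
    · exact absurd rfl hg
    · exact h1' (Sum.inl i) j g hg
    · exact h1 (Sum.inr i) j g hg
    · exact absurd rfl hg
    · exact absurd rfl hg
    · exact h1' (Sum.inr i) j g hg
  · rintro (j | j) ((i | i) | (i | i)) g hg
    · exact h2 j (Sum.inl i) g hg
    · exact absurd rfl hg
    · exact h2 j (Sum.inr i) g hg
    · exact absurd rfl hg
    · exact absurd rfl hg
    · exact h2' j (Sum.inl i) g hg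
    · exact absurd rfl hg
    · exact h2' j (Sum.inr i) g hg
  · rw [← Matrix.submatrix_mul _ _ _ _ _ Function.bijective_id, Matrix.fromBlocks_multiply]
    simp only [Matrix.mul_zero, Matrix.zero_mul, add_zero, zero_add, h3, h3']
    refine Matrix.ext fun x y => ?_
    rcases x with (x | x) | (x | x) <;> rcases y with (y | y) | (y | y) <;>
      first
        | rfl
        | simp [Matrix.one_apply, Equiv.sumSumSumComm]
  · have e := Matrix.submatrix_mul (Matrix.fromBlocks v 0 0 v') (Matrix.fromBlocks u 0 0 u')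
      (id : n₂ ⊕ m₂ → n₂ ⊕ m₂) (Equiv.sumSumSumComm n n' n₁ m₁) id
      (Equiv.sumSumSumComm n n' n₁ m₁).bijective
    rw [← e, Matrix.fromBlocks_multiply]
    simp only [Matrix.mul_zero, Matrix.zero_mul, add_zero, zero_add, h4, h4']
    rw [Matrix.fromBlocks_one]
    rfl

private theorem Stb_re (E : Eqr G X) {n n' : Type} [Fintype n] [DecidableEq n] [Fintype n']
    [DecidableEq n'] (σ : n' ≃ n) (p : n → X) (q : Matrix n n (MonoidAlgebra L G))
    (h : Stb_P E n' (fun i => p (σ i)) (q.submatrix σ σ)) : Stb_P E n p q := by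
  obtain ⟨n₁, n₂, _, _, _, _, i₁, i₂, u, v, h1, h2, h3, h4⟩ := h
  refine ⟨n₁, n₂, inferInstance, inferInstance, inferInstance, inferInstance,
    fun x => σ (i₁ x), fun x => σ (i₂ x),
    u.submatrix (Equiv.sumCongr σ.symm (Equiv.refl n₁)) id,
    v.submatrix id (Equiv.sumCongr σ.symm (Equiv.refl n₁)), ?_, ?_, ?_, ?_⟩
  · rintro (i | i) j g hg
    · have := h1 (Sum.inl (σ.symm i)) j g hg
      simpa using this
    · exact h1 (Sum.inr i) j g hg
  · rintro j (i | i) g hg
    · have := h2 j (Sum.inl (σ.symm i)) g hg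
      simpa using this
    · exact h2 j (Sum.inr i) g hg
  · rw [← Matrix.submatrix_mul _ _ _ _ _ Function.bijective_id, h3]
    refine Matrix.ext fun x y => ?_
    rcases x with x | x <;> rcases y with y | y
    · show q (σ (σ.symm x)) (σ (σ.symm y)) = q x y
      rw [σ.apply_symm_apply, σ.apply_symm_apply]
    · rfl
    · rfl
    · rfl
  · have e := Matrix.submatrix_mul v u (id : n₂ → n₂)
      (Equiv.sumCongr σ.symm (Equiv.refl n₁)) id (Equiv.sumCongr σ.symm (Equiv.refl n₁)).bijective
    rw [← e, h4]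
    rfl

private theorem Stb_ind (E : Eqr G X) (k : ℕ) : ∀ (n : Type) [Fintype n] [DecidableEq n]
    (p : n → X) (q : Matrix n n (MonoidAlgebra L G)), Fintype.card n ≤ k → q * q = q →
    SupR E.rel p p q → (∀ i, ProjSF (MonoidAlgebra L (E.st (p i)))) → Stb_P E n p q := by
  classical
  induction k with
  | zero =>
    intro n _ _ p q hk hq hs hV
    have : IsEmpty n := Fintype.card_eq_zero_iff.1 (by omega)
    refine ⟨Empty, Empty, inferInstance, inferInstance, inferInstance, inferInstance,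
      fun x => x.elim, fun x => x.elim, 0, 0, ?_, ?_, ?_, ?_⟩
    · intro i j
      exact j.elim
    · intro j
      exact j.elim
    · refine Matrix.ext fun x y => ?_
      rcases x with x | x
      · exact (this.false x).elim
      · exact x.elim
    · refine Matrix.ext fun x y => ?_
      exact x.elim
  | succ k ih =>
    intro n _ _ p q hk hq hs hV
    by_cases hn : Fintype.card n ≤ k
    · exact ih n p q hn hq hs hV
    have hn' : 0 < Fintype.card n := by omega
    obtain ⟨i₀⟩ : Nonempty n := Fintype.card_pos_iff.1 hn'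
    obtain ⟨P, hP⟩ : ∃ P : n → Prop, ∀ i, P i ↔ ∃ g : G, E.rel (p i₀) (g • p i) :=
      ⟨fun i => ∃ g : G, E.rel (p i₀) (g • p i), fun i => Iff.rfl⟩
    have hP0 : P i₀ := (hP i₀).2 ⟨1, by rw [one_smul]; exact E.refl _⟩
    have hz1 : ∀ i k, P i → ¬ P k → q i k = 0 := by
      intro i k hi hk
      by_contra hne
      obtain ⟨g, hg⟩ : ∃ g, (q i k).coeff g ≠ 0 := by
        by_contra hcon
        push Not at hcon
        exact hne (MonoidAlgebra.coeff_injective (Finsupp.ext hcon))
      obtain ⟨g₁, hg₁⟩ := (hP i).1 hi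
      refine hk ((hP k).2 ⟨g₁ * g, ?_⟩)
      rw [mul_smul]
      exact E.trans hg₁ (E.inv g₁ (hs i k g hg))
    have hz2 : ∀ i k, ¬ P i → P k → q i k = 0 := by
      intro i k hi hk
      by_contra hne
      obtain ⟨g, hg⟩ : ∃ g, (q i k).coeff g ≠ 0 := by
        by_contra hcon
        push Not at hcon
        exact hne (MonoidAlgebra.coeff_injective (Finsupp.ext hcon))
      obtain ⟨g₁, hg₁⟩ := (hP k).1 hk
      refine hi ((hP i).2 ⟨g₁ * g⁻¹, ?_⟩)
      rw [mul_smul]
      refine E.trans hg₁ (E.inv g₁ ?_)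
      have h := E.inv g⁻¹ (hs i k g hg)
      rw [inv_smul_smul] at h
      exact E.symm h
    have hsub : q.submatrix (Equiv.sumCompl P) (Equiv.sumCompl P) =
        Matrix.fromBlocks (q.submatrix (Subtype.val : {x // P x} → n) Subtype.val) 0 0
          (q.submatrix (Subtype.val : {x // ¬ P x} → n) Subtype.val) := by
      refine Matrix.ext fun x y => ?_
      rcases x with x | x <;> rcases y with y | y
      · rfl
      · exact hz1 _ _ x.2 y.2
      · exact hz2 _ _ x.2 y.2
      · rfl
    have hidem : q.submatrix (Equiv.sumCompl P) (Equiv.sumCompl P) *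
        q.submatrix (Equiv.sumCompl P) (Equiv.sumCompl P) =
        q.submatrix (Equiv.sumCompl P) (Equiv.sumCompl P) := by
      rw [← Matrix.submatrix_mul _ _ _ _ _ (Equiv.sumCompl P).bijective, hq]
    rw [hsub, Matrix.fromBlocks_multiply] at hidem
    simp only [Matrix.mul_zero, Matrix.zero_mul, add_zero, zero_add] at hidem
    obtain ⟨hi1, -, -, hi2⟩ := Matrix.fromBlocks_inj.1 hidem
    choose γ hγ using fun x : {x // P x} => (hP x.1).1 x.2
    have h1 : Stb_P E {x // P x} (fun x => p x) (q.submatrix Subtype.val Subtype.val) :=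
      Stb_one E _ _ hi1 (hs.submatrix _ _) ⟨i₀, hP0⟩ (hV i₀) γ hγ
    have hcard : Fintype.card {x // ¬ P x} ≤ k := by
      have := Fintype.card_subtype_lt (p := fun x => ¬ P x) (x := i₀) (not_not.2 hP0)
      omega
    have h2 : Stb_P E {x // ¬ P x} (fun x => p x) (q.submatrix Subtype.val Subtype.val) :=
      ih _ _ _ hcard hi2 (hs.submatrix _ _) fun i => hV i
    refine Stb_re E (Equiv.sumCompl P) p q ?_
    rw [hsub]
    have e : (fun i => p (Equiv.sumCompl P i)) =
        Sum.elim (fun x : {x // P x} => p x) (fun x : {x // ¬ P x} => p x) := by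
      funext z
      rcases z with z | z <;> rfl
    rw [e]
    exact Stb_sum E _ _ _ _ h1 h2

end Main

theorem stb : S_stb := by
  intro L G X _ _ _ _ E n _ _ p q hq hs hV
  exact Stb_ind E (Fintype.card n) n p q le_rfl hq hs hV

end Pool.Agent.FH
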