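import Pool.Agent.Lib.MP_8f66f0_al_FH.ASpec

/-! Twisting with a set with one element. -/

set_option autoImplicit false

namespace Pool.Agent.FH

open Pool.Agent.Wald Pool.Agent.WaldL Pool.Agent.Ind Filter

private theorem TwPt_coeff {L : Type} [CommRing L] {G : Type} [Group G] (X : Type)
    [MulAction G X] {n m : Type} (A : Matrix n m (MonoidAlgebra L G)) (q : n × X) (r : m × X)
    (g : G) [Decidable (g • r.2 = q.2)] :
    (tw X A q r).coeff g = if g • r.2 = q.2 then (A q.1 r.1).coeff g else 0 := by
  unfold tw
  rw [MonoidAlgebra.coeff_ofCoeff, Finsupp.filter_apply]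
  split_ifs <;> rfl

/-- Twisting with a set with one element does nothing. -/
theorem twPt : S_twPt := by
  classical
  intro L G X K _ _ _ _ _ _ κ n _ _ a ha hX
  obtain ⟨x₀, hx₀⟩ := hX
  let e : n ≃ n × X :=
    { toFun := fun i => (i, x₀)
      invFun := fun q => q.1
      left_inv := fun i => rfl
      right_inv := fun q => Prod.ext rfl (hx₀ q.2).symm }
  have h : tw X a = a.submatrix e.symm e.symm := by
    ext q r : 2
    ext g
    rw [TwPt_coeff, if_pos (by rw [hx₀ (g • r.2), hx₀ q.2])]
    rfl
  rw [h]
  exact κ.reindex e a ha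

end Pool.Agent.FH
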