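import Pool.Agent.Lib.MP_8f66f0_al_FH.VA

/-! All elementary amenable groups are in the class `YY`. -/

set_option autoImplicit false

namespace Pool.Agent.FH

theorem yy_sub {G : Type} [Group G] (h : YY G) :
    ∀ (H : Type) [Group H] (f : H →* G), Function.Injective f → YY H := by
  induction h with
  | triv hs => exact fun H _ f hf => YY.triv ⟨fun a b => hf (Subsingleton.elim _ _)⟩
  | iso e _ ih =>
    intro H _ f hf
    exact ih H (e.symm.toMonoidHom.comp f) (e.symm.injective.comp hf)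
  | directed S hne hd hS _ ih =>
    intro H _ f hf
    refine YY.directed ((fun K => Subgroup.comap f K) '' S) (hne.image _) ?_ ?_ ?_
    · rintro _ ⟨K, hK, rfl⟩ _ ⟨K', hK', rfl⟩
      obtain ⟨K'', h1, h2, h3⟩ := hd K hK K' hK'
      exact ⟨_, ⟨K'', h1, rfl⟩, Subgroup.comap_mono h2, Subgroup.comap_mono h3⟩
    · intro g
      obtain ⟨K, hK, hg⟩ := hS (f g)
      exact ⟨_, ⟨K, hK, rfl⟩, hg⟩
    · rintro _ ⟨K, hK, rfl⟩
      exact ih K hK _ ((f.comp (K.comap f).subtype).codRestrict K fun x => x.2) fun x y hxy =>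
        Subtype.ext (hf (congrArg Subtype.val hxy))
  | vab N _ hN ih =>
    intro H _ f hf
    refine YY.vab (N.comap f) (ih _ ((f.comp (N.comap f).subtype).codRestrict N fun x => x.2)
      fun x y hxy => Subtype.ext (hf (congrArg Subtype.val hxy))) ?_
    refine vab_inj (QuotientGroup.map (N.comap f) N f le_rfl) ?_ hN
    rw [injective_iff_map_eq_one]
    intro x
    obtain ⟨y, rfl⟩ := QuotientGroup.mk_surjective x
    intro hy
    rw [QuotientGroup.map_mk] at hy
    have h1 : f y ∈ N := (QuotientGroup.eq_one_iff (f y)).1 hy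
    exact (QuotientGroup.eq_one_iff y).2 h1

theorem yy_quot {G : Type} [Group G] (h : YY G) :
    ∀ (H : Type) [Group H] (f : G →* H), Function.Surjective f → YY H := by
  induction h with
  | triv hs =>
    intro H _ f hf
    refine YY.triv ⟨fun a b => ?_⟩
    obtain ⟨a, rfl⟩ := hf a
    obtain ⟨b, rfl⟩ := hf b
    rw [Subsingleton.elim a b]
  | iso e _ ih => exact fun H _ f hf => ih H (f.comp e.toMonoidHom) (hf.comp e.surjective)
  | directed S hne hd hS _ ih =>
    intro H _ f hf
    refine YY.directed ((fun K => Subgroup.map f K) '' S) (hne.image _) ?_ ?_ ?_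
    · rintro _ ⟨K, hK, rfl⟩ _ ⟨K', hK', rfl⟩
      obtain ⟨K'', h1, h2, h3⟩ := hd K hK K' hK'
      exact ⟨_, ⟨K'', h1, rfl⟩, Subgroup.map_mono h2, Subgroup.map_mono h3⟩
    · intro g
      obtain ⟨g, rfl⟩ := hf g
      obtain ⟨K, hK, hg⟩ := hS g
      exact ⟨_, ⟨K, hK, rfl⟩, ⟨g, hg, rfl⟩⟩
    · rintro _ ⟨K, hK, rfl⟩
      exact ih K hK _ (f.subgroupMap K) (f.subgroupMap_surjective K)
  | vab N _ hN ih =>
    intro H _ f hf
    have : (N.map f).Normal := Subgroup.Normal.map inferInstance f hf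
    refine YY.vab (N.map f) (ih _ (f.subgroupMap N) (f.subgroupMap_surjective N)) ?_
    refine vab_surj (QuotientGroup.map N (N.map f) f (Subgroup.le_comap_map f N)) ?_ hN
    intro x
    obtain ⟨y, rfl⟩ := QuotientGroup.mk_surjective x
    obtain ⟨z, rfl⟩ := hf y
    exact ⟨(z : _ ⧸ N), rfl⟩

/-- The restriction of a homomorphism to a preimage. -/
def resHom {G Q : Type} [Group G] [Group Q] (f : G →* Q) (K : Subgroup Q) : K.comap f →* K :=
  (f.comp (K.comap f).subtype).codRestrict K fun x => x.2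

theorem resHom_surj {G Q : Type} [Group G] [Group Q] (f : G →* Q) (hf : Function.Surjective f)
    (K : Subgroup Q) : Function.Surjective (resHom f K) := by
  rintro ⟨x, hx⟩
  obtain ⟨y, rfl⟩ := hf x
  exact ⟨⟨y, hx⟩, rfl⟩

theorem resHom_ker {G Q : Type} [Group G] [Group Q] (f : G →* Q) (K : Subgroup Q) :
    Nonempty (f.ker ≃* (resHom f K).ker) := by
  refine ⟨{ toFun := fun x => ⟨⟨x.1, ?_⟩, ?_⟩, invFun := fun x => ⟨x.1.1, ?_⟩,
            left_inv := fun x => rfl, right_inv := fun x => rfl, map_mul' := fun x y => rfl }⟩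
  · rw [Subgroup.mem_comap, (MonoidHom.mem_ker).1 x.2]
    exact K.one_mem
  · exact MonoidHom.mem_ker.2 (Subtype.ext (MonoidHom.mem_ker.1 x.2))
  · exact MonoidHom.mem_ker.2 (congrArg Subtype.val (MonoidHom.mem_ker.1 x.2))

theorem yy_ext {Q : Type} [Group Q] (h : YY Q) :
    ∀ (G : Type) [Group G] (f : G →* Q), Function.Surjective f → YY f.ker → YY G := by
  induction h with
  | triv hs =>
    intro G _ f hf hk
    have h1 : f.ker = ⊤ := by
      ext x
      simp only [Subgroup.mem_top, iff_true, MonoidHom.mem_ker]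
      exact Subsingleton.elim _ _
    rw [h1] at hk
    exact YY.iso Subgroup.topEquiv hk
  | iso e _ ih =>
    intro G _ f hf hk
    refine ih G (e.symm.toMonoidHom.comp f) (e.symm.surjective.comp hf) ?_
    have h1 : (e.symm.toMonoidHom.comp f).ker = f.ker := by
      ext x
      simp [MonoidHom.mem_ker]
    rw [h1]
    exact hk
  | directed S hne hd hS _ ih =>
    intro G _ f hf hk
    refine YY.directed ((fun K => Subgroup.comap f K) '' S) (hne.image _) ?_ ?_ ?_
    · rintro _ ⟨K, hK, rfl⟩ _ ⟨K', hK', rfl⟩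
      obtain ⟨K'', h1, h2, h3⟩ := hd K hK K' hK'
      exact ⟨_, ⟨K'', h1, rfl⟩, Subgroup.comap_mono h2, Subgroup.comap_mono h3⟩
    · intro g
      obtain ⟨K, hK, hg⟩ := hS (f g)
      exact ⟨_, ⟨K, hK, rfl⟩, hg⟩
    · rintro _ ⟨K, hK, rfl⟩
      obtain ⟨e⟩ := resHom_ker f K
      exact ih K hK _ (resHom f K) (resHom_surj f hf K) (YY.iso e hk)
  | vab N _ hN ih =>
    intro G _ f hf hk
    obtain ⟨e⟩ := resHom_ker f N
    refine YY.vab (N.comap f) (ih _ (resHom f N) (resHom_surj f hf N) (YY.iso e hk)) ?_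
    refine vab_inj (QuotientGroup.map (N.comap f) N f le_rfl) ?_ hN
    rw [injective_iff_map_eq_one]
    intro x
    obtain ⟨y, rfl⟩ := QuotientGroup.mk_surjective x
    intro hy
    rw [QuotientGroup.map_mk] at hy
    have h1 : f y ∈ N := (QuotientGroup.eq_one_iff (f y)).1 hy
    exact (QuotientGroup.eq_one_iff y).2 h1

theorem yy_vab {G : Type} [Group G] (h : VAb G) : YY G :=
  YY.vab (⊥ : Subgroup G) (YY.triv inferInstance)
    (vab_surj (QuotientGroup.mk' ⊥) (QuotientGroup.mk'_surjective _) h)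

theorem yy_ab {G : Type} [Group G] (h : ∀ x y : G, x * y = y * x) : YY G := by
  refine YY.directed {K : Subgroup G | K.FG} ⟨⊥, Subgroup.FG.bot⟩ ?_ ?_ ?_
  · intro K hK K' hK'
    exact ⟨K ⊔ K', Subgroup.FG.sup hK hK', le_sup_left, le_sup_right⟩
  · intro g
    refine ⟨Subgroup.zpowers g, ⟨{g}, ?_⟩, Subgroup.mem_zpowers g⟩
    rw [Finset.coe_singleton, Subgroup.zpowers_eq_closure]
  · intro K hK
    exact yy_vab (vab_comm (fun x y => Subtype.ext (h _ _)) ((Group.fg_iff_subgroup_fg K).2 hK))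

theorem yy_of_eam {G : Type} [Group G] (h : EAm G) : YY G := by
  induction h with
  | fin h => exact yy_vab (vab_finite h)
  | ab h => exact yy_ab h
  | sub f hf _ ih => exact yy_sub ih _ f hf
  | quot f hf _ ih => exact yy_quot ih _ f hf
  | ext N _ _ ih1 ih2 =>
    refine yy_ext ih2 _ (QuotientGroup.mk' N) (QuotientGroup.mk'_surjective N) ?_
    rw [QuotientGroup.ker_mk']
    exact ih1
  | directed S hne hd hS _ ih => exact YY.directed S hne hd hS ih

end Pool.Agent.FH
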