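import Pool.Agent.Lib.MP_8f66f0_al_FH.VB

/-! All torsion-free elementary amenable groups are in every class which satisfies `ClosedV`. -/

set_option autoImplicit false

namespace Pool.Agent.FH

/-- The relative form: for all groups `Q'` with a subgroup of finite index which embeds in a power
of `Q`, a group over `Q'` is in the class if the preimages of the finite subgroups are. -/
def PP (C : (G : Type) → [Group G] → Prop) (Q : Type) [Group Q] : Prop :=
  ∀ (Q' : Type) [Group Q'] (Q₀ : Subgroup Q') (k : ℕ) (f : Q₀ →* (Fin k → Q)),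
    Q₀.FiniteIndex → Function.Injective f → ∀ (G : Type) [Group G] (θ : G →* Q'),
      (∀ U : Subgroup G, Finite (U.map θ) → C U) → C G

theorem TF.sub {H : Type} [Group H] (h : TF H) (U : Subgroup H) : TF U := fun g n hn hg =>
  Subtype.ext (h g.1 n hn (by simpa using congrArg Subtype.val hg))

theorem TF.subsingleton {H : Type} [Group H] (h : TF H) [Finite H] : Subsingleton H := by
  refine ⟨fun a b => ?_⟩
  have h1 : ∀ a : H, a = 1 := fun a => h a (orderOf a) (orderOf_pos a) (pow_orderOf_eq_one a)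
  rw [h1 a, h1 b]

theorem exists_mem_all {G : Type} [Group G] (S : Set (Subgroup G)) (hne : S.Nonempty)
    (hd : DirectedOn (· ≤ ·) S) (hS : ∀ g : G, ∃ K ∈ S, g ∈ K) (T : Finset G) :
    ∃ K ∈ S, ∀ g ∈ T, g ∈ K := by
  classical
  induction T using Finset.induction_on with
  | empty =>
    obtain ⟨K, hK⟩ := hne
    exact ⟨K, hK, by simp⟩
  | insert a T _ ih =>
    obtain ⟨K, hK, h1⟩ := ih
    obtain ⟨K', hK', h2⟩ := hS a
    obtain ⟨K'', h3, h4, h5⟩ := hd K hK K' hK'
    refine ⟨K'', h3, fun g hg => ?_⟩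
    rcases Finset.mem_insert.1 hg with rfl | hg
    · exact h5 h2
    · exact h4 (h1 g hg)

section Vab

variable {G H : Type} [Group G] [Group H] (N : Subgroup G) [N.Normal] (H₁ : Subgroup H)
  [H₁.Normal] {k : ℕ} (f : H₁ →* (Fin k → G))

/-- The part of `H₁` which is mapped to the power of `N`. -/
def MM : Subgroup H := ((Subgroup.pi Set.univ fun _ : Fin k => N).comap f).map H₁.subtype

omit [N.Normal] [H₁.Normal] in
theorem mem_MM {x : H} : x ∈ MM N H₁ f ↔ ∃ h : x ∈ H₁, ∀ i, f ⟨x, h⟩ i ∈ N := by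
  constructor
  · rintro ⟨y, hy, rfl⟩
    exact ⟨y.2, fun i => hy i trivial⟩
  · rintro ⟨h, hx⟩
    exact ⟨⟨x, h⟩, fun i _ => hx i, rfl⟩

/-- Conjugation followed by the map to the power of `G / N`. -/
noncomputable def psi : H₁ →* (H ⧸ H₁ → Fin k → G ⧸ N) where
  toFun x q i := QuotientGroup.mk' N
    (f ⟨q.out⁻¹ * x.1 * q.out, by
      simpa using (inferInstance : H₁.Normal).conj_mem x.1 x.2 q.out⁻¹⟩ i)
  map_one' := by
    funext q i
    have h1 : (⟨q.out⁻¹ * (1 : H₁).1 * q.out, by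
      simpa using (inferInstance : H₁.Normal).conj_mem (1 : H₁).1 (1 : H₁).2 q.out⁻¹⟩ : H₁) = 1 :=
      Subtype.ext (by simp)
    rw [h1, map_one]
    rfl
  map_mul' x y := by
    funext q i
    have h1 : (⟨q.out⁻¹ * (x * y).1 * q.out, by
      simpa using (inferInstance : H₁.Normal).conj_mem (x * y).1 (x * y).2 q.out⁻¹⟩ : H₁) =
      ⟨q.out⁻¹ * x.1 * q.out, by
        simpa using (inferInstance : H₁.Normal).conj_mem x.1 x.2 q.out⁻¹⟩ *
      ⟨q.out⁻¹ * y.1 * q.out, by
        simpa using (inferInstance : H₁.Normal).conj_mem y.1 y.2 q.out⁻¹⟩ :=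
      Subtype.ext (by simp [mul_assoc])
    rw [h1, map_mul]
    simp

theorem mem_core_of_psi (x : H₁) (hx : psi N H₁ f x = 1) : x.1 ∈ (MM N H₁ f).normalCore := by
  have key : ∀ q : H ⧸ H₁, q.out⁻¹ * x.1 * q.out ∈ MM N H₁ f := by
    intro q
    rw [mem_MM]
    refine ⟨by simpa using (inferInstance : H₁.Normal).conj_mem x.1 x.2 q.out⁻¹, fun i => ?_⟩
    have h1 := congrFun (congrFun hx q) i
    exact (QuotientGroup.eq_one_iff _).1 h1
  have hn : ∀ y ∈ H₁, ∀ z ∈ MM N H₁ f, y * z * y⁻¹ ∈ MM N H₁ f := by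
    intro y hy z hz
    rw [mem_MM] at hz ⊢
    obtain ⟨h1, h2⟩ := hz
    refine ⟨H₁.mul_mem (H₁.mul_mem hy h1) (H₁.inv_mem hy), fun i => ?_⟩
    have h3 : (⟨y * z * y⁻¹, H₁.mul_mem (H₁.mul_mem hy h1) (H₁.inv_mem hy)⟩ : H₁) =
      ⟨y, hy⟩ * ⟨z, h1⟩ * ⟨y, hy⟩⁻¹ := Subtype.ext rfl
    rw [h3, map_mul, map_mul, map_inv]
    exact (inferInstance : N.Normal).conj_mem _ (h2 i) _
  intro b
  -- `b⁻¹ = q.out * y`
  obtain ⟨y, hy⟩ := QuotientGroup.mk_out_eq_mul H₁ b⁻¹
  have h1 := hn y.1 y.2 _ (key ((b⁻¹ : H) : H ⧸ H₁))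
  rw [hy] at h1
  simpa [mul_assoc] using h1

theorem vab_core [H₁.FiniteIndex] (hN : VAb (G ⧸ N)) : VAb (H ⧸ (MM N H₁ f).normalCore) := by
  have h1 : VAb (H ⧸ H₁ → Fin k → G ⧸ N) := vab_pi _ fun _ => vab_pi _ fun _ => hN
  have h2 : VAb (H₁ ⧸ (psi N H₁ f).ker) :=
    vab_inj (QuotientGroup.kerLift (psi N H₁ f)) (QuotientGroup.kerLift_injective _) h1
  have h3 : VAb (H₁.map (QuotientGroup.mk' (MM N H₁ f).normalCore)) := by
    refine vab_surj (QuotientGroup.lift (psi N H₁ f).ker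
      ((QuotientGroup.mk' (MM N H₁ f).normalCore).subgroupMap H₁) ?_) ?_ h2
    · intro x hx
      refine Subtype.ext ?_
      exact (QuotientGroup.eq_one_iff _).2 (mem_core_of_psi N H₁ f x (MonoidHom.mem_ker.1 hx))
    · intro y
      obtain ⟨x, hx⟩ := (QuotientGroup.mk' (MM N H₁ f).normalCore).subgroupMap_surjective H₁ y
      exact ⟨(x : H₁ ⧸ (psi N H₁ f).ker), hx⟩
  refine vab_fi _ ⟨?_⟩ h3
  have h4 := Subgroup.index_map_dvd H₁
    (QuotientGroup.mk'_surjective (MM N H₁ f).normalCore)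
  exact fun h0 => (inferInstance : H₁.FiniteIndex).index_ne_zero
    (Nat.eq_zero_of_zero_dvd (h0 ▸ h4))

end Vab

theorem finite_map_map {G Q : Type} [Group G] [Group Q] (θ : G →* Q) (U : Subgroup G)
    (V : Subgroup U) (Q' : Subgroup Q) (θ' : U →* Q') (hθ : ∀ x, (θ' x : Q) = θ x)
    (h : Finite (V.map θ')) : Finite ((V.map U.subtype).map θ) := by
  have h1 : (V.map U.subtype).map θ = (V.map θ').map Q'.subtype := by
    ext x
    constructor
    · rintro ⟨_, ⟨y, hy, rfl⟩, rfl⟩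
      exact ⟨θ' y, ⟨y, hy, rfl⟩, hθ y⟩
    · rintro ⟨_, ⟨y, hy, rfl⟩, rfl⟩
      exact ⟨y.1, ⟨y, hy, rfl⟩, (hθ y).symm⟩
  rw [h1]
  exact Finite.of_surjective _ (Q'.subtype.subgroupMap_surjective (V.map θ'))

theorem finiteIndex_of_finite_map {G Q : Type} [Group G] [Group Q] (θ : G →* Q)
    (L : Subgroup Q) [L.Normal] (U : Subgroup G)
    (h : Finite (U.map ((QuotientGroup.mk' L).comp θ))) : (L.subgroupOf (U.map θ)).FiniteIndex := by
  let g : U.map θ →* Q ⧸ L := (QuotientGroup.mk' L).comp (U.map θ).subtype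
  have h1 : g.ker = L.subgroupOf (U.map θ) := by
    ext x
    rw [MonoidHom.mem_ker, Subgroup.mem_subgroupOf]
    exact QuotientGroup.eq_one_iff _
  have h2 : Finite g.range := by
    have h3 : (g.range : Set (Q ⧸ L)) ⊆ (U.map ((QuotientGroup.mk' L).comp θ) : Set (Q ⧸ L)) := by
      rintro _ ⟨⟨_, ⟨y, hy, rfl⟩⟩, rfl⟩
      exact ⟨y, hy, rfl⟩
    exact Set.Finite.subset (Set.toFinite _) h3
  rw [← h1]
  infer_instance

theorem pp_of_yy {C : (G : Type) → [Group G] → Prop} (hC : ClosedV C) {Q : Type} [Group Q]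
    (h : YY Q) : PP C Q := by
  induction h with
  | triv hs =>
    intro Q' _ Q₀ k f hf hinj G _ θ hU
    have h1 : Subsingleton Q₀ := ⟨fun a b => hinj (Subsingleton.elim _ _)⟩
    have h3 : Finite Q' := by
      have := hf
      rw [Subgroup.finite_iff_finite_and_finiteIndex (H := Q₀)]
      exact ⟨inferInstance, hf⟩
    exact hC.iso _ _ Subgroup.topEquiv (hU ⊤ inferInstance)
  | iso e _ ih =>
    intro Q' _ Q₀ k f hf hinj
    refine ih Q' Q₀ k ((MonoidHom.pi fun i => e.symm.toMonoidHom.comp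
      (Pi.evalMonoidHom _ i)).comp f) hf ?_
    intro x y hxy
    refine hinj (funext fun i => e.symm.injective ?_)
    exact congrFun hxy i
  | directed S hne hd hS _ ih =>
    intro Q' _ Q₀ k f hf hinj G _ θ hU
    refine hC.directed G ((fun K => Subgroup.comap θ K) '' {K : Subgroup Q' | K.FG})
      ⟨_, ⟨⊥, Subgroup.FG.bot, rfl⟩⟩ ?_ ?_ ?_
    · rintro _ ⟨K, hK, rfl⟩ _ ⟨K', hK', rfl⟩
      exact ⟨_, ⟨K ⊔ K', Subgroup.FG.sup hK hK', rfl⟩, Subgroup.comap_mono le_sup_left,
        Subgroup.comap_mono le_sup_right⟩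
    · intro g
      refine ⟨_, ⟨Subgroup.zpowers (θ g), ⟨{θ g}, ?_⟩, rfl⟩, Subgroup.mem_zpowers (θ g)⟩
      rw [Finset.coe_singleton, Subgroup.zpowers_eq_closure]
    · rintro _ ⟨U, hUfg, rfl⟩
      have h1 : Group.FG U := (Group.fg_iff_subgroup_fg U).2 hUfg
      have h2 : Group.FG (Q₀.subgroupOf U) := Subgroup.fg_of_index_ne_zero _
      obtain ⟨T, hT⟩ := Group.fg_def.1 h2
      let j : Q₀.subgroupOf U →* Q₀ :=
        (U.subtype.comp (Q₀.subgroupOf U).subtype).codRestrict Q₀ fun x => x.2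
      classical
      obtain ⟨K, hK, h3⟩ := exists_mem_all S hne hd hS
        (T.biUnion fun t => Finset.univ.image fun i => f (j t) i)
      have h4 : ∀ x : Q₀.subgroupOf U, ∀ i, f (j x) i ∈ K := by
        intro x i
        have h5 : x ∈ (Subgroup.closure (T : Set (Q₀.subgroupOf U))) := by
          rw [hT]
          trivial
        have h6 : Subgroup.closure (T : Set (Q₀.subgroupOf U)) ≤
            K.comap ((Pi.evalMonoidHom _ i).comp (f.comp j)) := by
          rw [Subgroup.closure_le]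
          intro t htT
          exact h3 _ (Finset.mem_biUnion.2 ⟨t, htT, Finset.mem_image.2 ⟨i, Finset.mem_univ _, rfl⟩⟩)
        exact h6 h5
      let g : Q₀.subgroupOf U →* (Fin k → K) := MonoidHom.pi fun i =>
        ((Pi.evalMonoidHom _ i).comp (f.comp j)).codRestrict K fun x => h4 x i
      refine ih K hK U (Q₀.subgroupOf U) k g inferInstance ?_ (U.comap θ) (resHom θ U) ?_
      · intro x y hxy
        have h7 : f (j x) = f (j y) := funext fun i => congrArg Subtype.val (congrFun hxy i)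
        have h8 : (j x).1 = (j y).1 := congrArg Subtype.val (hinj h7)
        exact Subtype.ext (Subtype.ext h8)
      · intro V hV
        exact hC.iso _ _ (V.equivMapOfInjective _ (U.comap θ).subtype_injective).symm
          (hU _ (finite_map_map θ _ V U (resHom θ U) (fun x => rfl) hV))
  | vab N _ hN ih =>
    intro Q' _ Q₀ k f hf hinj G _ θ hU
    let H₁ := Q₀.normalCore
    let f₁ : H₁ →* (Fin k → _) := f.comp (Subgroup.inclusion Q₀.normalCore_le)
    have hinj₁ : Function.Injective f₁ :=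
      hinj.comp (Subgroup.inclusion_injective Q₀.normalCore_le)
    have h1 : H₁.FiniteIndex := Subgroup.finiteIndex_normalCore Q₀
    refine hC.vab G (Q' ⧸ (MM N H₁ f₁).normalCore) ((QuotientGroup.mk' _).comp θ)
      (vab_core N H₁ f₁ hN) ?_
    intro U hUf
    have h5 := finiteIndex_of_finite_map θ (MM N H₁ f₁).normalCore U hUf
    have h2 : ∀ x : (MM N H₁ f₁).normalCore.subgroupOf (U.map θ),
        (x.1.1 : Q') ∈ MM N H₁ f₁ := fun x => (MM N H₁ f₁).normalCore_le x.2
    have h3 : ∀ x : (MM N H₁ f₁).normalCore.subgroupOf (U.map θ), (x.1.1 : Q') ∈ H₁ := fun x =>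
      ((mem_MM N H₁ f₁).1 (h2 x)).1
    let j : (MM N H₁ f₁).normalCore.subgroupOf (U.map θ) →* H₁ :=
      ((U.map θ).subtype.comp ((MM N H₁ f₁).normalCore.subgroupOf (U.map θ)).subtype).codRestrict
        H₁ h3
    have h4 : ∀ x : (MM N H₁ f₁).normalCore.subgroupOf (U.map θ), ∀ i, f₁ (j x) i ∈ N := fun x =>
      ((mem_MM N H₁ f₁).1 (h2 x)).2
    let g : (MM N H₁ f₁).normalCore.subgroupOf (U.map θ) →* (Fin k → N) := MonoidHom.pi fun i =>
      ((Pi.evalMonoidHom _ i).comp (f₁.comp j)).codRestrict N fun x => h4 x i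
    refine ih (U.map θ) ((MM N H₁ f₁).normalCore.subgroupOf (U.map θ)) k g h5 ?_ U
      (θ.subgroupMap U) ?_
    · intro x y hxy
      have h7 : f₁ (j x) = f₁ (j y) := funext fun i => congrArg Subtype.val (congrFun hxy i)
      have h8 : (j x).1 = (j y).1 := congrArg Subtype.val (hinj₁ h7)
      exact Subtype.ext (Subtype.ext h8)
    · intro V hV
      exact hC.iso _ _ (V.equivMapOfInjective _ U.subtype_injective).symm
        (hU _ (finite_map_map θ _ V (U.map θ) (θ.subgroupMap U) (fun x => rfl) hV))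

/-- A group over an elementary amenable group is in the class if the preimages of the finite
subgroups are in the class. -/
theorem c_of_rel {C : (G : Type) → [Group G] → Prop} (hC : ClosedV C) {Q : Type} [Group Q]
    (hQ : EAm Q) {G : Type} [Group G] (θ : G →* Q)
    (h : ∀ U : Subgroup G, Finite (U.map θ) → C U) : C G := by
  refine pp_of_yy hC (yy_of_eam hQ) Q ⊤ 1 (MonoidHom.pi fun _ => (⊤ : Subgroup Q).subtype)
    inferInstance ?_ G θ h
  intro x y hxy
  exact Subtype.ext (congrFun hxy 0)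

/-- All torsion-free elementary amenable groups are in the class. -/
theorem c_of_eam {C : (G : Type) → [Group G] → Prop} (hC : ClosedV C) {G : Type} [Group G]
    (h : EAm G) (ht : TF G) : C G := by
  refine c_of_rel hC h (MonoidHom.id G) fun U hU => ?_
  rw [Subgroup.map_id] at hU
  exact hC.triv U (ht.sub U).subsingleton

end Pool.Agent.FH
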