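import Mathlib

/-! Elementary amenable groups and the class used in the proof. -/

set_option autoImplicit false

namespace Pool.Agent.FH

/-- Elementary amenable groups: the least class of groups which contains all finite and all abelian
groups and is closed under subgroups, quotients, extensions and directed unions. -/
inductive EAm : (G : Type) → [Group G] → Prop
  | fin {G : Type} [Group G] : Finite G → EAm G
  | ab {G : Type} [Group G] : (∀ x y : G, x * y = y * x) → EAm G
  | sub {G H : Type} [Group G] [Group H] (f : H →* G) : Function.Injective f → EAm G → EAm H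
  | quot {G H : Type} [Group G] [Group H] (f : G →* H) : Function.Surjective f → EAm G → EAm H
  | ext {G : Type} [Group G] (N : Subgroup G) [N.Normal] : EAm N → EAm (G ⧸ N) → EAm G
  | directed {G : Type} [Group G] (S : Set (Subgroup G)) : S.Nonempty →
      DirectedOn (· ≤ ·) S → (∀ g : G, ∃ K ∈ S, g ∈ K) → (∀ K ∈ S, EAm K) → EAm G

/-- Groups with a finitely generated abelian subgroup of finite index. -/
def VAb (Q : Type) [Group Q] : Prop :=
  ∃ A : Subgroup Q, A.FiniteIndex ∧ A.FG ∧ ∀ x ∈ A, ∀ y ∈ A, x * y = y * x

/-- The least class which contains the trivial group and is closed under isomorphism, directed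
unions and extensions with quotients in `VAb`. -/
inductive YY : (G : Type) → [Group G] → Prop
  | triv {G : Type} [Group G] : Subsingleton G → YY G
  | iso {G H : Type} [Group G] [Group H] (e : G ≃* H) : YY G → YY H
  | directed {G : Type} [Group G] (S : Set (Subgroup G)) : S.Nonempty →
      DirectedOn (· ≤ ·) S → (∀ g : G, ∃ K ∈ S, g ∈ K) → (∀ K ∈ S, YY K) → YY G
  | vab {G : Type} [Group G] (N : Subgroup G) [N.Normal] : YY N → VAb (G ⧸ N) → YY G

/-- No elements of finite order. -/
def TF (G : Type) [Group G] : Prop := ∀ g : G, ∀ n : ℕ, 0 < n → g ^ n = 1 → g = 1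

/-- The closure properties of a class of groups which are used. -/
structure ClosedV (C : (G : Type) → [Group G] → Prop) : Prop where
  triv : ∀ (G : Type) [Group G], Subsingleton G → C G
  iso : ∀ (G H : Type) [Group G] [Group H], (G ≃* H) → C G → C H
  directed : ∀ (G : Type) [Group G] (S : Set (Subgroup G)), S.Nonempty →
      DirectedOn (· ≤ ·) S → (∀ g : G, ∃ K ∈ S, g ∈ K) → (∀ K ∈ S, C K) → C G
  vab : ∀ (G Q : Type) [Group G] [Group Q] (θ : G →* Q), VAb Q →
      (∀ U : Subgroup G, Finite (U.map θ) → C U) → C G

end Pool.Agent.FH
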